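import Pool.Agent.Lib.MP_446a91_nt.Rk.D0

/-!
Abelian groups of rank at most one.
-/

namespace Pool.Agent.Lib.MP_446a91_nt.Rk

open Matrix Filter Topology Pool.Agent.Lib.MP_446a91_nt.Sou

set_option linter.unusedSectionVars false

noncomputable section

variable {M M' : Type} [AddCommGroup M] [AddCommGroup M']


/-- `ℝ` is an injective `ℤ`-module (`Module.Baer.of_divisible`); extend the two coordinates from the
span of the images in `M ⧸ J`. -/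
theorem exists_dual (J : Submodule ℤ M) (a b : M)
    (h : ∀ s t : ℤ, s • a + t • b ∈ J → s = 0 ∧ t = 0) :
    ∃ f g : M →ₗ[ℤ] ℝ, (∀ x ∈ J, f x = 0) ∧ (∀ x ∈ J, g x = 0) ∧
      f a = 1 ∧ f b = 0 ∧ g a = 0 ∧ g b = 1 := by
  let i : ℤ × ℤ →ₗ[ℤ] M ⧸ J :=
    J.mkQ ∘ₗ (LinearMap.toSpanSingleton ℤ M a).coprod (LinearMap.toSpanSingleton ℤ M b)
  have hi : Function.Injective i := (injective_iff_map_eq_zero i).2 fun p hp =>
    Prod.ext_iff.2 (h p.1 p.2 ((Submodule.Quotient.mk_eq_zero J).1 hp))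
  have ha : J.mkQ a = i (1, 0) := by simp [i]
  have hb : J.mkQ b = i (0, 1) := by simp [i]
  have h0 : ∀ f : M ⧸ J →ₗ[ℤ] ℝ, ∀ x ∈ J, (f ∘ₗ J.mkQ) x = 0 := fun f x hx => by
    rw [LinearMap.comp_apply, Submodule.mkQ_apply, (Submodule.Quotient.mk_eq_zero J).2 hx, map_zero]
  obtain ⟨f, hf⟩ := (Module.Baer.of_divisible ℝ).extension_property i hi
    (LinearMap.toSpanSingleton ℤ ℝ 1 ∘ₗ LinearMap.fst ℤ ℤ ℤ)
  obtain ⟨g, hg⟩ := (Module.Baer.of_divisible ℝ).extension_property i hi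
    (LinearMap.toSpanSingleton ℤ ℝ 1 ∘ₗ LinearMap.snd ℤ ℤ ℤ)
  refine ⟨f ∘ₗ J.mkQ, g ∘ₗ J.mkQ, h0 f, h0 g, ?_, ?_, ?_, ?_⟩
  · rw [LinearMap.comp_apply, ha, ← LinearMap.comp_apply, hf]
    simp
  · rw [LinearMap.comp_apply, hb, ← LinearMap.comp_apply, hf]
    simp
  · rw [LinearMap.comp_apply, ha, ← LinearMap.comp_apply, hg]
    simp
  · rw [LinearMap.comp_apply, hb, ← LinearMap.comp_apply, hg]
    simp

theorem rank_le_one (Z : Submodule ℤ M) (B : Submodule ℤ M) (F : Finset M) (hF : ∀ z ∈ F, z ∈ Z)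
    (hZ : ∀ z ∈ Z, z ∈ Submodule.span ℤ (F : Set M) ⊔ B) (J : Submodule ℤ M') (ξ : M →ₗ[ℤ] M')
    (hB : ∀ z ∈ B, ξ z ∈ J)
    (h : ∀ a ∈ Z, ∀ b ∈ Z, ∃ s t : ℤ, (s ≠ 0 ∨ t ≠ 0) ∧ s • ξ a + t • ξ b ∈ J) {x : M}
    (hx : x ∈ Z) : (∃ c : ℤ, c ≠ 0 ∧ c • ξ x ∈ J) ∨
      ∃ c : ℤ, c ≠ 0 ∧ ∀ y ∈ Z, ∃ a : ℤ, c • ξ y - a • ξ x ∈ J := by
  classical
  refine or_iff_not_imp_left.2 fun hn => ?_
  have h1 : ∀ z : F, ∃ s : ℤ, s ≠ 0 ∧ s • ξ z ∈ J ⊔ Submodule.span ℤ {ξ x} := fun z => by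
    obtain ⟨s, t, hst, hJ⟩ := h z (hF z z.2) x hx
    refine ⟨s, fun hs => hn ⟨t, hst.resolve_left (not_not.2 hs), by simpa [hs] using hJ⟩, ?_⟩
    simpa using Submodule.sub_mem _ (Submodule.mem_sup_left hJ) (Submodule.mem_sup_right
      (Submodule.smul_mem _ t (Submodule.mem_span_singleton_self (ξ x))))
  choose s hs0 hs using h1
  refine ⟨∏ z, s z, Finset.prod_ne_zero_iff.2 fun z _ => hs0 z, fun y hy => ?_⟩
  have h2 : Submodule.span ℤ (F : Set M) ⊔ B ≤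
      (J ⊔ Submodule.span ℤ {ξ x}).comap ((∏ z, s z) • ξ) := by
    refine sup_le (Submodule.span_le.2 fun z hz => ?_) fun z hz =>
      Submodule.mem_sup_left (J.smul_mem _ (hB z hz))
    obtain ⟨d, hd⟩ := Finset.dvd_prod_of_mem s (Finset.mem_univ ⟨z, hz⟩)
    change (∏ z, s z) • ξ z ∈ J ⊔ Submodule.span ℤ {ξ x}
    rw [hd, mul_comm, mul_smul]
    exact Submodule.smul_mem _ d (hs ⟨z, hz⟩)
  obtain ⟨j, hj, w, hw, e⟩ := Submodule.mem_sup.1 (h2 (hZ y hy))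
  obtain ⟨a, rfl⟩ := Submodule.mem_span_singleton.1 hw
  exact ⟨a, by rwa [← LinearMap.smul_apply, ← e, add_sub_cancel_right]⟩

end

end Pool.Agent.Lib.MP_446a91_nt.Rk
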