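import Pool.Agent.Lib.MP_446a91_nt.Rk.D0

/-!
Positive forms: algebra.
-/

namespace Pool.Agent.Lib.MP_446a91_nt.Rk

open Matrix Filter Topology Pool.Agent.Lib.MP_446a91_nt.Sou

set_option linter.unusedSectionVars false

noncomputable section

variable {ι : Type} [Fintype ι] [DecidableEq ι]


theorem pos_iff {x : Matrix ι ι ℝ} : Pos x ↔ x.PosDef := by
  simp only [Pos, posDef_iff_dotProduct_mulVec, isHermitian_iff_isSymm, star_trivial]
  rfl

theorem Pos.isUnit_det {x : Matrix ι ι ℝ} (h : Pos x) : IsUnit x.det := by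
  exact (pos_iff.1 h).det_pos.ne'.isUnit

theorem Pos.inv {x : Matrix ι ι ℝ} (h : Pos x) : Pos x⁻¹ := by
  exact pos_iff.2 (pos_iff.1 h).inv

theorem Pos.nonneg {x : Matrix ι ι ℝ} (h : Pos x) (v : ι → ℝ) : 0 ≤ qf x v := by
  by_cases hv : v = 0
  · simp [hv, qf]
  · exact (h.2 v hv).le

theorem Pos.diag_pos {x : Matrix ι ι ℝ} (h : Pos x) (i : ι) : 0 < x i i := by
  exact (pos_iff.1 h).diag_pos

theorem qf_single (x : Matrix ι ι ℝ) (i : ι) : qf x (Pi.single i 1) = x i i := by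
  simp [qf]

theorem cj_diag (g x : Matrix ι ι ℝ) (i : ι) : cj g x i i = qf x (g i) := by
  rw [← qf_single (cj g x), qf_cj, single_one_vecMul]
  rfl

theorem qf_one (v : ι → ℝ) : qf (1 : Matrix ι ι ℝ) v = v ⬝ᵥ v := by
  rw [qf, one_mulVec]

theorem qf_transpose (x : Matrix ι ι ℝ) (v : ι → ℝ) : qf xᵀ v = qf x v := by
  rw [qf, qf, mulVec_transpose, dotProduct_comm, dotProduct_mulVec]

theorem cj_inv (g : GL ι ℝ) {x : Matrix ι ι ℝ} (h : Pos x) :
    (cj (g : Matrix ι ι ℝ) x)⁻¹ = cj ((g⁻¹ : GL ι ℝ) : Matrix ι ι ℝ)ᵀ x⁻¹ := by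
  simp [cj_apply, Matrix.mul_inv_rev, transpose_nonsing_inv, Matrix.mul_assoc]

theorem qf1_symm {x : Matrix ι ι ℝ} (h : xᵀ = x) (u v : ι → ℝ) : v ⬝ᵥ x *ᵥ u = u ⬝ᵥ x *ᵥ v := by
  rw [dotProduct_mulVec, ← mulVec_transpose, h, dotProduct_comm]

/-- Cauchy-Schwarz for the form `x`. -/
theorem Pos.cs {x : Matrix ι ι ℝ} (h : Pos x) (u v : ι → ℝ) :
    (u ⬝ᵥ x *ᵥ v) ^ 2 ≤ qf x u * qf x v := by
  have h1 := discrim_le_zero (a := qf x u) (b := 2 * (u ⬝ᵥ x *ᵥ v)) (c := qf x v) fun t => by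
    have := h.nonneg (t • u + v)
    simp only [qf, mulVec_add, mulVec_smul, add_dotProduct, dotProduct_add, smul_dotProduct,
      dotProduct_smul, smul_eq_mul, qf1_symm h.1 u v] at this ⊢
    linarith
  rw [discrim] at h1
  linarith

theorem qf1_inv {x : Matrix ι ι ℝ} (h : Pos x) (v : ι → ℝ) : x *ᵥ x⁻¹ *ᵥ v = v := by
  rw [mulVec_mulVec, mul_nonsing_inv _ h.isUnit_det, one_mulVec]

theorem qf1_inv' {x : Matrix ι ι ℝ} (h : Pos x) (v : ι → ℝ) : qf x (x⁻¹ *ᵥ v) = qf x⁻¹ v := by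
  rw [qf, qf1_inv h, dotProduct_comm, qf]

theorem qf1_div {a b : ℝ} (hb : 0 ≤ b) (h : a ^ 2 ≤ b * a) : a ≤ b := by
  by_contra! h1
  nlinarith

/-- Cauchy-Schwarz between the form and its dual (`v = x (x⁻¹ v)`). -/
theorem Pos.cs_dual {x : Matrix ι ι ℝ} (h : Pos x) (u v : ι → ℝ) :
    (u ⬝ᵥ v) ^ 2 ≤ qf x u * qf x⁻¹ v := by
  have := h.cs u (x⁻¹ *ᵥ v)
  rwa [qf1_inv h, qf1_inv' h] at this

/-- Inversion reverses the order: put `u = y⁻¹ v` in `cs_dual` for `x`. -/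
theorem qf_inv_le {x y : Matrix ι ι ℝ} (hx : Pos x) (hy : Pos y) {c : ℝ} (hc : 0 ≤ c)
    (h : ∀ v, qf x v ≤ c * qf y v) (v : ι → ℝ) : qf y⁻¹ v ≤ c * qf x⁻¹ v := by
  have h1 := hx.cs_dual (y⁻¹ *ᵥ v) v
  have h2 := mul_le_mul_of_nonneg_right (h (y⁻¹ *ᵥ v)) (hx.inv.nonneg v)
  rw [qf1_inv' hy] at h2
  rw [dotProduct_comm, ← qf] at h1
  exact qf1_div (mul_nonneg hc (hx.inv.nonneg v)) (by linarith)

/-- Polarisation: `4 E(u,w) = E(u+w) - E(u-w)`. -/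
theorem abs_entry_le {E x : Matrix ι ι ℝ} (hE : Eᵀ = E) {η : ℝ}
    (h : ∀ v, |qf E v| ≤ η * qf x v) (i j : ι) : |E i j| ≤ η * (x i i + x j j) / 2 := by
  have h1 := abs_le.1 (h (Pi.single i 1 + Pi.single j 1))
  have h2 := abs_le.1 (h (Pi.single i 1 - Pi.single j 1))
  have h3 : E j i = E i j := congrFun₂ hE i j
  simp only [qf, mulVec_add, mulVec_sub, add_dotProduct, dotProduct_add, sub_dotProduct,
    dotProduct_sub, mulVec_single_one, single_dotProduct, one_mul, col_apply, h3] at h1 h2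
  exact abs_le.2 ⟨by linarith [h1.1, h2.2], by linarith [h1.2, h2.1]⟩

theorem qf_le_trace {x : Matrix ι ι ℝ} (h : Pos x) (v : ι → ℝ) :
    qf x v ≤ (∑ i, x i i) * v ⬝ᵥ v := by
  have h0 := (x1 : PX ι).2.nonneg v
  have h1 := (x1 : PX ι).2.cs v (x *ᵥ v)
  have h2 : (x *ᵥ v) ⬝ᵥ (x *ᵥ v) ≤ (∑ i, x i i) * qf x v := by
    rw [Finset.sum_mul]
    exact Finset.sum_le_sum fun i _ => by simpa [qf_single, sq] using h.cs (Pi.single i 1) v
  simp only [x1, qf_one, one_mulVec] at h0 h1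
  exact qf1_div (mul_nonneg (Finset.sum_nonneg fun i _ => (h.diag_pos i).le) h0)
    (h1.trans ((mul_le_mul_of_nonneg_left h2 h0).trans_eq (by ring)))

theorem abs_qf_le (b : Matrix ι ι ℝ) (v : ι → ℝ) :
    |qf b v| ≤ (∑ i, ∑ j, |b i j|) * v ⬝ᵥ v := by
  have h1 : ∀ i, v i * v i ≤ v ⬝ᵥ v := fun i =>
    Finset.single_le_sum (fun j _ => mul_self_nonneg (v j)) (Finset.mem_univ i)
  rw [qf, dotProduct, Finset.sum_mul]
  refine (Finset.abs_sum_le_sum_abs _ _).trans (Finset.sum_le_sum fun i _ => ?_)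
  rw [mulVec, dotProduct, Finset.mul_sum, Finset.sum_mul]
  refine (Finset.abs_sum_le_sum_abs _ _).trans (Finset.sum_le_sum fun j _ => ?_)
  rw [mul_left_comm, abs_mul]
  exact mul_le_mul_of_nonneg_left (abs_le.2
    ⟨by nlinarith [h1 i, h1 j, sq_nonneg (v i + v j)],
      by nlinarith [h1 i, h1 j, sq_nonneg (v i - v j)]⟩) (abs_nonneg _)

open scoped MatrixOrder in
/-- Every positive form is `g gᵀ`. -/
theorem exists_sec (x : PX ι) : ∃ g : GL ι ℝ, g • x1 = x := by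
  obtain ⟨B, ⟨g, rfl⟩, hB⟩ := CStarAlgebra.isStrictlyPositive_iff_eq_mul_star_self.1
    (pos_iff.1 x.2).isStrictlyPositive
  refine ⟨g, Subtype.ext ?_⟩
  rw [hB, star_eq_conjTranspose, conjTranspose_eq_transpose_of_trivial]
  simp [smul_val, cj_apply, x1]

theorem cR_val (γ : GL ι ℤ) : (cR γ : Matrix ι ι ℝ) = (γ : Matrix ι ι ℤ).map (Int.cast : ℤ → ℝ) :=
  rfl

theorem smul_mid (g : GL ι ℝ) (x y : PX ι) : g • mid x y = mid (g • x) (g • y) := by
  refine Subtype.ext ?_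
  simp only [smul_val, mid, map_smul, map_add]

theorem scalar_smul_val (t : ℝˣ) (x : PX ι) :
    (Matrix.GeneralLinearGroup.scalar ι t • x).1 = ((t : ℝ) ^ 2) • x.1 := by
  ext i j
  simp [smul_val, cj_apply, GeneralLinearGroup.scalar, sq]
  ring

theorem continuous_smul_x1 : Continuous fun g : GL ι ℝ => g • (x1 : PX ι) := by
  exact ((Units.continuous_val.matrix_mul continuous_const).matrix_mul
    Units.continuous_val.matrix_transpose).subtype_mk _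

theorem qf1_inj (a : GL ι ℤ) :
    Function.Injective fun (b : GL ι ℤ) (p : ι × ι) => (a⁻¹ * b : GL ι ℤ) p.1 p.2 :=
  fun _ _ e => mul_left_cancel (Units.ext (Matrix.ext fun i j => congrFun e (i, j)))

theorem qf1_mem {B : ℝ} {a b : GL ι ℤ} (h : Ent B a b) :
    (fun p : ι × ι => (a⁻¹ * b : GL ι ℤ) p.1 p.2) ∈
      Fintype.piFinset fun _ => Finset.Icc (-⌊B⌋₊ : ℤ) ⌊B⌋₊ :=
  Fintype.mem_piFinset.2 fun p => Finset.mem_Icc.2 (abs_le.1 (by
    have := h p.1 p.2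
    rw [← Int.cast_abs, ← Int.natCast_natAbs, Int.cast_natCast] at this
    rw [← Int.natCast_natAbs]
    exact Nat.cast_le.2 (Nat.le_floor this)))

/-- Finitely many integral matrices have bounded entries. -/
theorem finite_ent (B : ℝ) (a : GL ι ℤ) : {b | Ent B a b}.Finite := by
  exact ((Finset.finite_toSet _).preimage (qf1_inj a).injOn).subset fun _ h => qf1_mem h

theorem card_ent_le {B : ℝ} (hB : 0 ≤ B) (a : GL ι ℤ) (S : Finset (GL ι ℤ))
    (h : ∀ b ∈ S, Ent B a b) : (S.card : ℝ) ≤ (2 * B + 1) ^ (Fintype.card ι ^ 2) := by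
  have h1 := Finset.card_le_card_of_injOn _ (fun b hb => qf1_mem (h b hb)) (qf1_inj a).injOn
  have h2 : ((⌊B⌋₊ : ℤ) + 1 - -⌊B⌋₊).toNat = 2 * ⌊B⌋₊ + 1 := by omega
  rw [Fintype.card_piFinset, Finset.prod_const, Int.card_Icc, h2, Finset.card_univ,
    Fintype.card_prod, ← sq] at h1
  refine (Nat.cast_le.2 h1).trans ?_
  push_cast
  gcongr
  exact Nat.floor_le hB

end

end Pool.Agent.Lib.MP_446a91_nt.Rk
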