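import Pool.Agent.Lib.MP_446a91_nt.Rk.Tr
import Pool.Agent.Lib.MP_446a91_nt.Rk.Qf1

/-!
Hecke data. Lift `l` to an integral vector, divide by the gcd (prime to `r`), extend to a basis.
-/

namespace Pool.Agent.Lib.MP_446a91_nt.Rk

open Matrix Filter Topology Pool.Agent.Lib.MP_446a91_nt.Sou

set_option linter.unusedSectionVars false

noncomputable section

variable {ι : Type} [Fintype ι] [DecidableEq ι]

variable {r : ℕ}


theorem exists_hk [Nonempty ι] (hr : r.Prime) : Nonempty (Hk ι r) := by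
  have := Fact.mk hr
  obtain ⟨i₀⟩ := ‹Nonempty ι›
  have key : ∀ l : Lb ι r, ∃ (γ : GL ι ℤ) (c : ZMod r), c ≠ 0 ∧
      ∀ i, ((γ⁻¹ i i₀ : ℤ) : ZMod r) = c * l.1 i := by
    intro l
    obtain ⟨v, hv, hg⟩ := Finset.extract_gcd (s := Finset.univ) (fun i => ((l.1 i).cast : ℤ))
      Finset.univ_nonempty
    generalize Finset.univ.gcd (fun i => ((l.1 i).cast : ℤ)) = g at hv
    have h1 : ∀ i, l.1 i = (g : ZMod r) * v i := fun i => by
      rw [← Int.cast_mul, ← hv i (Finset.mem_univ i), ZMod.intCast_zmod_cast]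
    have h2 : (g : ZMod r) ≠ 0 := fun h => l.2 (funext fun i => by rw [h1, h, zero_mul]; rfl)
    obtain ⟨f, hf⟩ := exists_cov hg
    obtain ⟨γ, hγ⟩ := exists_gl (κ := Unit) (fun _ => i₀) (fun _ _ _ => rfl) (fun _ => v)
      (fun _ => f) fun _ _ => by simpa using hf
    refine ⟨γ⁻¹, (g : ZMod r)⁻¹, inv_ne_zero h2, fun i => ?_⟩
    have h3 : γ i i₀ = v i := by simpa using congrFun (hγ ()).1 i
    rw [inv_inv, h3, h1, inv_mul_cancel_left₀ h2]
  choose γ c hc h using key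
  exact ⟨⟨i₀, γ, c, hc, h⟩⟩

/-- Reduction modulo `r`. -/
def hk_red (r : ℕ) (g : GL ι ℤ) : Matrix ι ι (ZMod r) :=
  (g : Matrix ι ι ℤ).map (Int.castRingHom (ZMod r))

theorem hk_red_mul (g h : GL ι ℤ) (v : ι → ZMod r) :
    hk_red r (g * h) *ᵥ v = hk_red r g *ᵥ hk_red r h *ᵥ v := by
  rw [mulVec_mulVec, hk_red, Units.val_mul, Matrix.map_mul]
  rfl

theorem hk_red_cancel (g : GL ι ℤ) (v : ι → ZMod r) : hk_red r g *ᵥ hk_red r g⁻¹ *ᵥ v = v := by
  rw [← hk_red_mul, mul_inv_cancel, hk_red, Units.val_one, Matrix.map_one _ (map_zero _) (map_one _),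
    one_mulVec]

theorem hk_red_ne (g : GL ι ℤ) {v : ι → ZMod r} (hv : v ≠ 0) : hk_red r g⁻¹ *ᵥ v ≠ 0 := fun h =>
  hv (by rw [← hk_red_cancel g v, h, mulVec_zero])

theorem hk_col (H : Hk ι r) (l : Lb ι r) :
    hk_red r (H.γ l)⁻¹ *ᵥ Pi.single H.i₀ 1 = H.c l • l.1 := by
  funext i
  rw [mulVec_single_one]
  exact H.col l i

theorem hk_det (i₀ : ι) : (dg ℤ i₀ r).det = r := by
  simp [dg, det_diagonal, Finset.prod_ite_eq']

theorem hk_conj (hr : r ≠ 0) (i₀ : ι) (g : GL ι ℤ) (h : ∀ i, i ≠ i₀ → (r : ℤ) ∣ g i i₀) :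
    ∃ δ : GL ι ℤ, dg ℤ i₀ r * (g : Matrix ι ι ℤ) = (δ : Matrix ι ι ℤ) * dg ℤ i₀ r := by
  let M : Matrix ι ι ℤ := Matrix.of fun i j =>
    if j = i₀ then (if i = i₀ then g i j else g i j / r) else (if i = i₀ then (r : ℤ) else 1) * g i j
  have e : dg ℤ i₀ r * (g : Matrix ι ι ℤ) = M * dg ℤ i₀ r := by
    ext i j
    simp only [dg, diagonal_mul, mul_diagonal, M, of_apply]
    by_cases hj : j = i₀
    · subst hj
      by_cases hi : i = j
      · simp only [hi, if_true, mul_comm]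
      · simp only [hi, if_true, if_false, one_mul, Int.ediv_mul_cancel (h i hi)]
    · simp only [hj, if_false, mul_one]
  have hd : M.det = (g : Matrix ι ι ℤ).det := by
    have := congrArg Matrix.det e
    rw [det_mul, det_mul, hk_det, mul_comm] at this
    exact (mul_right_cancel₀ (Int.natCast_ne_zero.2 hr) this).symm
  exact ⟨Matrix.GeneralLinearGroup.mk'' M (hd ▸ (Matrix.GeneralLinearGroup.det g).isUnit), e⟩

/-- `σ l = δ⁻¹ l`; column `i₀` of `g = γ l * δ * (γ (σ l))⁻¹` is a multiple of `e i₀` modulo `r`, so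
`D g D⁻¹` is integral, of determinant `± 1`. -/
theorem Hk.perm (hr : r.Prime) (H : Hk ι r) (δ : GL ι ℤ) : ∃ σ : Lb ι r ≃ Lb ι r, ∀ l,
    ∃ δ' : GL ι ℤ, dg ℤ H.i₀ r * (H.γ l : Matrix ι ι ℤ) * (δ : Matrix ι ι ℤ) =
      (δ' : Matrix ι ι ℤ) * (dg ℤ H.i₀ r * (H.γ (σ l) : Matrix ι ι ℤ)) := by
  have := Fact.mk hr
  let σ : Lb ι r ≃ Lb ι r :=
    { toFun := fun l => ⟨hk_red r δ⁻¹ *ᵥ l.1, hk_red_ne δ l.2⟩
      invFun := fun l => ⟨hk_red r δ⁻¹⁻¹ *ᵥ l.1, hk_red_ne δ⁻¹ l.2⟩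
      left_inv := fun l => Subtype.ext (by simpa using hk_red_cancel δ l.1)
      right_inv := fun l => Subtype.ext (hk_red_cancel δ⁻¹ l.1) }
  refine ⟨σ, fun l => ?_⟩
  have h1 : H.c l • hk_red r (H.γ l) *ᵥ l.1 = Pi.single H.i₀ 1 := by
    rw [← mulVec_smul, ← hk_col, hk_red_cancel]
  have h2 : hk_red r (H.γ l * δ * (H.γ (σ l))⁻¹) *ᵥ Pi.single H.i₀ 1 =
      H.c (σ l) • hk_red r (H.γ l) *ᵥ l.1 := by
    rw [hk_red_mul, hk_red_mul, hk_col, mulVec_smul, mulVec_smul]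
    congr 2
    exact hk_red_cancel δ l.1
  obtain ⟨δ', h⟩ := hk_conj hr.ne_zero H.i₀ (H.γ l * δ * (H.γ (σ l))⁻¹) fun i hi => by
    have h3 := congrFun h1 i
    rw [Pi.single_eq_of_ne hi, Pi.smul_apply, smul_eq_mul] at h3
    have h4 := congrFun h2 i
    rw [Pi.smul_apply, (mul_eq_zero.1 h3).resolve_left (H.c_ne l), smul_zero,
      mulVec_single_one] at h4
    exact (ZMod.intCast_zmod_eq_zero_iff_dvd _ _).1 h4
  refine ⟨δ', ?_⟩
  rw [← Matrix.mul_assoc, ← h, Matrix.mul_assoc, Matrix.mul_assoc, ← Units.val_mul, ← Units.val_mul,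
    inv_mul_cancel_right]

theorem Hk.hR_val (H : Hk ι r) {R : Type} [CommRing R] {t : Rˣ} (ht : (t : R) = r) (l : Lb ι r) :
    (H.hR t l : Matrix ι ι R) =
      (dg ℤ H.i₀ r * (H.γ l : Matrix ι ι ℤ)).map (Int.cast : ℤ → R) := by
  ext i j
  simp only [Hk.hR, dgU, dg, Units.val_mul, diagonal_mul, map_apply, ht,
    Matrix.GeneralLinearGroup.map_apply, eq_intCast]
  split_ifs <;> simp

theorem Hk.perm_hR (hr : r.Prime) (H : Hk ι r) {R : Type} [CommRing R] {t : Rˣ} (ht : (t : R) = r)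
    (δ : GL ι ℤ) : ∃ σ : Lb ι r ≃ Lb ι r, ∀ l, ∃ δ' : GL ι ℤ,
      H.hR t l * Matrix.GeneralLinearGroup.map (Int.castRingHom R) δ =
        Matrix.GeneralLinearGroup.map (Int.castRingHom R) δ' * H.hR t (σ l) := by
  obtain ⟨σ, h⟩ := H.perm hr δ
  refine ⟨σ, fun l => ?_⟩
  obtain ⟨δ', h'⟩ := h l
  refine ⟨δ', Units.ext ?_⟩
  have h1 := congrArg (fun M : Matrix ι ι ℤ => M.map (Int.castRingHom R)) h'
  simp only [Matrix.map_mul (f := Int.castRingHom R) (L := dg ℤ H.i₀ r * _),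
    Matrix.map_mul (f := Int.castRingHom R) (L := (δ' : Matrix ι ι ℤ))] at h1
  rw [Units.val_mul, Units.val_mul, H.hR_val ht, H.hR_val ht]
  exact h1

theorem Hk.perm_Sg (hr : r.Prime) (H : Hk ι r) {t : ℝˣ} (ht : (t : ℝ) = r) :
    ∀ s ∈ (Sg : Subgroup (GL ι ℝ)), ∃ σ : Lb ι r ≃ Lb ι r, ∀ l,
      ∃ s' ∈ (Sg : Subgroup (GL ι ℝ)), H.hR t l * s = s' * H.hR t (σ l) := by
  let T : Subgroup (GL ι ℝ) :=
    { carrier := {s | ∃ σ : Lb ι r ≃ Lb ι r, ∀ l,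
        ∃ s' ∈ (Sg : Subgroup (GL ι ℝ)), H.hR t l * s = s' * H.hR t (σ l)}
      one_mem' := ⟨Equiv.refl _, fun l => ⟨1, one_mem _, by simp⟩⟩
      mul_mem' := by
        rintro a b ⟨σ, ha⟩ ⟨τ, hb⟩
        refine ⟨σ.trans τ, fun l => ?_⟩
        obtain ⟨a', ha', e⟩ := ha l
        obtain ⟨b', hb', e'⟩ := hb (σ l)
        exact ⟨a' * b', mul_mem ha' hb', by
          rw [← mul_assoc, e, mul_assoc, e', mul_assoc, Equiv.trans_apply]⟩
      inv_mem' := by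
        rintro a ⟨σ, ha⟩
        refine ⟨σ.symm, fun l => ?_⟩
        obtain ⟨a', ha', e⟩ := ha (σ.symm l)
        rw [Equiv.apply_symm_apply] at e
        exact ⟨a'⁻¹, inv_mem ha', by rw [mul_inv_eq_iff_eq_mul, mul_assoc, e, inv_mul_cancel_left]⟩ }
  have h : (Sg : Subgroup (GL ι ℝ)) ≤ T := by
    refine sup_le ?_ ?_
    · rintro _ ⟨δ, rfl⟩
      obtain ⟨σ, h⟩ := H.perm_hR hr ht δ
      refine ⟨σ, fun l => ?_⟩
      obtain ⟨δ', h'⟩ := h l
      exact ⟨cR δ', Subgroup.mem_sup_left ⟨δ', rfl⟩, h'⟩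
    · rintro _ ⟨u, rfl⟩
      exact ⟨Equiv.refl _, fun l => ⟨_, Subgroup.mem_sup_right ⟨u, rfl⟩,
        (Matrix.GeneralLinearGroup.scalar_commute u _).symm⟩⟩
  exact fun s hs => h hs

/-- `r` times the inverse of the representative. -/
def Hk.adj (H : Hk ι r) (l : Lb ι r) : Matrix ι ι ℤ :=
  (((H.γ l)⁻¹ : GL ι ℤ) : Matrix ι ι ℤ) * diagonal fun i => if i = H.i₀ then 1 else (r : ℤ)

theorem Hk.mul_adj (H : Hk ι r) (l : Lb ι r) :
    dg ℤ H.i₀ r * (H.γ l : Matrix ι ι ℤ) * H.adj l = (r : ℤ) • (1 : Matrix ι ι ℤ) := by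
  rw [Hk.adj, Matrix.mul_assoc, Units.mul_inv_cancel_left, dg, diagonal_mul_diagonal,
    ← diagonal_one, ← diagonal_smul]
  congr 1
  funext i
  split_ifs <;> simp

theorem Hk.abs_det (H : Hk ι r) (l : Lb ι r) :
    |(dg ℤ H.i₀ r * (H.γ l : Matrix ι ι ℤ)).det| = r := by
  have h : |(H.γ l : Matrix ι ι ℤ).det| = 1 :=
    Int.isUnit_iff_abs_eq.1 (Matrix.GeneralLinearGroup.det (H.γ l)).isUnit
  rw [det_mul, abs_mul, h, hk_det, mul_one, Nat.abs_cast]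

theorem hk_count {T : Type} [Fintype T] [Fintype (Lb ι r)] (S : Finset (Lb ι r))
    (F : Lb ι r → T → ι → ZMod r) (h0 : ∀ l ∈ S, ∀ t, F l t ≠ 0)
    (h1 : ∀ l ∈ S, ∀ l' ∈ S, ∀ t t', F l t = F l' t' → l = l' ∧ t = t') :
    S.card * Fintype.card T ≤ Fintype.card (Lb ι r) := by
  have := Fintype.card_le_of_injective (fun p : S × T => (⟨F p.1 p.2, h0 _ p.1.2 _⟩ : Lb ι r))
    fun p q e => by
      obtain ⟨e1, e2⟩ := h1 _ p.1.2 _ q.1.2 _ _ (congrArg Subtype.val e)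
      exact Prod.ext (Subtype.ext e1) e2
  simpa using this

theorem hk_ne {w : ι → ℤ} (hw : ¬ ∃ w', w = (r : ℤ) • w') : ∃ j, (w j : ZMod r) ≠ 0 := by
  by_contra h
  push Not at h
  choose w' hw' using fun j => (ZMod.intCast_zmod_eq_zero_iff_dvd _ _).1 (h j)
  exact hw ⟨w', funext hw'⟩

open Classical in
/-- `l ⬝ w = 0` has `r^(N-1) - 1` nonzero solutions, and there are `r^N - 1` vectors `l`. -/
theorem Hk.count_row (hr : r.Prime) (H : Hk ι r) [Fintype (Lb ι r)] (w : ι → ℤ)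
    (hw : ¬ ∃ w', w = (r : ℤ) • w') :
    ((Finset.univ.filter fun l => ∃ v,
      (dg ℤ H.i₀ r * (H.γ l : Matrix ι ι ℤ))ᵀ *ᵥ v = w).card : ℝ) ≤
        (r : ℝ)⁻¹ * Fintype.card (Lb ι r) := by
  have := Fact.mk hr
  obtain ⟨j, hj⟩ := hk_ne hw
  set S := Finset.univ.filter fun l => ∃ v,
    (dg ℤ H.i₀ r * (H.γ l : Matrix ι ι ℤ))ᵀ *ᵥ v = w with hS
  have h1 : ∀ l ∈ S, (fun i => (w i : ZMod r)) ⬝ᵥ l.1 = 0 := fun l hl => by
    obtain ⟨v, hv⟩ := (Finset.mem_filter.1 hl).2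
    have e : w ⬝ᵥ ((((H.γ l)⁻¹ : GL ι ℤ) : Matrix ι ι ℤ) *ᵥ Pi.single H.i₀ 1) = v H.i₀ * r := by
      rw [← hv, mulVec_transpose, ← dotProduct_mulVec, mulVec_mulVec, Units.mul_inv_cancel_right,
        dg, diagonal_mulVec_single]
      simp
    have e2 := congrArg (Int.cast : ℤ → ZMod r) e
    simp only [mulVec_single_one, dotProduct, Int.cast_sum, Int.cast_mul, Int.cast_natCast,
      ZMod.natCast_self, mul_zero, col_apply, H.col, mul_left_comm _ (H.c l),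
      ← Finset.mul_sum] at e2
    exact (mul_eq_zero.1 e2).resolve_left (H.c_ne l)
  have h2 : ∀ l ∈ S, ∀ t : ZMod r,
      (fun i => (w i : ZMod r)) ⬝ᵥ (l.1 + Pi.single j t) = w j * t := fun l hl t => by
    rw [dotProduct_add, h1 l hl, zero_add, dotProduct_single]
  have h3 := hk_count S (fun l (t : ZMod r) => l.1 + Pi.single j t)
    (fun l hl t h => by
      have e := h2 l hl t
      rw [h, dotProduct_zero] at e
      rw [(mul_eq_zero.1 e.symm).resolve_left hj, Pi.single_zero, add_zero] at h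
      exact l.2 h)
    fun l hl l' hl' t t' h => by
      have e : t = t' := mul_left_cancel₀ hj (by rw [← h2 l hl, ← h2 l' hl', h])
      subst e
      exact ⟨Subtype.ext (add_right_cancel h), rfl⟩
  rw [ZMod.card, mul_comm] at h3
  rw [le_inv_mul_iff₀ (by exact_mod_cast hr.pos)]
  exact_mod_cast h3

open Classical in
/-- `w` is a nonzero multiple of `l` modulo `r`, so `l` is one of `r - 1` multiples of `w`. -/
theorem Hk.count_col (hr : r.Prime) (H : Hk ι r) [Fintype (Lb ι r)] (w : ι → ℤ)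
    (hw : ¬ ∃ w', w = (r : ℤ) • w') :
    ((Finset.univ.filter fun l => ∃ v, H.adj l *ᵥ v = w).card : ℝ) ≤
      (r : ℝ)⁻¹ ^ (Fintype.card ι - 1) * Fintype.card (Lb ι r) := by
  have := Fact.mk hr
  obtain ⟨j, hj⟩ := hk_ne hw
  set S := Finset.univ.filter fun l => ∃ v, H.adj l *ᵥ v = w with hS
  have h1 : ∀ l ∈ S, ∃ a : ZMod r, ∀ i, (w i : ZMod r) = a * l.1 i := fun l hl => by
    obtain ⟨v, hv⟩ := (Finset.mem_filter.1 hl).2
    refine ⟨v H.i₀ * H.c l, fun i => ?_⟩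
    rw [← hv, Hk.adj, ← mulVec_mulVec, mulVec, dotProduct, Int.cast_sum,
      Finset.sum_eq_single_of_mem H.i₀ (Finset.mem_univ _)]
    · rw [mulVec_diagonal, if_pos rfl, one_mul, Int.cast_mul, mul_assoc, ← H.col, mul_comm]
    · intro k _ hk
      simp [mulVec_diagonal, hk]
  have h2 : ∀ l ∈ S, l.1 j ≠ 0 ∧ ∀ i, l.1 i * w j = l.1 j * w i := fun l hl => by
    obtain ⟨a, ha⟩ := h1 l hl
    exact ⟨right_ne_zero_of_mul (ha j ▸ hj), fun i => by rw [ha, ha]; ring⟩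
  have h3 := hk_count S
    (fun l (u : {i // ¬ i = j} → ZMod r) i => if h : i = j then l.1 j else u ⟨i, h⟩)
    (fun l hl u h => (h2 l hl).1 (by simpa using congrFun h j))
    fun l hl l' hl' u u' h => by
      have e : l.1 j = l'.1 j := by simpa using congrFun h j
      refine ⟨Subtype.ext (funext fun i => mul_right_cancel₀ hj ?_), funext fun i => ?_⟩
      · rw [(h2 l hl).2, (h2 l' hl').2, e]
      · simpa [i.2] using congrFun h i
  rw [Fintype.card_fun, ZMod.card, Fintype.card_subtype_compl, Fintype.card_subtype_eq,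
    mul_comm] at h3
  rw [inv_pow, le_inv_mul_iff₀ (pow_pos (by exact_mod_cast hr.pos) _)]
  exact_mod_cast h3

theorem lb_nonempty [Nonempty ι] (hr : r.Prime) : Nonempty (Lb ι r) := by
  have := Fact.mk hr
  exact ⟨⟨1, one_ne_zero⟩⟩

end

end Pool.Agent.Lib.MP_446a91_nt.Rk
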