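import Pool.Agent.Lib.MP_446a91_nt.Rk.D0

/-!
Normal forms modulo the group, graded parts, base change.
-/

namespace Pool.Agent.Lib.MP_446a91_nt.Rk

open Matrix Filter Topology Pool.Agent.Lib.MP_446a91_nt.Sou

set_option linter.unusedSectionVars false

noncomputable section

variable {A : Type} [CommRing A] {X Y : Type} {G : Type} [Group G] [MulAction G X]

theorem nf_pos {P : List X → Prop} {w : List X} (h : P w) : flt P (wd w : Ch A X) = wd w := by
  rw [flt, lin_wd, if_pos h]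

theorem nf_neg {P : List X → Prop} {w : List X} (h : ¬ P w) : flt P (wd w : Ch A X) = 0 := by
  rw [flt, lin_wd, if_neg h]

theorem flt_mem (P : List X → Prop) (c : Ch A X) : flt P c ∈ sp A P :=
  sp_map (flt P) _ (fun w _ => by
    by_cases h : P w
    · rw [nf_pos h]
      exact wd_mem h
    · rw [nf_neg h]
      exact zero_mem _) (mem_sp_top c)

theorem flt_of_mem {P : List X → Prop} {c : Ch A X} (h : c ∈ sp A P) : flt P c = c :=
  sp_ext (ψ := LinearMap.id) (fun _ hw => nf_pos hw) h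

theorem flt_IG {P : List X → Prop} (hP : ∀ (g : G) w, P (w.map (g • ·)) ↔ P w) {c : Ch A X}
    (hc : c ∈ IG A X G) : flt P c ∈ IG A X G :=
  IP_map (flt P) _ (fun g w _ => by
    by_cases h : P w
    · rw [nf_pos h, nf_pos ((hP g w).2 h)]
      exact sub_mem_IP g trivial
    · rw [nf_neg h, nf_neg fun h' => h ((hP g w).1 h'), sub_self]
      exact zero_mem _) hc

theorem flt_bd (k : ℕ) (c : Ch A X) :
    flt (fun w => w.length = k) (bd c) = bd (flt (fun w => w.length = k + 1) c) :=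
  ch_ext' (φ := flt (fun w => w.length = k) ∘ₗ bd) (ψ := bd ∘ₗ flt fun w => w.length = k + 1)
    (fun w => by
      rw [LinearMap.comp_apply, LinearMap.comp_apply]
      by_cases h : w.length = k + 1
      · rw [nf_pos (P := fun w => w.length = k + 1) h]
        exact flt_of_mem (bd_len (wd_mem h))
      · rw [nf_neg (P := fun w => w.length = k + 1) h, map_zero, bd_wd]
        exact sp_ext (ψ := 0) (fun u hu => nf_neg fun h' => h (by omega)) (dW_mem_sublist w)) c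

variable (X G) in
theorem nf_rep : ∃ ν : List X → List X, Inv G ν ∧ ∀ w, ∃ g : G, ν w = w.map (g • ·) := by
  let s : Setoid (List X) := ⟨fun w w' => ∃ g : G, w = w'.map (g • ·), fun w => ⟨1, by simp⟩,
    fun ⟨g, h⟩ => ⟨g⁻¹, by simp [h, Function.comp_def]⟩,
    fun ⟨g, h⟩ ⟨g', h'⟩ => ⟨g * g', by simp [h, h', Function.comp_def, mul_smul]⟩⟩
  exact ⟨fun w => (Quotient.mk s w).out,
    fun g w => congrArg Quotient.out (Quotient.sound ⟨g, rfl⟩), fun w => Quotient.mk_out (s := s) w⟩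

/-- Let `n` send a word to a chosen word of its orbit (`Quotient.out`); the linear extension kills
`IG`, and `c - n c ∈ IG`. So `IG` is the kernel of `n`, and chains are torsion free. -/
theorem IG_of_smul {n : ℤ} (hn : n ≠ 0) {c : Ch ℤ X} (h : n • c ∈ IG ℤ X G) : c ∈ IG ℤ X G := by
  obtain ⟨ν, h1, h2⟩ := nf_rep X G
  have h3 : Inv G fun w => (wd (ν w) : Ch ℤ X) := fun g w => congrArg wd (h1 g w)
  have h4 := h3.lin_IP h
  rw [map_smul, smul_eq_zero, or_iff_right hn] at h4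
  have h5 := sp_map (lin ℤ (fun w => (wd (ν w) : Ch ℤ X)) - LinearMap.id) (IG ℤ X G)
    (fun w _ => by
      obtain ⟨g, e⟩ := h2 w
      rw [LinearMap.sub_apply, lin_wd, e]
      exact sub_mem_IP g trivial) (mem_sp_top c)
  rwa [LinearMap.sub_apply, h4, zero_sub, neg_mem_iff] at h5

theorem mem_Zc {k : ℕ} {c : Ch A X} : c ∈ Zc A X G k ↔ c ∈ len A X k ∧ bd c ∈ IG A X G := Iff.rfl

theorem mem_Bd {k : ℕ} {c : Ch A X} :
    c ∈ Bd A X G k ↔ ∃ u ∈ len A X (k + 1), c - bd u ∈ IG A X G := by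
  rw [Bd, Submodule.mem_sup]
  constructor
  · rintro ⟨_, ⟨u, hu, rfl⟩, z, hz, rfl⟩
    exact ⟨u, hu, by rwa [add_sub_cancel_left]⟩
  · rintro ⟨u, hu, h⟩
    exact ⟨_, ⟨u, hu, rfl⟩, _, h, add_sub_cancel _ _⟩

theorem Zc_cyc {k : ℕ} {c : Ch ℤ X} : c ∈ Zc ℤ X G k ↔ c ∈ len ℤ X k ∧ Cyc G 0 c := by
  simp [mem_Zc, Cyc]

theorem lin_Bd {M : Type} [AddCommGroup M] [Module A M] {k : ℕ} {κ : List X → M} (h : Inv G κ)
    (h' : Coc k κ) {c : Ch A X} (hc : c ∈ Bd A X G k) : lin A κ c = 0 := by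
  obtain ⟨u, hu, h1⟩ := mem_Bd.1 hc
  have h2 := h.lin_IP h1
  rwa [map_sub, h'.lin_bd hu, sub_zero] at h2

theorem mp_Zc {G' : Type} [Group G'] [MulAction G' Y] (f : X → Y)
    (h : ∀ g : G, ∃ g' : G', ∀ x, f (g • x) = g' • f x) {k : ℕ} {c : Ch A X}
    (hc : c ∈ Zc A X G k) : mp f c ∈ Zc A Y G' k :=
  mem_Zc.2 ⟨mp_len f hc.1, by rw [bd_mp]; exact mp_IG f h hc.2⟩

theorem mp_Bd {G' : Type} [Group G'] [MulAction G' Y] (f : X → Y)
    (h : ∀ g : G, ∃ g' : G', ∀ x, f (g • x) = g' • f x) {k : ℕ} {c : Ch A X}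
    (hc : c ∈ Bd A X G k) : mp f c ∈ Bd A Y G' k := by
  obtain ⟨u, hu, h1⟩ := mem_Bd.1 hc
  exact mem_Bd.2 ⟨mp f u, mp_len f hu, by rw [bd_mp, ← map_sub]; exact mp_IG f h h1⟩

theorem bc_len {k : ℕ} {c : Ch ℤ X} (hc : c ∈ len ℤ X k) : bc A c ∈ len A X k :=
  sp_map (bc A) ((len A X k).restrictScalars ℤ) (fun w hw => by rw [bc_wd]; exact wd_mem hw) hc

theorem bc_IG {c : Ch ℤ X} (hc : c ∈ IG ℤ X G) : bc A c ∈ IG A X G :=
  IP_map (bc A) ((IG A X G).restrictScalars ℤ)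
    (fun g w _ => by rw [bc_wd, bc_wd]; exact sub_mem_IP g trivial) hc

theorem bc_Zc {k : ℕ} {c : Ch ℤ X} (hc : c ∈ Zc ℤ X G k) : bc A c ∈ Zc A X G k :=
  mem_Zc.2 ⟨bc_len hc.1, by rw [← bc_bd]; exact bc_IG hc.2⟩

theorem nf_lift {N : ℕ} {S : Set (Ch (ZMod N) X)} (U : Submodule ℤ (Ch ℤ X))
    (h : ∀ s ∈ S, ∃ u ∈ U, bc (ZMod N) u = s) {c : Ch (ZMod N) X}
    (hc : c ∈ Submodule.span (ZMod N) S) : ∃ u ∈ U, bc (ZMod N) u = c := by
  induction hc using Submodule.span_induction with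
  | mem s hs => exact h s hs
  | zero => exact ⟨0, zero_mem _, map_zero _⟩
  | add x y _ _ hx hy =>
    obtain ⟨u, a, rfl⟩ := hx
    obtain ⟨v, b, rfl⟩ := hy
    exact ⟨u + v, add_mem a b, map_add _ _ _⟩
  | smul t x _ hx =>
    obtain ⟨u, a, rfl⟩ := hx
    obtain ⟨z, rfl⟩ := ZMod.intCast_surjective t
    exact ⟨z • u, U.smul_mem z a, by rw [map_smul, Int.cast_smul_eq_zsmul]⟩

theorem nf_apply (c : Ch ℤ X) (w : List X) : bc A c w = (c w : A) :=
  ch_ext' (φ := Finsupp.lapply w ∘ₗ bc A)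
    (ψ := (Int.castAddHom A).toIntLinearMap ∘ₗ Finsupp.lapply w) (fun u => by
      classical
      rw [LinearMap.comp_apply, bc_wd]
      simp [wd, Finsupp.single_apply]) c

theorem bc_surj (N : ℕ) {k : ℕ} {c : Ch (ZMod N) X} (hc : c ∈ len (ZMod N) X k) :
    ∃ c' ∈ len ℤ X k, bc (ZMod N) c' = c :=
  nf_lift _ (by
    rintro _ ⟨w, hw, rfl⟩
    exact ⟨wd w, wd_mem hw, bc_wd w⟩) hc

/-- The kernel of `bc` is `N •` chains, and `IG` lifts (span induction, `ZMod.intCast_surjective`). -/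
theorem cyc_iff (N : ℕ) (c : Ch ℤ X) : Cyc G N c ↔ bd (bc (ZMod N) c) ∈ IG (ZMod N) X G := by
  rw [← bc_bd]
  constructor
  · rintro ⟨b, hb⟩
    have h := bc_IG (A := ZMod N) hb
    rwa [map_sub, map_smul, ← Int.cast_smul_eq_zsmul (ZMod N), Int.cast_natCast, ZMod.natCast_self,
      zero_smul, sub_zero] at h
  · intro h
    obtain ⟨u, hu, e⟩ := nf_lift (IG ℤ X G) (by
      rintro _ ⟨g, w, -, rfl⟩
      exact ⟨_, sub_mem_IP g (w := w) trivial, by rw [map_sub, bc_wd, bc_wd]⟩) h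
    have h1 : ∀ w, (N : ℤ) ∣ (bd c - u) w := fun w => by
      rw [← ZMod.intCast_zmod_eq_zero_iff_dvd, ← nf_apply, map_sub, e, sub_self]
      rfl
    refine ⟨(bd c - u).mapRange (· / N) (Int.zero_ediv _), ?_⟩
    have h2 : (N : ℤ) • (bd c - u).mapRange (· / (N : ℤ)) (Int.zero_ediv _) = bd c - u :=
      Finsupp.ext fun w => Int.mul_ediv_cancel' (h1 w)
    rwa [h2, sub_sub_cancel]

/-- A cycle modulo `N ≠ 0` of length `k + 1`: its boundary is `N` times a cycle of length `k`. -/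
theorem cyc_split {N k : ℕ} (hN : N ≠ 0) {c : Ch ℤ X} (hc : c ∈ len ℤ X (k + 1))
    (h : Cyc G N c) : ∃ b ∈ Zc ℤ X G k, bd c - (N : ℤ) • b ∈ IG ℤ X G := by
  obtain ⟨b, hb⟩ := h
  have h1 := flt_IG (P := fun w => w.length = k) (fun g w => by rw [List.length_map]) hb
  rw [map_sub, map_smul, flt_of_mem (bd_len hc)] at h1
  refine ⟨_, mem_Zc.2 ⟨flt_mem _ b, IG_of_smul (Int.natCast_ne_zero.2 hN) ?_⟩, h1⟩
  have h2 := bd_IG h1
  rwa [map_sub, bd_bd, zero_sub, neg_mem_iff, map_smul] at h2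

end

end Pool.Agent.Lib.MP_446a91_nt.Rk
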