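import Pool.Agent.Lib.MP_446a91_nt.Sou.If
import Pool.Agent.Lib.MP_446a91_nt.Rk.Hk
import Pool.Agent.Lib.MP_446a91_nt.Rk.Nf

/-!
The group over `ℤ[1/r]` as a Hecke set.
-/

namespace Pool.Agent.Lib.MP_446a91_nt.Rk

open Matrix Filter Topology Pool.Agent.Lib.MP_446a91_nt.Sou

set_option linter.unusedSectionVars false

noncomputable section

variable (ι : Type) [Fintype ι] [DecidableEq ι] (r : ℕ)


/-- The group over `ℤ[1/r]`, with the left action of the integral matrices. -/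
def Lam : Type := GL ι (Zr r)

instance : MulAction (GL ι ℤ) (Lam ι r) :=
  MulAction.compHom (GL ι (Zr r)) (glMap ι (Int.castRingHom (Zr r)))

variable {ι r}

theorem lam_map {R S : Type} [CommRing R] [CommRing S] (φ : R →+* S) (γ : GL ι ℤ) :
    glMap ι φ (glMap ι (Int.castRingHom R) γ) = glMap ι (Int.castRingHom S) γ := by
  ext i j
  simp

theorem lam_hR (H : Hk ι r) {R S : Type} [CommRing R] [CommRing S] (φ : R →+* S) {t : Rˣ} {u : Sˣ}
    (h : φ t = u) (l : Lb ι r) : glMap ι φ (H.hR t l) = H.hR u l := by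
  rw [Hk.hR, Hk.hR, map_mul, lam_map]
  congr 1
  ext i j
  by_cases e : i = j
  · subst e
    by_cases e' : i = H.i₀ <;> simp [dgU, e', h]
  · simp [dgU, e]

theorem lam_cyc {Y L G : Type} [Group G] [MulAction G Y] [Fintype L] (op : L → Y → Y)
    (h : ∀ δ : G, ∃ σ : L ≃ L, ∀ l, ∃ δ' : G, ∀ y, op l (δ • y) = δ' • op (σ l) y) {k : ℕ}
    {z : Ch ℤ Y} (hz : z ∈ Zc ℤ Y G k) : ∑ l, mp (op l) z ∈ Zc ℤ Y G k := by
  refine mem_Zc.2 ⟨Submodule.sum_mem _ fun l _ => mp_len _ hz.1, ?_⟩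
  have h1 : (∑ l, mp (op l)) (bd z) ∈ IG ℤ Y G := by
    refine IP_map _ _ (fun δ w _ => ?_) (mem_Zc.1 hz).2
    obtain ⟨σ, hσ⟩ := h δ
    rw [LinearMap.sum_apply, LinearMap.sum_apply, ← σ.sum_comp fun l => mp (op l) (wd w),
      ← Finset.sum_sub_distrib]
    refine Submodule.sum_mem _ fun l _ => ?_
    obtain ⟨δ', e⟩ := hσ l
    have h2 := mp_smul_sub_IG (A := ℤ) δ' (wd (w.map (op (σ l))))
    simpa [Function.comp_def, e] using h2
  simpa only [map_sum, bd_mp, LinearMap.sum_apply] using h1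

/-- `op l y = hR t' l * y` with `t'` the unit `r` of `Zr r`, `pt y = (image of y in GL ι ℝ) • x1`
(`IsLocalization.Away.lift`); `cyc` from `Hk.perm_hR`. -/
theorem exists_HS (hr : r.Prime) (H : Hk ι r) {t : ℝˣ} (ht : (t : ℝ) = r) (d : ℕ) :
    ∃ S : HS H t (Lam ι r) d, S.inc = glMap ι (Int.castRingHom (Zr r)) ∧
      ∀ l, ∃ g : GL ι (Zr r), ∀ y : GL ι (Zr r), S.op l y = g * y := by
  obtain ⟨u, hu⟩ := IsLocalization.Away.algebraMap_isUnit (S := Zr r) (r : ℤ)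
  have hu' : (u : Zr r) = r := by simpa using hu
  have hr' : IsUnit (Int.castRingHom ℝ (r : ℤ)) := by simpa using hr.ne_zero
  let φ : Zr r →+* ℝ := IsLocalization.Away.lift (r : ℤ) hr'
  have hφ : φ u = t := by rw [hu', map_natCast, ht]
  refine ⟨⟨glMap ι (Int.castRingHom (Zr r)), fun y : GL ι (Zr r) => glMap ι φ y • x1,
    fun l (y : GL ι (Zr r)) => H.hR u l * y, map_mul (glMap ι (Int.castRingHom (Zr r))),
    fun γ (y : GL ι (Zr r)) => ?_, fun γ => ?_, fun l (y : GL ι (Zr r)) => ?_,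
    fun z hz => lam_cyc _ (fun δ => ?_) hz⟩, rfl, fun l => ⟨H.hR u l, fun _ => rfl⟩⟩
  · show glMap ι φ (glMap ι (Int.castRingHom (Zr r)) γ * y) • x1 = _
    rw [map_mul, mul_smul, lam_map]
    rfl
  · show glMap ι φ (glMap ι (Int.castRingHom (Zr r)) γ) • x1 = _
    rw [lam_map]
    rfl
  · show glMap ι φ (H.hR u l * y) • x1 = _
    rw [map_mul, mul_smul, lam_hR H φ hφ]
  · obtain ⟨σ, hσ⟩ := H.perm_hR hr hu' δ
    refine ⟨σ, fun l => ?_⟩
    obtain ⟨δ', e⟩ := hσ l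
    refine ⟨δ', fun y : GL ι (Zr r) => ?_⟩
    show H.hR u l * (glMap ι (Int.castRingHom (Zr r)) δ * y) =
      glMap ι (Int.castRingHom (Zr r)) δ' * (H.hR u (σ l) * y)
    rw [← mul_assoc, e, mul_assoc]

end

end Pool.Agent.Lib.MP_446a91_nt.Rk
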