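import Pool.Agent.Lib.MP_446a91_nt.Rk.Psi

/-!
Finite generation. Words of length `k` with `Sm S` are translates of finitely many words
(first letter `1`, the others in `S`). In `Ch ⧸ IG` the span of these is a noetherian module.
-/

namespace Pool.Agent.Lib.MP_446a91_nt.Rk

open Matrix Filter Topology Pool.Agent.Lib.MP_446a91_nt.Sou

set_option linter.unusedSectionVars false

noncomputable section

variable {ι : Type} [Fintype ι] [DecidableEq ι]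


theorem sm_finite {G : Type} [Group G] (S : Finset G) (k : ℕ) :
    ∃ F : Finset (List G), ∀ w : List G, Sm S w → w.length = k →
      ∃ g : G, ∃ u ∈ F, w = u.map (g • ·) := by
  refine ⟨((List.finite_length_eq {a // a ∈ S} k).image (List.map Subtype.val)).toFinset,
    fun w hw hk => ?_⟩
  obtain ⟨g, hg⟩ : ∃ g : G, ∀ b ∈ w.map (g⁻¹ • ·), b ∈ S := by
    cases w with
    | nil => exact ⟨1, by simp⟩
    | cons a w =>
      refine ⟨a, fun b hb => ?_⟩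
      obtain ⟨c, hc, rfl⟩ := List.mem_map.1 hb
      exact hw a List.mem_cons_self c hc
  refine ⟨g, w.map (g⁻¹ • ·), (Set.Finite.mem_toFinset _).2
    ⟨(w.map (g⁻¹ • ·)).attachWith _ hg, ?_, List.attachWith_map_subtype_val hg⟩, ?_⟩
  · simpa using hk
  · simp [Function.comp_def]

/-- A finite set of torsion elements modulo `B` spans a module of bounded torsion. -/
theorem fg_tors {M : Type} [AddCommGroup M] (B : Submodule ℤ M) (F : Finset M)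
    (h : ∀ x ∈ F, ∃ n : ℤ, n ≠ 0 ∧ n • x ∈ B) :
    ∃ t : ℤ, t ≠ 0 ∧ ∀ x ∈ Submodule.span ℤ (F : Set M), t • x ∈ B := by
  choose! n hn using h
  refine ⟨∏ x ∈ F, n x, Finset.prod_ne_zero_iff.2 fun x hx => (hn x hx).1, fun x hx => ?_⟩
  have h1 : Submodule.span ℤ (F : Set M) ≤ B.comap ((∏ x ∈ F, n x) • LinearMap.id) :=
    Submodule.span_le.2 fun y hy => by
      obtain ⟨c, hc⟩ := Finset.dvd_prod_of_mem n hy
      have h2 := B.smul_mem c (hn y hy).2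
      rw [smul_smul, mul_comm, ← hc] at h2
      exact h2
  exact h1 hx

theorem fg_Zc (ι : Type) [Fintype ι] [DecidableEq ι] (k : ℕ) :
    ∃ F : Finset (Ch ℤ (GL ι ℤ)), (∀ z ∈ F, z ∈ Zc ℤ (GL ι ℤ) (GL ι ℤ) k) ∧
      ∀ z ∈ Zc ℤ (GL ι ℤ) (GL ι ℤ) k,
        z ∈ Submodule.span ℤ (F : Set (Ch ℤ (GL ι ℤ))) ⊔ Bd ℤ (GL ι ℤ) (GL ι ℤ) k := by
  obtain ⟨S, Ψ, h1, h2, -⟩ := exists_psi ι
  obtain ⟨F0, h0⟩ := sm_finite S k
  have hM : (sp ℤ fun w => w ∈ F0 ∧ w.length = k).FG :=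
    Submodule.fg_span ((F0.finite_toSet.image wd).subset fun _ ⟨w, hw, e⟩ => ⟨w, hw.1, e.symm⟩)
  obtain ⟨F, hF⟩ := hM.of_le (inf_le_left (b := Zc ℤ (GL ι ℤ) (GL ι ℤ) k))
  refine ⟨F, fun z hz => (hF.le (Submodule.subset_span hz)).2, fun z hz => ?_⟩
  have h3 := (h1 ℤ).mem_Zc hz
  have h4 : Ψ ℤ z ∈ sp ℤ (Sm S) := sp_map (Ψ ℤ) _ (fun w _ => h2 ℤ w) (mem_sp_top z)
  have h5 : Ψ ℤ z ∈ (sp ℤ fun w => w ∈ F0 ∧ w.length = k) ⊔ IG ℤ (GL ι ℤ) (GL ι ℤ) :=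
    sp_map LinearMap.id _ (fun w hw => by
      obtain ⟨g, u, hu, rfl⟩ := h0 w hw.1 hw.2
      exact Submodule.mem_sup.2 ⟨wd u, wd_mem ⟨hu, by simpa using hw.2⟩, _, sub_mem_IP g trivial,
        add_sub_cancel _ _⟩) (mem_sp_and h4 h3.1)
  obtain ⟨m, hm, i, hi, e⟩ := Submodule.mem_sup.1 h5
  have h6 : m ∈ Zc ℤ (GL ι ℤ) (GL ι ℤ) k := mem_Zc.2 ⟨sp_mono (fun _ h => h.2) hm, by
    rw [eq_sub_of_add_eq e, map_sub]
    exact sub_mem (mem_Zc.1 h3).2 (bd_IG hi)⟩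
  have h7 := (h1 ℤ).homotopic CMap.id id (fun _ _ => rfl) hz
  refine Submodule.mem_sup.2 ⟨m, hF.ge ⟨hm, h6⟩, i - (Ψ ℤ z - LinearMap.id (R := ℤ) z),
    sub_mem (Submodule.mem_sup_right hi) h7, ?_⟩
  rw [← e, LinearMap.id_apply]
  abel

theorem torsion_Zc (ι : Type) [Fintype ι] [DecidableEq ι] (k : ℕ) :
    ∃ t : ℤ, t ≠ 0 ∧ ∀ w ∈ Zc ℤ (GL ι ℤ) (GL ι ℤ) k, ∀ n : ℤ, n ≠ 0 →
      n • w ∈ Bd ℤ (GL ι ℤ) (GL ι ℤ) k → t • w ∈ Bd ℤ (GL ι ℤ) (GL ι ℤ) k := by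
  obtain ⟨F, -, hF⟩ := fg_Zc ι k
  generalize Bd ℤ (GL ι ℤ) (GL ι ℤ) k = B at hF ⊢
  let T : Submodule ℤ (Ch ℤ (GL ι ℤ)) :=
    { carrier := {x | ∃ n : ℤ, n ≠ 0 ∧ n • x ∈ B}
      zero_mem' := ⟨1, one_ne_zero, by simp⟩
      add_mem' := fun {x y} ⟨a, ha, hx⟩ ⟨b, hb, hy⟩ => ⟨a * b, mul_ne_zero ha hb, by
        rw [smul_add, mul_smul a b y, mul_comm, mul_smul]
        exact add_mem (B.smul_mem b hx) (B.smul_mem a hy)⟩
      smul_mem' := fun c x ⟨a, ha, hx⟩ => ⟨a, ha, by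
        rw [smul_comm]
        exact B.smul_mem c hx⟩ }
  obtain ⟨F', hF'⟩ := (Submodule.fg_span F.finite_toSet).of_le (inf_le_left (b := T))
  obtain ⟨t, ht, h⟩ := fg_tors B F' fun x hx => (hF'.le (Submodule.subset_span hx)).2
  refine ⟨t, ht, fun w hw n hn hb => ?_⟩
  obtain ⟨m, hm, b, hb', rfl⟩ := Submodule.mem_sup.1 (hF w hw)
  rw [smul_add] at hb ⊢
  exact add_mem (h m (hF'.ge ⟨hm, n, hn, (B.add_mem_iff_left (B.smul_mem n hb')).1 hb⟩))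
    (B.smul_mem t hb')

/-- `bd y = N b`, `t b = bd u`, `y' = t y - N u`. -/
theorem int_lift (ι : Type) [Fintype ι] [DecidableEq ι] (k : ℕ) :
    ∃ t : ℤ, t ≠ 0 ∧ ∀ N : ℕ, N ≠ 0 → ∀ y ∈ len ℤ (GL ι ℤ) (k + 1), Cyc (GL ι ℤ) N y →
      ∃ u : Ch ℤ (GL ι ℤ), t • y - (N : ℤ) • u ∈ Zc ℤ (GL ι ℤ) (GL ι ℤ) (k + 1) := by
  obtain ⟨t, ht, h⟩ := torsion_Zc ι k
  refine ⟨t, ht, fun N hN y hy hc => ?_⟩
  obtain ⟨b, hb, h1⟩ := cyc_split hN hy hc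
  obtain ⟨u, hu, h2⟩ := mem_Bd.1 (h b hb N (by exact_mod_cast hN)
    (mem_Bd.2 ⟨y, hy, by rw [← neg_sub]; exact neg_mem h1⟩))
  refine ⟨u, mem_Zc.2 ⟨sub_mem (Submodule.smul_mem _ _ hy) (Submodule.smul_mem _ _ hu), ?_⟩⟩
  have e : bd (t • y - (N : ℤ) • u) = t • (bd y - (N : ℤ) • b) + (N : ℤ) • (t • b - bd u) := by
    rw [map_sub, map_smul, map_smul, smul_sub, smul_sub, smul_comm t (N : ℤ) b]
    abel
  rw [e]
  exact add_mem (Submodule.smul_mem _ _ h1) (Submodule.smul_mem _ _ h2)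

end

end Pool.Agent.Lib.MP_446a91_nt.Rk
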