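import Pool.Agent.Lib.MP_446a91_nt.Rk.Dbl2

/-!
Surjective stability. `tpL [] z ∈ ED 0 k`; apply `DC.stable` `card κ` times to get a vertical cycle
`y ∈ ED (card κ) k` whose image under `(u, w) ↦ u` is homologous to `z`. Let `w₀` be the word of the
letters `(e (inr j), some (e (inr j)))`, `s w` with `act (s w) w₀ = w` (`SW.exists_act`), and
`ρ : GL (ι ⊕ κ) → GL ι` with `ρ (stL γ * g) = γ * ρ g` (choose coset representatives). The
stabiliser of `w₀` is the range of `stL`. Put `z₀ = ((u, w) ↦ u.map (ρ ((s w)⁻¹ * ·))) y`; the prism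
between `(s w)⁻¹ * ·` and `stL (ρ ((s w)⁻¹ * ·))` maps `II` to `IG`.
-/

namespace Pool.Agent.Lib.MP_446a91_nt.Rk

open Matrix Filter Topology Pool.Agent.Lib.MP_446a91_nt.Sou

set_option linter.unusedSectionVars false

noncomputable section

variable {A : Type} [CommRing A]

section fam
variable {ι : Type} [Fintype ι] [DecidableEq ι] {M : Type} [AddCommGroup M] [Module A M]

/-- A family of linear maps indexed by the word of letters, as one map on pairs. -/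
def stabL (T : List (Lt ι) → Ch A (GL ι ℤ) →ₗ[A] M) : DD A ι →ₗ[A] M :=
  lin2 A fun p => T p.2 (wd p.1)

theorem stab_lin2 (f : List (GL ι ℤ) × List (Lt ι) → M) (p : List (GL ι ℤ) × List (Lt ι)) :
    lin2 A f (Finsupp.single p 1) = f p := by
  simp [lin2]

theorem stabL_single (T : List (Lt ι) → Ch A (GL ι ℤ) →ₗ[A] M) (p : List (GL ι ℤ) × List (Lt ι)) :
    stabL T (Finsupp.single p 1) = T p.2 (wd p.1) := stab_lin2 _ _

theorem stab_tpL (w : List (Lt ι)) (u : List (GL ι ℤ)) :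
    tpL A w (wd u) = Finsupp.single (u, w) 1 := lin_wd _ _

theorem stabL_tpL (T : List (Lt ι) → Ch A (GL ι ℤ) →ₗ[A] M) (w : List (Lt ι))
    (c : Ch A (GL ι ℤ)) : stabL T (tpL A w c) = T w c :=
  ch_ext' (φ := stabL T ∘ₗ tpL A w) (fun u => by
    rw [LinearMap.comp_apply, stab_tpL, stabL_single]) c

theorem stab_vD {p : List (GL ι ℤ) × List (Lt ι)} (h : 2 ≤ p.1.length) :
    vD A (Finsupp.single p 1) = tpL A p.2 (bd (wd p.1)) := by
  rw [vD, stab_lin2, if_neg (by omega), bd_wd]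

theorem stabL_II (T : List (Lt ι) → Ch A (GL ι ℤ) →ₗ[A] M) (U : Submodule A M)
    (h : ∀ (g : GL ι ℤ) u w, T (w.map (act g)) (wd (u.map (g * ·))) - T w (wd u) ∈ U)
    {x : DD A ι} (hx : x ∈ II A ι) : stabL T x ∈ U := by
  have : II A ι ≤ U.comap (stabL T) := Submodule.span_le.2 (by
    rintro _ ⟨g, p, rfl⟩
    rw [SetLike.mem_coe, Submodule.mem_comap, map_sub, stabL_single, stabL_single]
    exact h g p.1 p.2)
  exact this hx

theorem stab_ED (φ : DD A ι →ₗ[A] M) (U : Submodule A M) {l k : ℕ}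
    (h : ∀ p : List (GL ι ℤ) × List (Lt ι), p.1.length = k + 1 → p.2.length = l → SW [] p.2 →
      φ (Finsupp.single p 1) ∈ U) {x : DD A ι} (hx : x ∈ ED A ι l k) : φ x ∈ U := by
  have : ED A ι l k ≤ U.comap φ := Submodule.span_le.2 (by
    rintro _ ⟨p, h1, h2, h3, rfl⟩
    exact h p h1 h2 h3)
  exact this hx

variable (A ι) in
/-- Forget the word of letters. -/
def stabP : DD A ι →ₗ[A] Ch A (GL ι ℤ) := stabL fun _ => LinearMap.id

theorem stabP_single (p : List (GL ι ℤ) × List (Lt ι)) :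
    stabP A ι (Finsupp.single p 1) = wd p.1 := stabL_single _ _

theorem stabP_II {x : DD A ι} (hx : x ∈ II A ι) : stabP A ι x ∈ IG A (GL ι ℤ) (GL ι ℤ) :=
  stabL_II _ _ (fun g _ _ => sub_mem_IP g trivial) hx

theorem stabP_fD (i : ℕ) (x : DD A ι) : stabP A ι (fD A i x) = stabP A ι x := by
  have : stabP A ι ∘ₗ fD A i = stabP A ι := Finsupp.lhom_ext' fun p => LinearMap.ext_ring (by
    simp only [LinearMap.comp_apply, Finsupp.lsingle_apply]
    rw [fD, stab_lin2, stabP_single, stabP_single])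
  exact LinearMap.congr_fun this x

theorem stabP_len {l k : ℕ} {x : DD A ι} (hx : x ∈ ED A ι l k) :
    stabP A ι x ∈ len A (GL ι ℤ) (k + 1) :=
  stab_ED _ _ (fun p h _ _ => by rw [stabP_single]; exact wd_mem h) hx

theorem stabP_vD {l k : ℕ} {x : DD A ι} (hx : x ∈ ED A ι l (k + 1)) :
    stabP A ι (vD A x) = bd (stabP A ι x) := by
  have := stab_ED (stabP A ι ∘ₗ vD A - bd ∘ₗ stabP A ι) ⊥ (fun p h _ _ => by
    rw [Submodule.mem_bot, LinearMap.sub_apply, LinearMap.comp_apply, LinearMap.comp_apply,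
      stab_vD (by omega), stabP_single, stabP, stabL_tpL, LinearMap.id_apply, sub_self]) hx
  rw [Submodule.mem_bot, LinearMap.sub_apply, sub_eq_zero] at this
  exact this

theorem stab_SW_nil : SW ([] : List (Lt ι)) [] :=
  ⟨⟨List.nodup_nil, fun _ => 0, fun _ h => absurd h (by simp)⟩, fun _ h => absurd h (by simp)⟩

/-- The staircase, `l` times. -/
theorem stab_climb {k : ℕ} (hk : 1 ≤ k) {z : Ch A (GL ι ℤ)}
    (hz : z ∈ Zc A (GL ι ℤ) (GL ι ℤ) (k + 1)) (l : ℕ) (h : l + 3 * k + 3 ≤ Fintype.card ι) :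
    ∃ y ∈ ED A ι l k, vD A y ∈ II A ι ∧ stabP A ι y - z ∈ Bd A (GL ι ℤ) (GL ι ℤ) (k + 1) := by
  obtain ⟨D, hE, hv, hf⟩ := exists_DC A ι
  induction l with
  | zero =>
    refine ⟨tpL A [] z, ?_, ?_, ?_⟩
    · exact sp_map (tpL A []) _ (fun u hu => by
        rw [stab_tpL]
        exact Submodule.subset_span ⟨(u, []), hu, rfl, stab_SW_nil, rfl⟩) hz.1
    · have e : vD A (tpL A [] z) = tpL A [] (bd z) :=
        sp_ext (φ := vD A ∘ₗ tpL A []) (ψ := tpL A [] ∘ₗ bd) (fun u (hu : u.length = k + 1) => by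
          rw [LinearMap.comp_apply, LinearMap.comp_apply, stab_tpL,
            stab_vD (p := (u, [])) (by simp only; omega)]) hz.1
      rw [e]
      exact IP_map (tpL A []) _ (fun g u _ => by
        rw [stab_tpL, stab_tpL]
        exact Submodule.subset_span ⟨g, (u, []), rfl⟩) hz.2
    · rw [stabP, stabL_tpL, LinearMap.id_apply, sub_self]
      exact zero_mem _
  | succ l ih =>
    obtain ⟨y, hy, hy0, hyz⟩ := ih (by omega)
    obtain ⟨y', hy', hv', u', hu', e⟩ := (D.stable k l (by omega)).1 ((II A ι).mkQ y)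
      (by rw [hE]; exact Submodule.mem_map_of_mem hy)
      (by rw [hv]; exact (Submodule.Quotient.mk_eq_zero _).2 hy0)
    rw [hE] at hy' hu'
    obtain ⟨y1, hy1, rfl⟩ := hy'
    obtain ⟨u, hu, rfl⟩ := hu'
    rw [hv] at hv' e
    rw [hf, ← map_sub, ← sub_eq_zero, ← map_sub] at e
    refine ⟨y1, hy1, (Submodule.Quotient.mk_eq_zero _).1 hv', ?_⟩
    have e1 := stabP_II ((Submodule.Quotient.mk_eq_zero _).1 e)
    rw [map_sub, map_sub, stabP_fD, stabP_vD hu] at e1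
    have e2 : stabP A ι y1 - stabP A ι y ∈ Bd A (GL ι ℤ) (GL ι ℤ) (k + 1) :=
      mem_Bd.2 ⟨_, stabP_len hu, e1⟩
    have := add_mem e2 hyz
    rwa [sub_add_sub_cancel] at this

end fam

theorem stab_rho {H G : Type} [Group H] [Group G] (j : H →* G) (hj : Function.Injective j) :
    ∃ ρ : G → H, ∀ γ g, ρ (j γ * g) = γ * ρ g := by
  have h1 : ∀ g : G, ∃ γ, j γ =
      g * (Quotient.out (Quotient.mk (QuotientGroup.rightRel j.range) g))⁻¹ := fun g =>
    QuotientGroup.rightRel_apply.1 (Quotient.mk_out (s := QuotientGroup.rightRel j.range) g)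
  choose ρ hρ using h1
  refine ⟨ρ, fun γ g => hj ?_⟩
  have e : Quotient.mk (QuotientGroup.rightRel j.range) (j γ * g) =
      Quotient.mk (QuotientGroup.rightRel j.range) g := by
    symm
    exact Quotient.sound (QuotientGroup.rightRel_apply.2 ⟨γ, by simp⟩)
  rw [map_mul, hρ, hρ, e, mul_assoc]

section base
variable (ι κ : Type) [Fintype ι] [DecidableEq ι] [Fintype κ] [DecidableEq κ]

theorem stab_inj : Function.Injective (stL ℤ ι κ) := fun a b h => by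
  have : fromBlocks (a : Matrix ι ι ℤ) 0 0 (1 : Matrix κ κ ℤ) =
      fromBlocks (b : Matrix ι ι ℤ) 0 0 1 := congrArg Units.val h
  exact Units.ext (fromBlocks_inj.1 this).1

/-- The standard split letters. -/
def stabA (j : κ) : Lt (ι ⊕ κ) := (Pi.single (Sum.inr j) 1, some (Pi.single (Sum.inr j) 1))

/-- The standard split word. -/
def stabW : List (Lt (ι ⊕ κ)) := (Finset.univ : Finset κ).toList.map (stabA ι κ)

theorem stabA_inj : Function.Injective (stabA ι κ) := fun i j h => by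
  by_contra hne
  have := congrFun (congrArg Prod.fst h) (Sum.inr i)
  simp [stabA, hne] at this

theorem stabW_len : (stabW ι κ).length = Fintype.card κ := by simp [stabW]

theorem stabW_SW : SW [] (stabW ι κ) := by
  refine ⟨⟨?_, fun a => a.1, ?_⟩, ?_⟩
  · rw [List.append_nil]
    exact (Finset.nodup_toList _).map (stabA_inj ι κ)
  · rw [List.append_nil]
    intro a ha
    obtain ⟨i, -, rfl⟩ := List.mem_map.1 ha
    refine ⟨fun f hf => Option.some.inj hf, fun b hb => ?_⟩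
    obtain ⟨j, -, rfl⟩ := List.mem_map.1 hb
    by_cases hij : i = j
    · subst hij
      simp [stabA]
    · rw [if_neg fun h => hij (stabA_inj ι κ h)]
      simp [stabA, hij]
  · intro a ha
    obtain ⟨i, -, rfl⟩ := List.mem_map.1 ha
    simp [stabA]

variable {ι κ}

theorem stab_block {g : Matrix (ι ⊕ κ) (ι ⊕ κ) ℤ}
    (h1 : ∀ j : κ, g *ᵥ Pi.single (Sum.inr j) 1 = Pi.single (Sum.inr j) 1)
    (h2 : ∀ j : κ, Pi.single (Sum.inr j) 1 ᵥ* g = Pi.single (Sum.inr j) 1) :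
    g = fromBlocks g.toBlocks₁₁ 0 0 1 := by
  ext (a | a) (b | b)
  · rfl
  · simpa using congrFun (h1 b) (Sum.inl a)
  · simpa using congrFun (h2 a) (Sum.inl b)
  · simpa [Matrix.one_apply, Pi.single_apply] using congrFun (h1 b) (Sum.inr a)

theorem stab_fix {g : GL (ι ⊕ κ) ℤ} (h : (stabW ι κ).map (act g) = stabW ι κ) :
    ∃ γ, stL ℤ ι κ γ = g := by
  have h0 : ∀ j, act g (stabA ι κ j) = stabA ι κ j := fun j =>
    (List.map_inj_left (f := act g) (g := id)).1 (h.trans (List.map_id _).symm) _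
      (List.mem_map_of_mem (Finset.mem_toList.2 (Finset.mem_univ j)))
  have h1 : ∀ j : κ, (g : Matrix (ι ⊕ κ) (ι ⊕ κ) ℤ) *ᵥ Pi.single (Sum.inr j) 1 =
      Pi.single (Sum.inr j) 1 := fun j => congrArg Prod.fst (h0 j)
  have h2 : ∀ j : κ, Pi.single (Sum.inr j) 1 ᵥ* ((g⁻¹ : GL (ι ⊕ κ) ℤ) : Matrix (ι ⊕ κ) (ι ⊕ κ) ℤ) =
      Pi.single (Sum.inr j) 1 := fun j => Option.some.inj (congrArg Prod.snd (h0 j))
  have h3 : ∀ j : κ, Pi.single (Sum.inr j) 1 ᵥ* (g : Matrix (ι ⊕ κ) (ι ⊕ κ) ℤ) =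
      Pi.single (Sum.inr j) 1 := fun j => by
    have := congrArg (· ᵥ* (g : Matrix (ι ⊕ κ) (ι ⊕ κ) ℤ)) (h2 j)
    simp only [vecMul_vecMul, ← Units.val_mul, inv_mul_cancel, Units.val_one, vecMul_one] at this
    exact this.symm
  have h4 : ∀ j : κ, ((g⁻¹ : GL (ι ⊕ κ) ℤ) : Matrix (ι ⊕ κ) (ι ⊕ κ) ℤ) *ᵥ Pi.single (Sum.inr j) 1 =
      Pi.single (Sum.inr j) 1 := fun j => by
    have := congrArg (((g⁻¹ : GL (ι ⊕ κ) ℤ) : Matrix (ι ⊕ κ) (ι ⊕ κ) ℤ) *ᵥ ·) (h1 j)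
    simp only [mulVec_mulVec, ← Units.val_mul, inv_mul_cancel, Units.val_one, one_mulVec] at this
    exact this.symm
  have e1 := stab_block h1 h3
  have e2 := stab_block h4 h2
  have m1 : (g : Matrix (ι ⊕ κ) (ι ⊕ κ) ℤ) * ((g⁻¹ : GL (ι ⊕ κ) ℤ) : Matrix (ι ⊕ κ) (ι ⊕ κ) ℤ) = 1 :=
    by rw [← Units.val_mul, mul_inv_cancel, Units.val_one]
  have m2 : ((g⁻¹ : GL (ι ⊕ κ) ℤ) : Matrix (ι ⊕ κ) (ι ⊕ κ) ℤ) * (g : Matrix (ι ⊕ κ) (ι ⊕ κ) ℤ) = 1 :=
    by rw [← Units.val_mul, inv_mul_cancel, Units.val_one]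
  rw [e1, e2, fromBlocks_multiply, ← fromBlocks_one] at m1 m2
  refine ⟨⟨(g : Matrix (ι ⊕ κ) (ι ⊕ κ) ℤ).toBlocks₁₁,
    ((g⁻¹ : GL (ι ⊕ κ) ℤ) : Matrix (ι ⊕ κ) (ι ⊕ κ) ℤ).toBlocks₁₁, ?_, ?_⟩, Units.ext e1.symm⟩
  · simpa using (fromBlocks_inj.1 m1).1
  · simpa using (fromBlocks_inj.1 m2).1

theorem stab_map_mul (g h : GL (ι ⊕ κ) ℤ) (w : List (Lt (ι ⊕ κ))) :
    w.map (act (g * h)) = (w.map (act h)).map (act g) := by
  rw [List.map_map]
  exact List.map_congr_left fun a _ => act_mul g h a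

theorem stab_map_one (w : List (Lt (ι ⊕ κ))) : w.map (act 1) = w :=
  (List.map_congr_left fun a _ => act_one a).trans (List.map_id _)

variable (ι κ) in
/-- The orbit of the standard word. -/
def stabO (w : List (Lt (ι ⊕ κ))) : Prop := ∃ g, (stabW ι κ).map (act g) = w

theorem stabO_act (g : GL (ι ⊕ κ) ℤ) (w : List (Lt (ι ⊕ κ))) :
    stabO ι κ (w.map (act g)) ↔ stabO ι κ w := by
  constructor
  · rintro ⟨h, e⟩
    exact ⟨g⁻¹ * h, by rw [stab_map_mul, e, ← stab_map_mul, inv_mul_cancel, stab_map_one]⟩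
  · rintro ⟨h, e⟩
    exact ⟨g * h, by rw [stab_map_mul, e]⟩

theorem stab_sec : ∃ s : List (Lt (ι ⊕ κ)) → GL (ι ⊕ κ) ℤ, ∀ g w, stabO ι κ w →
    ∃ γ, ∀ x, (s (w.map (act g)))⁻¹ * (g * x) = stL ℤ ι κ γ * ((s w)⁻¹ * x) := by
  have h1 : ∀ w, ∃ g, stabO ι κ w → (stabW ι κ).map (act g) = w := fun w => by
    by_cases h : stabO ι κ w
    · exact h.imp fun _ e _ => e
    · exact ⟨1, fun h' => absurd h' h⟩
  choose s hs using h1
  refine ⟨s, fun g w hw => ?_⟩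
  have e' := hs _ ((stabO_act g w).2 hw)
  obtain ⟨γ, e⟩ := stab_fix (g := (s (w.map (act g)))⁻¹ * (g * s w)) (by
    rw [stab_map_mul, stab_map_mul, hs w hw]
    refine (congrArg (List.map (act (s (w.map (act g)))⁻¹)) e'.symm).trans ?_
    rw [← stab_map_mul, inv_mul_cancel, stab_map_one])
  exact ⟨γ, fun x => by rw [e]; group⟩

end base

theorem stab (ι κ : Type) [Fintype ι] [DecidableEq ι] [Fintype κ] [DecidableEq κ] {k : ℕ}
    (hk : 1 ≤ k) (h : 3 * k + 4 ≤ Fintype.card ι) {z : Ch A (GL (ι ⊕ κ) ℤ)}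
    (hz : z ∈ Zc A (GL (ι ⊕ κ) ℤ) (GL (ι ⊕ κ) ℤ) (k + 1)) :
    ∃ z₀ ∈ Zc A (GL ι ℤ) (GL ι ℤ) (k + 1),
      z - mp (stL ℤ ι κ) z₀ ∈ Bd A (GL (ι ⊕ κ) ℤ) (GL (ι ⊕ κ) ℤ) (k + 1) := by
  classical
  obtain ⟨y, hy, hy0, hyz⟩ := stab_climb hk hz (Fintype.card κ)
    (by rw [Fintype.card_sum]; omega)
  obtain ⟨ρ, hρ⟩ := stab_rho (stL ℤ ι κ) (stab_inj ι κ)
  obtain ⟨s, hs⟩ := stab_sec (ι := ι) (κ := κ)
  have hO : ∀ w : List (Lt (ι ⊕ κ)), w.length = Fintype.card κ → SW [] w → stabO ι κ w :=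
    fun w h1 h2 => (stabW_SW ι κ).exists_act h2 (by rw [stabW_len, h1])
  let T : List (Lt (ι ⊕ κ)) → Ch A (GL (ι ⊕ κ) ℤ) →ₗ[A] Ch A (GL ι ℤ) := fun w =>
    if stabO ι κ w then mp fun x => ρ ((s w)⁻¹ * x) else 0
  let H : List (Lt (ι ⊕ κ)) → Ch A (GL (ι ⊕ κ) ℤ) →ₗ[A] Ch A (GL (ι ⊕ κ) ℤ) := fun w =>
    if stabO ι κ w then pr (fun x => (s w)⁻¹ * x) fun x => stL ℤ ι κ (ρ ((s w)⁻¹ * x)) else 0
  have hT : ∀ w, stabO ι κ w → T w = mp fun x => ρ ((s w)⁻¹ * x) := fun w hw => if_pos hw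
  have hT' : ∀ w, ¬stabO ι κ w → T w = 0 := fun w hw => if_neg hw
  have hH : ∀ w, stabO ι κ w →
      H w = pr (fun x => (s w)⁻¹ * x) fun x => stL ℤ ι κ (ρ ((s w)⁻¹ * x)) := fun w hw => if_pos hw
  have hH' : ∀ w, ¬stabO ι κ w → H w = 0 := fun w hw => if_neg hw
  have TII : stabL T (vD A y) ∈ IG A (GL ι ℤ) (GL ι ℤ) := by
    refine stabL_II T _ (fun g u w => ?_) hy0
    by_cases hw : stabO ι κ w
    · obtain ⟨γ, e⟩ := hs g w hw
      rw [hT w hw, hT _ ((stabO_act g w).2 hw), mp_wd, mp_wd, List.map_map]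
      have e1 : u.map ((fun x => ρ ((s (w.map (act g)))⁻¹ * x)) ∘ fun x => g * x) =
          (u.map fun x => ρ ((s w)⁻¹ * x)).map (γ • ·) := by
        rw [List.map_map]
        exact List.map_congr_left fun x _ => by
          simp only [Function.comp_apply, e, hρ, smul_eq_mul]
      rw [e1]
      exact sub_mem_IP γ trivial
    · rw [hT' w hw, hT' _ fun h' => hw ((stabO_act g w).1 h'), LinearMap.zero_apply,
        LinearMap.zero_apply, sub_self]
      exact zero_mem _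
  have HII : stabL H (vD A y) ∈ IG A (GL (ι ⊕ κ) ℤ) (GL (ι ⊕ κ) ℤ) := by
    refine stabL_II H _ (fun g u w => ?_) hy0
    by_cases hw : stabO ι κ w
    · obtain ⟨γ, e⟩ := hs g w hw
      rw [hH w hw, hH _ ((stabO_act g w).2 hw), pr_wd, pr_wd, prW_map]
      have e1 : ((fun x => (s (w.map (act g)))⁻¹ * x) ∘ fun x => g * x) =
          (stL ℤ ι κ γ • ·) ∘ fun x => (s w)⁻¹ * x := funext fun x => e x
      have e2 : ((fun x => stL ℤ ι κ (ρ ((s (w.map (act g)))⁻¹ * x))) ∘ fun x => g * x) =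
          (stL ℤ ι κ γ • ·) ∘ fun x => stL ℤ ι κ (ρ ((s w)⁻¹ * x)) := funext fun x => by
        simp only [Function.comp_apply, e, hρ, smul_eq_mul, map_mul]
      rw [e1, e2, ← mp_prW]
      exact mp_smul_sub_IG _ _
    · rw [hH' w hw, hH' _ fun h' => hw ((stabO_act g w).1 h'), LinearMap.zero_apply,
        LinearMap.zero_apply, sub_self]
      exact zero_mem _
  have Tlen : stabL T y ∈ len A (GL ι ℤ) (k + 1) :=
    stab_ED _ _ (fun p h1 h2 h3 => by
      rw [stabL_single, hT _ (hO _ h2 h3)]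
      exact mp_len _ (wd_mem h1)) hy
  have Hlen : stabL H y ∈ len A (GL (ι ⊕ κ) ℤ) (k + 1 + 1) :=
    stab_ED _ _ (fun p h1 h2 h3 => by
      rw [stabL_single, hH _ (hO _ h2 h3)]
      exact pr_len _ _ (wd_mem h1)) hy
  have Tbd : bd (stabL T y) = stabL T (vD A y) := by
    have := stab_ED (bd ∘ₗ stabL T - stabL T ∘ₗ vD A) ⊥ (fun p h1 h2 h3 => by
      rw [Submodule.mem_bot, LinearMap.sub_apply, LinearMap.comp_apply, LinearMap.comp_apply,
        stab_vD (by omega), stabL_tpL, stabL_single, hT _ (hO _ h2 h3), bd_mp, sub_self]) hy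
    rw [Submodule.mem_bot, LinearMap.sub_apply, sub_eq_zero] at this
    exact this
  have key := stab_ED (mp (stL ℤ ι κ) ∘ₗ stabL T - stabP A (ι ⊕ κ) - bd ∘ₗ stabL H -
      stabL H ∘ₗ vD A) (IG A (GL (ι ⊕ κ) ℤ) (GL (ι ⊕ κ) ℤ)) (fun p h1 h2 h3 => by
    simp only [LinearMap.sub_apply, LinearMap.comp_apply]
    rw [stab_vD (by omega), stabL_tpL, stabL_single, stabL_single, stabP_single,
      hT _ (hO _ h2 h3), hH _ (hO _ h2 h3), mp_mp, sub_sub (_ - wd p.1), bd_pr]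
    have e : ∀ a b c : Ch A (GL (ι ⊕ κ) ℤ), a - b - (a - c) = c - b := fun a b c => by abel
    exact (e _ _ _).symm ▸ mp_smul_sub_IG (s p.2)⁻¹ (wd p.1)) hy
  simp only [LinearMap.sub_apply, LinearMap.comp_apply] at key
  have key2 := add_mem key HII
  rw [sub_add_cancel] at key2
  have key3 : mp (stL ℤ ι κ) (stabL T y) - stabP A (ι ⊕ κ) y ∈
      Bd A (GL (ι ⊕ κ) ℤ) (GL (ι ⊕ κ) ℤ) (k + 1) := mem_Bd.2 ⟨_, Hlen, key2⟩
  refine ⟨stabL T y, mem_Zc.2 ⟨Tlen, Tbd ▸ TII⟩, ?_⟩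
  have := neg_mem (add_mem key3 hyz)
  rwa [sub_add_sub_cancel, neg_sub] at this

end

end Pool.Agent.Lib.MP_446a91_nt.Rk
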