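import Pool.Agent.Lib.MP_446a91_nt.Rk.Add
import Pool.Agent.Lib.MP_446a91_nt.Rk.Stab
import Pool.Agent.Lib.MP_446a91_nt.Rk.Fg

/-!
Reduction of all cycles to integral cycles of one group.
-/

namespace Pool.Agent.Lib.MP_446a91_nt.Rk

open Matrix Filter Topology Pool.Agent.Lib.MP_446a91_nt.Sou

set_option linter.unusedSectionVars false

noncomputable section

variable {q : ℕ} {ι : Type} [Fintype ι] [DecidableEq ι]


theorem red0_cyc {G : Type} [Group G] {c : Ch ℤ G} (h : Cyc G 0 c) (N : ℕ) : Cyc G N c := by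
  obtain ⟨b, hb⟩ := h
  exact ⟨0, by simpa using hb⟩

theorem red0_hom {G G' : Type} [Group G] [Group G'] (f : G →* G') (g : G) :
    ∃ g' : G', ∀ x, f (g • x) = g' • f x := ⟨f g, fun x => map_mul f g x⟩

theorem red0_sub {R : Type} [CommRing R] {N : ℕ} (e : AddSys R q N) (a b : Ch ℤ (GL ι ℤ)) :
    e.val (a - b) = e.val a - e.val b := by
  simp only [AddSys.val, map_sub]

theorem red0_smul {R : Type} [CommRing R] {N : ℕ} (e : AddSys R q N) (t : ℤ) (a : Ch ℤ (GL ι ℤ)) :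
    e.val (t • a) = t • e.val a := by
  simp only [AddSys.val, map_smul]

/-- `mp stR`, then `stab` over `ℤ`. -/
theorem reduce_int (hq : 1 ≤ q) (h : 3 * q + 4 ≤ Fintype.card ι) (I : Type) [Fintype I]
    [DecidableEq I] {x : Ch ℤ (GL I ℤ)} (hx : x ∈ len ℤ _ (q + 1)) (hc : Cyc (GL I ℤ) 0 x) :
    ∃ x₀ ∈ Zc ℤ (GL ι ℤ) (GL ι ℤ) (q + 1), ∀ (R : Type) [CommRing R] (N : ℕ) (e : AddSys R q N),
      e.val x = e.val x₀ := by
  obtain ⟨x₀, h1, h2⟩ := stab ι I hq h (mp_Zc (stR ℤ ι I) (red0_hom _) (Zc_cyc.2 ⟨hx, hc⟩))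
  refine ⟨x₀, h1, fun R _ N e => ?_⟩
  have h3 := val_Bd e h2
  rwa [red0_sub, val_stR hq e hx (red0_cyc hc N),
    val_stL hq e (Zc_cyc.1 h1).1 (red0_cyc (Zc_cyc.1 h1).2 N), sub_eq_zero] at h3

/-- `mp stR`, `stab` over `ZMod N` (`cyc_iff`, `bc_surj`), `int_lift`. -/
theorem reduce_mod (hq : 1 ≤ q) (h : 3 * q + 4 ≤ Fintype.card ι) : ∃ t : ℤ, t ≠ 0 ∧ ∀ N : ℕ, N ≠ 0 →
    ∀ (J : Type) [Fintype J] [DecidableEq J] (y : Ch ℤ (GL J ℤ)), y ∈ len ℤ _ (q + 1) →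
      Cyc (GL J ℤ) N y → ∃ y₀ ∈ Zc ℤ (GL ι ℤ) (GL ι ℤ) (q + 1),
        ∀ (R : Type) [CommRing R] (e : AddSys R q N), t • e.val y = e.val y₀ := by
  obtain ⟨t, ht, h0⟩ := int_lift ι q
  refine ⟨t, ht, fun N hN J _ _ y hy hc => ?_⟩
  obtain ⟨z₀, h1, h2⟩ := stab ι J hq h (mem_Zc.2 ⟨bc_len (mp_len (stR ℤ ι J) hy),
    (cyc_iff N _).1 (hc.mp (stR ℤ ι J) (red0_hom _))⟩)
  obtain ⟨y', h3, rfl⟩ := bc_surj N (mem_Zc.1 h1).1
  have h4 : Cyc (GL ι ℤ) N y' := (cyc_iff N _).2 (mem_Zc.1 h1).2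
  obtain ⟨u, h5⟩ := h0 N hN y' h3 h4
  refine ⟨_, h5, fun R _ e => ?_⟩
  rw [← bc_mp, ← map_sub] at h2
  have h6 := val_Bd_mod e h2
  rw [red0_sub, val_stR hq e hy hc, val_stL hq e h3 h4, sub_eq_zero] at h6
  rw [red0_sub, red0_smul, red0_smul, h6, zsmul_eq_mul _ (N : ℤ), Int.cast_natCast,
    ZMod.natCast_self, zero_mul, sub_zero]

end

end Pool.Agent.Lib.MP_446a91_nt.Rk
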