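import Pool.Agent.Lib.MP_446a91_nt.Rk.Rt2
import Pool.Agent.Lib.MP_446a91_nt.Rk.Red0
import Pool.Agent.Lib.MP_446a91_nt.Rk.Alg
import Pool.Agent.Lib.MP_446a91_nt.Rk.Lam

/-!
The rank one theorem. `ι = Fin (89 q)`, `Y = Lam (ι × Fin q) r`,
`J = Bd ⊔ span {∑ mp (op l) z - card • z}`, `ξ = Xi`. If `ξ a, ξ b` were independent modulo `J`,
`exists_dual` gives two eigenclasses `w ↦ f (wd w)`, against `rt2`. Every `e` kills `J`.
-/

namespace Pool.Agent.Lib.MP_446a91_nt.Rk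

open Matrix Filter Topology Pool.Agent.Lib.MP_446a91_nt.Sou

set_option linter.unusedSectionVars false

noncomputable section

section
variable {ι : Type} [Fintype ι] [DecidableEq ι] {r d : ℕ} {H : Hk ι r} {t : ℝˣ} {Y : Type}
  [MulAction (GL ι ℤ) Y]

/-- Boundaries and the image of `T - deg`. -/
def main_J (S : HS H t Y d) [Fintype (Lb ι r)] : Submodule ℤ (Ch ℤ Y) :=
  Bd ℤ Y (GL ι ℤ) (d + 1) ⊔ Submodule.span ℤ {c | ∃ z ∈ Zc ℤ Y (GL ι ℤ) (d + 1),
    c = ∑ l, mp (S.op l) z - (Fintype.card (Lb ι r) : ℤ) • z}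

theorem main_eig (S : HS H t Y d) [i : Fintype (Lb ι r)] (f : Ch ℤ Y →ₗ[ℤ] ℝ)
    (hf : ∀ x ∈ main_J S, f x = 0) : S.Eig fun w => f (wd w) where
  inv g w := by
    have := hf _ (Submodule.mem_sup_left (Submodule.mem_sup_right
      (sub_mem_IP (A := ℤ) (P := fun _ => True) g (w := w) trivial)))
    rwa [map_sub, sub_eq_zero] at this
  coc w hw := by
    rw [lin_self]
    exact hf _ (Submodule.mem_sup_left (Submodule.mem_sup_left
      ⟨wd w, wd_mem hw, bd_wd w⟩))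
  eig := by
    intro i' z hz
    obtain rfl : i = i' := Subsingleton.elim _ _
    have := hf _ (Submodule.mem_sup_right (Submodule.subset_span ⟨z, hz, rfl⟩))
    rw [map_sub, sub_eq_zero, map_smul] at this
    rw [lin_self, lin_self, this]
    simp

theorem main_kill (S : HS H t Y d) [Fintype (Lb ι r)] {M : Type} [AddCommGroup M]
    {κ : List Y → M} (h1 : Inv (GL ι ℤ) κ) (h2 : Coc (d + 1) κ)
    (h3 : ∀ l w, κ (w.map (S.op l)) = κ w) {c : Ch ℤ Y} (hc : c ∈ main_J S) :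
    lin ℤ κ c = 0 := by
  have : main_J S ≤ LinearMap.ker (lin ℤ κ) := by
    refine sup_le (fun c hc => lin_Bd h1 h2 hc) (Submodule.span_le.2 ?_)
    rintro _ ⟨z, -, rfl⟩
    simp [lin_mp, h3]
  exact this hc

end

theorem rank_one {q : ℕ} (hq : 1 ≤ q) : RankOne q := by
  have hcard : Fintype.card (Fin (89 * q)) = 89 * q := Fintype.card_fin _
  obtain ⟨r, hr, hrt⟩ := rt2 (ι := Fin (89 * q)) (d := q) hq hcard.ge
  have hq4 : 3 * q + 4 ≤ Fintype.card (Fin (89 * q)) := by omega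
  have : Nonempty (Fin (89 * q) × Fin q) := ⟨⟨0, by omega⟩, ⟨0, hq⟩⟩
  obtain ⟨H⟩ := exists_hk (ι := Fin (89 * q) × Fin q) hr
  have hr0 : (r : ℝ) ≠ 0 := Nat.cast_ne_zero.2 hr.ne_zero
  obtain ⟨S, hinc, hop⟩ := exists_HS hr H (t := Units.mk0 _ hr0) rfl q
  have : NeZero r := ⟨hr.ne_zero⟩
  let _ : Fintype (Lb (Fin (89 * q) × Fin q) r) := Fintype.ofFinite _
  obtain ⟨F, hF1, hF2⟩ := fg_Zc (Fin (89 * q)) (q + 1)
  have kill : ∀ (N : ℕ) (e : AddSys (Zr r) q N) (c : Ch ℤ (Lam (Fin (89 * q) × Fin q) r)),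
      c ∈ main_J S → lin ℤ (X := Lam (Fin (89 * q) × Fin q) r) (e.e _) c = 0 := fun N e c hc =>
    main_kill S (κ := e.e _) (fun g w => e.inv _ (glMap _ (Int.castRingHom (Zr r)) g) w)
      (e.coc _) (fun l w => by
        obtain ⟨g, hg⟩ := hop l
        rw [funext hg]
        exact e.inv _ g w) hc
  have val : ∀ (N : ℕ) (e : AddSys (Zr r) q N), ∀ z ∈ Zc ℤ _ (GL (Fin (89 * q)) ℤ) (q + 1),
      lin ℤ (X := Lam (Fin (89 * q) × Fin q) r) (e.e _) (Xi q S.inc z) =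
        -(q.factorial : ℤ) • e.val z := fun N e z hz => by
    rw [hinc]
    exact val_Xi hq e hz.1 ⟨0, by simpa using hz.2⟩
  have hf : -(q.factorial : ℤ) ≠ 0 := neg_ne_zero.2 (Nat.cast_ne_zero.2 q.factorial_ne_zero)
  refine ⟨r, hr.ne_zero, fun I _ _ x hx hc => ?_⟩
  obtain ⟨x₀, hx₀, hxv⟩ := reduce_int hq hq4 I hx hc
  refine (rank_le_one _ _ F hF1 hF2 (main_J S) (Xi q S.inc) (fun z hz => ?_)
    (fun a ha b hb => ?_) hx₀).imp ?_ ?_
  · rw [Xi, LinearMap.sum_apply]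
    refine Submodule.mem_sup_left (Submodule.sum_mem _ fun k _ => Submodule.smul_mem _ _ ?_)
    exact mp_Bd _ (fun g => ⟨blkG ℤ q k g, fun x => by
      rw [smul_eq_mul, map_mul, S.inc_mul]⟩) hz
  · by_contra hcon
    obtain ⟨f, g, f0, g0, f1, f2, g1, g2⟩ := exists_dual (main_J S) (Xi q S.inc a) (Xi q S.inc b)
      fun s t hst => by
        by_contra h
        exact hcon ⟨s, t, by tauto, hst⟩
    obtain ⟨s, t, hst, h⟩ := hrt H _ rfl _ S _ _ (main_eig S f f0) (main_eig S g g0)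
    have h1 := h a ha
    have h2 := h b hb
    rw [lin_self, lin_self] at h1 h2
    rw [f1, g1] at h1
    rw [f2, g2] at h2
    rcases hst with h | h
    · exact h (by simpa using h1)
    · exact h (by simpa using h2)
  · rintro ⟨c, hc0, h⟩
    refine ⟨c * -(q.factorial : ℤ), mul_ne_zero hc0 hf, fun N e => ?_⟩
    have := kill N e _ h
    rwa [map_smul, val N e x₀ hx₀, ← hxv, ← mul_smul] at this
  · rintro ⟨c, hc0, h⟩
    obtain ⟨t, ht0, ht⟩ := reduce_mod hq hq4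
    refine ⟨c * -(q.factorial : ℤ) * t, mul_ne_zero (mul_ne_zero hc0 hf) ht0,
      fun N hN J _ _ y hy hyc => ?_⟩
    obtain ⟨y₀, hy₀, hyv⟩ := ht N hN J y hy hyc
    obtain ⟨a, ha⟩ := h y₀ hy₀
    refine ⟨a * -(q.factorial : ℤ), fun e => ?_⟩
    have := kill N e _ ha
    rw [map_sub, map_smul, map_smul, val N e x₀ hx₀, val N e y₀ hy₀, ← hxv, ← hyv,
      sub_eq_zero] at this
    simpa only [mul_smul] using this

end

end Pool.Agent.Lib.MP_446a91_nt.Rk
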