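import Pool.Agent.Lib.MP_446a91_nt.Rk.I1

/-!
Disconnected regular labelings. `blk d k (single u v 1) 0 = ∑_(j<k) single (u,j) (v,j) 1`; expand:
sum over colourings `a : Fin d → Fin d` with values `< k` of the value on `x ↦ (l x, a x.1)`. If two
half edges with the same label have different colours a label has multiplicity one (`IsFm.odd`).
Otherwise `IsFm.relabel` (swap `(u, 0)` and `(u, colour of u)`) gives the value `τ` of the constant
colouring. Admissible colourings are the functions on the quotient of `Fin d` by the generated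
equivalence relation, so there are `k ^ j`, `j ≤ d`, and `2 ≤ j` if the labeling is not connected.
-/

namespace Pool.Agent.Lib.MP_446a91_nt.Rk

open Matrix Filter Topology Pool.Agent.Lib.MP_446a91_nt.Sou

set_option linter.unusedSectionVars false

noncomputable section

variable {ι : Type} [Fintype ι] [DecidableEq ι] {d : ℕ}


theorem i2_alt_pow {j : ℕ} (hj : j < d) :
    ∑ k ∈ Finset.range (d + 1), (-1 : ℤ) ^ k * (d.choose k : ℤ) * (k : ℤ) ^ j = 0 := by
  have h0 := congrFun (fwdDiff_iter_pow_eq_zero_of_lt (R := ℤ) hj) 0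
  rw [fwdDiff_iter_eq_sum_shift] at h0
  have h1 : ∑ k ∈ Finset.range (d + 1), (-1 : ℤ) ^ k * (d.choose k : ℤ) * (k : ℤ) ^ j =
      (-1 : ℤ) ^ d * ∑ k ∈ Finset.range (d + 1),
        ((-1 : ℤ) ^ (d - k) * (d.choose k : ℤ)) • ((0 : ℤ) + k • (1 : ℤ)) ^ j := by
    rw [Finset.mul_sum]
    refine Finset.sum_congr rfl fun k hk => ?_
    have hk' : k ≤ d := Nat.lt_succ_iff.1 (Finset.mem_range.1 hk)
    have e : (-1 : ℤ) ^ d = (-1) ^ (d - k) * (-1) ^ k := by
      rw [← pow_add, Nat.sub_add_cancel hk']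
    have e2 : (-1 : ℤ) ^ (d - k) * (-1) ^ (d - k) = 1 := by
      rw [← mul_pow]; simp
    simp only [smul_eq_mul, zero_add, nsmul_eq_mul, mul_one]
    rw [e]
    linear_combination (-((-1 : ℤ) ^ k * (d.choose k : ℤ) * (k : ℤ) ^ j)) * e2
  rw [h1, h0]
  simp

theorem i2_be_mul {k : ℕ} (h1 : 1 ≤ k) (hk : k ≤ d) :
    be d k * (k : ℤ) = (-1 : ℤ) ^ k * (d.choose k : ℤ) * (d.factorial : ℤ) := by
  have e : d.factorial / k * k = d.factorial := Nat.div_mul_cancel (Nat.dvd_factorial h1 hk)
  have e' : ((d.factorial / k : ℕ) : ℤ) * (k : ℤ) = (d.factorial : ℤ) := by exact_mod_cast e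
  rw [be, mul_assoc, e']

/-- `fwdDiff_iter_pow_eq_zero_of_lt`, `fwdDiff_iter_eq_sum_shift`. -/
theorem sum_be_pow {j : ℕ} (h2 : 2 ≤ j) (hj : j ≤ d) :
    ∑ k ∈ Finset.range (d + 1), be d k * (k : ℤ) ^ j = 0 := by
  obtain ⟨m, rfl⟩ : ∃ m, j = m + 2 := ⟨j - 2, by omega⟩
  have h0 := i2_alt_pow (d := d) (j := m + 1) (by omega)
  have h1 : ∑ k ∈ Finset.range (d + 1), be d k * (k : ℤ) ^ (m + 2) =
      (d.factorial : ℤ) * ∑ k ∈ Finset.range (d + 1),
        (-1 : ℤ) ^ k * (d.choose k : ℤ) * (k : ℤ) ^ (m + 1) := by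
    rw [Finset.mul_sum]
    refine Finset.sum_congr rfl fun k hk => ?_
    have hk' : k ≤ d := Nat.lt_succ_iff.1 (Finset.mem_range.1 hk)
    rcases Nat.eq_zero_or_pos k with rfl | hp
    · simp
    · have := i2_be_mul hp hk'
      linear_combination ((k : ℤ) ^ (m + 1)) * this
  rw [h1, h0, mul_zero]

theorem sum_be_one (hd : 1 ≤ d) :
    ∑ k ∈ Finset.range (d + 1), be d k * (k : ℤ) = -(d.factorial : ℤ) := by
  have h0 := Int.alternating_sum_range_choose_of_ne (n := d) (by omega)
  have h1 : ∑ k ∈ Finset.range (d + 1), be d k * (k : ℤ) =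
      ∑ k ∈ Finset.range (d + 1), ((d.factorial : ℤ) * ((-1 : ℤ) ^ k * (d.choose k : ℤ)) -
        if k = 0 then (d.factorial : ℤ) else 0) := by
    refine Finset.sum_congr rfl fun k hk => ?_
    have hk' : k ≤ d := Nat.lt_succ_iff.1 (Finset.mem_range.1 hk)
    rcases Nat.eq_zero_or_pos k with rfl | hp
    · simp
    · rw [i2_be_mul hp hk', if_neg hp.ne']
      ring
  rw [h1, Finset.sum_sub_distrib, ← Finset.mul_sum, h0]
  simp

theorem i2_blk_single (k : ℕ) (u v : ι) :
    blk d k (Matrix.single u v (1 : ℝ)) 0 =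
      ∑ j ∈ Finset.univ.filter (fun j : Fin d => j.1 < k), Matrix.single (u, j) (v, j) (1 : ℝ) := by
  ext ⟨x, i⟩ ⟨y, i'⟩
  rw [Matrix.sum_apply, blk, blockDiagonal_apply, Finset.sum_filter]
  by_cases hi : i = i'
  · subst hi
    rw [Finset.sum_eq_single i]
    · by_cases hk : i.1 < k <;> simp [hk, Matrix.single_apply]
    · intro b _ hb
      simp [hb]
    · intro hb
      exact absurd (Finset.mem_univ i) hb
  · rw [if_neg hi]
    symm
    refine Finset.sum_eq_zero fun b _ => ?_
    rw [Matrix.single_apply, if_neg (c := (u, b) = (x, i) ∧ (v, b) = (y, i')), ite_self]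
    rintro ⟨h1, h2⟩
    exact hi ((Prod.mk.inj h1).2.symm.trans (Prod.mk.inj h2).2)

/-- The coloured labeling. -/
def i2_col (l : Fin d × Bool → ι) (a : Fin d → Fin d) (x : Fin d × Bool) : ι × Fin d :=
  (l x, a x.1)

theorem i2_expand (ω : Fm (ι × Fin d) d) (l : Fin d × Bool → ι) (k : ℕ) :
    ω (fun i => blk d k (El l i) 0) =
      ∑ a ∈ Fintype.piFinset (fun _ : Fin d => Finset.univ.filter (fun j : Fin d => j.1 < k)),
        ω (El (i2_col l a)) := by
  simp only [El, i2_blk_single]
  exact ω.map_sum_finset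
    (fun i j => Matrix.single (l (i, false), j) (l (i, true), j) (1 : ℝ)) _

/-- Colourings compatible with the labeling. -/
def i2_Adm (l : Fin d × Bool → ι) (a : Fin d → Fin d) : Prop :=
  ∀ h h', l h = l h' → a h.1 = a h'.1

theorem i2_not_adm {ω : Fm (ι × Fin d) d} (h : IsFm ω) {l : Fin d × Bool → ι} (hl : Reg l)
    {a : Fin d → Fin d} (ha : ¬ i2_Adm l a) : ω (El (i2_col l a)) = 0 := by
  simp only [i2_Adm, not_forall] at ha
  obtain ⟨x, y, hxy, hne⟩ := ha
  have hxy' : x ≠ y := fun e => hne (by rw [e])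
  refine h.odd _ (l x, a x.1) ?_
  have hsub : ({x, y} : Finset (Fin d × Bool)) ⊆ Finset.univ.filter fun z => l z = l x := by
    intro z hz
    simp only [Finset.mem_insert, Finset.mem_singleton] at hz
    rcases hz with rfl | rfl <;> simp [hxy]
  have hc2 : ({x, y} : Finset (Fin d × Bool)).card = 2 := Finset.card_pair hxy'
  have hle := Finset.card_le_card hsub
  have heq : ({x, y} : Finset (Fin d × Bool)) = Finset.univ.filter fun z => l z = l x := by
    refine Finset.eq_of_subset_of_card_le hsub ?_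
    rcases hl (l x) with h0 | h0 <;> omega
  have : (Finset.univ.filter fun z => i2_col l a z = (l x, a x.1)) = {x} := by
    ext z
    simp only [Finset.mem_filter, Finset.mem_univ, true_and, Finset.mem_singleton, i2_col,
      Prod.mk.injEq]
    constructor
    · rintro ⟨h1, h2⟩
      have hz : z ∈ ({x, y} : Finset (Fin d × Bool)) := by
        rw [heq]; simp [h1]
      simp only [Finset.mem_insert, Finset.mem_singleton] at hz
      rcases hz with rfl | rfl
      · rfl
      · exact absurd h2.symm hne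
    · rintro rfl
      exact ⟨rfl, rfl⟩
  rw [this]
  simp

theorem i2_adm {ω : Fm (ι × Fin d) d} (h : IsFm ω) {l : Fin d × Bool → ι}
    {a : Fin d → Fin d} (ha : i2_Adm l a) (z : Fin d) :
    ω (El (i2_col l a)) = ω (El (i2_col l fun _ => z)) := by
  classical
  let c : ι → Fin d := fun u => if hu : ∃ x, l x = u then a hu.choose.1 else z
  have hc : ∀ x, c (l x) = a x.1 := fun x => by
    have hu : ∃ y, l y = l x := ⟨x, rfl⟩
    simp only [c, dif_pos hu]
    exact ha _ _ hu.choose_spec
  have e : i2_col l a =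
      (Equiv.prodCongrRight fun u => Equiv.swap z (c u)) ∘ i2_col l fun _ => z := by
    funext x
    simp [i2_col, hc]
  rw [e, h.relabel]

/-- The components of the graph of a labeling. -/
def i2_rel (l : Fin d × Bool → ι) : Setoid (Fin d) where
  r i i' := ∀ a : Fin d → Prop, (∀ h h', l h = l h' → (a h.1 ↔ a h'.1)) → (a i ↔ a i')
  iseqv := ⟨fun _ _ _ => Iff.rfl, fun h a ha => (h a ha).symm,
    fun h h' a ha => (h a ha).trans (h' a ha)⟩

open Classical in
theorem i2_count (l : Fin d × Bool → ι) (A : Finset (Fin d)) :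
    ((Fintype.piFinset fun _ : Fin d => A).filter (i2_Adm l)).card =
      A.card ^ Fintype.card (Quotient (i2_rel l)) := by
  have e0 : A.card ^ Fintype.card (Quotient (i2_rel l)) =
      (Fintype.piFinset fun _ : Quotient (i2_rel l) => A).card := by simp
  rw [e0]
  symm
  refine Finset.card_bij (fun b _ => fun i => b (Quotient.mk (i2_rel l) i)) ?_ ?_ ?_
  · intro b hb
    rw [Finset.mem_filter, Fintype.mem_piFinset]
    refine ⟨fun i => Fintype.mem_piFinset.1 hb _, fun x y hxy => ?_⟩
    have : Quotient.mk (i2_rel l) x.1 = Quotient.mk (i2_rel l) y.1 :=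
      Quotient.sound fun a ha => ha x y hxy
    simp only [this]
  · intro b _ b' _ e
    funext q
    obtain ⟨i, rfl⟩ := Quotient.exists_rep q
    exact congrFun e i
  · intro a ha
    rw [Finset.mem_filter, Fintype.mem_piFinset] at ha
    refine ⟨Quotient.lift a fun i i' hi => ?_, ?_, rfl⟩
    · exact ((hi (fun j => a j = a i') fun x y hxy => by rw [ha.2 x y hxy]).2 rfl)
    · rw [Fintype.mem_piFinset]
      intro q
      obtain ⟨i, rfl⟩ := Quotient.exists_rep q
      exact ha.1 i

theorem tl_disconnected {ω : Fm (ι × Fin d) d} (h : IsFm ω) {l : Fin d × Bool → ι} (hl : Reg l)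
    (hc : ¬ Conn l) : tl ω (El l) = 0 := by
  classical
  simp only [Conn, not_forall] at hc
  obtain ⟨p, hp, i, i', hne⟩ := hc
  have hq : Quotient.mk (i2_rel l) i ≠ Quotient.mk (i2_rel l) i' := fun e =>
    hne (Quotient.exact e p hp)
  have h2 : 2 ≤ Fintype.card (Quotient (i2_rel l)) :=
    Fintype.one_lt_card_iff.2 ⟨_, _, hq⟩
  have hd : Fintype.card (Quotient (i2_rel l)) ≤ d := by
    have := Fintype.card_le_of_surjective _ (Quotient.mk_surjective (s := i2_rel l))
    simpa using this
  have key : ∀ k ∈ Finset.range (d + 1), ω (fun i => blk d k (El l i) 0) =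
      (k : ℝ) ^ Fintype.card (Quotient (i2_rel l)) * ω (El (i2_col l fun _ => i)) := by
    intro k hk
    have hk' : k ≤ d := Nat.lt_succ_iff.1 (Finset.mem_range.1 hk)
    rw [i2_expand, ← Finset.sum_filter_add_sum_filter_not _ (i2_Adm l),
      Finset.sum_eq_zero (s := Finset.filter (fun a => ¬ i2_Adm l a) _)
        fun a ha => i2_not_adm h hl (Finset.mem_filter.1 ha).2, add_zero,
      Finset.sum_congr rfl fun a ha => i2_adm h (Finset.mem_filter.1 ha).2 i,
      Finset.sum_const, i2_count, Fin.card_filter_val_lt, min_eq_right hk', nsmul_eq_mul]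
    push_cast
    rfl
  have hs : ∑ k ∈ Finset.range (d + 1),
      (be d k : ℝ) * (k : ℝ) ^ Fintype.card (Quotient (i2_rel l)) = 0 := by
    exact_mod_cast sum_be_pow h2 hd
  rw [tl, Finset.sum_congr rfl fun k hk => by rw [key k hk, ← mul_assoc], ← Finset.sum_mul, hs,
    zero_mul]

end

end Pool.Agent.Lib.MP_446a91_nt.Rk
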