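import Pool.Agent.Lib.MP_446a91_nt.Sou.If
import Pool.Agent.Lib.MP_446a91_nt.Rk.Nf
import Pool.Agent.Lib.MP_446a91_nt.Rk.I2

/-!
Values of additive systems under block maps (`AddSys.add` with a permutation matrix `P`; a trivial
block contributes `e (1, …, 1) = 0` by `nrm`).
-/

namespace Pool.Agent.Lib.MP_446a91_nt.Rk

open Matrix Filter Topology Pool.Agent.Lib.MP_446a91_nt.Sou

set_option linter.unusedSectionVars false

noncomputable section

variable {R : Type} [CommRing R] {q N : ℕ} {ι κ : Type} [Fintype ι] [DecidableEq ι] [Fintype κ]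
  [DecidableEq κ]

/-- Additivity for a block decomposition of the index set. -/
theorem add_blocks (e : AddSys R q N) {Γ : Type} [Group Γ] {I : κ → Type} [∀ k, Fintype (I k)]
    [∀ k, DecidableEq (I k)] (ρ : ∀ k, Γ →* GL (I k) R) (ρ' : Γ →* GL ι R) (ε : (Σ k, I k) ≃ ι)
    (h : ∀ γ a b, (ρ' γ : Matrix ι ι R) (ε a) (ε b) =
      blockDiagonal' (fun k => (ρ k γ : Matrix (I k) (I k) R)) a b)
    {z : Ch ℤ Γ} (hz : z ∈ len ℤ Γ (q + 1)) (hc : Cyc Γ N z) :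
    lin ℤ (e.e ι) (mp ρ' z) = ∑ k, lin ℤ (e.e (I k)) (mp (ρ k) z) := by
  refine e.add ρ ρ' ((1 : Matrix ι ι R).submatrix ε (Equiv.refl ι))
    ((1 : Matrix ι ι R).submatrix (Equiv.refl ι) ε) ?_ ?_ (fun γ => ?_) z hz (hc.weak dvd_rfl)
  · rw [submatrix_mul_equiv, Matrix.one_mul, submatrix_one_equiv]
  · rw [submatrix_mul_equiv, Matrix.one_mul, submatrix_one_equiv]
  · have h1 : blockDiagonal' (fun k => (ρ k γ : Matrix (I k) (I k) R)) =
        (ρ' γ : Matrix ι ι R).submatrix ε ε := Matrix.ext fun a b => (h γ a b).symm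
    rw [h1, submatrix_mul_equiv, Matrix.mul_one]
    exact (submatrix_mul_equiv 1 _ ε (Equiv.refl ι) id).trans (by rw [Matrix.one_mul]; rfl)

theorem add_triv (hq : 1 ≤ q) (e : AddSys R q N) {Γ : Type} [Group Γ] {z : Ch ℤ Γ}
    (hz : z ∈ len ℤ Γ (q + 1)) : lin ℤ (e.e ι) (mp (1 : Γ →* GL ι R) z) = 0 := by
  rw [lin_mp, ← lin_zero (M := ZMod N) z]
  refine lin_congr (fun w hw => ?_) hz
  match w, hw with
  | [], hw => simp at hw
  | [_], hw => simp at hw; omega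
  | _ :: _ :: w, _ => exact e.nrm ι [] 1 _

theorem add_two (e : AddSys R q N) {Γ : Type} [Group Γ] (ρ₁ : Γ →* GL ι R) (ρ₂ : Γ →* GL κ R)
    (ρ' : Γ →* GL (ι ⊕ κ) R) (h : ∀ γ, (ρ' γ : Matrix (ι ⊕ κ) (ι ⊕ κ) R) =
      fromBlocks (ρ₁ γ : Matrix ι ι R) 0 0 (ρ₂ γ : Matrix κ κ R))
    {z : Ch ℤ Γ} (hz : z ∈ len ℤ Γ (q + 1)) (hc : Cyc Γ N z) :
    lin ℤ (e.e (ι ⊕ κ)) (mp ρ' z) = lin ℤ (e.e ι) (mp ρ₁ z) + lin ℤ (e.e κ) (mp ρ₂ z) := by
  have h1 := @add_blocks R _ q N (ι ⊕ κ) Bool _ _ _ _ e Γ _ (fun b => bif b then κ else ι)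
    (fun b => match b with
      | true => inferInstanceAs (Fintype κ)
      | false => inferInstanceAs (Fintype ι))
    (fun b => match b with
      | true => inferInstanceAs (DecidableEq κ)
      | false => inferInstanceAs (DecidableEq ι))
    (fun b => match b with
      | true => ρ₂
      | false => ρ₁) ρ' (Equiv.sumEquivSigmaBool ι κ).symm ?_ z hz hc
  · rw [h1, Fintype.sum_bool, add_comm]
    rfl
  · rintro γ ⟨_ | _, a⟩ ⟨_ | _, b⟩ <;> rw [h] <;> rfl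

theorem val_stL (hq : 1 ≤ q) (e : AddSys R q N) {z : Ch ℤ (GL ι ℤ)} (hz : z ∈ len ℤ _ (q + 1))
    (hc : Cyc (GL ι ℤ) N z) : e.val (mp (stL ℤ ι κ) z) = e.val z := by
  have h := add_two e (glMap ι (Int.castRingHom R)) (1 : GL ι ℤ →* GL κ R)
    ((glMap _ (Int.castRingHom R)).comp (stL ℤ ι κ)) (fun γ => ?_) hz hc
  · rw [add_triv hq e hz, add_zero] at h
    rw [AddSys.val, mp_mp]
    exact h
  · change (fromBlocks (γ : Matrix ι ι ℤ) 0 0 1).map (Int.castRingHom R) = _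
    rw [fromBlocks_map, Matrix.map_one _ (map_zero _) (map_one _), Matrix.map_zero _ (map_zero _),
      Matrix.map_zero _ (map_zero _)]
    rfl

theorem val_stR (hq : 1 ≤ q) (e : AddSys R q N) {z : Ch ℤ (GL κ ℤ)} (hz : z ∈ len ℤ _ (q + 1))
    (hc : Cyc (GL κ ℤ) N z) : e.val (mp (stR ℤ ι κ) z) = e.val z := by
  have h := add_two e (1 : GL κ ℤ →* GL ι R) (glMap κ (Int.castRingHom R))
    ((glMap _ (Int.castRingHom R)).comp (stR ℤ ι κ)) (fun γ => ?_) hz hc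
  · rw [add_triv hq e hz, zero_add] at h
    rw [AddSys.val, mp_mp]
    exact h
  · change (fromBlocks 1 0 0 (γ : Matrix κ κ ℤ)).map (Int.castRingHom R) = _
    rw [fromBlocks_map, Matrix.map_one _ (map_zero _) (map_one _), Matrix.map_zero _ (map_zero _),
      Matrix.map_zero _ (map_zero _)]
    rfl

theorem val_blk (hq : 1 ≤ q) (e : AddSys R q N) {d k : ℕ} (hk : k ≤ d) {z : Ch ℤ (GL ι ℤ)}
    (hz : z ∈ len ℤ _ (q + 1)) (hc : Cyc (GL ι ℤ) N z) :
    e.val (mp (blkG ℤ d k) z) = (k : ℤ) • e.val z := by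
  have h := add_blocks e (I := fun _ : Fin d => ι)
    (fun j => if j.1 < k then glMap ι (Int.castRingHom R) else 1)
    ((glMap _ (Int.castRingHom R)).comp (blkG ℤ d k))
    ((Equiv.sigmaEquivProd _ _).trans (Equiv.prodComm _ _)) ?_ hz hc
  · have h1 : ∀ j : Fin d, lin ℤ (e.e ι) (mp (if j.1 < k then glMap ι (Int.castRingHom R) else 1 :
        GL ι ℤ →* GL ι R) z) = if j.1 < k then e.val z else 0 := fun j => by
      split_ifs
      exacts [rfl, add_triv hq e hz]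
    rw [AddSys.val, mp_mp]
    refine h.trans ?_
    simp only [h1]
    rw [← Finset.sum_filter, Finset.sum_const, Fin.card_filter_val_lt, min_eq_right hk,
      natCast_zsmul]
  · rintro γ ⟨i, a⟩ ⟨j, b⟩
    rw [← blockDiagonal'_eq_blockDiagonal]
    change Int.castRingHom R (blk d k (γ : Matrix ι ι ℤ) 1 (a, i) (b, j)) = _
    simp only [blk, blockDiagonal_apply]
    split_ifs
    · rfl
    · simp [Matrix.one_apply]
    · exact map_zero _

theorem val_Xi (hq : 1 ≤ q) (e : AddSys R q N) {z : Ch ℤ (GL ι ℤ)} (hz : z ∈ len ℤ _ (q + 1))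
    (hc : Cyc (GL ι ℤ) N z) :
    lin ℤ (e.e (ι × Fin q)) (Xi q (glMap (ι × Fin q) (Int.castRingHom R)) z) =
      -(q.factorial : ℤ) • e.val z := by
  rw [← sum_be_one hq, Finset.sum_smul, Xi, LinearMap.sum_apply, map_sum]
  refine Finset.sum_congr rfl fun k hk => ?_
  rw [LinearMap.smul_apply, map_smul, mul_smul,
    ← val_blk hq e (Nat.lt_succ_iff.1 (Finset.mem_range.1 hk)) hz hc, AddSys.val, mp_mp]
  rfl

theorem val_Bd (e : AddSys R q N) {z : Ch ℤ (GL ι ℤ)}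
    (hz : z ∈ Bd ℤ (GL ι ℤ) (GL ι ℤ) (q + 1)) : e.val z = 0 :=
  lin_Bd (e.inv ι) (e.coc ι) (mp_Bd _ (fun g => ⟨_, fun x => map_mul _ g x⟩) hz)

theorem val_Bd_mod (e : AddSys R q N) {z : Ch ℤ (GL ι ℤ)}
    (hz : bc (ZMod N) z ∈ Bd (ZMod N) (GL ι ℤ) (GL ι ℤ) (q + 1)) : e.val z = 0 := by
  rw [AddSys.val, ← lin_bc (A := ZMod N), bc_mp]
  exact lin_Bd (e.inv ι) (e.coc ι) (mp_Bd _ (fun g => ⟨_, fun x => map_mul _ g x⟩) hz)

end

end Pool.Agent.Lib.MP_446a91_nt.Rk
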