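import Pool.Agent.Lib.MP_446a91_nt.Rk.Nm

/-!
Antisymmetrisation is a chain map.
For `T : X → Ch →ₗ M` put `pk T [] = 0`, `pk T (a :: l) = T a l - pk (fun b => T b ∘ cons a) l`
(that is `∑ (-1)^i T l_i (l without i)`). `a 0 = id`, `a (n+1) = lin (pk fun b => cons b ∘ a n)`.
Facts by induction on `l` for all `T`: `pk (fun _ => S) l = S (dW l)`;
`pk (T · ∘ bd) l = - lin (pk T) (dW l)`; so `bd (a (n+1) l) = (n+1) • a n (dW l)` for `|l| = n+1`;
if every `T b` kills all `u ++ x :: y :: w + u ++ y :: x :: w` then so does `lin (pk T)`.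
Take `φ w = (|w|!)⁻¹ • a |w| w`.
-/

namespace Pool.Agent.Lib.MP_446a91_nt.Rk

open Matrix Filter Topology Pool.Agent.Lib.MP_446a91_nt.Sou

set_option linter.unusedSectionVars false

noncomputable section

variable {X : Type}

section
variable {M M' : Type} [AddCommGroup M] [Module ℝ M] [AddCommGroup M'] [Module ℝ M']

/-- The alternating sum over the choice of one letter. -/
def alt_pk : List X → (X → Ch ℝ X →ₗ[ℝ] M) → M
  | [], _ => 0
  | a :: l, T => T a (wd l) - alt_pk l fun b => T b ∘ₗ cons a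

theorem alt_pk_map (φ : M →ₗ[ℝ] M') (l : List X) (T : X → Ch ℝ X →ₗ[ℝ] M) :
    φ (alt_pk l T) = alt_pk l fun b => φ ∘ₗ T b := by
  induction l generalizing T with
  | nil => exact map_zero φ
  | cons a l ih =>
    rw [alt_pk, alt_pk, map_sub, ih]
    rfl

theorem alt_pk_sub (l : List X) (T T' : X → Ch ℝ X →ₗ[ℝ] M) :
    alt_pk l (fun b => T b - T' b) = alt_pk l T - alt_pk l T' := by
  induction l generalizing T T' with
  | nil => exact (sub_self _).symm
  | cons a l ih =>
    simp only [alt_pk, LinearMap.sub_comp, ih, LinearMap.sub_apply]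
    abel

theorem alt_pk_smul (l : List X) (t : ℝ) (T : X → Ch ℝ X →ₗ[ℝ] M) :
    alt_pk l (fun b => t • T b) = t • alt_pk l T := (alt_pk_map (t • LinearMap.id) l T).symm

theorem alt_pk_neg (l : List X) (T : X → Ch ℝ X →ₗ[ℝ] M) :
    alt_pk l (fun b => -T b) = -alt_pk l T := (alt_pk_map (-LinearMap.id) l T).symm

theorem alt_pk_const (l : List X) (S : Ch ℝ X →ₗ[ℝ] M) : alt_pk l (fun _ => S) = S (dW l) := by
  induction l generalizing S with
  | nil => exact (map_zero S).symm
  | cons a l ih =>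
    rw [alt_pk, ih, dW_cons, map_sub]
    rfl

theorem alt_pk_bd (l : List X) (T : X → Ch ℝ X →ₗ[ℝ] M) :
    alt_pk l (fun b => T b ∘ₗ bd) = -lin ℝ (alt_pk · T) (dW l) := by
  induction l generalizing T with
  | nil => simp [alt_pk]
  | cons a l ih =>
    have e : (fun b => (T b ∘ₗ bd) ∘ₗ cons a) = fun b => T b - (T b ∘ₗ cons a) ∘ₗ bd :=
      funext fun b => LinearMap.ext fun c => by simp [bd_cons]
    rw [alt_pk, e, alt_pk_sub, ih, dW_cons, map_sub, lin_cons]
    simp only [alt_pk, lin_sub, lin_self, lin_wd, LinearMap.comp_apply, bd_wd]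
    abel

theorem alt_pk_mp (g : X → X) (l : List X) (T : X → Ch ℝ X →ₗ[ℝ] M) :
    alt_pk (l.map g) T = alt_pk l fun b => T (g b) ∘ₗ mp g := by
  induction l generalizing T with
  | nil => rfl
  | cons a l ih =>
    have e : (fun b => (T (g b) ∘ₗ cons (g a)) ∘ₗ mp g) = fun b => (T (g b) ∘ₗ mp g) ∘ₗ cons a :=
      funext fun b => LinearMap.ext fun c => by simp [mp_cons]
    rw [List.map_cons, alt_pk, alt_pk, ih, e, LinearMap.comp_apply, mp_wd]

theorem alt_pk_mem (U : Submodule ℝ M) (l : List X) (T : X → Ch ℝ X →ₗ[ℝ] M)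
    (h : ∀ b u, (b :: u).Perm l → T b (wd u) ∈ U) : alt_pk l T ∈ U := by
  induction l generalizing T with
  | nil => exact zero_mem U
  | cons a l ih =>
    refine sub_mem (h a l (.refl _)) (ih _ fun b u e => ?_)
    rw [LinearMap.comp_apply, cons_wd]
    exact h b _ ((List.Perm.swap a b u).trans (e.cons a))

theorem alt_pk_n1 {B : ℝ} (l : List X) (T : X → Ch ℝ X →ₗ[ℝ] Ch ℝ X)
    (h : ∀ b u, (b :: u).Perm l → n1 (T b (wd u)) ≤ B) : n1 (alt_pk l T) ≤ l.length * B := by
  induction l generalizing T with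
  | nil => simp [alt_pk]
  | cons a l ih =>
    have h1 := ih (fun b => T b ∘ₗ cons a) fun b u e => by
      rw [LinearMap.comp_apply, cons_wd]
      exact h b _ ((List.Perm.swap a b u).trans (e.cons a))
    refine (n1_sub_le _ _).trans ((add_le_add (h a l (.refl _)) h1).trans_eq ?_)
    rw [List.length_cons]
    push_cast
    ring

theorem alt_pk_swap (T : X → Ch ℝ X →ₗ[ℝ] M)
    (h : ∀ b u x y w, T b (wd (u ++ x :: y :: w)) = -T b (wd (u ++ y :: x :: w))) (u : List X)
    (x y : X) (w : List X) : alt_pk (u ++ x :: y :: w) T = -alt_pk (u ++ y :: x :: w) T := by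
  induction u generalizing T with
  | nil =>
    have e : (fun b => (T b ∘ₗ cons x) ∘ₗ cons y) = fun b => -((T b ∘ₗ cons y) ∘ₗ cons x) :=
      funext fun b => ch_ext fun v => by simpa using h b [] x y v
    simp only [List.nil_append, alt_pk, e, alt_pk_neg, LinearMap.comp_apply, cons_wd]
    abel
  | cons a u ih =>
    rw [List.cons_append, List.cons_append, alt_pk, alt_pk, h, ih _ fun b u x y w => by
      simpa using h b (a :: u) x y w]
    abel

end

/-- The projection to the empty word. -/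
def alt_e : List X → Ch ℝ X
  | [] => wd []
  | _ :: _ => 0

/-- The signed sum over all orders, on words of length `n`. -/
def alt_a : ℕ → Ch ℝ X →ₗ[ℝ] Ch ℝ X
  | 0 => lin ℝ alt_e
  | n + 1 => lin ℝ (alt_pk · fun b => cons b ∘ₗ alt_a n)

theorem alt_a_bd (n : ℕ) : bd ∘ₗ alt_a (X := X) n = (n : ℝ) • (alt_a (n - 1) ∘ₗ bd) := by
  induction n with
  | zero => exact ch_ext fun w => by cases w <;> simp [alt_a, alt_e]
  | succ n ih =>
    refine ch_ext fun w => ?_
    have e : (fun b => bd ∘ₗ cons b ∘ₗ alt_a (X := X) n) =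
        fun b => alt_a n - (n : ℝ) • ((cons b ∘ₗ alt_a (n - 1)) ∘ₗ bd) :=
      funext fun b => LinearMap.ext fun c => by
        simpa [bd_cons] using congrArg (cons b) (LinearMap.congr_fun ih c)
    rw [LinearMap.comp_apply, alt_a, lin_wd, alt_pk_map, e, alt_pk_sub, alt_pk_const, alt_pk_smul,
      alt_pk_bd, LinearMap.smul_apply, LinearMap.comp_apply, bd_wd, Nat.add_sub_cancel,
      Nat.cast_succ, add_smul, one_smul, smul_neg, sub_neg_eq_add, add_comm]
    cases n with
    | zero => simp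
    | succ n => rfl

theorem alt_a_mp (g : X → X) (n : ℕ) : alt_a n ∘ₗ mp g = mp g ∘ₗ alt_a n := by
  induction n with
  | zero => exact ch_ext fun w => by cases w <;> simp [alt_a, alt_e]
  | succ n ih =>
    refine ch_ext fun w => ?_
    rw [LinearMap.comp_apply, LinearMap.comp_apply, mp_wd, alt_a, lin_wd, lin_wd, alt_pk_map,
      alt_pk_mp]
    refine congrArg _ (funext fun b => LinearMap.ext fun c => ?_)
    simpa [mp_cons] using congrArg (cons (g b)) (LinearMap.congr_fun ih c)

theorem alt_a_mem (n : ℕ) (w : List X) : alt_a n (wd w) ∈ sp ℝ fun u => u.Perm w := by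
  induction n generalizing w with
  | zero =>
    rw [alt_a, lin_wd]
    cases w
    exacts [wd_mem (.refl _), zero_mem _]
  | succ n ih =>
    rw [alt_a, lin_wd]
    refine alt_pk_mem _ _ _ fun b u e => sp_map (cons b) _ (fun v hv => ?_) (ih u)
    rw [cons_wd]
    exact wd_mem ((hv.cons b).trans e)

theorem alt_a_n1 (n : ℕ) (w : List X) (h : w.length = n) : n1 (alt_a n (wd w)) ≤ n.factorial := by
  induction n generalizing w with
  | zero =>
    obtain rfl := List.length_eq_zero_iff.1 h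
    simp [alt_a, alt_e]
  | succ n ih =>
    rw [alt_a, lin_wd, Nat.factorial_succ, Nat.cast_mul, ← h]
    refine alt_pk_n1 _ _ fun b u e => (n1_cons_le _ _).trans (ih u ?_)
    simpa [h] using e.length_eq

theorem alt_a_swap (n : ℕ) (u : List X) (x y : X) (w : List X) :
    alt_a n (wd (u ++ x :: y :: w)) = -alt_a n (wd (u ++ y :: x :: w)) := by
  induction n generalizing u x y w with
  | zero => cases u <;> simp [alt_a, alt_e]
  | succ n ih =>
    rw [alt_a, lin_wd, lin_wd]
    refine alt_pk_swap _ (fun b u x y w => ?_) u x y w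
    rw [LinearMap.comp_apply, ih, map_neg, LinearMap.comp_apply]

theorem exists_altMap (X : Type) : ∃ φ : Ch ℝ X →ₗ[ℝ] Ch ℝ X,
    (∀ c, bd (φ c) = φ (bd c)) ∧ φ (wd []) = wd [] ∧
    (∀ (g : X → X) w, φ (wd (w.map g)) = mp g (φ (wd w))) ∧
    (∀ w, φ (wd w) ∈ sp ℝ fun u => u.Perm w) ∧ (∀ w, n1 (φ (wd w)) ≤ 1) ∧
    ∀ u a b w, φ (wd (u ++ a :: b :: w)) = -φ (wd (u ++ b :: a :: w)) := by
  let φ : Ch ℝ X →ₗ[ℝ] Ch ℝ X :=
    lin ℝ fun w => (w.length.factorial : ℝ)⁻¹ • alt_a w.length (wd w)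
  have hφ : ∀ w, φ (wd w) = (w.length.factorial : ℝ)⁻¹ • alt_a w.length (wd w) := lin_wd _
  refine ⟨φ, ch_ext' (φ := bd ∘ₗ φ) (ψ := φ ∘ₗ bd) fun w => ?_, ?_, fun g w => ?_, fun w => ?_,
    fun w => ?_, fun u a b w => ?_⟩
  · have h1 : bd (alt_a w.length (wd w)) = (w.length : ℝ) • alt_a (w.length - 1) (bd (wd w)) :=
      LinearMap.congr_fun (alt_a_bd w.length) (wd w)
    rw [LinearMap.comp_apply, LinearMap.comp_apply, hφ, map_smul, h1, smul_smul]
    cases w with
    | nil => simp
    | cons a w =>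
      have h2 : bd (wd (a :: w) : Ch ℝ X) ∈ len ℝ X w.length := bd_len (wd_mem rfl)
      rw [sp_ext (φ := φ) (ψ := (w.length.factorial : ℝ)⁻¹ • alt_a w.length)
        (fun v hv => by rw [hφ, hv]; rfl) h2, LinearMap.smul_apply, List.length_cons,
        Nat.add_sub_cancel, Nat.factorial_succ]
      congr 1
      push_cast
      field_simp
  · simp [hφ, alt_a, alt_e]
  · rw [hφ, hφ, map_smul, List.length_map, ← mp_wd]
    exact congrArg _ (LinearMap.congr_fun (alt_a_mp g w.length) (wd w))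
  · rw [hφ]
    exact Submodule.smul_mem _ _ (alt_a_mem _ w)
  · rw [hφ, n1_smul, abs_of_pos (by positivity), inv_mul_le_iff₀ (by positivity), mul_one]
    exact alt_a_n1 _ w rfl
  · have e : (u ++ b :: a :: w).length = (u ++ a :: b :: w).length := by simp
    rw [hφ, hφ, e, alt_a_swap, smul_neg]

end

end Pool.Agent.Lib.MP_446a91_nt.Rk
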