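import Pool.Agent.Lib.MP_446a91_nt.Rk.Nm

/-!
Products of finitely supported functions as chains.
-/

namespace Pool.Agent.Lib.MP_446a91_nt.Rk

open Matrix Filter Topology Pool.Agent.Lib.MP_446a91_nt.Sou

set_option linter.unusedSectionVars false

noncomputable section

variable {X Y : Type}

/-- The cone with a finitely supported function as its vertex. -/
def mkB : (X →₀ ℝ) →ₗ[ℝ] Ch ℝ X →ₗ[ℝ] Ch ℝ X := Finsupp.linearCombination ℝ fun a => cons a

theorem mk_single (a : X) (t : ℝ) (c : Ch ℝ X) : mkB (Finsupp.single a t) c = t • cons a c := by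
  simp [mkB]

theorem mk_apply (u : X →₀ ℝ) (c : Ch ℝ X) : mkB u c = ∑ a ∈ u.support, u a • cons a c := by
  simp [mkB, Finsupp.linearCombination_apply, Finsupp.sum, LinearMap.sum_apply]

theorem mk_cons (u : X →₀ ℝ) (us : List (X →₀ ℝ)) : mkL (u :: us) = mkB u (mkL us) := by
  rw [mk_apply]; rfl

theorem mk_nil : mkL ([] : List (X →₀ ℝ)) = wd [] := rfl

theorem mk_mp (f : X → Y) (u : X →₀ ℝ) (c : Ch ℝ X) :
    mp f (mkB u c) = mkB (u.mapDomain f) (mp f c) := by
  induction u using Finsupp.induction_linear with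
  | zero => simp
  | add u v hu hv => simp [Finsupp.mapDomain_add, hu, hv]
  | single a t => simp [Finsupp.mapDomain_single, mk_single, mp_cons]

theorem mk_bd (u : X →₀ ℝ) (c : Ch ℝ X) : bd (mkB u c) = mass u • c - mkB u (bd c) := by
  rw [mk_apply, mk_apply, map_sum, mass, Finsupp.sum, Finset.sum_smul, ← Finset.sum_sub_distrib]
  refine Finset.sum_congr rfl fun a _ => ?_
  rw [map_smul, bd_cons, smul_sub]

theorem mkL_mem (us : List (X →₀ ℝ)) : mkL us ∈ sp ℝ fun w => w.length = us.length ∧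
    ∀ a ∈ w, ∃ u ∈ us, a ∈ u.support := by
  induction us with
  | nil => exact wd_mem ⟨rfl, fun a ha => absurd ha (by simp)⟩
  | cons u us ih =>
    rw [mk_cons, mk_apply]
    refine Submodule.sum_mem _ fun a ha => Submodule.smul_mem _ _ (sp_map (cons a) _ ?_ ih)
    rintro w ⟨h1, h2⟩
    rw [cons_wd]
    refine wd_mem ⟨by simp [h1], fun b hb => ?_⟩
    rcases List.mem_cons.1 hb with rfl | hb
    · exact ⟨u, List.mem_cons_self, ha⟩
    · obtain ⟨v, hv, h3⟩ := h2 b hb
      exact ⟨v, List.mem_cons_of_mem _ hv, h3⟩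

theorem mk_n1 (u : X →₀ ℝ) (c : Ch ℝ X) : n1 (mkB u c) ≤ n1 u * n1 c := by
  rw [mk_apply]
  refine (n1_sum_le _ _).trans ?_
  rw [n1_eq_sum (c := u) subset_rfl, Finset.sum_mul]
  refine Finset.sum_le_sum fun a _ => ?_
  rw [n1_smul]
  exact mul_le_mul_of_nonneg_left (n1_cons_le a c) (abs_nonneg _)

theorem n1_mkL (us : List (X →₀ ℝ)) : n1 (mkL us) ≤ (us.map n1).prod := by
  induction us with
  | nil => simp [mk_nil]
  | cons u us ih =>
    rw [mk_cons, List.map_cons, List.prod_cons]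
    exact (mk_n1 _ _).trans (mul_le_mul_of_nonneg_left ih (n1_nonneg u))

theorem mp_mkL (f : X → Y) (us : List (X →₀ ℝ)) :
    mp f (mkL us) = mkL (us.map (Finsupp.mapDomain f)) := by
  induction us with
  | nil => simp [mk_nil]
  | cons u us ih => rw [List.map_cons, mk_cons, mk_cons, mk_mp, ih]

theorem mkL_single (w : List X) : mkL (w.map fun a => Finsupp.single a 1) = wd w := by
  induction w with
  | nil => rfl
  | cons a w ih => rw [List.map_cons, mk_cons, ih, mk_single, one_smul, cons_wd]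

theorem mk_lin_cons (φ : Y → (X →₀ ℝ)) (y : Y) (c : Ch ℝ Y) :
    lin ℝ (fun w => mkL (w.map φ)) (cons y c) = mkB (φ y) (lin ℝ (fun w => mkL (w.map φ)) c) := by
  rw [lin_cons, map_lin]
  simp only [List.map_cons, mk_cons]

theorem mk_bd_mkL (φ : Y → (X →₀ ℝ)) (h : ∀ y, mass (φ y) = 1) (w : List Y) :
    bd (mkL (w.map φ)) = lin ℝ (fun w => mkL (w.map φ)) (dW w) := by
  induction w with
  | nil => simp [mk_nil]
  | cons y w ih =>
    rw [List.map_cons, mk_cons, mk_bd, h, one_smul, ih, dW_cons, map_sub, lin_wd, mk_lin_cons]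

/-- For kernels of mass one the product is a chain map. -/
theorem bd_mkL (φ : Y → (X →₀ ℝ)) (h : ∀ y, mass (φ y) = 1) (c : Ch ℝ Y) :
    bd (lin ℝ (fun w => mkL (w.map φ)) c) = lin ℝ (fun w => mkL (w.map φ)) (bd c) :=
  ch_ext' (φ := bd ∘ₗ lin ℝ fun w => mkL (w.map φ))
    (ψ := (lin ℝ fun w => mkL (w.map φ)) ∘ₗ bd) (fun w => by simp [mk_bd_mkL φ h]) c

theorem mkL_cmap {G : Type} [Group G] [MulAction G Y] (φ : Y → (G →₀ ℝ)) (h : ∀ y, mass (φ y) = 1)
    (e : ∀ (g : G) y, φ (g • y) = (φ y).mapDomain (g * ·)) :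
    CMap G (lin ℝ fun w : List Y => mkL (w.map φ)) where
  comm := bd_mkL φ h
  nil := by simp [mk_nil]
  lng w := by
    rw [lin_wd]
    exact sp_mono (fun u hu => by simpa using hu.1) (mkL_mem (w.map φ))
  eqv g w := by
    rw [lin_wd, lin_wd, mp_mkL, List.map_map, List.map_map]
    refine congrArg mkL (List.map_congr_left fun y _ => ?_)
    exact e g y

/-- Recursion on `n` with `LinearMap.uncurryLeft`. -/
theorem exists_mkM (X : Type) (n : ℕ) :
    ∃ m : MultilinearMap ℝ (fun _ : Fin n => X →₀ ℝ) (Ch ℝ X), ∀ u, m u = mkL (List.ofFn u) := by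
  induction n with
  | zero => exact ⟨MultilinearMap.constOfIsEmpty ℝ _ (wd []), fun u => by simp [mk_nil]⟩
  | succ n ih =>
    obtain ⟨m, hm⟩ := ih
    let f : (X →₀ ℝ) →ₗ[ℝ] MultilinearMap ℝ (fun _ : Fin n => X →₀ ℝ) (Ch ℝ X) :=
      { toFun := fun u => (mkB u).compMultilinearMap m
        map_add' := fun u v => MultilinearMap.ext fun x => by simp
        map_smul' := fun t u => MultilinearMap.ext fun x => by simp }
    refine ⟨LinearMap.uncurryLeft (M := fun _ : Fin (n + 1) => X →₀ ℝ) f, fun u => ?_⟩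
    rw [LinearMap.uncurryLeft_apply, List.ofFn_succ, mk_cons, ← hm]
    rfl

/-- The sign change under adjacent swaps. -/
def MkSw (κ : Ch ℝ X →ₗ[ℝ] ℝ) : Prop :=
  ∀ u a b w, κ (wd (u ++ a :: b :: w)) = -κ (wd (u ++ b :: a :: w))

theorem MkSw.comp {κ : Ch ℝ X →ₗ[ℝ] ℝ} (h : MkSw κ) (v : X →₀ ℝ) : MkSw (κ ∘ₗ mkB v) := by
  intro u a b w
  simp only [LinearMap.comp_apply, mk_apply, map_sum, map_smul, cons_wd, ← Finset.sum_neg_distrib]
  refine Finset.sum_congr rfl fun x _ => ?_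
  rw [← List.cons_append, h, List.cons_append, smul_neg]

theorem MkSw.cons_cons {κ : Ch ℝ X →ₗ[ℝ] ℝ} (h : MkSw κ) (a b : X) (c : Ch ℝ X) :
    κ (cons a (cons b c)) = -κ (cons b (cons a c)) :=
  ch_ext' (φ := κ ∘ₗ cons a ∘ₗ cons b) (ψ := -(κ ∘ₗ cons b ∘ₗ cons a))
    (fun w => by simpa using h [] a b w) c

theorem MkSw.swap {κ : Ch ℝ X →ₗ[ℝ] ℝ} (h : MkSw κ) (u v : X →₀ ℝ) (c : Ch ℝ X) :
    κ (mkB u (mkB v c)) = -κ (mkB v (mkB u c)) := by
  induction u using Finsupp.induction_linear with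
  | zero => simp
  | add u u' hu hu' => simp only [map_add, LinearMap.add_apply, hu, hu', neg_add]
  | single a s =>
    induction v using Finsupp.induction_linear with
    | zero => simp
    | add v v' hv hv' => simp only [map_add, LinearMap.add_apply, hv, hv', neg_add]
    | single b t =>
      simp only [mk_single, map_smul, smul_eq_mul]
      rw [h.cons_cons a b c]; ring

theorem mk_perm {l l' : List (X →₀ ℝ)} (p : l.Perm l') :
    ∀ κ : Ch ℝ X →ₗ[ℝ] ℝ, MkSw κ → κ (mkL l') = 0 → κ (mkL l) = 0 := by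
  induction p with
  | nil => exact fun _ _ h => h
  | cons u _ ih =>
    intro κ hκ h
    rw [mk_cons] at h ⊢
    exact ih _ (hκ.comp u) h
  | swap u v l =>
    intro κ hκ h
    rw [mk_cons, mk_cons] at h ⊢
    rw [hκ.swap, h, neg_zero]
  | trans _ _ ih ih' => exact fun κ hκ h => ih κ hκ (ih' κ hκ h)

theorem MkSw.zero {κ : Ch ℝ X →ₗ[ℝ] ℝ} (h : MkSw κ) {l : List (X →₀ ℝ)} (hl : ¬l.Nodup) :
    κ (mkL l) = 0 := by
  rw [List.nodup_iff_sublist, not_forall] at hl
  obtain ⟨a, ha⟩ := hl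
  obtain ⟨l', p⟩ := (not_not.1 ha).exists_perm_append
  refine mk_perm p κ h ?_
  have e := h.swap a a (mkL l')
  rw [List.cons_append, List.cons_append, List.nil_append, mk_cons, mk_cons]
  linarith

/-- A multilinear form that changes sign under adjacent swaps of basis words is alternating:
`Fin` version of the swap, adjacent swaps generate (or use `List.Perm` induction), multilinear
extensionality on `Finsupp.basisSingleOne`. -/
theorem exists_alternating (n : ℕ) (κ : Ch ℝ X →ₗ[ℝ] ℝ)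
    (h : ∀ u a b w, κ (wd (u ++ a :: b :: w)) = -κ (wd (u ++ b :: a :: w))) :
    ∃ c : (X →₀ ℝ) [⋀^Fin n]→ₗ[ℝ] ℝ, ∀ u, c u = κ (mkL (List.ofFn u)) := by
  obtain ⟨m, hm⟩ := exists_mkM X n
  refine ⟨⟨κ.compMultilinearMap m, fun v i j e ne => ?_⟩, fun u => ?_⟩
  · show κ (m v) = 0
    rw [hm]
    exact MkSw.zero h fun hn => ne (List.nodup_ofFn.1 hn e)
  · show κ (m u) = _
    rw [hm]

theorem evA_eq {n : ℕ} {κ : Ch ℝ X →ₗ[ℝ] ℝ} {c : (X →₀ ℝ) [⋀^Fin n]→ₗ[ℝ] ℝ}
    (h : ∀ u, c u = κ (mkL (List.ofFn u))) (φ : Y → (X →₀ ℝ)) {w : List Y} (hw : w.length = n) :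
    evA c φ w = κ (mkL (w.map φ)) := by
  subst hw
  rw [evA, h]
  refine congrArg (fun l => κ (mkL l)) (List.ext_getElem (by simp) fun i h1 h2 => ?_)
  rw [List.getElem_ofFn, List.getD_eq_getElem _ _ h2]

end

end Pool.Agent.Lib.MP_446a91_nt.Rk
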