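import Pool.Agent.Lib.MP_446a91_nt.Rk.Fg
import Pool.Agent.Lib.MP_446a91_nt.Rk.Alt
import Pool.Agent.Lib.MP_446a91_nt.Rk.Mk

/-!
The alternating cocycle of polynomial growth. `κ' = lin κ ∘ mp inc ∘ Ψ ℝ ∘ alt`,
`c` from `exists_alternating`. `κ ∘ inc` is bounded on words with `Sm S` of length `d + 1`
(`sm_finite`). Last part: `mp inc ∘ Ψ ∘ alt ∘ (mkL ∘ map φ)` is a `CMap`, homotopic to the identity.
-/

namespace Pool.Agent.Lib.MP_446a91_nt.Rk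

open Matrix Filter Topology Pool.Agent.Lib.MP_446a91_nt.Sou

set_option linter.unusedSectionVars false

noncomputable section

variable {ι : Type} [Fintype ι] [DecidableEq ι]


theorem exists_alt {Y : Type} [MulAction (GL ι ℤ) Y] (inc : GL ι ℤ → Y)
    (hinc : ∀ γ γ', inc (γ * γ') = γ • inc γ') (d : ℕ) (κ : List Y → ℝ) (hκ : Inv (GL ι ℤ) κ)
    (hc : Coc (d + 1) κ) :
    ∃ (c : (GL ι ℤ →₀ ℝ) [⋀^Fin (d + 1)]→ₗ[ℝ] ℝ) (C : ℝ), Gr c C ∧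
      (∀ (Z : Type) (φ : Z → (GL ι ℤ →₀ ℝ)), (∀ z, mass (φ z) = 1) → Coc (d + 1) (evA c φ)) ∧
      ∀ φ : Y → (GL ι ℤ →₀ ℝ), (∀ y, mass (φ y) = 1) →
        (∀ (γ : GL ι ℤ) y, φ (γ • y) = (φ y).mapDomain (γ * ·)) →
        ∀ z ∈ Zc ℝ Y (GL ι ℤ) (d + 1), lin ℝ (evA c φ) z = lin ℝ κ z := by
  obtain ⟨S, Ψ, hΨ, hS, hN⟩ := exists_psi ι
  obtain ⟨α, a1, a2, a3, a4, a5, a6⟩ := exists_altMap (GL ι ℤ)
  have hα : CMap (GL ι ℤ) α :=
    ⟨a1, a2, fun w => sp_mono (fun u hu => hu.length_eq) (a4 w), fun g w => a3 _ w⟩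
  have hΘ : CMap (GL ι ℤ) (mp inc ∘ₗ Ψ ℝ ∘ₗ α) :=
    (CMap.ofMap (f := inc) hinc).comp ((hΨ ℝ).comp hα)
  obtain ⟨c, hcκ⟩ := exists_alternating (d + 1) (lin ℝ κ ∘ₗ mp inc ∘ₗ Ψ ℝ ∘ₗ α) fun u a b w => by
    simp only [LinearMap.comp_apply, a6 u a b w, map_neg]
  obtain ⟨F, hF⟩ := sm_finite S (d + 1)
  obtain ⟨C, hC0, hC⟩ := hN d
  have hK0 : 0 ≤ ∑ u ∈ F, |κ (u.map inc)| := Finset.sum_nonneg fun _ _ => abs_nonneg _
  have hK : ∀ w : List (GL ι ℤ), Sm S w ∧ w.length = d + 1 →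
      |κ (w.map inc)| ≤ ∑ u ∈ F, |κ (u.map inc)| := by
    rintro w ⟨h1, h2⟩
    obtain ⟨g, u, hu, rfl⟩ := hF w h1 h2
    have e : (u.map (g • ·)).map inc = (u.map inc).map (g • ·) := by
      rw [List.map_map, List.map_map]
      exact List.map_congr_left fun x _ => hinc g x
    rw [e, hκ g]
    exact Finset.single_le_sum (f := fun u : List (GL ι ℤ) => |κ (u.map inc)|)
      (fun _ _ => abs_nonneg _) hu
  have key : ∀ (Z : Type) (φ : Z → (GL ι ℤ →₀ ℝ)), ∀ z ∈ len ℝ Z (d + 1), lin ℝ (evA c φ) z =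
      lin ℝ κ ((mp inc ∘ₗ Ψ ℝ ∘ₗ α) (lin ℝ (fun w => mkL (w.map φ)) z)) := fun Z φ z hz =>
    (lin_congr (fun w hw => evA_eq hcκ φ hw) hz).trans
      (map_lin (lin ℝ κ ∘ₗ mp inc ∘ₗ Ψ ℝ ∘ₗ α) _ z).symm
  refine ⟨c, (∑ u ∈ F, |κ (u.map inc)|) * C, ⟨mul_nonneg hK0 hC0, fun γ u => ?_,
    fun B u hB hu => ?_⟩, fun Z φ hφ w hw => ?_, fun φ hφ e z hz => ?_⟩
  · have e1 : List.ofFn (fun i => (u i).mapDomain (γ * ·)) =
        (List.ofFn u).map (Finsupp.mapDomain (γ • ·)) := by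
      rw [List.map_ofFn]
      rfl
    rw [hcκ, hcκ, e1, ← mp_mkL, LinearMap.comp_apply, hΘ.map_smul', lin_mp, funext (hκ γ)]
    rfl
  · have h1 : mkL (List.ofFn u) ∈ sp ℝ fun w : List (GL ι ℤ) =>
        w.length = d + 1 ∧ ∀ a ∈ w, ∀ b ∈ w, Ent B a b := by
      refine sp_mono (fun w hw => ⟨by rw [hw.1, List.length_ofFn], fun a ha b hb => ?_⟩)
        (mkL_mem (List.ofFn u))
      obtain ⟨_, h2, h3⟩ := hw.2 a ha
      obtain ⟨_, h4, h5⟩ := hw.2 b hb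
      obtain ⟨i, rfl⟩ := List.mem_ofFn.1 h2
      obtain ⟨j, rfl⟩ := List.mem_ofFn.1 h4
      exact hu i j a h3 b h5
    have h2 : α (mkL (List.ofFn u)) ∈ sp ℝ fun w : List (GL ι ℤ) =>
        w.length = d + 1 ∧ ∀ a ∈ w, ∀ b ∈ w, Ent B a b :=
      sp_map α _ (fun w hw => sp_mono (fun v hv => ⟨hv.length_eq.trans hw.1,
        fun a ha b hb => hw.2 a (hv.subset ha) b (hv.subset hb)⟩) (a4 w)) h1
    have h3 := n1_map_le α (fun w _ => a5 w) h1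
    have h4 := n1_map_le (Ψ ℝ) (fun w hw => hC w B hw.1 hB hw.2) h2
    have h5 := abs_lin_le hK (mem_sp_and (sp_map (Ψ ℝ) _ (fun w _ => hS ℝ w) h2)
      ((hΨ ℝ).mem_len (k := d + 1) (sp_mono (fun w hw => hw.1) h2)))
    have h6 := n1_mkL (List.ofFn u)
    rw [List.map_ofFn, List.prod_ofFn] at h6
    have h7 : 0 ≤ C * B ^ (10 * d) := mul_nonneg hC0 (pow_nonneg (zero_le_one.trans hB) _)
    rw [one_mul] at h3
    rw [hcκ, LinearMap.comp_apply, LinearMap.comp_apply, lin_mp, mul_assoc, mul_assoc,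
      ← mul_assoc C]
    exact h5.trans (mul_le_mul_of_nonneg_left
      (h4.trans (mul_le_mul_of_nonneg_left (h3.trans h6) h7)) hK0)
  · have h1 : (wd w : Ch ℝ Z) ∈ len ℝ Z (d + 1 + 1) := wd_mem hw
    rw [← lin_bc (A := ℝ), bc_dW, ← bd_wd, key Z φ _ (bd_len h1), ← bd_mkL φ hφ, ← hΘ.comm]
    refine hc.lin_bd (hΘ.mem_len ?_)
    rw [lin_wd]
    exact sp_mono (fun v hv => by rw [hv.1, List.length_map, hw]) (mkL_mem (w.map φ))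
  · have h1 := (hΘ.comp (mkL_cmap φ hφ e)).homotopic CMap.id id (fun _ _ => rfl) hz
    obtain ⟨_, ⟨y, hy, rfl⟩, x, hx, h2⟩ := Submodule.mem_sup.1 h1
    have h3 := congrArg (lin ℝ κ) h2
    rw [map_add, hc.lin_bd hy, hκ.lin_IP hx, add_zero, map_sub, eq_comm, sub_eq_zero] at h3
    exact (key Y φ z hz.1).trans h3

end

end Pool.Agent.Lib.MP_446a91_nt.Rk
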