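import Pool.Agent.Lib.MP_446a91_nt.Rk.CnU

/-!
Split words are highly connected. Strong induction on `l`, all contexts.
`tail_fill` with `P w = Good (w ++ t)`, `g a = (a.2 ≠ none)`, `ex_M`. For tails `[(v, none)]` take a
dual covector `φ` of `v` in `(v, none) :: t`; `tail_push` with `g b = (φ ⬝ b.1 = 0)` moves a cycle of
`SW ((v, none) :: t)` into the link of `(v, some φ)`, which is a cone point; the head complex of a
tail `s` is `SW (s ++ (v, some ψ) :: t)`, `ψ = φ - ∑_(b ∈ s) (φ ⬝ b.1) f_b`.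
-/

namespace Pool.Agent.Lib.MP_446a91_nt.Rk

open Matrix Filter Topology Pool.Agent.Lib.MP_446a91_nt.Sou

set_option linter.unusedSectionVars false

noncomputable section

variable {A : Type} [CommRing A] {ι : Type} [Fintype ι] [DecidableEq ι]


theorem cns_one {w : List (Lt ι)} (h : Good w) {a : Lt ι} (ha : a ∈ w) (hs : a.2 ≠ none) :
    a.2.getD 0 ⬝ᵥ a.1 = 1 := by
  obtain ⟨-, F, hF⟩ := h
  obtain ⟨f, hf⟩ := Option.ne_none_iff_exists'.1 hs
  have h1 := (hF a ha).2 a ha
  rw [if_pos rfl, (hF a ha).1 f hf] at h1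
  rw [hf]; exact h1

theorem cns_zero {w : List (Lt ι)} (h : Good w) {a b : Lt ι} (ha : a ∈ w) (hb : b ∈ w)
    (hs : a.2 ≠ none) (hab : a ≠ b) : a.2.getD 0 ⬝ᵥ b.1 = 0 := by
  obtain ⟨-, F, hF⟩ := h
  obtain ⟨f, hf⟩ := Option.ne_none_iff_exists'.1 hs
  have h1 := (hF a ha).2 b hb
  rw [if_neg hab, (hF a ha).1 f hf] at h1
  rw [hf]; exact h1

/-- A dual covector of the first letter. -/
theorem cns_ex {a : Lt ι} {u : List (Lt ι)} (h : Good (a :: u)) :
    ∃ φ : ι → ℤ, φ ⬝ᵥ a.1 = 1 ∧ ∀ x ∈ u, φ ⬝ᵥ x.1 = 0 := by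
  obtain ⟨hn, F, hF⟩ := h
  have ha : a ∈ a :: u := List.mem_cons_self
  refine ⟨F a, ?_, fun x hx => ?_⟩
  · rw [(hF a ha).2 a ha, if_pos rfl]
  · rw [(hF a ha).2 x (List.mem_cons_of_mem _ hx), if_neg]
    rintro rfl
    exact (List.nodup_cons.1 hn).1 hx

/-- Replace the covector of the first letter. -/
theorem cns_repl {v : ι → ℤ} {o o' : Option (ι → ℤ)} {u : List (Lt ι)} (h : Good ((v, o) :: u))
    (φ : ι → ℤ) (h1 : φ ⬝ᵥ v = 1) (h2 : ∀ x ∈ u, φ ⬝ᵥ x.1 = 0) (h3 : ∀ f, o' = some f → φ = f) :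
    Good ((v, o') :: u) := by
  obtain ⟨hn, G, hG⟩ := h
  obtain ⟨hn1, hn2⟩ := List.nodup_cons.1 hn
  have hv : ((v, o') : Lt ι) ∉ u := fun hm => by
    have := h2 _ hm
    rw [h1] at this
    exact one_ne_zero this
  refine ⟨List.nodup_cons.2 ⟨hv, hn2⟩, fun a => if a ∈ u then G a else φ, fun a ha => ?_⟩
  rcases List.mem_cons.1 ha with rfl | hau
  · refine ⟨fun f hf => ?_, fun b hb => ?_⟩
    · simp only [if_neg hv]
      exact h3 f hf
    · simp only [if_neg hv]
      rcases List.mem_cons.1 hb with rfl | hbu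
      · rw [if_pos rfl]; exact h1
      · rw [if_neg (fun e : ((v, o') : Lt ι) = b => hv (e ▸ hbu))]; exact h2 b hbu
  · have ha' : a ∈ ((v, o) : Lt ι) :: u := List.mem_cons_of_mem _ hau
    refine ⟨fun f hf => ?_, fun b hb => ?_⟩
    · simp only [if_pos hau]
      exact (hG a ha').1 f hf
    · simp only [if_pos hau]
      rcases List.mem_cons.1 hb with rfl | hbu
      · have := (hG a ha').2 (v, o) List.mem_cons_self
        rw [if_neg (fun e : a = ((v, o) : Lt ι) => hn1 (e ▸ hau))] at this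
        rw [if_neg (fun e : a = ((v, o') : Lt ι) => hv (e ▸ hau))]
        exact this
      · exact (hG a ha').2 b (List.mem_cons_of_mem _ hbu)

/-- Correct a covector along a split word. -/
theorem cns_corr {s u : List (Lt ι)} (h : Good u) (hsu : ∀ b ∈ s, b ∈ u) (hs : ∀ b ∈ s, b.2 ≠ none)
    (φ : ι → ℤ) : ∃ ψ : ι → ℤ, (∀ b ∈ s, ψ ⬝ᵥ b.1 = 0) ∧
      ∀ y : ι → ℤ, (∀ b ∈ s, b.2.getD 0 ⬝ᵥ y = 0) → ψ ⬝ᵥ y = φ ⬝ᵥ y := by
  refine ⟨φ - ∑ b ∈ s.toFinset, (φ ⬝ᵥ b.1) • b.2.getD 0, fun b hb => ?_, fun y hy => ?_⟩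
  · rw [sub_dotProduct, sum_dotProduct, Finset.sum_eq_single b]
    · rw [smul_dotProduct, cns_one h (hsu b hb) (hs b hb), smul_eq_mul, mul_one, sub_self]
    · intro c hc hcb
      have hc' := List.mem_toFinset.1 hc
      rw [smul_dotProduct, cns_zero h (hsu c hc') (hsu b hb) (hs c hc') hcb, smul_zero]
    · intro hn
      exact absurd (List.mem_toFinset.2 hb) hn
  · rw [sub_dotProduct, sum_dotProduct, Finset.sum_eq_zero, sub_zero]
    intro c hc
    rw [smul_dotProduct, hy c (List.mem_toFinset.1 hc), smul_zero]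

/-- The head complex of a tail `s` is a complex of split words. -/
theorem cns_head {v φ : ι → ℤ} {t s : List (Lt ι)} (h1 : φ ⬝ᵥ v = 1) (h2 : ∀ x ∈ t, φ ⬝ᵥ x.1 = 0)
    (hs : SW ((v, none) :: t) s) : ∃ ψ : ι → ℤ, ∀ w, SW (s ++ (v, some ψ) :: t) w ↔
      (SW ((v, none) :: t) (w ++ s) ∧ ∀ x ∈ w, φ ⬝ᵥ x.1 = 0) := by
  obtain ⟨ψ, hA, hB⟩ := cns_corr hs.1 (fun b hb => List.mem_append_left _ hb) hs.2 φ
  refine ⟨ψ, fun w => ⟨fun h => ?_, fun h => ?_⟩⟩
  · have hg : Good ((w ++ s) ++ (v, some ψ) :: t) := by rw [List.append_assoc]; exact h.1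
    have hp : Good ((v, some ψ) :: ((w ++ s) ++ t)) := hg.perm List.perm_middle
    have hv : ((v, some ψ) : Lt ι) ∈ ((v, some ψ) : Lt ι) :: ((w ++ s) ++ t) := List.mem_cons_self
    have hz : ∀ x ∈ (w ++ s) ++ t, ψ ⬝ᵥ x.1 = 0 := fun x hx =>
      cns_zero hp hv (List.mem_cons_of_mem _ hx) (Option.some_ne_none ψ)
        (fun e => (List.nodup_cons.1 hp.1).1 (e ▸ hx))
    refine ⟨⟨?_, fun a ha => ?_⟩, fun x hx => ?_⟩
    · exact (cns_repl (o' := none) hp ψ (cns_one hp hv (Option.some_ne_none ψ)) hz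
        (fun f hf => by cases hf)).perm List.perm_middle.symm
    · rcases List.mem_append.1 ha with ha | ha
      · exact h.2 a ha
      · exact hs.2 a ha
    · rw [← hB x.1 fun b hb => ?_]
      · exact hz x (List.mem_append_left _ (List.mem_append_left _ hx))
      · refine cns_zero hg (List.mem_append_left _ (List.mem_append_right _ hb))
          (List.mem_append_left _ (List.mem_append_left _ hx)) (hs.2 b hb) ?_
        have hd := (List.nodup_append.1 (List.nodup_append.1 hg.1).1).2.2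
        exact fun e => hd x hx b hb e.symm
  · obtain ⟨⟨hg, hw⟩, hφ⟩ := h
    have hp : Good ((v, none) :: ((w ++ s) ++ t)) := hg.perm List.perm_middle
    have hm : ∀ b ∈ s, b ∈ ((v, none) : Lt ι) :: ((w ++ s) ++ t) := fun b hb =>
      List.mem_cons_of_mem _ (List.mem_append_left _ (List.mem_append_right _ hb))
    refine ⟨?_, fun a ha => hw a (List.mem_append_left _ ha)⟩
    rw [← List.append_assoc]
    refine (cns_repl (o' := some ψ) hp ψ ?_ (fun x hx => ?_)
      (fun f hf => Option.some.inj hf)).perm List.perm_middle.symm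
    · rw [hB v fun b hb => ?_]
      · exact h1
      · exact cns_zero (b := (v, none)) hp (hm b hb) List.mem_cons_self (hs.2 b hb)
          (fun e => hs.2 b hb (by rw [e]))
    · by_cases hxs : x ∈ s
      · exact hA x hxs
      · rw [hB x.1 fun b hb => cns_zero hp (hm b hb) (List.mem_cons_of_mem _ hx) (hs.2 b hb)
          (fun e => hxs (e ▸ hb))]
        rcases List.mem_append.1 hx with hx | hx
        · rcases List.mem_append.1 hx with hx | hx
          · exact hφ x hx
          · exact absurd hx hxs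
        · exact h2 x hx

theorem cns_eq_zero {X : Type} {P : List X → Prop} (h : ∀ w, ¬ P w) {c : Ch A X}
    (hc : c ∈ sp A P) : c = 0 := by
  rw [← Finsupp.support_eq_empty, Finset.eq_empty_iff_forall_notMem]
  exact fun w hw => h w (mem_sp_iff.1 hc w hw)

theorem cns_ex_empty {X : Type} {P : List X → Prop} (h : ∀ w, ¬ P w) (l : ℕ) : Ex A P l := by
  intro c hc _
  refine ⟨0, zero_mem _, ?_⟩
  rw [cns_eq_zero (fun w hw => h w hw.1) hc, map_zero]

theorem cns_her (t : List (Lt ι)) : Her (SW t) := fun _ _ e h =>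
  ⟨h.1.sublist (e.append_right t), fun a ha => h.2 a (e.subset ha)⟩

/-- A cycle of split words in the link of `(v, none) :: t` bounds in the link of `t`. -/
theorem cns_cone {l : ℕ}
    (ih : ∀ l' < l, ∀ t : List (Lt ι), 2 * l' + t.length < Fintype.card ι → Ex A (SW t) l')
    (v : ι → ℤ) (t : List (Lt ι)) (h : 2 * l + t.length < Fintype.card ι) {c : Ch A (Lt ι)}
    (hc : c ∈ sp A fun w => SW ((v, none) :: t) w ∧ w.length = l) (hb : bd c = 0) :
    ∃ c' ∈ sp A fun w => SW t w ∧ w.length = l + 1, bd c' = c := by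
  by_cases hG : Good (((v, none) : Lt ι) :: t)
  swap
  · refine ⟨0, zero_mem _, ?_⟩
    rw [cns_eq_zero (fun w hw => hG (hw.1.1.sublist (List.sublist_append_right _ _))) hc, map_zero]
  obtain ⟨φ, h1, h2⟩ := cns_ex hG
  obtain ⟨c₁, hc₁, hz⟩ := tail_push (cns_her ((v, none) :: t)) (fun x => φ ⬝ᵥ x.1 = 0) l
    (fun a s _ hl => by
      by_cases hs : SW ((v, none) :: t) (a :: s)
      · obtain ⟨ψ, hψ⟩ := cns_head h1 h2 hs
        refine (ih _ (by omega) ((a :: s) ++ (v, some ψ) :: t) ?_).congr hψ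
        simp only [List.length_append, List.length_cons]
        omega
      · exact cns_ex_empty
          (fun w hw => hs (cns_her _ _ _ (List.sublist_append_right _ _) hw.1)) _) hc hb
  refine ⟨c₁ + cons (v, some φ) (c - bd c₁), add_mem (sp_mono (fun w hw => ?_) hc₁)
    (sp_map (cons (v, some φ)) _ (fun w hw => ?_) hz), ?_⟩
  · exact ⟨⟨hw.1.1.sublist ((List.sublist_cons_self _ _).append_left w), hw.1.2⟩, hw.2⟩
  · obtain ⟨⟨⟨hg, hs⟩, hφ⟩, hl⟩ := hw
    rw [cons_wd]
    refine wd_mem ⟨⟨?_, fun a ha => ?_⟩, by rw [List.length_cons, hl]⟩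
    · refine cns_repl (o := none) (u := w ++ t) (hg.perm List.perm_middle) φ h1 (fun x hx => ?_)
        (fun f hf => Option.some.inj hf)
      rcases List.mem_append.1 hx with hx | hx
      · exact hφ x hx
      · exact h2 x hx
    · rcases List.mem_cons.1 ha with rfl | ha
      · exact Option.some_ne_none φ
      · exact hs a ha
  · have h0 : bd (c - bd c₁) = 0 := by rw [map_sub, hb, bd_bd, sub_zero]
    rw [map_add, bd_cons, h0, map_zero, sub_zero, add_sub_cancel]

theorem ex_S (t : List (Lt ι)) (l : ℕ) (h : 2 * l + t.length < Fintype.card ι) :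
    Ex A (SW t) l := by
  induction l using Nat.strong_induction_on generalizing t with
  | _ l ih =>
    refine tail_fill (P := fun w => Good (w ++ t)) (fun _ _ e hw => hw.sublist (e.append_right t))
      (fun a => a.2 ≠ none) l (ex_M t l (by omega)) (fun a s _ h1 h2 => ?_) (fun a ha c hc hb => ?_)
    · refine (ih (l - s.length) (by omega) ((a :: s) ++ t) ?_).congr fun w => ?_
      · simp only [List.length_append, List.length_cons]
        omega
      · rw [SW, List.append_assoc]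
    · obtain ⟨v, o⟩ := a
      obtain rfl : o = none := not_not.1 ha
      refine cns_cone ih v t h (sp_mono (fun w hw => ⟨⟨?_, hw.1.2⟩, hw.2⟩) hc) hb
      have := hw.1.1
      rwa [List.append_assoc] at this

end

end Pool.Agent.Lib.MP_446a91_nt.Rk
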