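import Pool.Agent.Lib.MP_446a91_nt.Rk.D0

/-!
Transitivity on split unimodular families.
`L = span v ⊕ L'` with `L' = ⋂ ker f a` (`x ↦ x - ∑ (f a ⬝ x) v a`); `L'` is free of rank
`card ι - card κ`; send the basis vectors outside the range of `e` to a basis of `L'`.
-/

namespace Pool.Agent.Lib.MP_446a91_nt.Rk

open Matrix Filter Topology Pool.Agent.Lib.MP_446a91_nt.Sou

set_option linter.unusedSectionVars false

noncomputable section

variable {ι : Type} [Fintype ι] [DecidableEq ι]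

/-- A split surjection decomposes its source. -/
def tr_E {L P : Type} [AddCommGroup L] [AddCommGroup P] (φ : L →ₗ[ℤ] P) (ψ : P →ₗ[ℤ] L)
    (h : ∀ c, φ (ψ c) = c) : L ≃ₗ[ℤ] P × LinearMap.ker φ where
  toFun x := (φ x, ⟨x - ψ (φ x), by simp [h]⟩)
  invFun p := ψ p.1 + p.2
  map_add' x y := by
    refine Prod.ext (by simp) (Subtype.ext ?_)
    simp only [map_add, Prod.snd_add, Submodule.coe_add]
    abel
  map_smul' t x := by
    refine Prod.ext (by simp) (Subtype.ext ?_)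
    simp only [map_smul, Prod.smul_snd, Submodule.coe_smul, RingHom.id_apply, smul_sub]
  left_inv x := by simp
  right_inv p := by
    have h2 : φ p.2 = 0 := p.2.2
    refine Prod.ext (by simp [h]) (Subtype.ext ?_)
    simp [h]

theorem tr_equiv {L P : Type} [AddCommGroup L] [AddCommGroup P] [Module.Finite ℤ L]
    [Module.Free ℤ L] [Module.Finite ℤ P] [Module.Free ℤ P] (φ φ' : L →ₗ[ℤ] P)
    (ψ ψ' : P →ₗ[ℤ] L) (h : ∀ c, φ (ψ c) = c) (h' : ∀ c, φ' (ψ' c) = c) :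
    ∃ T : L ≃ₗ[ℤ] L, (∀ c, T (ψ c) = ψ' c) ∧ ∀ x, φ' (T x) = φ x := by
  have e1 := (tr_E φ ψ h).finrank_eq
  have e2 := (tr_E φ' ψ' h').finrank_eq
  rw [Module.finrank_prod] at e1 e2
  have e3 : Module.finrank ℤ (LinearMap.ker φ) = Module.finrank ℤ (LinearMap.ker φ') := by omega
  let u := LinearEquiv.ofFinrankEq _ _ e3
  refine ⟨(tr_E φ ψ h).trans (((LinearEquiv.refl ℤ P).prodCongr u).trans (tr_E φ' ψ' h').symm),
    fun c => ?_, fun x => ?_⟩
  · have h1 : tr_E φ ψ h (ψ c) = (c, 0) := by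
      refine Prod.ext (h c) (Subtype.ext ?_)
      show ψ c - ψ (φ (ψ c)) = 0
      rw [h, sub_self]
    rw [LinearEquiv.trans_apply, h1, LinearEquiv.trans_apply, LinearEquiv.prodCongr_apply, map_zero]
    show ψ' c + 0 = ψ' c
    exact add_zero _
  · show φ' (ψ' (φ x) + (u (tr_E φ ψ h x).2 : L)) = φ x
    have h2 : φ' (u (tr_E φ ψ h x).2 : L) = 0 := (u (tr_E φ ψ h x).2).2
    rw [map_add, h', h2, add_zero]

theorem tr_split {κ : Type} [Fintype κ] [DecidableEq κ] (v f : κ → ι → ℤ)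
    (h : ∀ a b, f a ⬝ᵥ v b = if a = b then 1 else 0) (c : κ → ℤ) :
    (Matrix.of f).mulVecLin ((Matrix.of v).vecMulLinear c) = c := by
  have h1 : Matrix.of f * (Matrix.of v)ᵀ = 1 := by
    ext a b
    rw [Matrix.one_apply, ← h a b]
    rfl
  rw [Matrix.mulVecLin_apply, Matrix.vecMulLinear_apply, Matrix.mulVec_vecMul, h1,
    Matrix.one_mulVec]

/-- Transitivity on dual systems. -/
theorem tr_gl {κ : Type} [Fintype κ] [DecidableEq κ] (v f v' f' : κ → ι → ℤ)
    (h : ∀ a b, f a ⬝ᵥ v b = if a = b then 1 else 0)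
    (h' : ∀ a b, f' a ⬝ᵥ v' b = if a = b then 1 else 0) :
    ∃ γ : GL ι ℤ, ∀ a, (γ : Matrix ι ι ℤ) *ᵥ v a = v' a ∧ f' a ᵥ* (γ : Matrix ι ι ℤ) = f a := by
  obtain ⟨T, h1, h2⟩ := tr_equiv _ _ _ _ (tr_split v f h) (tr_split v' f' h')
  refine ⟨⟨LinearMap.toMatrix' T.toLinearMap, LinearMap.toMatrix' T.symm.toLinearMap, ?_, ?_⟩,
    fun a => ⟨?_, ?_⟩⟩
  · rw [← LinearMap.toMatrix'_comp, LinearEquiv.comp_symm, LinearMap.toMatrix'_id]
  · rw [← LinearMap.toMatrix'_comp, LinearEquiv.symm_comp, LinearMap.toMatrix'_id]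
  · have h3 := h1 (Pi.single a 1)
    rw [Matrix.vecMulLinear_apply, Matrix.vecMulLinear_apply, Matrix.single_one_vecMul,
      Matrix.single_one_vecMul] at h3
    show LinearMap.toMatrix' T.toLinearMap *ᵥ v a = v' a
    rw [LinearMap.toMatrix'_mulVec]
    exact h3
  · show f' a ᵥ* LinearMap.toMatrix' T.toLinearMap = f a
    funext i
    have h3 : f' a ⬝ᵥ T (Pi.single i 1) = f a ⬝ᵥ Pi.single i 1 := congrFun (h2 (Pi.single i 1)) a
    rw [dotProduct_single_one] at h3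
    rw [← h3, ← dotProduct_single_one (f' a ᵥ* _) i, ← Matrix.dotProduct_mulVec,
      LinearMap.toMatrix'_mulVec]
    rfl

theorem exists_gl {κ : Type} [Fintype κ] [DecidableEq κ] (e : κ → ι) (he : Function.Injective e)
    (v f : κ → ι → ℤ) (h : ∀ a b, f a ⬝ᵥ v b = if a = b then 1 else 0) :
    ∃ γ : GL ι ℤ, ∀ a, (γ : Matrix ι ι ℤ) *ᵥ Pi.single (e a) 1 = v a ∧
      f a ᵥ* (γ : Matrix ι ι ℤ) = Pi.single (e a) 1 := by
  refine tr_gl (fun a => Pi.single (e a) 1) (fun a => Pi.single (e a) 1) v f (fun a b => ?_) h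
  rw [dotProduct_single_one, Pi.single_apply]
  by_cases hab : a = b
  · rw [if_pos hab, if_pos (by rw [hab])]
  · rw [if_neg hab, if_neg fun h1 => hab (he h1).symm]

/-- A primitive vector has a covector (Bezout, `Finset.gcd_eq_sum_mul`). -/
theorem exists_cov {v : ι → ℤ} (h : Finset.univ.gcd v = 1) : ∃ f : ι → ℤ, f ⬝ᵥ v = 1 := by
  obtain ⟨g, hg⟩ := Finset.gcd_eq_sum_mul Finset.univ v
  exact ⟨g, by rw [dotProduct_comm, ← h, hg]; rfl⟩

theorem act_one (a : Lt ι) : act 1 a = a := by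
  obtain ⟨x, o⟩ := a
  cases o <;> simp [act]

theorem act_mul (g h : GL ι ℤ) (a : Lt ι) : act (g * h) a = act g (act h a) := by
  obtain ⟨x, o⟩ := a
  cases o with
  | none => simp only [act, Units.val_mul, Matrix.mulVec_mulVec, Option.map_none]
  | some f =>
    simp only [act, Units.val_mul, Matrix.mulVec_mulVec, Option.map_some, Matrix.vecMul_vecMul,
      _root_.mul_inv_rev]

theorem act_injective (g : GL ι ℤ) : Function.Injective (act g) :=
  Function.LeftInverse.injective (g := act g⁻¹) fun a => by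
    rw [← act_mul, inv_mul_cancel, act_one]

theorem Good.act {w : List (Lt ι)} (h : Good w) (g : GL ι ℤ) : Good (w.map (act g)) := by
  obtain ⟨h1, F, hF⟩ := h
  have hi : ∀ a : Lt ι, Rk.act g⁻¹ (Rk.act g a) = a := fun a => by
    rw [← act_mul, inv_mul_cancel, act_one]
  refine ⟨h1.map (act_injective g),
    fun a => F (Rk.act g⁻¹ a) ᵥ* ((g⁻¹ : GL ι ℤ) : Matrix ι ι ℤ), fun a ha => ?_⟩
  obtain ⟨a, ha', rfl⟩ := List.mem_map.1 ha
  refine ⟨fun f hf => ?_, fun b hb => ?_⟩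
  · obtain ⟨f', hf', rfl⟩ := Option.map_eq_some_iff.1 hf
    simp only [hi]
    rw [(hF a ha').1 f' hf']
  · obtain ⟨b, hb', rfl⟩ := List.mem_map.1 hb
    simp only [hi, (act_injective g).eq_iff]
    rw [← (hF a ha').2 b hb']
    show (F a ᵥ* ((g⁻¹ : GL ι ℤ) : Matrix ι ι ℤ)) ⬝ᵥ ((g : Matrix ι ι ℤ) *ᵥ b.1) = _
    rw [← Matrix.dotProduct_mulVec, Matrix.mulVec_mulVec, Units.inv_mul, Matrix.one_mulVec]

theorem Good.perm {w w' : List (Lt ι)} (h : Good w) (e : w.Perm w') : Good w' := by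
  obtain ⟨h1, F, hF⟩ := h
  exact ⟨e.nodup_iff.1 h1, F, fun a ha => ⟨(hF a (e.mem_iff.2 ha)).1,
    fun b hb => (hF a (e.mem_iff.2 ha)).2 b (e.mem_iff.2 hb)⟩⟩

theorem Good.sublist {w w' : List (Lt ι)} (h : Good w) (e : List.Sublist w' w) : Good w' := by
  obtain ⟨h1, F, hF⟩ := h
  exact ⟨h1.sublist e, F, fun a ha => ⟨(hF a (e.subset ha)).1,
    fun b hb => (hF a (e.subset ha)).2 b (e.subset hb)⟩⟩

theorem tr_dual {w : List (Lt ι)} (h1 : w.Nodup) {F : Lt ι → ι → ℤ}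
    (hF : ∀ a ∈ w, ∀ b ∈ w, F a ⬝ᵥ b.1 = if a = b then 1 else 0) (a b : Fin w.length) :
    F (w.get a) ⬝ᵥ (w.get b).1 = if a = b then 1 else 0 := by
  rw [hF _ (List.get_mem w a) _ (List.get_mem w b)]
  by_cases hab : a = b
  · rw [if_pos hab, if_pos (by rw [hab])]
  · rw [if_neg hab, if_neg fun h2 => hab (List.nodup_iff_injective_get.1 h1 h2)]

theorem Good.length_le {w : List (Lt ι)} (h : Good w) : w.length ≤ Fintype.card ι := by
  obtain ⟨h1, F, hF⟩ := h
  have h2 := tr_split (fun a => (w.get a).1) (fun a => F (w.get a))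
    (tr_dual h1 fun a ha => (hF a ha).2)
  have h3 := LinearMap.finrank_le_finrank_of_injective (Function.LeftInverse.injective h2)
  simpa using h3

/-- A split letter in the link of a short context (`exists_gl` with `κ = {a // a ∈ t}`). -/
theorem Good.exists_link {t : List (Lt ι)} (h : Good t) (hl : t.length < Fintype.card ι) :
    ∃ e f : ι → ℤ, Good ((e, some f) :: t) := by
  obtain ⟨h1, F, hF⟩ := h
  obtain ⟨e⟩ : Nonempty (Fin t.length ↪ ι) :=
    Function.Embedding.nonempty_of_card_le (by simpa using hl.le)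
  obtain ⟨i, hi⟩ : ∃ i, ∀ a, e a ≠ i := by
    by_contra hc
    push Not at hc
    have := Fintype.card_le_of_surjective e hc
    rw [Fintype.card_fin] at this
    omega
  obtain ⟨γ, hγ⟩ := exists_gl e e.injective (fun a => (t.get a).1) (fun a => F (t.get a))
    (tr_dual h1 fun a ha => (hF a ha).2)
  obtain ⟨x, hx⟩ : ∃ x, x = (γ : Matrix ι ι ℤ) *ᵥ Pi.single i 1 := ⟨_, rfl⟩
  obtain ⟨f, hf⟩ : ∃ f, f = Pi.single i 1 ᵥ* ((γ⁻¹ : GL ι ℤ) : Matrix ι ι ℤ) := ⟨_, rfl⟩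
  have a1 : ∀ a ∈ t, F a ⬝ᵥ x = 0 := by
    intro a ha
    obtain ⟨k, rfl⟩ := List.get_of_mem ha
    rw [hx, Matrix.dotProduct_mulVec, (hγ k).2, dotProduct_single_one,
      Pi.single_eq_of_ne (hi k).symm]
  have a0 : ∀ y, f ⬝ᵥ ((γ : Matrix ι ι ℤ) *ᵥ y) = y i := by
    intro y
    rw [hf, ← Matrix.dotProduct_mulVec, Matrix.mulVec_mulVec, Units.inv_mul, Matrix.one_mulVec,
      single_one_dotProduct]
  have a2 : ∀ a ∈ t, f ⬝ᵥ a.1 = 0 := by
    intro a ha
    obtain ⟨k, rfl⟩ := List.get_of_mem ha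
    rw [← (hγ k).1, a0, Pi.single_eq_of_ne (hi k).symm]
  have a3 : f ⬝ᵥ x = 1 := by rw [hx, a0, Pi.single_eq_same]
  have a4 : ∀ a ∈ t, a ≠ (x, some f) := by
    intro a ha h2
    have h3 := a2 a ha
    rw [h2, a3] at h3
    exact one_ne_zero h3
  refine ⟨x, f, List.nodup_cons.2 ⟨fun h2 => a4 _ h2 rfl, h1⟩,
    fun a => if a = (x, some f) then f else F a, fun a ha => ?_⟩
  rcases List.mem_cons.1 ha with rfl | ha
  · refine ⟨fun f' hf' => ?_, fun b hb => ?_⟩
    · simp only [if_true]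
      exact Option.some.inj hf'
    · simp only [if_true]
      rcases List.mem_cons.1 hb with rfl | hb
      · rw [if_pos rfl]
        exact a3
      · rw [if_neg (a4 b hb).symm]
        exact a2 b hb
  · simp only [if_neg (a4 a ha)]
    refine ⟨(hF a ha).1, fun b hb => ?_⟩
    rcases List.mem_cons.1 hb with rfl | hb
    · rw [if_neg (a4 a ha)]
      exact a1 a ha
    · exact (hF a ha).2 b hb

/-- Transitivity on split words of the same length. -/
theorem SW.exists_act {w w' : List (Lt ι)} (h : SW [] w) (h' : SW [] w')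
    (hl : w.length = w'.length) : ∃ g : GL ι ℤ, w.map (act g) = w' := by
  obtain ⟨h0, hs⟩ := h
  obtain ⟨h0', hs'⟩ := h'
  rw [List.append_nil] at h0 h0'
  obtain ⟨h1, F, hF⟩ := h0
  obtain ⟨h1', F', hF'⟩ := h0'
  obtain ⟨γ, hγ⟩ := tr_gl (fun a => (w.get a).1) (fun a => F (w.get a))
    (fun a => (w'.get (a.cast hl)).1) (fun a => F' (w'.get (a.cast hl)))
    (tr_dual h1 fun a ha => (hF a ha).2) (fun a b => by
      rw [tr_dual h1' (fun a ha => (hF' a ha).2)]
      simp only [Fin.cast_inj])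
  refine ⟨γ, List.ext_getElem (by simpa using hl) fun n hn hn' => ?_⟩
  have hn0 : n < w.length := by simpa using hn
  obtain ⟨b1, b2⟩ := hγ ⟨n, hn0⟩
  have m1 : w[n] ∈ w := List.getElem_mem hn0
  have m2 : w'[n] ∈ w' := List.getElem_mem hn'
  obtain ⟨f, hf⟩ := Option.ne_none_iff_exists'.1 (hs _ m1)
  obtain ⟨f', hf'⟩ := Option.ne_none_iff_exists'.1 (hs' _ m2)
  have b3 : F' w'[n] ᵥ* (γ : Matrix ι ι ℤ) = F w[n] := b2
  rw [(hF _ m1).1 f hf, (hF' _ m2).1 f' hf'] at b3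
  rw [List.getElem_map]
  refine Prod.ext b1 ?_
  show (w[n].2).map _ = _
  rw [hf, hf', Option.map_some, ← b3, Matrix.vecMul_vecMul, Units.mul_inv, Matrix.vecMul_one]

end

end Pool.Agent.Lib.MP_446a91_nt.Rk
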