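import Pool.Agent.Lib.MP_446a91_nt.Rk.Tail
import Pool.Agent.Lib.MP_446a91_nt.Rk.Tr

/-!
Unimodular words are highly connected.
Strong induction on `card ι - |t|`. Take `(e, f)` from `Good.exists_link`, `r a = |f ⬝ a.1|`.
`U^R` = words of `UW t` with all `r ≤ R`. `tail_push` with `P = U^(R+1)`, `g a = (r a ≤ R)`: the head
complex of a tail `a :: s` (`r a = R + 1`) is a retract (`Ex.retract`) of `UW (a :: s ++ t)` by
`b ↦ (b.1 - q • a.1, none)`, `q = 0` if `r b ≤ R`, else the Euclidean quotient (new dual vector of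
`a`: `F a + ∑ q_b F b`). Descend from a bound `R` of the cycle to `R = 0`, cone with `(e, none)`
(dual vectors `F b - (F b ⬝ e) f` and `f`).
`ex_M`: `tail_push` with `g a = (a.2 = none)`, head complexes are `UW (a :: s ++ t)`.
-/

namespace Pool.Agent.Lib.MP_446a91_nt.Rk

open Matrix Filter Topology Pool.Agent.Lib.MP_446a91_nt.Sou

set_option linter.unusedSectionVars false

noncomputable section

variable {A : Type} [CommRing A] {ι : Type} [Fintype ι] [DecidableEq ι]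

/-- `F` is a dual system of `u`. -/
def cnu_Du (F : Lt ι → ι → ℤ) (u : List (Lt ι)) : Prop :=
  ∀ a ∈ u, (∀ f, a.2 = some f → F a = f) ∧ ∀ b ∈ u, F a ⬝ᵥ b.1 = if a = b then 1 else 0

theorem cnu_cons {F : Lt ι → ι → ℤ} {u : List (Lt ι)} {a : Lt ι} {f : ι → ℤ} (hu : u.Nodup)
    (hF : cnu_Du F u) (h1 : ∀ g, a.2 = some g → f = g) (h2 : f ⬝ᵥ a.1 = 1)
    (h3 : ∀ b ∈ u, f ⬝ᵥ b.1 = 0 ∧ F b ⬝ᵥ a.1 = 0) : Good (a :: u) := by
  have ha : ∀ b ∈ u, b ≠ a := fun b hb e => by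
    have := (h3 b hb).1
    rw [e, h2] at this
    exact one_ne_zero this
  refine ⟨List.nodup_cons.2 ⟨fun h => ha a h rfl, hu⟩, Function.update F a f, ?_⟩
  simp only [List.forall_mem_cons, Function.update_self, if_true]
  refine ⟨⟨h1, h2, fun b hb => ?_⟩, fun b hb => ?_⟩
  · rw [if_neg (ha b hb).symm, (h3 b hb).1]
  · rw [Function.update_of_ne (ha b hb), if_neg (ha b hb)]
    exact ⟨(hF b hb).1, (h3 b hb).2, (hF b hb).2⟩

theorem cnu_uncons {u : List (Lt ι)} {a : Lt ι} (h : Good (a :: u)) :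
    u.Nodup ∧ ∃ (F : Lt ι → ι → ℤ) (f : ι → ℤ), cnu_Du F u ∧ (∀ g, a.2 = some g → f = g) ∧
      f ⬝ᵥ a.1 = 1 ∧ ∀ b ∈ u, f ⬝ᵥ b.1 = 0 ∧ F b ⬝ᵥ a.1 = 0 := by
  obtain ⟨h1, F, hF⟩ := h
  obtain ⟨h2, h3⟩ := List.nodup_cons.1 h1
  have ha : ∀ b ∈ u, b ≠ a := fun b hb e => h2 (e ▸ hb)
  simp only [List.forall_mem_cons, if_true] at hF
  refine ⟨h3, F, F a, fun b hb => ⟨(hF.2 b hb).1, (hF.2 b hb).2.2⟩, hF.1.1, hF.1.2.1,
    fun b hb => ⟨?_, ?_⟩⟩
  · rw [hF.1.2.2 b hb, if_neg (ha b hb).symm]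
  · rw [(hF.2 b hb).2.1, if_neg (ha b hb)]

/-- Subtract from one vector a multiple of another one. -/
theorem cnu_shear {u : List (Lt ι)} {a b : Lt ι} (h : Good (b :: u)) (ha : a ∈ u)
    (ha' : a.2 = none) (q : ℤ) : Good ((b.1 - q • a.1, b.2) :: u) := by
  obtain ⟨hu, F, f, hF, h1, h2, h3⟩ := cnu_uncons h
  refine cnu_cons (F := fun x => F x + (if x = a then q else 0) • f) (f := f) hu
    (fun x hx => ⟨fun g hg => ?_, fun y hy => ?_⟩) h1 ?_ fun x hx => ⟨(h3 x hx).1, ?_⟩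
  · have hx' : x ≠ a := fun e => by
      rw [e, ha'] at hg
      cases hg
    simp only [if_neg hx', zero_smul, add_zero]
    exact (hF x hx).1 g hg
  · simp only [add_dotProduct, smul_dotProduct, (h3 y hy).1, smul_zero, add_zero]
    exact (hF x hx).2 y hy
  · simp only [dotProduct_sub, dotProduct_smul, h2, (h3 a ha).1, smul_zero, sub_zero]
  · simp only [add_dotProduct, smul_dotProduct, dotProduct_sub, dotProduct_smul, h2, (h3 a ha).1,
      (h3 x hx).2, (hF x hx).2 a ha, smul_eq_mul]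
    split_ifs <;> ring

theorem cnu_shear_map {a : Lt ι} (ha' : a.2 = none) (q : Lt ι → ℤ) (w : List (Lt ι)) :
    ∀ u : List (Lt ι), a ∈ u → Good (w ++ u) →
      Good ((w.map fun b => (b.1 - q b • a.1, b.2)) ++ u) := by
  induction w with
  | nil => exact fun _ _ h => h
  | cons b w ih =>
    intro u ha h
    have h1 := cnu_shear h (List.mem_append_right w ha) ha' (q b)
    exact (ih _ (List.mem_cons_of_mem _ ha) (h1.perm List.perm_middle.symm)).perm List.perm_middle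

/-- The cone with the vector of a split letter. -/
theorem cnu_cone {t w : List (Lt ι)} {e f : ι → ℤ} (h : Good ((e, some f) :: t))
    (hw : Good (w ++ t)) (h0 : ∀ x ∈ w, f ⬝ᵥ x.1 = 0) (hn : ∀ x ∈ w, x.2 = none) :
    Good ((e, none) :: (w ++ t)) := by
  obtain ⟨-, F, f', hF, h1, h2, h3⟩ := cnu_uncons h
  obtain rfl := h1 f rfl
  obtain ⟨hu, G, hG⟩ := hw
  have h4 : ∀ x ∈ w ++ t, f' ⬝ᵥ x.1 = 0 := fun x hx =>
    (List.mem_append.1 hx).elim (h0 x) fun hx => (h3 x hx).1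
  refine cnu_cons (F := fun x => G x - (G x ⬝ᵥ e) • f') (f := f') hu
    (fun x hx => ⟨fun g hg => ?_, fun y hy => ?_⟩) (fun g hg => by cases hg) h2
    fun x hx => ⟨h4 x hx, ?_⟩
  · have hx' : x ∈ t := (List.mem_append.1 hx).resolve_left fun h' => by
      rw [hn x h'] at hg
      cases hg
    have h5 := (h3 x hx').2
    rw [(hF x hx').1 g hg] at h5
    simp only [(hG x hx).1 g hg]
    rw [h5, zero_smul, sub_zero]
  · simp only [sub_dotProduct, smul_dotProduct, h4 y hy, smul_zero, sub_zero]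
    exact (hG x hx).2 y hy
  · simp only [sub_dotProduct, smul_dotProduct, h2, smul_eq_mul, mul_one, sub_self]

theorem cnu_empty {X : Type} {P : List X → Prop} (h : ∀ w, ¬ P w) (l : ℕ) : Ex A P l := by
  intro c hc _
  refine ⟨0, zero_mem _, ?_⟩
  rw [map_zero]
  exact (sp_ext (φ := 0) (ψ := LinearMap.id) (fun w hw => (h w hw.1).elim) hc)

theorem cnu_her (t : List (Lt ι)) : Her (UW t) := fun _ _ hs hw =>
  ⟨hw.1.sublist (hs.append_right t), fun x hx => hw.2 x (hs.subset hx)⟩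

/-- The head complex of a tail is a retract of the link. -/
theorem cnu_head {t s : List (Lt ι)} {a : Lt ι} (f : ι → ℤ) {R l : ℕ}
    (ha : ¬ (f ⬝ᵥ a.1).natAbs ≤ R) (h : Ex A (UW (a :: s ++ t)) l) :
    Ex A (fun w => (UW t (w ++ a :: s) ∧ ∀ x ∈ w ++ a :: s, (f ⬝ᵥ x.1).natAbs ≤ R + 1) ∧
      ∀ x ∈ w, (f ⬝ᵥ x.1).natAbs ≤ R) l := by
  by_cases hs : ∀ x ∈ a :: s, x.2 = none ∧ (f ⬝ᵥ x.1).natAbs ≤ R + 1
  swap
  · exact cnu_empty (fun w hw => hs fun x hx => ⟨hw.1.1.2 x (List.mem_append_right w hx),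
      hw.1.2 x (List.mem_append_right w hx)⟩) l
  have h1 := hs a List.mem_cons_self
  refine h.retract (fun w hw => ⟨?_, fun x hx => hw.1.1.2 x (List.mem_append_left _ hx)⟩)
    (fun b => (b.1 - (if (f ⬝ᵥ b.1).natAbs ≤ R then 0 else (f ⬝ᵥ b.1) / (f ⬝ᵥ a.1)) • a.1, b.2))
    (fun w hw => ?_) fun w hw => ?_
  · have := hw.1.1.1
    rwa [List.append_assoc] at this
  · have h2 : ∀ x ∈ w.map fun b : Lt ι => ((b.1 - (if (f ⬝ᵥ b.1).natAbs ≤ R then 0
        else (f ⬝ᵥ b.1) / (f ⬝ᵥ a.1)) • a.1, b.2) : Lt ι),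
        x.2 = none ∧ (f ⬝ᵥ x.1).natAbs ≤ R := by
      simp only [List.forall_mem_map]
      intro b hb
      refine ⟨hw.2 b hb, ?_⟩
      rw [dotProduct_sub, dotProduct_smul, smul_eq_mul]
      split_ifs with h3
      · rwa [zero_mul, sub_zero]
      · have h4 : f ⬝ᵥ a.1 ≠ 0 := by omega
        have h5 := Int.emod_nonneg (f ⬝ᵥ b.1) h4
        have h6 := Int.emod_lt_abs (f ⬝ᵥ b.1) h4
        rw [mul_comm, ← Int.emod_def]
        rw [Int.abs_eq_natAbs] at h6
        omega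
    refine ⟨⟨⟨?_, fun x hx => ?_⟩, fun x hx => ?_⟩, fun x hx => (h2 x hx).2⟩
    · rw [List.append_assoc]
      exact cnu_shear_map h1.1 _ w _ List.mem_cons_self hw.1
    · exact (List.mem_append.1 hx).elim (fun hx => (h2 x hx).1) fun hx => (hs x hx).1
    · exact (List.mem_append.1 hx).elim (fun hx => (h2 x hx).2.trans R.le_succ)
        fun hx => (hs x hx).2
  · conv_rhs => rw [← List.map_id w]
    refine List.map_congr_left fun b hb => ?_
    rw [if_pos (hw.2 b hb), zero_smul, sub_zero]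
    rfl

theorem ex_U (t : List (Lt ι)) (l : ℕ) (h : l + t.length < Fintype.card ι) : Ex A (UW t) l := by
  induction l using Nat.strong_induction_on generalizing t with
  | _ l ih =>
  by_cases ht : Good t
  swap
  · exact cnu_empty (fun w hw => ht (hw.1.sublist (List.sublist_append_right w t))) l
  obtain ⟨e, f, hef⟩ := ht.exists_link (by omega)
  have key : ∀ R : ℕ, ∀ c ∈ sp A fun w =>
      (UW t w ∧ ∀ x ∈ w, (f ⬝ᵥ x.1).natAbs ≤ R) ∧ w.length = l, bd c = 0 →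
      ∃ c' ∈ sp A fun w => UW t w ∧ w.length = l + 1, bd c' = c := by
    intro R
    induction R with
    | zero =>
      intro c hc hb
      refine ⟨cons (e, none) c, sp_map _ _ (fun w hw => ?_) hc, by simp [bd_cons, hb]⟩
      rw [cons_wd]
      refine wd_mem ⟨⟨cnu_cone hef hw.1.1.1 (fun x hx => ?_) hw.1.1.2,
        List.forall_mem_cons.2 ⟨rfl, hw.1.1.2⟩⟩, by simp [hw.2]⟩
      have := hw.1.2 x hx
      omega
    | succ R ihR =>
      intro c hc hb
      obtain ⟨c', hc', hd⟩ := tail_push (A := A)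
        (P := fun w => UW t w ∧ ∀ x ∈ w, (f ⬝ᵥ x.1).natAbs ≤ R + 1)
        (fun w w' hs hw => ⟨cnu_her t w w' hs hw.1, fun x hx => hw.2 x (hs.subset hx)⟩)
        (fun x => (f ⬝ᵥ x.1).natAbs ≤ R) l
        (fun a s ha hs => cnu_head f ha (ih _ (by omega) (a :: s ++ t) (by
          simp only [List.length_append, List.length_cons]
          omega))) hc hb
      obtain ⟨c'', hc'', he⟩ := ihR (c - bd c') (sp_mono (fun w hw => ⟨⟨hw.1.1.1, hw.1.2⟩, hw.2⟩) hd)
        (by rw [map_sub, hb, bd_bd, sub_zero])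
      refine ⟨c' + c'', add_mem (sp_mono (fun w hw => ⟨hw.1.1, hw.2⟩) hc') hc'', ?_⟩
      rw [map_add, he, add_sub_cancel]
  intro c hc hb
  refine key (c.support.sup fun w => w.toFinset.sup fun x => (f ⬝ᵥ x.1).natAbs) c
    (mem_sp_iff.2 fun w hw => ?_) hb
  refine ⟨⟨(mem_sp_iff.1 hc w hw).1, fun x hx => ?_⟩, (mem_sp_iff.1 hc w hw).2⟩
  exact (Finset.le_sup (f := fun x : Lt ι => (f ⬝ᵥ x.1).natAbs) (List.mem_toFinset.2 hx)).trans
    (Finset.le_sup (f := fun w : List (Lt ι) => w.toFinset.sup fun x => (f ⬝ᵥ x.1).natAbs) hw)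

theorem ex_M (t : List (Lt ι)) (l : ℕ) (h : l + t.length < Fintype.card ι) :
    Ex A (fun w => Good (w ++ t)) l := by
  intro c hc hb
  obtain ⟨c', hc', hd⟩ := tail_push (A := A) (P := fun w => Good (w ++ t))
    (fun w w' hs hw => hw.sublist (hs.append_right t)) (fun a => a.2 = none) l
    (fun a s _ hs => (ex_U (a :: s ++ t) _ (by
      simp only [List.length_append, List.length_cons]
      omega)).congr fun w => by rw [UW, List.append_assoc]) hc hb
  obtain ⟨c'', hc'', he⟩ := ex_U t l h (c - bd c') hd (by rw [map_sub, hb, bd_bd, sub_zero])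
  refine ⟨c' + c'', add_mem hc' (sp_mono (fun w hw => ⟨hw.1.1, hw.2⟩) hc''), ?_⟩
  rw [map_add, he, add_sub_cancel]

end

end Pool.Agent.Lib.MP_446a91_nt.Rk
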