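import Pool.Agent.Lib.MP_446a91_nt.Sou.W0

/-!
Definitions for the rank one bound on the homology of `GL_n(ℤ)` (MP_446a91_nt, part Rk).
-/

namespace Pool.Agent.Lib.MP_446a91_nt.Rk

open Matrix Pool.Agent.Lib.MP_446a91_nt.Sou

set_option linter.unusedSectionVars false

noncomputable section

/-! ### Chains -/

section chains
variable (A : Type) [CommRing A] (X : Type)

/-- Cycles of length `k` modulo the group. -/
def Zc (G : Type) [Group G] [MulAction G X] (k : ℕ) : Submodule A (Ch A X) :=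
  len A X k ⊓ (IG A X G).comap bd

/-- Boundaries of chains of length `k + 1`, modulo the group. -/
def Bd (G : Type) [Group G] [MulAction G X] (k : ℕ) : Submodule A (Ch A X) :=
  (len A X (k + 1)).map bd ⊔ IG A X G

variable {X}

/-- The complex of words with property `P` is exact at length `l`. -/
def Ex (P : List X → Prop) (l : ℕ) : Prop :=
  ∀ c ∈ sp A fun w => P w ∧ w.length = l, bd c = 0 →
    ∃ c' ∈ sp A fun w => P w ∧ w.length = l + 1, bd c' = c

variable {A} {Y Z : Type}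

/-- An equivariant, length preserving chain map that fixes the empty word. -/
structure CMap (G : Type) [Group G] [MulAction G X] [MulAction G Y]
    (φ : Ch A X →ₗ[A] Ch A Y) : Prop where
  comm : ∀ c, bd (φ c) = φ (bd c)
  nil : φ (wd []) = wd []
  lng : ∀ w : List X, φ (wd w) ∈ len A Y w.length
  eqv : ∀ (g : G) (w : List X), φ (wd (w.map (g • ·))) = mp (g • ·) (φ (wd w))

/-- The cone construction of a homotopy, on words of length `n`. -/
def htN (f : X → Y) (φ : Ch A X →ₗ[A] Ch A Y) : ℕ → List X → Ch A Y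
  | 0, _ => 0
  | _ + 1, [] => 0
  | n + 1, a :: w => cons (f a) (φ (wd (a :: w)) - lin A (htN f φ n) (dW (a :: w)))

/-- The cone construction of a null homotopy of `φ`. -/
def ht (f : X → Y) (φ : Ch A X →ₗ[A] Ch A Y) : Ch A X →ₗ[A] Ch A Y :=
  lin A fun w => htN f φ w.length w

open Classical in
/-- Keep the words with property `P`. -/
def flt (P : List X → Prop) : Ch A X →ₗ[A] Ch A X := lin A fun w => if P w then wd w else 0

/-- Append a fixed word. -/
def app (t : List X) : Ch A X →ₗ[A] Ch A X := lin A fun w => wd (w ++ t)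

/-- Subdivision of variable depth `m`. -/
def vary (j : X → Y) (s P : Ch A Y →ₗ[A] Ch A Y) (m : List X → ℕ) : Ch A X →ₗ[A] Ch A Y :=
  lin A fun w => (s ^ m w) (wd (w.map j)) +
    lin A (fun u => ∑ k ∈ Finset.Ico (m u) (m w), P ((s ^ k) (wd (u.map j)))) (dW w)

/-- The product chain of a list of finitely supported functions. -/
def mkL : List (X →₀ ℝ) → Ch ℝ X
  | [] => wd []
  | u :: us => u.sum fun a t => t • cons a (mkL us)

/-- The total mass. -/
def mass {α : Type} (c : α →₀ ℝ) : ℝ := c.sum fun _ a => a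

/-- All quotients of letters lie in `S`. -/
def Sm {G : Type} [Group G] (S : Finset G) (w : List G) : Prop := ∀ a ∈ w, ∀ b ∈ w, a⁻¹ * b ∈ S

/-- The `ℓ¹` norm of a finitely supported real function. -/
def n1 {α : Type} (c : α →₀ ℝ) : ℝ := c.sum fun _ a => |a|

/-- The shuffle product of two words along a pairing of the letters. -/
def shW (μ : X → Y → Z) : List X → List Y → Ch A Z
  | [], _ => 0
  | _ :: _, [] => 0
  | a :: F, b :: W => cons (μ a b) (shW μ F (b :: W) + (-1 : A) ^ F.length • shW μ (a :: F) W +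
      if F.length + W.length = 0 then wd [] else 0)
termination_by F W => F.length + W.length

/-- The edgewise subdivision of a word. -/
def sdW (μ : X → X → X) (l : List X) : Ch A X :=
  (if l.length = 0 then wd [] else 0) +
    ∑ p ∈ Finset.range l.length, shW μ (l.take (p + 1)) (l.drop p)

variable (A) in
/-- The edgewise subdivision. -/
def sd (μ : X → X → X) : Ch A X →ₗ[A] Ch A X := lin A (sdW μ)

end chains

/-! ### Positive forms -/

section forms
variable {ι : Type} [Fintype ι] [DecidableEq ι]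

/-- The quadratic form of a matrix. -/
def qf (x : Matrix ι ι ℝ) (v : ι → ℝ) : ℝ := v ⬝ᵥ x *ᵥ v

/-- Symmetric and positive definite. -/
def Pos (x : Matrix ι ι ℝ) : Prop := xᵀ = x ∧ ∀ v, v ≠ 0 → 0 < qf x v

variable (ι) in
/-- The cone of positive forms. -/
def PX : Type := {x : Matrix ι ι ℝ // Pos x}

instance : TopologicalSpace (PX ι) := instTopologicalSpaceSubtype

/-- `b ↦ g b gᵀ`. -/
def cj (g : Matrix ι ι ℝ) : Matrix ι ι ℝ →ₗ[ℝ] Matrix ι ι ℝ where
  toFun b := g * b * gᵀ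
  map_add' a b := by simp [Matrix.mul_add, Matrix.add_mul]
  map_smul' t a := by simp

theorem cj_apply (g b : Matrix ι ι ℝ) : cj g b = g * b * gᵀ := rfl

theorem cj_mul (g h b : Matrix ι ι ℝ) : cj (g * h) b = cj g (cj h b) := by
  simp [cj_apply, Matrix.mul_assoc]

theorem cj_one (b : Matrix ι ι ℝ) : cj 1 b = b := by simp [cj_apply]

theorem qf_cj (g b : Matrix ι ι ℝ) (v : ι → ℝ) : qf (cj g b) v = qf b (v ᵥ* g) := by
  simp only [qf, cj_apply, ← Matrix.mulVec_mulVec, Matrix.mulVec_transpose,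
    Matrix.dotProduct_mulVec]

theorem Pos.act {x : Matrix ι ι ℝ} (hx : Pos x) (g : GL ι ℝ) : Pos (cj (g : Matrix ι ι ℝ) x) := by
  refine ⟨by simp [cj_apply, Matrix.transpose_mul, hx.1, Matrix.mul_assoc], fun v hv => ?_⟩
  rw [qf_cj]
  refine hx.2 _ fun h => hv ?_
  have := congrArg (· ᵥ* ((g⁻¹ : GL ι ℝ) : Matrix ι ι ℝ)) h
  simpa [Matrix.vecMul_vecMul] using this

instance : MulAction (GL ι ℝ) (PX ι) where
  smul g x := ⟨cj (g : Matrix ι ι ℝ) x.1, x.2.act g⟩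
  one_smul x := Subtype.ext (cj_one x.1)
  mul_smul _ _ x := Subtype.ext (cj_mul _ _ x.1)

theorem smul_val (g : GL ι ℝ) (x : PX ι) : (g • x).1 = cj (g : Matrix ι ι ℝ) x.1 := rfl

/-- Integral matrices as real matrices. -/
def cR : GL ι ℤ →* GL ι ℝ := Matrix.GeneralLinearGroup.map (Int.castRingHom ℝ)

instance : MulAction (GL ι ℤ) (PX ι) := MulAction.compHom (PX ι) cR

theorem zsmul_def (γ : GL ι ℤ) (x : PX ι) : γ • x = cR γ • x := rfl

/-- The standard form. -/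
def x1 : PX ι := ⟨1, by simp, fun v hv => by
  have h : 0 ≤ v ⬝ᵥ v := Finset.sum_nonneg fun i _ => mul_self_nonneg (v i)
  simpa [qf] using lt_of_le_of_ne h (fun h => hv (dotProduct_self_eq_zero.1 h.symm))⟩

theorem qf_add (x y : Matrix ι ι ℝ) (v : ι → ℝ) : qf (x + y) v = qf x v + qf y v := by
  simp [qf, Matrix.add_mulVec]

theorem qf_sub (x y : Matrix ι ι ℝ) (v : ι → ℝ) : qf (x - y) v = qf x v - qf y v := by
  simp [qf, Matrix.sub_mulVec]

theorem qf_smul (t : ℝ) (x : Matrix ι ι ℝ) (v : ι → ℝ) : qf (t • x) v = t * qf x v := by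
  simp [qf, Matrix.smul_mulVec]

/-- The midpoint of two forms. -/
def mid (x y : PX ι) : PX ι := ⟨(1 / 2 : ℝ) • (x.1 + y.1),
  by simp [Matrix.transpose_add, x.2.1, y.2.1], fun v hv => by
    rw [qf_smul, qf_add]; have := x.2.2 v hv; have := y.2.2 v hv; positivity⟩

/-- The form lies between `1 / B` and `B`. -/
def Box (B : ℝ) (x : PX ι) : Prop := ∀ v, v ⬝ᵥ v ≤ B * qf x.1 v ∧ qf x.1 v ≤ B * v ⬝ᵥ v

/-- Two forms at distance at most `δ`. -/
def Near (δ : ℝ) (x y : PX ι) : Prop := ∀ v, |qf x.1 v - qf y.1 v| ≤ δ * v ⬝ᵥ v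

/-- All letters in the box, any two at distance at most `δ`. -/
def Fine (B δ : ℝ) (w : List (PX ι)) : Prop := ∀ x ∈ w, Box B x ∧ ∀ y ∈ w, Near δ x y

/-- Height bound: the product of the minima of `x` and of `x⁻¹` is at least `1 / h`. -/
def Ht (h : ℝ) (x : PX ι) : Prop :=
  ∃ α β : ℝ, 0 < α ∧ 0 < β ∧ 1 ≤ h * α * β ∧ ∀ v : ι → ℤ, v ≠ 0 →
    α ≤ qf x.1 (fun i => (v i : ℝ)) ∧ β ≤ qf x.1⁻¹ (fun i => (v i : ℝ))

/-- The standard basis is reduced for `x`. -/
def Red (C : ℝ) (x : PX ι) : Prop :=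
  ∀ i, x.1 i i * x.1⁻¹ i i ≤ C ∧ ∀ j, |x.1 i j| ≤ C * x.1 i i ∧ |x.1⁻¹ i j| ≤ C * x.1⁻¹ i i

/-- The entries of `a⁻¹ b` are bounded by `B`. -/
def Ent (B : ℝ) (a b : GL ι ℤ) : Prop := ∀ i j, |(((a⁻¹ * b : GL ι ℤ) i j : ℤ) : ℝ)| ≤ B

/-- Real matrices with bounded entries and bounded inverse. -/
def Kb (B : ℝ) : Set (GL ι ℝ) := {g | ∀ i j, |g i j| ≤ B ∧ |g⁻¹ i j| ≤ B}

/-- The group generated by the integral matrices and the scalars. -/
def Sg : Subgroup (GL ι ℝ) := cR.range ⊔ (Matrix.GeneralLinearGroup.scalar ι).range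

variable (ι) in
/-- A `C¹` partition of unity indexed by the integral matrices, with its derivative. -/
structure PU where
  φ : PX ι → (GL ι ℤ →₀ ℝ)
  D : PX ι → Matrix ι ι ℝ →ₗ[ℝ] (GL ι ℤ →₀ ℝ)
  Gd : PX ι → Set (GL ι ℤ)
  C : ℝ
  one_le : 1 ≤ C
  mas : ∀ x, mass (φ x) = 1
  nrm : ∀ x, n1 (φ x) ≤ 1
  eqv : ∀ (γ : GL ι ℤ) x, φ (γ • x) = (φ x).mapDomain (γ * ·)
  eqvD : ∀ (γ : GL ι ℤ) x b, D (γ • x) (cj (cR γ : Matrix ι ι ℝ) b) = (D x b).mapDomain (γ * ·)
  scl : ∀ (t : ℝˣ) x, φ (Matrix.GeneralLinearGroup.scalar ι t • x) = φ x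
  sclD : ∀ (t : ℝˣ) x b, D (Matrix.GeneralLinearGroup.scalar ι t • x)
    (cj (Matrix.GeneralLinearGroup.scalar ι t : Matrix ι ι ℝ) b) = D x b
  tr : ∀ x b, D x bᵀ = D x b
  supp : ∀ x, ∀ γ ∈ (φ x).support, γ ∈ Gd x
  suppD : ∀ x b, ∀ γ ∈ (D x b).support, γ ∈ Gd x
  ent : ∀ h x, 1 ≤ h → Ht h x → ∀ γ ∈ Gd x, ∀ γ' ∈ Gd x, Ent (C * h) γ γ'
  fin : ∀ B, {γ | ∃ x, Box B x ∧ γ ∈ Gd x}.Finite
  grow : ∀ h x b η, 1 ≤ h → Ht h x → 0 ≤ η → (∀ v, |qf b v| ≤ η * qf x.1 v) →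
    n1 (D x b) ≤ C * h * η
  cont : ∀ γ, Continuous fun x => φ x γ
  contD : ∀ γ, Continuous fun p : PX ι × Matrix ι ι ℝ => D p.1 p.2 γ
  apx : ∀ B ε : ℝ, 0 < ε → ∃ δ₀ > 0, ∀ δ x y, 0 ≤ δ → δ ≤ δ₀ → Box B x → Box B y → Near δ x y →
    n1 (φ y - φ x - D x (y.1 - x.1)) ≤ ε * δ

/-! ### Hecke data -/

/-- `diag(r, 1, …, 1)` with `r` at `i₀`. -/
def dg (R : Type) [CommRing R] (i₀ : ι) (r : ℕ) : Matrix ι ι R :=
  diagonal fun i => if i = i₀ then (r : R) else 1

variable (ι) in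
/-- The nonzero vectors modulo `r`. -/
abbrev Lb (r : ℕ) : Type := {l : ι → ZMod r // l ≠ 0}

variable (ι) in
/-- Representatives `dg * γ l` of the sublattices `{u | l ⬝ u = 0 mod r}` (row vectors). -/
structure Hk (r : ℕ) where
  i₀ : ι
  γ : Lb ι r → GL ι ℤ
  c : Lb ι r → ZMod r
  c_ne : ∀ l, c l ≠ 0
  col : ∀ l i, (((γ l)⁻¹ i i₀ : ℤ) : ZMod r) = c l * l.1 i

/-- The diagonal matrix with the unit `t` at `i₀`. -/
def dgU {R : Type} [CommRing R] (i₀ : ι) (t : Rˣ) : GL ι R :=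
  ⟨diagonal fun i => if i = i₀ then (t : R) else 1,
    diagonal fun i => if i = i₀ then ((t⁻¹ : Rˣ) : R) else 1,
    by rw [diagonal_mul_diagonal, ← diagonal_one]; congr 1; funext i; split_ifs <;> simp,
    by rw [diagonal_mul_diagonal, ← diagonal_one]; congr 1; funext i; split_ifs <;> simp⟩

/-- The Hecke representatives over a ring in which `r` is the unit `t`. -/
def Hk.hR {r : ℕ} (H : Hk ι r) {R : Type} [CommRing R] (t : Rˣ) (l : Lb ι r) : GL ι R :=
  dgU H.i₀ t * Matrix.GeneralLinearGroup.map (Int.castRingHom R) (H.γ l)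

/-- The short vectors of the lattice `A ℤ^ι` (sup norm). -/
def SV (A : Matrix ι ι ℝ) (t : ℝ) : Set (ι → ℤ) :=
  {v | v ≠ 0 ∧ ‖A *ᵥ fun i => (v i : ℝ)‖ ≤ t}

/-- The Margulis function of the lattice `A ℤ^ι`. -/
def fA (A : Matrix ι ι ℝ) (t : ℝ) : ℝ :=
  ∑ᶠ v ∈ SV A t, ‖A *ᵥ fun i => (v i : ℝ)‖⁻¹ ^ (Fintype.card ι - 1)

/-- The average over left multiplications. -/
def av {G L : Type} [Mul G] [Fintype L] (h : L → G) (F : G → ℝ) (g : G) : ℝ :=
  (∑ l, F (h l * g)) / Fintype.card L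

/-- The Cesàro mean of the iterated averages. -/
def ces {G L : Type} [Mul G] [Fintype L] (h : L → G) (J : ℕ) (F : G → ℝ) (g : G) : ℝ :=
  (∑ j ∈ Finset.range (J + 1), (av h)^[j] F g) / (J + 1)

/-! ### Forms -/

variable (ι) in
/-- Multilinear forms in `d` matrices. -/
abbrev Fm (d : ℕ) : Type := MultilinearMap ℝ (fun _ : Fin d => Matrix ι ι ℝ) ℝ

/-- Alternating, symmetric under transposition, orthogonally invariant. -/
structure IsFm {d : ℕ} (ω : Fm ι d) : Prop where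
  alt : ∀ (σ : Equiv.Perm (Fin d)) a, ω (a ∘ σ) = ((Equiv.Perm.sign σ : ℤ) : ℝ) * ω a
  tr : ∀ a i, ω (Function.update a i (a i)ᵀ) = ω a
  inv : ∀ k : Matrix ι ι ℝ, k * kᵀ = 1 → ∀ a, ω (fun i => cj k (a i)) = ω a

/-- A field of forms evaluated on the edges of a word. -/
def ev {d : ℕ} (ω : PX ι → Fm ι d) : List (PX ι) → ℝ
  | [] => 0
  | y :: w => ω y fun i => (w.getD i y).1 - y.1

/-- The Riemann sum of level `k`. -/
def RS {d : ℕ} (k : ℕ) (ω : PX ι → Fm ι d) (z : Ch ℝ (PX ι)) : ℝ :=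
  lin ℝ (ev ω) ((sd ℝ mid ^ k) z)

/-- The field `ω` is the invariant field with value `ω₀` at the standard form. -/
def Ext {d : ℕ} (ω₀ : Fm ι d) (ω : PX ι → Fm ι d) : Prop :=
  ∀ (g : GL ι ℝ) a, ω (g • x1) (fun i => cj (g : Matrix ι ι ℝ) (a i)) = ω₀ a

/-- An alternating form evaluated on a word through a kernel. -/
def evA {Γ Y : Type} {n : ℕ} (c : (Γ →₀ ℝ) [⋀^Fin n]→ₗ[ℝ] ℝ) (φ : Y → (Γ →₀ ℝ)) (w : List Y) : ℝ :=
  c fun i => (w.map φ).getD i 0

/-- The field of forms of an alternating cochain. -/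
def om {d : ℕ} (U : PU ι) (c : (GL ι ℤ →₀ ℝ) [⋀^Fin (d + 1)]→ₗ[ℝ] ℝ) (x : PX ι) : Fm ι d :=
  (c.toMultilinearMap.curryLeft (U.φ x)).compLinearMap fun _ => U.D x

/-- Invariance and polynomial growth of an alternating cochain. -/
structure Gr {d : ℕ} (c : (GL ι ℤ →₀ ℝ) [⋀^Fin (d + 1)]→ₗ[ℝ] ℝ) (C : ℝ) : Prop where
  pos : 0 ≤ C
  inv : ∀ (γ : GL ι ℤ) u, c (fun i => (u i).mapDomain (γ * ·)) = c u
  bnd : ∀ (B : ℝ) u, 1 ≤ B → (∀ i j, ∀ a ∈ (u i).support, ∀ b ∈ (u j).support, Ent B a b) →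
    |c u| ≤ C * B ^ (10 * d) * ∏ i, n1 (u i)

/-- The elementary matrices of a labeling of the half edges. -/
def El {d : ℕ} (l : Fin d × Bool → ι) (i : Fin d) : Matrix ι ι ℝ :=
  Matrix.single (l (i, false)) (l (i, true)) 1

/-- Every label is used zero or two times. -/
def Reg {d : ℕ} (l : Fin d × Bool → ι) : Prop :=
  ∀ u, (Finset.univ.filter fun h => l h = u).card = 0 ∨
    (Finset.univ.filter fun h => l h = u).card = 2

/-- The graph of the labeling is connected. -/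
def Conn {d : ℕ} (l : Fin d × Bool → ι) : Prop :=
  ∀ a : Fin d → Prop, (∀ h h', l h = l h' → (a h.1 ↔ a h'.1)) → ∀ i i', (a i ↔ a i')

/-- The labeling of the cycle through `e 0, e 1, …`. -/
def cyl {d : ℕ} (e : Fin d → ι) (h : Fin d × Bool) : ι :=
  if h.2 then e (finRotate d h.1) else e h.1

/-- `k` copies of `a`, then copies of `b`. -/
def blk {R : Type} [Zero R] (d k : ℕ) (a b : Matrix ι ι R) : Matrix (ι × Fin d) (ι × Fin d) R :=
  blockDiagonal fun j : Fin d => if j.1 < k then a else b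

/-- `g ↦ g ⊕ … ⊕ g ⊕ 1 ⊕ … ⊕ 1`. -/
def blkG (R : Type) [CommRing R] (d k : ℕ) : GL ι R →* GL (ι × Fin d) R :=
  Units.map
    { toFun := fun g => blk d k g 1
      map_one' := by simp only [blk, ite_self]; exact blockDiagonal_one
      map_mul' := fun g h => by
        simp only [blk, ← blockDiagonal_mul]
        congr 1; funext j; split_ifs <;> simp }

/-- The weights: `∑ be k * k ^ j = 0` for `2 ≤ j ≤ d`, and `∑ be k * k = -d!`. -/
def be (d k : ℕ) : ℤ := (-1) ^ k * (d.choose k : ℤ) * ((d.factorial / k : ℕ) : ℤ)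

/-- The combination of the pull-backs of a form along the block maps. -/
def tl {d : ℕ} (ω : Fm (ι × Fin d) d) (a : Fin d → Matrix ι ι ℝ) : ℝ :=
  ∑ k ∈ Finset.range (d + 1), (be d k : ℝ) * ω fun i => blk d k (a i) 0

/-- The combination of the block maps on chains. -/
def Xi {Y : Type} (d : ℕ) (inc : GL (ι × Fin d) ℤ → Y) : Ch ℤ (GL ι ℤ) →ₗ[ℤ] Ch ℤ Y :=
  ∑ k ∈ Finset.range (d + 1), be d k • mp fun g => inc (blkG ℤ d k g)

/-- A set of points over the forms with Hecke operators. -/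
structure HS {r : ℕ} (H : Hk ι r) (t : ℝˣ) (Y : Type) [MulAction (GL ι ℤ) Y] (d : ℕ) where
  inc : GL ι ℤ → Y
  pt : Y → PX ι
  op : Lb ι r → Y → Y
  inc_mul : ∀ γ γ', inc (γ * γ') = γ • inc γ'
  pt_smul : ∀ (γ : GL ι ℤ) y, pt (γ • y) = γ • pt y
  pt_inc : ∀ γ, pt (inc γ) = γ • x1
  pt_op : ∀ l y, pt (op l y) = H.hR t l • pt y
  cyc : ∀ [Fintype (Lb ι r)], ∀ z ∈ Zc ℤ Y (GL ι ℤ) (d + 1),
    ∑ l, mp (op l) z ∈ Zc ℤ Y (GL ι ℤ) (d + 1)

/-- A real invariant cocycle that is an eigenclass of the Hecke operator. -/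
structure HS.Eig {r : ℕ} {H : Hk ι r} {t : ℝˣ} {Y : Type} [MulAction (GL ι ℤ) Y] {d : ℕ}
    (S : HS H t Y d) (κ : List Y → ℝ) : Prop where
  inv : Inv (GL ι ℤ) κ
  coc : Coc (d + 1) κ
  eig : ∀ [Fintype (Lb ι r)], ∀ z ∈ Zc ℤ Y (GL ι ℤ) (d + 1),
    lin ℤ κ (∑ l, mp (S.op l) z) = Fintype.card (Lb ι r) * lin ℤ κ z

/-- `g ↦ g ⊕ 1`. -/
def stL (R : Type) [CommRing R] (ι κ : Type) [Fintype ι] [DecidableEq ι] [Fintype κ]
    [DecidableEq κ] : GL ι R →* GL (ι ⊕ κ) R :=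
  Units.map
    { toFun := fun g => fromBlocks g 0 0 1
      map_one' := fromBlocks_one
      map_mul' := fun g h => by simp [fromBlocks_multiply] }

/-- `g ↦ 1 ⊕ g`. -/
def stR (R : Type) [CommRing R] (ι κ : Type) [Fintype ι] [DecidableEq ι] [Fintype κ]
    [DecidableEq κ] : GL κ R →* GL (ι ⊕ κ) R :=
  Units.map
    { toFun := fun g => fromBlocks 1 0 0 g
      map_one' := fromBlocks_one
      map_mul' := fun g h => by simp [fromBlocks_multiply] }

/-! ### Unimodular words -/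

variable (ι) in
/-- A vector, possibly with a covector. -/
abbrev Lt : Type := (ι → ℤ) × Option (ι → ℤ)

/-- The vectors have a dual system that extends the given covectors. -/
def Good (w : List (Lt ι)) : Prop :=
  w.Nodup ∧ ∃ F : Lt ι → ι → ℤ, ∀ a ∈ w, (∀ f, a.2 = some f → F a = f) ∧
    ∀ b ∈ w, F a ⬝ᵥ b.1 = if a = b then 1 else 0

/-- Unimodular words in the link of `t`. -/
def UW (t w : List (Lt ι)) : Prop := Good (w ++ t) ∧ ∀ a ∈ w, a.2 = none

/-- The action on letters. -/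
def act (g : GL ι ℤ) (a : Lt ι) : Lt ι :=
  ((g : Matrix ι ι ℤ) *ᵥ a.1, a.2.map fun f => f ᵥ* ((g⁻¹ : GL ι ℤ) : Matrix ι ι ℤ))

/-- Split words in the link of `t`. -/
def SW (t w : List (Lt ι)) : Prop := Good (w ++ t) ∧ ∀ a ∈ w, a.2 ≠ none

end forms

end

end Pool.Agent.Lib.MP_446a91_nt.Rk
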