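import Pool.Agent.Lib.MP_446a91_nt.Rk.DblD
import Pool.Agent.Lib.MP_446a91_nt.Rk.CnS

/-!
The double complex: formal properties and horizontal exactness. For exactness use the
normalisation `n (u, w) = gact (u₀⁻¹) (u, w)` (`u₀` the first letter): it kills `II` on chains with
nonempty group words (define `n` as `0` on pairs with empty group word), `x - n x ∈ II` on `ED`,
`n` commutes with `hD`. If `hD (n x) = 0`, split `n x` by the group word and the last `l` letters `t`;
each part is a cycle of `SW t` of length `j`; fill it with `ex_S`.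
-/

namespace Pool.Agent.Lib.MP_446a91_nt.Rk

open Matrix Filter Topology Pool.Agent.Lib.MP_446a91_nt.Sou

set_option linter.unusedSectionVars false

noncomputable section

variable {A : Type} [CommRing A] {ι : Type} [Fintype ι] [DecidableEq ι]


theorem d1_lin2 {M : Type} [AddCommGroup M] [Module A M]
    (f : List (GL ι ℤ) × List (Lt ι) → M) (p : List (GL ι ℤ) × List (Lt ι)) :
    lin2 A f (Finsupp.single p 1) = f p := by
  simp [lin2]

theorem d1_ext {M : Type} [AddCommGroup M] [Module A M] {φ ψ : DD A ι →ₗ[A] M}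
    (h : ∀ p, φ (Finsupp.single p 1) = ψ (Finsupp.single p 1)) (x : DD A ι) : φ x = ψ x := by
  rw [Finsupp.lhom_ext' (φ := φ) (ψ := ψ) fun p => LinearMap.ext_ring (by simpa using h p)]

theorem d1_tpL (w : List (Lt ι)) (u : List (GL ι ℤ)) :
    tpL A w (wd u) = Finsupp.single (u, w) 1 := lin_wd _ _

theorem d1_tpR (u : List (GL ι ℤ)) (w : List (Lt ι)) :
    tpR A u (wd w) = Finsupp.single (u, w) 1 := lin_wd _ _

theorem d1_app {X : Type} (t w : List X) : app t (wd w : Ch A X) = wd (w ++ t) := lin_wd _ _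

theorem d1_ED (l k : ℕ) : ED A ι l k = Finsupp.supported A A
    {p : List (GL ι ℤ) × List (Lt ι) | p.1.length = k + 1 ∧ p.2.length = l ∧ SW [] p.2} := by
  rw [Finsupp.supported_eq_span_single, ED]
  congr 1
  ext c
  constructor
  · rintro ⟨p, h1, h2, h3, rfl⟩
    exact ⟨p, ⟨h1, h2, h3⟩, rfl⟩
  · rintro ⟨p, ⟨h1, h2, h3⟩, rfl⟩
    exact ⟨p, h1, h2, h3, rfl⟩

theorem d1_mem {l k : ℕ} {u : List (GL ι ℤ)} {w : List (Lt ι)} (h1 : u.length = k + 1)
    (h2 : w.length = l) (h3 : SW [] w) : (Finsupp.single (u, w) 1 : DD A ι) ∈ ED A ι l k :=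
  Submodule.subset_span ⟨(u, w), h1, h2, h3, rfl⟩

theorem d1_map {M : Type} [AddCommGroup M] [Module A M] {l k : ℕ} (φ : DD A ι →ₗ[A] M)
    (U : Submodule A M) (h : ∀ u w, u.length = k + 1 → w.length = l → SW [] w →
      φ (Finsupp.single (u, w) 1) ∈ U) {x : DD A ι} (hx : x ∈ ED A ι l k) : φ x ∈ U := by
  have : ED A ι l k ≤ U.comap φ := Submodule.span_le.2 (by
    rintro _ ⟨p, h1, h2, h3, rfl⟩
    exact h p.1 p.2 h1 h2 h3)
  exact this hx

theorem d1_eq {M : Type} [AddCommGroup M] [Module A M] {l k : ℕ} {φ ψ : DD A ι →ₗ[A] M}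
    (h : ∀ u w, u.length = k + 1 → w.length = l → SW [] w →
      φ (Finsupp.single (u, w) 1) = ψ (Finsupp.single (u, w) 1)) {x : DD A ι}
    (hx : x ∈ ED A ι l k) : φ x = ψ x :=
  LinearMap.eqOn_span (by
    rintro _ ⟨p, h1, h2, h3, rfl⟩
    exact h p.1 p.2 h1 h2 h3) hx

variable (A) in
/-- The action on chains. -/
def d1gm (g : GL ι ℤ) : DD A ι →ₗ[A] DD A ι := lin2 A fun p => Finsupp.single (gact g p) 1

theorem d1_gm (g : GL ι ℤ) (p : List (GL ι ℤ) × List (Lt ι)) :
    d1gm A g (Finsupp.single p 1) = Finsupp.single (gact g p) 1 := d1_lin2 _ _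

theorem d1_sub_II (g : GL ι ℤ) (p : List (GL ι ℤ) × List (Lt ι)) :
    (Finsupp.single (gact g p) 1 - Finsupp.single p 1 : DD A ι) ∈ II A ι :=
  Submodule.subset_span ⟨g, p, rfl⟩

theorem d1_gm_II (g : GL ι ℤ) (x : DD A ι) : d1gm A g x - x ∈ II A ι := by
  have h : (d1gm A g - LinearMap.id : DD A ι →ₗ[A] DD A ι) x ∈ II A ι := by
    induction x using Finsupp.induction_linear with
    | zero => simp
    | add a b ha hb => rw [map_add]; exact add_mem ha hb
    | single p a =>
      rw [← mul_one a, ← smul_eq_mul, ← Finsupp.smul_single, map_smul]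
      refine Submodule.smul_mem _ _ ?_
      rw [LinearMap.sub_apply, d1_gm]
      exact d1_sub_II g p
  exact h

theorem d1_II_map {M : Type} [AddCommGroup M] [Module A M] (φ : DD A ι →ₗ[A] M)
    (U : Submodule A M) (h : ∀ g p, φ (Finsupp.single (gact g p) 1) - φ (Finsupp.single p 1) ∈ U)
    {x : DD A ι} (hx : x ∈ II A ι) : φ x ∈ U := by
  have : II A ι ≤ U.comap φ := Submodule.span_le.2 (by
    rintro _ ⟨g, p, rfl⟩
    simpa using h g p)
  exact this hx

theorem d1_gm_tpL (g : GL ι ℤ) (w : List (Lt ι)) (c : Ch A (GL ι ℤ)) :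
    d1gm A g (tpL A w c) = tpL A (w.map (act g)) (mp (g * ·) c) :=
  ch_ext' (φ := d1gm A g ∘ₗ tpL A w) (ψ := tpL A (w.map (act g)) ∘ₗ mp (g * ·))
    (fun u => by simp [d1_tpL, d1_gm, gact]) c

theorem d1_gm_tpR (g : GL ι ℤ) (u : List (GL ι ℤ)) (c : Ch A (Lt ι)) :
    d1gm A g (tpR A u c) = tpR A (u.map (g * ·)) (mp (act g) c) :=
  ch_ext' (φ := d1gm A g ∘ₗ tpR A u) (ψ := tpR A (u.map (g * ·)) ∘ₗ mp (act g))
    (fun w => by simp [d1_tpR, d1_gm, gact]) c

theorem d1_mp_app {X Y : Type} (f : X → Y) (t : List X) (c : Ch A X) :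
    mp f (app t c) = app (t.map f) (mp f c) :=
  ch_ext' (φ := mp f ∘ₗ app t) (ψ := app (t.map f) ∘ₗ mp f) (fun w => by simp [d1_app]) c

theorem d1_vD (u : List (GL ι ℤ)) (w : List (Lt ι)) :
    vD A (Finsupp.single (u, w) 1) = if u.length ≤ 1 then 0 else tpL A w (dW u) := d1_lin2 _ _

theorem d1_fD (i : ℕ) (u : List (GL ι ℤ)) (w : List (Lt ι)) :
    fD A i (Finsupp.single (u, w) 1) = Finsupp.single (u, w.eraseIdx i) 1 := d1_lin2 _ _

theorem d1_hD (l : ℕ) (u : List (GL ι ℤ)) (w : List (Lt ι)) :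
    hD A l (Finsupp.single (u, w) 1) =
      tpR A u (app (w.drop (w.length - l)) (dW (w.take (w.length - l)))) := d1_lin2 _ _

theorem d1_hD_gact (l : ℕ) (g : GL ι ℤ) (p : List (GL ι ℤ) × List (Lt ι)) :
    hD A l (Finsupp.single (gact g p) 1) = d1gm A g (hD A l (Finsupp.single p 1)) := by
  obtain ⟨u, w⟩ := p
  rw [gact, d1_hD, d1_hD, d1_gm_tpR, d1_mp_app, mp_dW, List.length_map, List.map_drop,
    List.map_take]

theorem d1_hD_app {l : ℕ} (u : List (GL ι ℤ)) {t : List (Lt ι)} (ht : t.length = l)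
    (c : Ch A (Lt ι)) : hD A l (tpR A u (app t c)) = tpR A u (app t (bd c)) :=
  ch_ext' (φ := hD A l ∘ₗ tpR A u ∘ₗ app t) (ψ := tpR A u ∘ₗ app t ∘ₗ bd) (fun w => by
    have e : (w ++ t).length - l = w.length := by rw [List.length_append]; omega
    simp only [LinearMap.comp_apply, d1_app, d1_tpR, d1_hD, bd_wd, e, List.drop_left,
      List.take_left]) c

theorem vD_II {x : DD A ι} (h : x ∈ II A ι) : vD A x ∈ II A ι :=
  d1_II_map (vD A) _ (fun g p => by
    obtain ⟨u, w⟩ := p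
    rw [gact, d1_vD, d1_vD, List.length_map]
    split_ifs
    · simp
    · rw [← mp_dW, ← d1_gm_tpL]
      exact d1_gm_II g _) h

theorem fD_II (i : ℕ) {x : DD A ι} (h : x ∈ II A ι) : fD A i x ∈ II A ι :=
  d1_II_map (fD A i) _ (fun g p => by
    obtain ⟨u, w⟩ := p
    rw [gact, d1_fD, d1_fD, List.eraseIdx_map]
    exact d1_sub_II g (u, w.eraseIdx i)) h

theorem hD_II (l : ℕ) {x : DD A ι} (h : x ∈ II A ι) : hD A l x ∈ II A ι :=
  d1_II_map (hD A l) _ (fun g p => by
    rw [d1_hD_gact]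
    exact d1_gm_II g _) h

theorem vD_mem {l k : ℕ} {x : DD A ι} (h : x ∈ ED A ι l (k + 1)) : vD A x ∈ ED A ι l k :=
  d1_map (vD A) _ (fun u w h1 h2 h3 => by
    rw [d1_vD, if_neg (by omega)]
    refine sp_map (tpL A w) _ (fun v hv => ?_) (dW_mem_sublist u)
    rw [d1_tpL]
    exact d1_mem (by omega) h2 h3) h

theorem vD_zero {l : ℕ} {x : DD A ι} (h : x ∈ ED A ι l 0) : vD A x = 0 :=
  d1_eq (ψ := 0) (fun u w h1 _ _ => by rw [d1_vD, if_pos (by omega)]; rfl) h

theorem vD_vD (x : DD A ι) : vD A (vD A x) = 0 :=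
  d1_ext (φ := vD A ∘ₗ vD A) (ψ := 0) (fun p => by
    obtain ⟨u, w⟩ := p
    rw [LinearMap.comp_apply, d1_vD, LinearMap.zero_apply]
    split_ifs with h1
    · exact map_zero _
    by_cases h2 : u.length ≤ 2
    · exact sp_ext (φ := vD A ∘ₗ tpL A w) (ψ := 0) (fun v hv => by
        rw [LinearMap.comp_apply, d1_tpL, d1_vD, if_pos (by omega)]; rfl) (dW_mem_sublist u)
    · have e := sp_ext (φ := vD A ∘ₗ tpL A w) (ψ := tpL A w ∘ₗ bd) (fun v hv => by
        rw [LinearMap.comp_apply, d1_tpL, d1_vD, if_neg (by omega), LinearMap.comp_apply,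
          bd_wd]) (dW_mem_sublist (A := A) u)
      rw [LinearMap.comp_apply, LinearMap.comp_apply, bd_dW, map_zero] at e
      exact e) x

theorem vD_fD (i : ℕ) (x : DD A ι) : vD A (fD A i x) = fD A i (vD A x) :=
  d1_ext (φ := vD A ∘ₗ fD A i) (ψ := fD A i ∘ₗ vD A) (fun p => by
    obtain ⟨u, w⟩ := p
    rw [LinearMap.comp_apply, LinearMap.comp_apply, d1_fD, d1_vD, d1_vD]
    split_ifs
    · exact (map_zero _).symm
    · exact ch_ext' (φ := tpL A (w.eraseIdx i)) (ψ := fD A i ∘ₗ tpL A w)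
        (fun v => by rw [LinearMap.comp_apply, d1_tpL, d1_tpL, d1_fD]) _) x

theorem d1_swap (c : Ch A (GL ι ℤ)) (c' : Ch A (Lt ι)) :
    lin A (fun w => tpL A w c) c' = lin A (fun u => tpR A u c') c := by
  have e1 : lin A (fun u => tpR A u c') c = lin A (fun u => tpR A u) c c' :=
    (map_lin (LinearMap.applyₗ c') (fun u => tpR A u) c).symm
  rw [e1]
  refine ch_ext' (ψ := lin A (fun u => tpR A u) c) (fun w => ?_) c'
  rw [lin_wd]
  exact ch_ext' (φ := tpL A w) (ψ := LinearMap.applyₗ (wd w) ∘ₗ lin A (fun u => tpR A u))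
    (fun u => by simp [d1_tpL, d1_tpR]) c

theorem vD_hD (l : ℕ) (x : DD A ι) : vD A (hD A l x) = hD A l (vD A x) :=
  d1_ext (φ := vD A ∘ₗ hD A l) (ψ := hD A l ∘ₗ vD A) (fun p => by
    obtain ⟨u, w⟩ := p
    rw [LinearMap.comp_apply, LinearMap.comp_apply, d1_hD, d1_vD]
    split_ifs with h1
    · rw [map_zero]
      exact ch_ext' (φ := vD A ∘ₗ tpR A u) (ψ := 0) (fun v => by
        rw [LinearMap.comp_apply, d1_tpR, d1_vD, if_pos h1]; rfl) _
    · have e1 : ∀ c : Ch A (Lt ι), vD A (tpR A u c) = lin A (fun v => tpL A v (dW u)) c :=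
        ch_ext' (φ := vD A ∘ₗ tpR A u) (fun v => by
          rw [LinearMap.comp_apply, d1_tpR, d1_vD, if_neg h1, lin_wd])
      rw [e1, d1_swap]
      exact ch_ext' (ψ := hD A l ∘ₗ tpL A w) (fun v => by
        rw [LinearMap.comp_apply, d1_tpL, d1_hD, lin_wd]) _) x

theorem hD_hD (l : ℕ) (x : DD A ι) : hD A l (hD A l x) = 0 :=
  d1_ext (φ := hD A l ∘ₗ hD A l) (ψ := 0) (fun p => by
    obtain ⟨u, w⟩ := p
    rw [LinearMap.comp_apply, d1_hD, LinearMap.zero_apply]
    by_cases h : l ≤ w.length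
    · rw [d1_hD_app u (by rw [List.length_drop]; omega), bd_dW, map_zero, map_zero]
    · rw [show w.length - l = 0 by omega]
      simp) x

theorem d1_SW_sub {w w' : List (Lt ι)} (h : SW [] w) (e : List.Sublist w' w) : SW [] w' :=
  ⟨h.1.sublist (by simpa using e), fun a ha => h.2 a (e.subset ha)⟩

theorem fD_mem {l k i : ℕ} (hi : i ≤ l) {x : DD A ι} (h : x ∈ ED A ι (l + 1) k) :
    fD A i x ∈ ED A ι l k :=
  d1_map (fD A i) _ (fun u w h1 h2 h3 => by
    rw [d1_fD]
    refine d1_mem h1 ?_ (d1_SW_sub h3 (List.eraseIdx_sublist w i))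
    rw [List.length_eraseIdx_of_lt (by omega)]; omega) h

theorem hD_eq {l j k : ℕ} {x : DD A ι} (h : x ∈ ED A ι (l + j) k) :
    hD A l x = ∑ i ∈ Finset.range j, (-1 : A) ^ i • fD A i x := by
  have e := d1_eq (φ := hD A l) (ψ := ∑ i ∈ Finset.range j, (-1 : A) ^ i • fD A i)
    (fun u w _ h2 _ => by
      have e1 : w.length - l = j := by omega
      have e2 : (w.take j).length = j := by rw [List.length_take]; omega
      rw [d1_hD, e1, dW_eq_sum, e2, map_sum, map_sum, LinearMap.sum_apply]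
      refine Finset.sum_congr rfl fun i hi => ?_
      have hi' : i < (w.take j).length := by rw [e2]; exact Finset.mem_range.1 hi
      rw [map_smul, map_smul, d1_app, d1_tpR, LinearMap.smul_apply, d1_fD,
        ← List.eraseIdx_append_of_lt_length hi', List.take_append_drop]) h
  rw [e, LinearMap.sum_apply]
  rfl

open Classical in
variable (A) in
/-- The part with group word `q.1` and last letters `q.2`. -/
def d1cm (l : ℕ) (q : List (GL ι ℤ) × List (Lt ι)) : DD A ι →ₗ[A] Ch A (Lt ι) :=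
  lin2 A fun p => if (p.1, p.2.drop (p.2.length - l)) = q then wd (p.2.take (p.2.length - l))
    else 0

open Classical in
theorem d1_cm (l : ℕ) (q : List (GL ι ℤ) × List (Lt ι)) (u : List (GL ι ℤ)) (w : List (Lt ι)) :
    d1cm A l q (Finsupp.single (u, w) 1) =
      if (u, w.drop (w.length - l)) = q then wd (w.take (w.length - l)) else 0 := d1_lin2 _ _

open Classical in
theorem d1_cm_app {l : ℕ} (q : List (GL ι ℤ) × List (Lt ι)) (u : List (GL ι ℤ))
    {t : List (Lt ι)} (ht : t.length = l) (c : Ch A (Lt ι)) :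
    d1cm A l q (tpR A u (app t c)) = if (u, t) = q then c else 0 := by
  have e := ch_ext' (φ := d1cm A l q ∘ₗ tpR A u ∘ₗ app t)
    (ψ := if (u, t) = q then LinearMap.id else 0) (fun w => by
      have e : (w ++ t).length - l = w.length := by rw [List.length_append]; omega
      simp only [LinearMap.comp_apply, d1_app, d1_tpR, d1_cm, e, List.drop_left, List.take_left]
      split_ifs <;> rfl) c
  simp only [LinearMap.comp_apply] at e
  rw [e]
  split_ifs <;> rfl

theorem d1_fill {l j k : ℕ} (hN : 2 * j + l < Fintype.card ι) {z : DD A ι}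
    (h : z ∈ ED A ι (l + j) k) (h0 : hD A l z = 0) : ∃ y ∈ ED A ι (l + j + 1) k, hD A l y = z := by
  classical
  have hs := h
  rw [d1_ED, Finsupp.mem_supported] at hs
  set S := z.support.image fun p => (p.1, p.2.drop (p.2.length - l)) with hS
  have hq : ∀ q ∈ S, q.1.length = k + 1 ∧ q.2.length = l ∧ ∀ a ∈ q.2, a.2 ≠ none := by
    intro q hq
    obtain ⟨p, hp, rfl⟩ := Finset.mem_image.1 hq
    obtain ⟨h1, h2, h3⟩ := hs hp
    refine ⟨h1, ?_, fun a ha => h3.2 a (List.mem_of_mem_drop ha)⟩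
    rw [List.length_drop]; omega
  have hb : ∀ q, bd (d1cm A l q z) = 0 := fun q => by
    have e := d1_eq (φ := bd ∘ₗ d1cm A l q) (ψ := d1cm A l q ∘ₗ hD A l) (fun u w _ h2 _ => by
      rw [LinearMap.comp_apply, LinearMap.comp_apply, d1_hD,
        d1_cm_app q u (by rw [List.length_drop]; omega), d1_cm]
      split_ifs
      · exact bd_wd _
      · exact map_zero _) h
    rw [LinearMap.comp_apply, LinearMap.comp_apply, h0, map_zero] at e
    exact e
  have hm : ∀ q, d1cm A l q z ∈ sp A fun v => SW q.2 v ∧ v.length = j := fun q =>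
    d1_map (d1cm A l q) _ (fun u w _ h2 h3 => by
      rw [d1_cm]
      split_ifs with e
      · subst e
        refine wd_mem ⟨⟨?_, fun a ha => h3.2 a (List.mem_of_mem_take ha)⟩, ?_⟩
        · simpa using h3.1
        · rw [List.length_take]; omega
      · exact zero_mem _) h
  have hf : ∀ q ∈ S, ∃ c' ∈ sp A fun v => SW q.2 v ∧ v.length = j + 1, bd c' = d1cm A l q z :=
    fun q hq' => ex_S q.2 j (by rw [(hq q hq').2.1]; exact hN) _ (hm q) (hb q)
  choose! c hc1 hc2 using hf
  refine ⟨∑ q ∈ S, tpR A q.1 (app q.2 (c q)), Submodule.sum_mem _ fun q hq' => ?_, ?_⟩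
  · refine sp_map (tpR A q.1 ∘ₗ app q.2) _ (fun v hv => ?_) (hc1 q hq')
    rw [LinearMap.comp_apply, d1_app, d1_tpR]
    refine d1_mem (hq q hq').1 ?_ ⟨by simpa using hv.1.1, fun a ha => ?_⟩
    · rw [List.length_append, (hq q hq').2.1]; omega
    · rcases List.mem_append.1 ha with ha | ha
      exacts [hv.1.2 a ha, (hq q hq').2.2 a ha]
  · rw [map_sum, Finset.sum_congr rfl fun q hq' => by rw [d1_hD_app _ (hq q hq').2.1, hc2 q hq']]
    have hz : z ∈ Finsupp.supported A A (z.support : Set _) :=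
      (Finsupp.mem_supported A z).2 subset_rfl
    rw [Finsupp.supported_eq_span_single] at hz
    have e := LinearMap.eqOn_span (f := ∑ q ∈ S, tpR A q.1 ∘ₗ app q.2 ∘ₗ d1cm A l q)
      (g := LinearMap.id) (by
        rintro _ ⟨⟨u, w⟩, hp, rfl⟩
        rw [LinearMap.sum_apply, Finset.sum_eq_single (u, w.drop (w.length - l))]
        · simp only [LinearMap.comp_apply, d1_cm, if_true, d1_app, d1_tpR, List.take_append_drop,
            LinearMap.id_apply]
        · intro q _ hne
          simp only [LinearMap.comp_apply, d1_cm, if_neg (Ne.symm hne), map_zero]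
        · intro hn
          exact absurd (Finset.mem_image.2 ⟨(u, w), hp, rfl⟩) hn) hz
    rw [LinearMap.sum_apply] at e
    exact e

variable (A) in
/-- The normal form: the first group letter is moved to `1`. -/
def d1n : DD A ι →ₗ[A] DD A ι := lin2 A fun p =>
  match p.1 with
  | [] => 0
  | a :: _ => Finsupp.single (gact a⁻¹ p) 1

theorem d1_n_nil (w : List (Lt ι)) : d1n A (Finsupp.single ([], w) 1) = 0 := d1_lin2 _ _

theorem d1_n_cons (a : GL ι ℤ) (u : List (GL ι ℤ)) (w : List (Lt ι)) :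
    d1n A (Finsupp.single (a :: u, w) 1) = Finsupp.single (gact a⁻¹ (a :: u, w)) 1 := d1_lin2 _ _

theorem d1_gact_mul (g h : GL ι ℤ) (p : List (GL ι ℤ) × List (Lt ι)) :
    gact g (gact h p) = gact (g * h) p := by
  simp [gact, Function.comp_def, act_mul, mul_assoc]

theorem d1_n_II {x : DD A ι} (h : x ∈ II A ι) : d1n A x = 0 :=
  (Submodule.mem_bot A).1 (d1_II_map (d1n A) ⊥ (fun g p => by
    obtain ⟨u, w⟩ := p
    rw [Submodule.mem_bot, sub_eq_zero]
    cases u with
    | nil => rw [gact, List.map_nil, d1_n_nil, d1_n_nil]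
    | cons a u =>
      have e : gact (g * a)⁻¹ (g * a :: u.map (g * ·), w.map (act g)) = gact a⁻¹ (a :: u, w) := by
        have := d1_gact_mul (g * a)⁻¹ g (a :: u, w)
        rw [show (g * a)⁻¹ * g = a⁻¹ by group] at this
        exact this
      rw [gact, List.map_cons, d1_n_cons, d1_n_cons, e]) h)

theorem d1_n_hD (l : ℕ) (x : DD A ι) : hD A l (d1n A x) = d1n A (hD A l x) :=
  d1_ext (φ := hD A l ∘ₗ d1n A) (ψ := d1n A ∘ₗ hD A l) (fun p => by
    obtain ⟨u, w⟩ := p
    rw [LinearMap.comp_apply, LinearMap.comp_apply]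
    cases u with
    | nil =>
      rw [d1_n_nil, map_zero, d1_hD]
      exact (ch_ext' (φ := d1n A ∘ₗ tpR A []) (ψ := 0) (fun v => by
        rw [LinearMap.comp_apply, d1_tpR, d1_n_nil]; rfl) _).symm
    | cons a u =>
      rw [d1_n_cons, d1_hD_gact, d1_hD]
      exact ch_ext' (φ := d1gm A a⁻¹ ∘ₗ tpR A (a :: u)) (ψ := d1n A ∘ₗ tpR A (a :: u))
        (fun v => by
          rw [LinearMap.comp_apply, LinearMap.comp_apply, d1_tpR, d1_n_cons, d1_gm]) _) x

theorem hD_exact {l j k : ℕ} (hN : 2 * j + l < Fintype.card ι) {x : DD A ι}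
    (h : x ∈ ED A ι (l + j) k) (h0 : hD A l x ∈ II A ι) :
    ∃ y ∈ ED A ι (l + j + 1) k, hD A l y - x ∈ II A ι := by
  have h1 : d1n A x ∈ ED A ι (l + j) k := d1_map (d1n A) _ (fun u w h1 h2 h3 => by
    cases u with
    | nil => simp at h1
    | cons a u =>
      rw [d1_n_cons, gact]
      refine d1_mem (by simpa using h1) (by simpa using h2) ⟨?_, fun b hb => ?_⟩
      · simpa using h3.1.act a⁻¹
      · obtain ⟨b', hb', rfl⟩ := List.mem_map.1 hb
        simpa [act] using h3.2 b' hb') h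
  have h2 : d1n A x - x ∈ II A ι := d1_map (d1n A - LinearMap.id) _ (fun u w h1 _ _ => by
    cases u with
    | nil => simp at h1
    | cons a u =>
      rw [LinearMap.sub_apply, d1_n_cons]
      exact d1_sub_II _ _) h
  obtain ⟨y, hy, e⟩ := d1_fill hN h1 (by rw [d1_n_hD, d1_n_II h0])
  exact ⟨y, hy, by rw [e]; exact h2⟩

end

end Pool.Agent.Lib.MP_446a91_nt.Rk
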