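import Pool.Agent.Lib.MP_446a91_nt.Rk.Dbl1

/-!
All faces agree on vertical homology. For a split word `w` and `i + 1 < |w|` let `τ w` be the
involution `x ↦ x + (f_i x - f_(i+1) x) (v_(i+1) - v_i)` (and `1` for other words); it swaps the two
letters and fixes the others, so `act (τ w)` maps `eraseIdx i w` to `eraseIdx (i+1) w`, and
`τ (g w) = g (τ w) g⁻¹`. The prism `H (u, w) = tpL (eraseIdx (i+1) w) (prW (τ w * ·) id u)` respects
`II`, and `vD H + H vD = fD (i+1) - gact (τ w) ∘ fD i` on nonempty group words.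
-/

namespace Pool.Agent.Lib.MP_446a91_nt.Rk

open Matrix Filter Topology Pool.Agent.Lib.MP_446a91_nt.Sou

set_option linter.unusedSectionVars false

noncomputable section

variable {A : Type} [CommRing A] {ι : Type} [Fintype ι] [DecidableEq ι]

/-- The covector of a letter. -/
def dbl2Cv (a : Lt ι) : ι → ℤ := a.2.getD 0

theorem dbl2_sq {v f : ι → ℤ} (h : f ⬝ᵥ v = -2) :
    (1 + vecMulVec v f) * (1 + vecMulVec v f) = 1 := by
  rw [add_mul, mul_add, mul_add, vecMulVec_mul_vecMulVec, h, vecMulVec_smul]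
  simp only [one_mul, mul_one, neg_smul, two_smul]
  abel

/-- The involution that swaps two letters. -/
def dbl2T (a b : Lt ι) : GL ι ℤ :=
  if h : (dbl2Cv a - dbl2Cv b) ⬝ᵥ (b.1 - a.1) = -2 then
    ⟨1 + vecMulVec (b.1 - a.1) (dbl2Cv a - dbl2Cv b),
      1 + vecMulVec (b.1 - a.1) (dbl2Cv a - dbl2Cv b), dbl2_sq h, dbl2_sq h⟩
  else 1

theorem dbl2_cv_act (g : GL ι ℤ) (a : Lt ι) :
    dbl2Cv (act g a) = dbl2Cv a ᵥ* ((g⁻¹ : GL ι ℤ) : Matrix ι ι ℤ) := by
  obtain ⟨v, _ | f⟩ := a <;> simp [dbl2Cv, act]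

theorem dbl2T_act (g : GL ι ℤ) (a b : Lt ι) :
    dbl2T (act g a) (act g b) = g * dbl2T a b * g⁻¹ := by
  have e1 : dbl2Cv (act g a) - dbl2Cv (act g b) =
      (dbl2Cv a - dbl2Cv b) ᵥ* ((g⁻¹ : GL ι ℤ) : Matrix ι ι ℤ) := by
    rw [dbl2_cv_act, dbl2_cv_act, sub_vecMul]
  have e2 : (act g b).1 - (act g a).1 = (g : Matrix ι ι ℤ) *ᵥ (b.1 - a.1) := (mulVec_sub _ _ _).symm
  have e3 : (dbl2Cv (act g a) - dbl2Cv (act g b)) ⬝ᵥ ((act g b).1 - (act g a).1) =
      (dbl2Cv a - dbl2Cv b) ⬝ᵥ (b.1 - a.1) := by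
    rw [e1, e2, dotProduct_mulVec, vecMul_vecMul, Units.inv_mul, vecMul_one]
  unfold dbl2T
  by_cases h : (dbl2Cv a - dbl2Cv b) ⬝ᵥ (b.1 - a.1) = -2
  · rw [dif_pos h, dif_pos (e3.trans h)]
    refine Units.ext ?_
    rw [Units.val_mul, Units.val_mul]
    dsimp only
    rw [e1, e2, mul_add, add_mul, mul_one, Units.mul_inv, mul_vecMulVec, vecMulVec_mul]
  · rw [dif_neg h, dif_neg fun h' => h (e3.symm.trans h'), mul_one, mul_inv_cancel]

theorem dbl2T_apply {a b : Lt ι} (h : (dbl2Cv a - dbl2Cv b) ⬝ᵥ (b.1 - a.1) = -2) {c : Lt ι}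
    (hc : c.2 ≠ none) : act (dbl2T a b) c =
      (c.1 + ((dbl2Cv a - dbl2Cv b) ⬝ᵥ c.1) • (b.1 - a.1),
        some (dbl2Cv c + (dbl2Cv c ⬝ᵥ (b.1 - a.1)) • (dbl2Cv a - dbl2Cv b))) := by
  obtain ⟨v, _ | f⟩ := c
  · exact absurd rfl hc
  unfold dbl2T
  rw [dif_pos h]
  refine Prod.ext ?_ (congrArg some ?_)
  · change (1 + vecMulVec (b.1 - a.1) (dbl2Cv a - dbl2Cv b)) *ᵥ v = _
    rw [add_mulVec, one_mulVec, vecMulVec_mulVec, op_smul_eq_smul]
  · change f ᵥ* (1 + vecMulVec (b.1 - a.1) (dbl2Cv a - dbl2Cv b)) = _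
    rw [vecMul_add, vecMul_one, vecMul_vecMulVec]
    rfl

theorem dbl2_some {c : Lt ι} (hc : c.2 ≠ none) : c.2 = some (dbl2Cv c) := by
  obtain ⟨v, _ | f⟩ := c
  · exact absurd rfl hc
  · rfl

theorem dbl2_dual {w : List (Lt ι)} (h : SW [] w) {a b : Lt ι} (ha : a ∈ w) (hb : b ∈ w) :
    dbl2Cv a ⬝ᵥ b.1 = if a = b then 1 else 0 := by
  obtain ⟨⟨-, F, hF⟩, h2⟩ := h
  rw [List.append_nil] at hF
  rw [← (hF a ha).1 _ (dbl2_some (h2 a ha))]
  exact (hF a ha).2 b hb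

theorem dbl2_swap {w₁ w₂ : List (Lt ι)} {a b : Lt ι} (h : SW [] (w₁ ++ a :: b :: w₂)) :
    (w₁ ++ b :: w₂).map (act (dbl2T a b)) = w₁ ++ a :: w₂ := by
  have hn : (w₁ ++ a :: b :: w₂).Nodup := by simpa using h.1.1
  have ha : a ∈ w₁ ++ a :: b :: w₂ := by simp
  have hb : b ∈ w₁ ++ a :: b :: w₂ := by simp
  have hab : a ≠ b := by
    rintro rfl
    simp [List.nodup_append] at hn
  have h1 := dbl2_dual h ha ha
  have h2 := dbl2_dual h ha hb
  have h3 := dbl2_dual h hb ha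
  have h4 := dbl2_dual h hb hb
  rw [if_pos rfl] at h1 h4
  rw [if_neg hab] at h2
  rw [if_neg hab.symm] at h3
  have h0 : (dbl2Cv a - dbl2Cv b) ⬝ᵥ (b.1 - a.1) = -2 := by
    rw [sub_dotProduct, dotProduct_sub, dotProduct_sub, h1, h2, h3, h4]
    rfl
  have hc : ∀ c ∈ w₁ ++ a :: b :: w₂, c ≠ a → c ≠ b → act (dbl2T a b) c = c := by
    intro c hc e1 e2
    rw [dbl2T_apply h0 (h.2 c hc), sub_dotProduct, dotProduct_sub, dbl2_dual h ha hc,
      dbl2_dual h hb hc, dbl2_dual h hc ha, dbl2_dual h hc hb, if_neg e1, if_neg e2,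
      if_neg e1.symm, if_neg e2.symm, sub_self, zero_smul, zero_smul, add_zero, add_zero,
      ← dbl2_some (h.2 c hc)]
  have hb' : act (dbl2T a b) b = a := by
    rw [dbl2T_apply h0 (h.2 b hb), sub_dotProduct, dotProduct_sub, h2, h3, h4]
    refine Prod.ext (by simp) ?_
    rw [dbl2_some (h.2 a ha)]
    simp
  rw [List.map_append, List.map_cons, hb', List.map_congr_left (g := id), List.map_id,
    List.map_congr_left (g := id), List.map_id]
  · intro c hc'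
    refine hc c (by simp [hc']) ?_ ?_ <;> rintro rfl <;> simp [List.nodup_append, hc'] at hn
  · intro c hc'
    rw [List.nodup_append] at hn
    exact hc c (by simp [hc']) (hn.2.2 c hc' a (by simp)) (hn.2.2 c hc' b (by simp))

/-- The involution of a word. -/
def dbl2W (i : ℕ) (w : List (Lt ι)) : GL ι ℤ :=
  dbl2T (w.getD i (0, none)) (w.getD (i + 1) (0, none))

theorem dbl2W_act (i : ℕ) (g : GL ι ℤ) (w : List (Lt ι)) :
    dbl2W i (w.map (act g)) = g * dbl2W i w * g⁻¹ := by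
  have e : ((0, none) : Lt ι) = act g (0, none) := by simp [act]
  unfold dbl2W
  rw [← dbl2T_act, ← List.getD_map w _ (act g), ← List.getD_map w _ (act g), ← e]

theorem dbl2W_erase {i : ℕ} {w : List (Lt ι)} (h : SW [] w) (hi : i + 1 < w.length) :
    (w.eraseIdx i).map (act (dbl2W i w)) = w.eraseIdx (i + 1) := by
  obtain ⟨w₁, a, b, w₂, rfl, rfl⟩ : ∃ w₁ a b w₂, w = w₁ ++ a :: b :: w₂ ∧ i = w₁.length :=
    ⟨w.take i, w[i], w[i + 1], w.drop (i + 2), by
      rw [← List.drop_eq_getElem_cons, ← List.drop_eq_getElem_cons, List.take_append_drop], by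
      rw [List.length_take]
      omega⟩
  have e : dbl2W w₁.length (w₁ ++ a :: b :: w₂) = dbl2T a b := by simp [dbl2W]
  rw [e, List.eraseIdx_append_of_length_le le_rfl,
    List.eraseIdx_append_of_length_le (Nat.le_succ _)]
  simpa using dbl2_swap h

theorem dbl2_lin2 {M : Type} [AddCommGroup M] [Module A M]
    (f : List (GL ι ℤ) × List (Lt ι) → M) (p : List (GL ι ℤ) × List (Lt ι)) :
    lin2 A f (Finsupp.single p 1) = f p := by simp [lin2]

theorem dbl2_tpL (w : List (Lt ι)) (u : List (GL ι ℤ)) :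
    tpL A w (wd u) = Finsupp.single (u, w) 1 := lin_wd _ _

theorem dbl2_mem (g : GL ι ℤ) (p : List (GL ι ℤ) × List (Lt ι)) :
    Finsupp.single (gact g p) 1 - Finsupp.single p 1 ∈ II A ι := Submodule.subset_span ⟨g, p, rfl⟩

theorem dbl2_ED {M : Type} [AddCommGroup M] [Module A M] (φ : DD A ι →ₗ[A] M) (U : Submodule A M)
    {l k : ℕ} (h : ∀ u w, u.length = k + 1 → w.length = l → SW [] w →
      φ (Finsupp.single (u, w) 1) ∈ U) {x : DD A ι} (hx : x ∈ ED A ι l k) : φ x ∈ U := by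
  have : ED A ι l k ≤ U.comap φ := Submodule.span_le.2 (by
    rintro _ ⟨p, h1, h2, h3, rfl⟩
    exact h p.1 p.2 h1 h2 h3)
  exact this hx

variable (A) in
/-- The prism. -/
def dbl2H (i : ℕ) : DD A ι →ₗ[A] DD A ι :=
  lin2 A fun p => tpL A (p.2.eraseIdx (i + 1)) (prW (dbl2W i p.2 * ·) id p.1)

theorem dbl2H_tpL (i : ℕ) (w : List (Lt ι)) (c : Ch A (GL ι ℤ)) :
    dbl2H A i (tpL A w c) = tpL A (w.eraseIdx (i + 1)) (pr (dbl2W i w * ·) id c) :=
  ch_ext' (φ := dbl2H A i ∘ₗ tpL A w) (ψ := tpL A (w.eraseIdx (i + 1)) ∘ₗ pr (dbl2W i w * ·) id)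
    (fun u => by
      rw [LinearMap.comp_apply, LinearMap.comp_apply, dbl2_tpL, pr_wd, dbl2H, dbl2_lin2]) c

theorem dbl2H_II (i : ℕ) {x : DD A ι} (h : x ∈ II A ι) : dbl2H A i x ∈ II A ι := by
  have : II A ι ≤ (II A ι).comap (dbl2H A i) := Submodule.span_le.2 (by
    rintro _ ⟨g, ⟨u, w⟩, rfl⟩
    change dbl2H A i _ ∈ II A ι
    have e : (prW (dbl2W i (w.map (act g)) * ·) id (u.map (g * ·)) : Ch A (GL ι ℤ)) =
        mp (g * ·) (prW (dbl2W i w * ·) id u) := by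
      rw [prW_map, mp_prW, dbl2W_act]
      congr 1
      funext x
      simp [mul_assoc]
    rw [map_sub, dbl2H, dbl2_lin2, dbl2_lin2]
    simp only [gact]
    rw [e, List.eraseIdx_map]
    exact sp_map (tpL A ((w.eraseIdx (i + 1)).map (act g)) ∘ₗ mp (g * ·) -
      tpL A (w.eraseIdx (i + 1))) _ (fun u' _ => by
        rw [LinearMap.sub_apply, LinearMap.comp_apply, mp_wd, dbl2_tpL, dbl2_tpL]
        exact dbl2_mem g (u', _)) (mem_sp_top _))
  exact this h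

theorem dbl2_vD_tpL (w : List (Lt ι)) {k : ℕ} {c : Ch A (GL ι ℤ)} (hc : c ∈ len A _ (k + 2)) :
    vD A (tpL A w c) = tpL A w (bd c) :=
  sp_ext (φ := vD A ∘ₗ tpL A w) (ψ := tpL A w ∘ₗ bd) (fun u hu => by
    rw [LinearMap.comp_apply, LinearMap.comp_apply, dbl2_tpL, bd_wd, vD, dbl2_lin2,
      if_neg (by simp [hu])]) hc

theorem dbl2H_vD (i : ℕ) (u : List (GL ι ℤ)) (w : List (Lt ι)) :
    dbl2H A i (vD A (Finsupp.single (u, w) 1)) =
      tpL A (w.eraseIdx (i + 1)) (pr (dbl2W i w * ·) id (dW u)) := by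
  rw [vD, dbl2_lin2]
  split_ifs with h
  · rcases u with _ | ⟨a, _ | ⟨b, u⟩⟩
    · simp
    · simp [dW_cons, prW]
    · simp at h
  · exact dbl2H_tpL i w _

theorem fD_succ {l k i : ℕ} (hi : i + 1 ≤ l) {x : DD A ι} (h : x ∈ ED A ι (l + 1) k)
    (h0 : vD A x ∈ II A ι) :
    ∃ y ∈ ED A ι l (k + 1), fD A (i + 1) x - fD A i x - vD A y ∈ II A ι := by
  refine ⟨dbl2H A i x, dbl2_ED _ _ (fun u w hu hw hs => ?_) h, ?_⟩
  · rw [dbl2H, dbl2_lin2]
    refine sp_map (tpL A _) _ (fun u' hu' => ?_) (prW_len _ _ u)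
    rw [dbl2_tpL]
    refine Submodule.subset_span ⟨(u', w.eraseIdx (i + 1)), by rw [hu', hu], ?_, ⟨?_, ?_⟩, rfl⟩
    · rw [List.length_eraseIdx_of_lt (by omega), hw]
      rfl
    · exact hs.1.sublist ((List.eraseIdx_sublist w _).append_right [])
    · exact fun a ha => hs.2 a (List.mem_of_mem_eraseIdx ha)
  · have h1 := dbl2_ED (fD A (i + 1) - fD A i - vD A ∘ₗ dbl2H A i - dbl2H A i ∘ₗ vD A) (II A ι)
      (fun u w hu hw hs => by
        have e := congrArg (tpL A (w.eraseIdx (i + 1))) (bd_prW (A := A) (dbl2W i w * ·) id u)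
        rw [map_add, map_sub, dbl2_tpL, dbl2_tpL, List.map_id] at e
        have hm := dbl2_mem (A := A) (dbl2W i w) (u, w.eraseIdx i)
        simp only [gact] at hm
        rw [dbl2W_erase hs (by omega)] at hm
        simp only [LinearMap.sub_apply, LinearMap.comp_apply]
        have hl := prW_len (A := A) (dbl2W i w * ·) id u
        rw [hu] at hl
        rw [dbl2H_vD, dbl2H, dbl2_lin2, dbl2_vD_tpL (k := k) _ hl, sub_sub _ _ _,
          e, fD, fD, dbl2_lin2, dbl2_lin2, sub_sub_sub_cancel_left]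
        exact hm) h
    have h2 := add_mem h1 (dbl2H_II i h0)
    simpa using h2

/-- The double complex on the coinvariants (`Submodule.mapQ`). -/
theorem exists_DC (A : Type) [CommRing A] (ι : Type) [Fintype ι] [DecidableEq ι] :
    ∃ D : DC A (DD A ι ⧸ II A ι) (Fintype.card ι),
      (∀ l k, D.E l k = (ED A ι l k).map (II A ι).mkQ) ∧
      (∀ x, D.v ((II A ι).mkQ x) = (II A ι).mkQ (vD A x)) ∧
      ∀ i x, D.fc i ((II A ι).mkQ x) = (II A ι).mkQ (fD A i x) := by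
  have z : ∀ x : DD A ι, (II A ι).mkQ x = 0 ↔ x ∈ II A ι := fun x => Submodule.Quotient.mk_eq_zero _
  have sj := (II A ι).mkQ_surjective
  refine ⟨{
    E := fun l k => (ED A ι l k).map (II A ι).mkQ
    v := (II A ι).mapQ (II A ι) (vD A) fun _ => vD_II
    fc := fun i => (II A ι).mapQ (II A ι) (fD A i) fun _ => fD_II i
    h := fun l => (II A ι).mapQ (II A ι) (hD A l) fun _ => hD_II l
    v_mem := ?_, v_zero := ?_, vv := ?_, v_fc := ?_, v_h := ?_, hh := ?_, fc_mem := ?_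
    h_eq := ?_, exact := ?_, face := ?_ }, fun _ _ => rfl, fun _ => rfl, fun _ _ => rfl⟩
  · rintro l k _ ⟨x, hx, rfl⟩
    exact ⟨_, vD_mem hx, rfl⟩
  · rintro l _ ⟨x, hx, rfl⟩
    exact (congrArg (II A ι).mkQ (vD_zero hx)).trans (map_zero _)
  · intro x
    obtain ⟨x, rfl⟩ := sj x
    exact (congrArg (II A ι).mkQ (vD_vD x)).trans (map_zero _)
  · intro i x
    obtain ⟨x, rfl⟩ := sj x
    exact congrArg (II A ι).mkQ (vD_fD i x)
  · intro l x
    obtain ⟨x, rfl⟩ := sj x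
    exact congrArg (II A ι).mkQ (vD_hD l x)
  · intro l x
    obtain ⟨x, rfl⟩ := sj x
    exact (congrArg (II A ι).mkQ (hD_hD l x)).trans (map_zero _)
  · rintro l k i hi _ ⟨x, hx, rfl⟩
    exact ⟨_, fD_mem hi hx, rfl⟩
  · rintro l j k _ ⟨x, hx, rfl⟩
    refine (congrArg (II A ι).mkQ (hD_eq hx)).trans ?_
    rw [map_sum]
    exact Finset.sum_congr rfl fun i _ => map_smul _ _ _
  · rintro l j k hN _ ⟨x, hx, rfl⟩ h0
    obtain ⟨y, hy, e⟩ := hD_exact hN hx ((z _).1 h0)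
    refine ⟨_, ⟨y, hy, rfl⟩, sub_eq_zero.1 ?_⟩
    exact (map_sub (II A ι).mkQ _ _).symm.trans ((z _).2 e)
  · rintro l k i hi _ ⟨x, hx, rfl⟩ h0
    have key : ∃ y ∈ ED A ι l (k + 1), fD A i x - fD A 0 x - vD A y ∈ II A ι := by
      induction i with
      | zero => exact ⟨0, zero_mem _, by simp⟩
      | succ i ih =>
        obtain ⟨y, hy, e⟩ := ih (by omega)
        obtain ⟨y', hy', e'⟩ := fD_succ hi hx ((z _).1 h0)
        refine ⟨y' + y, add_mem hy' hy, ?_⟩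
        have := add_mem e' e
        rwa [sub_add_sub_comm, sub_add_sub_cancel, ← map_add] at this
    obtain ⟨y, hy, e⟩ := key
    refine ⟨_, ⟨y, hy, rfl⟩, sub_eq_zero.1 ?_⟩
    have := (z _).2 e
    rwa [map_sub, map_sub] at this

end

end Pool.Agent.Lib.MP_446a91_nt.Rk
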