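import Pool.Agent.Lib.MP_446a91_nt.Rk.Stair
import Pool.Agent.Lib.MP_446a91_nt.Rk.Tr
import Pool.Agent.Lib.MP_446a91_nt.Rk.Nf

/-!
The double complex of group words and split words.
-/

namespace Pool.Agent.Lib.MP_446a91_nt.Rk

open Matrix Filter Topology Pool.Agent.Lib.MP_446a91_nt.Sou

set_option linter.unusedSectionVars false

noncomputable section

variable (A : Type) [CommRing A] (ι : Type) [Fintype ι] [DecidableEq ι]


/-- Chains on pairs of words. -/
abbrev DD : Type := (List (GL ι ℤ) × List (Lt ι)) →₀ A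

variable {ι}

/-- A linear map on pairs of words. -/
def lin2 {M : Type} [AddCommGroup M] [Module A M] (f : List (GL ι ℤ) × List (Lt ι) → M) :
    DD A ι →ₗ[A] M := Finsupp.linearCombination A f

/-- Attach a word of letters to a group chain. -/
def tpL (w : List (Lt ι)) : Ch A (GL ι ℤ) →ₗ[A] DD A ι := lin A fun u => Finsupp.single (u, w) 1

/-- Attach a group word to a chain of letters. -/
def tpR (u : List (GL ι ℤ)) : Ch A (Lt ι) →ₗ[A] DD A ι := lin A fun w => Finsupp.single (u, w) 1

/-- The diagonal action. -/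
def gact (g : GL ι ℤ) (p : List (GL ι ℤ) × List (Lt ι)) : List (GL ι ℤ) × List (Lt ι) :=
  (p.1.map (g * ·), p.2.map (act g))

variable (ι) in
/-- The kernel of the map to the coinvariants. -/
def II : Submodule A (DD A ι) :=
  Submodule.span A {c | ∃ g p, c = Finsupp.single (gact g p) 1 - Finsupp.single p 1}

/-- The vertical boundary (without augmentation). -/
def vD : DD A ι →ₗ[A] DD A ι :=
  lin2 A fun p => if p.1.length ≤ 1 then 0 else tpL A p.2 (dW p.1)

/-- Delete the letter number `i`. -/
def fD (i : ℕ) : DD A ι →ₗ[A] DD A ι := lin2 A fun p => Finsupp.single (p.1, p.2.eraseIdx i) 1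

/-- The horizontal boundary that keeps the last `l` letters. -/
def hD (l : ℕ) : DD A ι →ₗ[A] DD A ι := lin2 A fun p =>
  tpR A p.1 (app (p.2.drop (p.2.length - l)) (dW (p.2.take (p.2.length - l))))

variable (ι) in
/-- Group words of length `k + 1`, split words of length `l`. -/
def ED (l k : ℕ) : Submodule A (DD A ι) :=
  Submodule.span A {c | ∃ p : List (GL ι ℤ) × List (Lt ι), p.1.length = k + 1 ∧ p.2.length = l ∧
    SW [] p.2 ∧ c = Finsupp.single p 1}

end

end Pool.Agent.Lib.MP_446a91_nt.Rk
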