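import Pool.Agent.Lib.MP_446a91_nt.Rk.D0

/-!
The ergodic lemma. `T = av h` is positive, `T^j f g ≤ f g + 2 b`, `T^j F` is `S`-invariant, `T`
commutes with right translations. (1) For `ε` there is a neighbourhood `U'` of `1` with
`|F (g u) - F g| ≤ ε (1 + f g)` for all `g`, `u ∈ U'` (large `f`: growth; `f ≤ B`: tube lemma on
`K`). So the means `ces J F` are equicontinuous at each point and bounded; let `Φ g` be their limit
along `hyperfilter ℕ`; the convergence is uniform on compact sets (finite cover by `g U'`).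
(2) `Φ` is continuous, `S`-invariant, `T Φ = Φ`, `|Φ| ≤ ε (f + 2b) + C ε`. (3) `sup (Φ - ε f)` is
approached only on `f ≤ 2 b + 2`, so `Φ ≤ max_K Φ`; `Z = {Φ = max}` is closed, and
`{a | a Z ⊆ Z}` is a closed submonoid that contains `S` and all `h l`.
-/

namespace Pool.Agent.Lib.MP_446a91_nt.Rk

open Matrix Filter Topology Pool.Agent.Lib.MP_446a91_nt.Sou

set_option linter.unusedSectionVars false

noncomputable section

variable {G L : Type} [Group G] [TopologicalSpace G] [IsTopologicalGroup G] [Fintype L]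


theorem erg_av_mono (h : L → G) {A B : G → ℝ} (e : ∀ g, A g ≤ B g) (g : G) :
    av h A g ≤ av h B g :=
  div_le_div_of_nonneg_right (Finset.sum_le_sum fun _ _ => e _) (Nat.cast_nonneg _)

theorem erg_av_lin [Nonempty L] (h : L → G) (A : G → ℝ) (a c : ℝ) (g : G) :
    av h (fun x => a * A x + c) g = a * av h A g + c := by
  have h0 : (Fintype.card L : ℝ) ≠ 0 := Nat.cast_ne_zero.2 Fintype.card_ne_zero
  simp only [av, Finset.sum_add_distrib, ← Finset.mul_sum, Finset.sum_const, Finset.card_univ,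
    nsmul_eq_mul]
  field_simp

theorem erg_it_mono (h : L → G) (j : ℕ) {A B : G → ℝ} (e : ∀ g, A g ≤ B g) (g : G) :
    (av h)^[j] A g ≤ (av h)^[j] B g := by
  induction j generalizing g with
  | zero => exact e g
  | succ j ih =>
    rw [Function.iterate_succ_apply', Function.iterate_succ_apply']
    exact erg_av_mono h ih g

theorem erg_it_lin [Nonempty L] (h : L → G) (j : ℕ) (A : G → ℝ) (a c : ℝ) :
    (av h)^[j] (fun x => a * A x + c) = fun g => a * (av h)^[j] A g + c := by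
  induction j with
  | zero => rfl
  | succ j ih =>
    rw [Function.iterate_succ_apply', Function.iterate_succ_apply', ih]
    exact funext (erg_av_lin h _ a c)

theorem erg_it_sub (h : L → G) (j : ℕ) (A : G → ℝ) (u : G) :
    (av h)^[j] (fun x => A (x * u) - A x) = fun g => (av h)^[j] A (g * u) - (av h)^[j] A g := by
  induction j with
  | zero => rfl
  | succ j ih =>
    rw [Function.iterate_succ_apply', Function.iterate_succ_apply', ih]
    funext g
    simp only [av, Finset.sum_sub_distrib, sub_div, mul_assoc]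

theorem erg_it_f [Nonempty L] {h : L → G} {f : G → ℝ} {b : ℝ} (hf : ∀ g, 0 ≤ f g) (hb : 0 ≤ b)
    (hT : ∀ g, av h f g ≤ f g / 2 + b) (j : ℕ) (g : G) : (av h)^[j] f g ≤ f g + 2 * b := by
  induction j with
  | zero =>
    rw [Function.iterate_zero_apply]
    linarith
  | succ j ih =>
    have h1 := erg_it_mono h j (A := av h f) (B := fun x => 1 / 2 * f x + b)
      (fun x => by linarith [hT x]) g
    rw [erg_it_lin] at h1
    rw [Function.iterate_succ_apply]
    linarith [hf g]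

theorem erg_it_abs [Nonempty L] {h : L → G} {f : G → ℝ} {b : ℝ} (hf : ∀ g, 0 ≤ f g) (hb : 0 ≤ b)
    (hT : ∀ g, av h f g ≤ f g / 2 + b) {A : G → ℝ} {ε C : ℝ} (hε : 0 ≤ ε)
    (hA : ∀ g, |A g| ≤ ε * f g + C) (j : ℕ) (g : G) :
    |(av h)^[j] A g| ≤ ε * (f g + 2 * b) + C := by
  have h1 := erg_it_mono h j (fun x => (abs_le.1 (hA x)).2) g
  have h2 := erg_it_mono h j (A := fun x => -ε * f x + -C) (B := A)
    (fun x => by linarith [(abs_le.1 (hA x)).1]) g
  rw [erg_it_lin] at h1 h2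
  have h3 := mul_le_mul_of_nonneg_left (erg_it_f hf hb hT j g) hε
  rw [abs_le]
  constructor <;> linarith

theorem erg_ces_abs [Nonempty L] {h : L → G} {f : G → ℝ} {b : ℝ} (hf : ∀ g, 0 ≤ f g) (hb : 0 ≤ b)
    (hT : ∀ g, av h f g ≤ f g / 2 + b) {A : G → ℝ} {ε C : ℝ} (hε : 0 ≤ ε)
    (hA : ∀ g, |A g| ≤ ε * f g + C) (J : ℕ) (g : G) :
    |ces h J A g| ≤ ε * (f g + 2 * b) + C := by
  have h0 : (0 : ℝ) < J + 1 := by positivity
  rw [ces, abs_div, abs_of_pos h0, div_le_iff₀ h0]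
  refine (Finset.abs_sum_le_sum_abs _ _).trans
    ((Finset.sum_le_card_nsmul _ _ _ fun j _ => erg_it_abs hf hb hT hε hA j g).trans_eq ?_)
  rw [Finset.card_range, nsmul_eq_mul, mul_comm, Nat.cast_succ]

theorem erg_ces_sub (h : L → G) (J : ℕ) (A : G → ℝ) (u g : G) :
    ces h J (fun x => A (x * u) - A x) g = ces h J A (g * u) - ces h J A g := by
  simp only [ces, erg_it_sub, Finset.sum_sub_distrib, sub_div]

theorem erg_it_inv {h : L → G} {S : Subgroup G}
    (hS : ∀ s ∈ S, ∃ σ : L ≃ L, ∀ l, ∃ s' ∈ S, h l * s = s' * h (σ l)) {F : G → ℝ}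
    (hI : ∀ s ∈ S, ∀ g, F (s * g) = F g) (j : ℕ) :
    ∀ s ∈ S, ∀ g, (av h)^[j] F (s * g) = (av h)^[j] F g := by
  induction j with
  | zero => exact hI
  | succ j ih =>
    intro s hs g
    obtain ⟨σ, hσ⟩ := hS s hs
    rw [Function.iterate_succ_apply', av, av, ← Equiv.sum_comp σ fun l => (av h)^[j] F (h l * g)]
    congr 1
    refine Finset.sum_congr rfl fun l _ => ?_
    obtain ⟨s', h1, h2⟩ := hσ l
    rw [← mul_assoc, h2, mul_assoc, ih s' h1]

theorem erg_av_ces (h : L → G) (J : ℕ) (F : G → ℝ) (g : G) :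
    av h (ces h J F) g = ces h J F g + ((av h)^[J + 1] F g - F g) / (J + 1) := by
  have h1 : av h (ces h J F) g = (∑ j ∈ Finset.range (J + 1), (av h)^[j + 1] F g) / (J + 1) := by
    simp only [Function.iterate_succ_apply', av, ces, ← Finset.sum_div]
    rw [Finset.sum_comm, div_right_comm]
  have h2 := Finset.sum_range_succ' (fun j => (av h)^[j] F g) (J + 1)
  rw [Finset.sum_range_succ, Function.iterate_zero_apply] at h2
  rw [h1, ces, ← add_div]
  congr 1
  linarith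

theorem erg_equi {S : Subgroup G} {f : G → ℝ} (hf : ∀ g, 0 ≤ f g)
    (hK : ∀ B : ℝ, ∃ K : Set G, IsCompact K ∧ ∀ g, f g ≤ B → ∃ s ∈ S, ∃ k ∈ K, g = s * k)
    {F : G → ℝ} (hF : Continuous F) (hI : ∀ s ∈ S, ∀ g, F (s * g) = F g) {U : Set G}
    (hU : U ∈ 𝓝 (1 : G)) (hg : ∀ ε > 0, ∃ C, ∀ g, ∀ u ∈ U, |F (g * u)| ≤ ε * f g + C) {ε : ℝ}
    (hε : 0 < ε) : ∀ᶠ u in 𝓝 (1 : G), ∀ g, |F (g * u) - F g| ≤ ε * f g + ε := by
  obtain ⟨C, hC⟩ := hg (ε / 4) (by positivity)
  obtain ⟨K, h1, h2⟩ := hK (4 * C / ε)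
  have h3 : ∀ᶠ u in 𝓝 (1 : G), ∀ k ∈ K, |F (k * u) - F k| < ε := by
    refine h1.eventually_forall_of_forall_eventually fun k _ => ?_
    have h4 : Continuous fun z : G × G => |F (z.2 * z.1) - F z.2| := by fun_prop
    exact h4.continuousAt.eventually_lt continuousAt_const (by simpa using hε)
  filter_upwards [h3, hU] with u h4 h5 g
  rcases le_total (f g) (4 * C / ε) with h6 | h6
  · obtain ⟨s, hs, k, hk, rfl⟩ := h2 g h6
    rw [mul_assoc, hI s hs, hI s hs]
    linarith [h4 k hk, mul_nonneg hε.le (hf (s * k))]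
  · have h7 := hC g 1 (mem_of_mem_nhds hU)
    rw [mul_one] at h7
    rw [div_le_iff₀ hε] at h6
    linarith [hC g u h5, abs_sub (F (g * u)) (F g)]

/-- The maximum principle. -/
theorem erg_max [Nonempty L] {h : L → G} {S : Subgroup G} {f : G → ℝ} {b : ℝ}
    (hf : ∀ g, 0 ≤ f g) (hT : ∀ g, av h f g ≤ f g / 2 + b)
    (hK : ∀ B : ℝ, ∃ K : Set G, IsCompact K ∧ ∀ g, f g ≤ B → ∃ s ∈ S, ∃ k ∈ K, g = s * k)
    (hG : ∀ M : Submonoid G, IsClosed (M : Set G) → (∀ s ∈ S, s ∈ M) → (∀ l, h l ∈ M) → M = ⊤)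
    {Φ : G → ℝ} (hc : Continuous Φ) (hI : ∀ s ∈ S, ∀ g, Φ (s * g) = Φ g)
    (hΦ : ∀ g, av h Φ g = Φ g) (hg : ∀ ε > 0, ∃ C, ∀ g, Φ g ≤ ε * f g + C) :
    ∃ c, ∀ g, Φ g = c := by
  obtain ⟨K, h1, h2⟩ := hK (2 * b + 2)
  obtain ⟨k₀, -, h3⟩ := (h1.insert 1).exists_isMaxOn (Set.insert_nonempty _ _) hc.continuousOn
  have h4 : ∀ ε > 0, ∀ g, Φ g ≤ Φ k₀ + ε * f g := fun ε hε => by
    obtain ⟨C, hC⟩ := hg ε hε
    have h5 : BddAbove (Set.range fun g => Φ g - ε * f g) := ⟨C, by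
      rintro _ ⟨g, rfl⟩
      linarith [hC g]⟩
    have h6 := fun g => le_ciSup h5 g
    obtain ⟨M, hM⟩ : ∃ M, M = ⨆ g, Φ g - ε * f g := ⟨_, rfl⟩
    have h7 : M ≤ max (M - ε) (Φ k₀) := by
      refine hM.trans_le (ciSup_le fun g => ?_)
      rcases le_total (f g) (2 * b + 2) with h8 | h8
      · obtain ⟨s, hs, k, hk, rfl⟩ := h2 g h8
        have h9 : Φ k ≤ Φ k₀ := h3 (Set.mem_insert_of_mem _ hk)
        rw [hI s hs]
        exact le_max_of_le_right (by linarith [mul_nonneg hε.le (hf (s * k))])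
      · have h9 := erg_av_mono h (A := Φ) (B := fun x => ε * f x + M)
          (fun x => by linarith [h6 x]) g
        rw [erg_av_lin, hΦ] at h9
        refine le_max_of_le_left ?_
        nlinarith [mul_le_mul_of_nonneg_left (hT g) hε.le, mul_le_mul_of_nonneg_left h8 hε.le]
    intro g
    rcases le_max_iff.1 h7 with h8 | h8 <;> linarith [h6 g]
  have h5 : ∀ g, Φ g ≤ Φ k₀ := fun g => le_of_forall_pos_le_add fun δ hδ => by
    have h6 : 0 < f g + 1 := by linarith [hf g]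
    have h7 := h4 (δ / (f g + 1)) (div_pos hδ h6) g
    have h8 : δ / (f g + 1) * f g ≤ δ := by
      rw [div_mul_eq_mul_div, div_le_iff₀ h6]
      nlinarith
    linarith
  let M : Submonoid G :=
    { carrier := {a | ∀ g, Φ g = Φ k₀ → Φ (a * g) = Φ k₀}
      one_mem' := fun g h6 => by rwa [one_mul]
      mul_mem' := fun ha hb g h6 => by
        rw [mul_assoc]
        exact ha _ (hb g h6) }
  have h6 : M = ⊤ := by
    refine hG M ?_ (fun s hs g h6 => (hI s hs g).trans h6) fun l g h6 => ?_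
    · change IsClosed {a | ∀ g, Φ g = Φ k₀ → Φ (a * g) = Φ k₀}
      simp only [Set.ofPred_forall]
      exact isClosed_iInter fun g => isClosed_iInter fun _ =>
        isClosed_eq (by fun_prop) continuous_const
    · have h0 : (Fintype.card L : ℝ) ≠ 0 := Nat.cast_ne_zero.2 Fintype.card_ne_zero
      have h7 := hΦ g
      rw [av, div_eq_iff h0, h6] at h7
      refine (Finset.sum_eq_sum_iff_of_le (s := Finset.univ) (f := fun l => Φ (h l * g))
        (g := fun _ => Φ k₀) fun l _ => h5 _).1 ?_ l (Finset.mem_univ l)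
      rw [h7, Finset.sum_const, Finset.card_univ, nsmul_eq_mul, mul_comm]
  refine ⟨Φ k₀, fun g => ?_⟩
  have h7 : g * k₀⁻¹ ∈ M := h6 ▸ Submonoid.mem_top _
  simpa using h7 k₀ rfl

theorem ergodic [Nonempty L] (h : L → G) (S : Subgroup G) (f : G → ℝ) (b : ℝ)
    (hf : ∀ g, 0 ≤ f g) (hb : 0 ≤ b) (hT : ∀ g, av h f g ≤ f g / 2 + b)
    (hS : ∀ s ∈ S, ∃ σ : L ≃ L, ∀ l, ∃ s' ∈ S, h l * s = s' * h (σ l))
    (hK : ∀ B : ℝ, ∃ K : Set G, IsCompact K ∧ ∀ g, f g ≤ B → ∃ s ∈ S, ∃ k ∈ K, g = s * k)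
    (hG : ∀ M : Submonoid G, IsClosed (M : Set G) → (∀ s ∈ S, s ∈ M) → (∀ l, h l ∈ M) → M = ⊤)
    (F : G → ℝ) (hF : Continuous F) (hI : ∀ s ∈ S, ∀ g, F (s * g) = F g) {U : Set G}
    (hU : U ∈ 𝓝 (1 : G)) (hg : ∀ ε > 0, ∃ C, ∀ g, ∀ u ∈ U, |F (g * u)| ≤ ε * f g + C) :
    ∃ c : ℝ, ∀ K : Set G, IsCompact K → ∀ ε > 0,
      ∀ᶠ J in (hyperfilter ℕ : Filter ℕ), ∀ g ∈ K, |ces h J F g - c| ≤ ε := by
  have hg1 : ∀ ε > 0, ∃ C, ∀ g, |F g| ≤ ε * f g + C := fun ε hε =>
    (hg ε hε).imp fun C hC g => by simpa using hC g 1 (mem_of_mem_nhds hU)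
  have h1 : ∀ g, ∃ x, Tendsto (fun J => ces h J F g) (hyperfilter ℕ : Filter ℕ) (𝓝 x) := fun g => by
    obtain ⟨C, hC⟩ := hg1 1 one_pos
    obtain ⟨x, -, hx⟩ := (isCompact_Icc (a := -(1 * (f g + 2 * b) + C))
      (b := 1 * (f g + 2 * b) + C)).ultrafilter_le_nhds
      ((hyperfilter ℕ).map fun J => ces h J F g) (by
        rw [Ultrafilter.coe_map, le_principal_iff, mem_map]
        exact Eventually.of_forall fun J => abs_le.1 (erg_ces_abs hf hb hT zero_le_one hC J g))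
    exact ⟨x, hx⟩
  choose Φ hΦ using h1
  have h2 : ∀ g, ∀ δ > 0, ∀ᶠ x in 𝓝 g, ∀ J, |ces h J F x - ces h J F g| ≤ δ := fun g δ hδ => by
    have h3 : 0 < f g + 2 * b + 1 := by linarith [hf g]
    rw [← map_mul_left_nhds_one, eventually_map]
    filter_upwards [erg_equi hf hK hF hI hU hg (div_pos hδ h3)] with u hu J
    rw [← erg_ces_sub]
    refine (erg_ces_abs hf hb hT (div_pos hδ h3).le hu J g).trans_eq ?_
    rw [← mul_add_one, div_mul_cancel₀ _ h3.ne']
  have h3 : Continuous Φ := continuous_iff_continuousAt.2 fun g =>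
    Metric.tendsto_nhds.2 fun δ hδ => by
      filter_upwards [h2 g (δ / 2) (half_pos hδ)] with x hx
      rw [Real.dist_eq]
      exact (le_of_tendsto' ((hΦ x).sub (hΦ g)).abs hx).trans_lt (half_lt_self hδ)
  have h4 : ∀ s ∈ S, ∀ g, Φ (s * g) = Φ g := fun s hs g => by
    refine tendsto_nhds_unique (hΦ _) ((hΦ g).congr fun J => ?_)
    simp only [ces, erg_it_inv hS hI _ s hs]
  have h5 : ∀ g, av h Φ g = Φ g := fun g => by
    obtain ⟨C, hC⟩ := hg1 1 one_pos
    have h6 : Tendsto (fun J => av h (ces h J F) g) (hyperfilter ℕ : Filter ℕ) (𝓝 (av h Φ g)) :=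
      (tendsto_finsetSum _ fun l _ => hΦ (h l * g)).div_const _
    have h7 : Tendsto (fun J : ℕ => ((av h)^[J + 1] F g - F g) / (J + 1)) atTop (𝓝 0) := by
      refine squeeze_zero_norm (a := fun J : ℕ => (1 * (f g + 2 * b) + C + |F g|) * (1 / (J + 1)))
        (fun J => ?_) ?_
      · have h0 : (0 : ℝ) < J + 1 := by positivity
        rw [Real.norm_eq_abs, abs_div, abs_of_pos h0, mul_one_div]
        refine div_le_div_of_nonneg_right ((abs_sub _ _).trans ?_) h0.le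
        linarith [erg_it_abs hf hb hT zero_le_one hC (J + 1) g]
      · simpa using tendsto_one_div_add_atTop_nhds_zero_nat.const_mul
          (1 * (f g + 2 * b) + C + |F g|)
    have h8 := (hΦ g).add (h7.mono_left Nat.hyperfilter_le_atTop)
    rw [add_zero] at h8
    exact tendsto_nhds_unique h6 (h8.congr fun J => (erg_av_ces h J F g).symm)
  obtain ⟨c, hc⟩ := erg_max hf hT hK hG h3 h4 h5 fun ε hε => by
    obtain ⟨C, hC⟩ := hg1 ε hε
    refine ⟨ε * (2 * b) + C, fun g => le_of_tendsto' (hΦ g) fun J => ?_⟩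
    linarith [(abs_le.1 (erg_ces_abs hf hb hT hε.le hC J g)).2]
  refine ⟨c, fun K hKc ε hε => ?_⟩
  refine hKc.induction_on (p := fun t => ∀ᶠ J in (hyperfilter ℕ : Filter ℕ),
    ∀ g ∈ t, |ces h J F g - c| ≤ ε) (Eventually.of_forall fun _ _ h6 => h6.elim)
    (fun s t h6 h7 => h7.mono fun J h8 g h9 => h8 g (h6 h9))
    (fun s t h6 h7 => (h6.and h7).mono fun J h8 g h9 => h9.elim (h8.1 g) (h8.2 g)) fun g _ => ?_
  refine ⟨_, mem_nhdsWithin_of_mem_nhds (h2 g (ε / 2) (half_pos hε)), ?_⟩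
  filter_upwards [Metric.tendsto_nhds.1 (hΦ g) (ε / 2) (half_pos hε)] with J h6 x hx
  rw [Real.dist_eq, hc] at h6
  linarith [hx J, abs_sub_le (ces h J F x) (ces h J F g) c]

end

end Pool.Agent.Lib.MP_446a91_nt.Rk
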