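import Pool.Agent.Lib.MP_446a91_nt.Rk.Hk

/-!
Generation. `M` contains `D = dgU i₀ t`, its conjugates `D i` by permutation matrices,
`(D i)⁻¹ = r⁻¹ ∏_(j ≠ i) D j`, the transvections with coefficient `a / r^k`, by closedness all
transvections; `diag(a, a⁻¹)` is a product of four transvections; every invertible diagonal
matrix is a product of these, scalars and sign matrices.
-/

namespace Pool.Agent.Lib.MP_446a91_nt.Rk

open Matrix Filter Topology Pool.Agent.Lib.MP_446a91_nt.Sou

set_option linter.unusedSectionVars false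

noncomputable section

variable {ι : Type} [Fintype ι] [DecidableEq ι]

/-- The image of a submonoid of `GL` in the matrices. -/
def genIm (M : Submonoid (GL ι ℝ)) : Submonoid (Matrix ι ι ℝ) := M.map (Units.coeHom _)

/-- The diagonal matrices in the image. -/
def genDg (M : Submonoid (GL ι ℝ)) : Submonoid (ι → ℝ) where
  carrier := {d | diagonal d ∈ genIm M}
  one_mem' := by
    show diagonal (fun _ => (1 : ℝ)) ∈ genIm M
    rw [diagonal_one]; exact one_mem _
  mul_mem' := by
    intro a b ha hb
    have h := mul_mem (show diagonal a ∈ genIm M from ha) (show diagonal b ∈ genIm M from hb)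
    rw [diagonal_mul_diagonal] at h
    exact h

theorem gen_dg_iff (M : Submonoid (GL ι ℝ)) (d : ι → ℝ) :
    d ∈ genDg M ↔ diagonal d ∈ genIm M := Iff.rfl

theorem gen_val_mem {M : Submonoid (GL ι ℝ)} {g : GL ι ℝ} (hg : g ∈ M) :
    (g : Matrix ι ι ℝ) ∈ genIm M := ⟨g, hg, rfl⟩

theorem gen_mem_of_val {M : Submonoid (GL ι ℝ)} {g : GL ι ℝ}
    (hg : (g : Matrix ι ι ℝ) ∈ genIm M) : g ∈ M := by
  obtain ⟨g', hg', h⟩ := hg
  have : g' = g := Units.ext h
  exact this ▸ hg'

theorem gen_int {M : Submonoid (GL ι ℝ)} (hS : ∀ s ∈ (Sg : Subgroup (GL ι ℝ)), s ∈ M)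
    (A B : Matrix ι ι ℤ) (h1 : A * B = 1) (h2 : B * A = 1) :
    A.map (Int.cast : ℤ → ℝ) ∈ genIm M := by
  have h : cR (⟨A, B, h1, h2⟩ : GL ι ℤ) ∈ M :=
    hS _ (Subgroup.mem_sup_left ⟨_, rfl⟩)
  exact gen_val_mem h

theorem gen_const {M : Submonoid (GL ι ℝ)} (hS : ∀ s ∈ (Sg : Subgroup (GL ι ℝ)), s ∈ M)
    (c : ℝ) (hc : c ≠ 0) : (fun _ : ι => c) ∈ genDg M := by
  have h : Matrix.GeneralLinearGroup.scalar ι (Units.mk0 c hc) ∈ M :=
    hS _ (Subgroup.mem_sup_right ⟨_, rfl⟩)
  exact gen_val_mem h

/-- The function with the value `a` at `i` and `1` elsewhere. -/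
def genU (i : ι) (a : ℝ) : ι → ℝ := fun k => if k = i then a else 1

theorem gen_swap (i j : ι) (a : ℝ) :
    Matrix.swap ℝ i j * diagonal (genU i a) * Matrix.swap ℝ i j = diagonal (genU j a) := by
  have h : ∀ d : ι → ℝ, Matrix.swap ℝ i j * diagonal d * Matrix.swap ℝ i j =
      diagonal (d ∘ Equiv.swap i j) := by
    intro d
    rw [Matrix.swap, Equiv.Perm.permMatrix, PEquiv.toMatrix_toPEquiv_mul,
      PEquiv.mul_toMatrix_toPEquiv, Equiv.symm_swap, submatrix_submatrix]
    exact submatrix_diagonal_equiv d (Equiv.swap i j)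
  rw [h]
  refine congrArg diagonal (funext fun k => ?_)
  simp only [genU, Function.comp_apply, Equiv.swap_apply_eq_iff, Equiv.swap_apply_left]

theorem gen_prod_erase (i : ι) (a : ℝ) (k : ι) :
    (∏ j ∈ Finset.univ.erase i, genU j a) k = if k = i then 1 else a := by
  rw [Finset.prod_apply]
  simp only [genU]
  rw [Finset.prod_ite_eq]
  by_cases h : k = i <;> simp [h]

theorem gen_conj_tv {i j : ι} (h : i ≠ j) (a c : ℝ) (ha : a ≠ 0) :
    diagonal (genU i a⁻¹) * transvection i j c * diagonal (genU i a) =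
      transvection i j (c / a) := by
  ext k l
  simp only [transvection, mul_diagonal, diagonal_mul, Matrix.add_apply, one_apply, single_apply,
    genU]
  by_cases h1 : k = i <;> by_cases h2 : l = i <;> by_cases h3 : l = j <;>
    simp_all [eq_comm, div_eq_inv_mul]

theorem gen_mul_tv (A : Matrix ι ι ℝ) (i j : ι) (c : ℝ) (k l : ι) :
    (A * transvection i j c) k l = A k l + if l = j then c * A k i else 0 := by
  by_cases h : l = j
  · subst h
    simp
  · simp [h]

theorem gen_four {i j : ι} (h : i ≠ j) (a : ℝ) (ha : a ≠ 0) :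
    transvection i j (a - 1) * transvection j i 1 * transvection i j (-(a - 1) / a) *
      transvection j i (-a) = diagonal (genU i a * genU j a⁻¹) := by
  have h' : j ≠ i := h.symm
  rw [← Matrix.one_mul (transvection i j (a - 1))]
  ext k l
  simp only [gen_mul_tv, h, h', if_true, if_false, one_apply, diagonal_apply, genU, Pi.mul_apply]
  by_cases h1 : k = i
  · subst h1
    by_cases h2 : l = k
    · subst h2
      simp only [h, h', if_true, if_false]
      field_simp
      ring
    · by_cases h3 : l = j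
      · subst h3
        simp only [h, h', if_true, if_false]
        field_simp
        ring
      · simp [h2, h3, Ne.symm h2]
  · by_cases h4 : k = j
    · subst h4
      by_cases h2 : l = i
      · subst h2
        simp only [h, h', if_true, if_false]
        field_simp
        ring
      · by_cases h3 : l = k
        · subst h3
          simp only [h, h', if_true, if_false]
          field_simp
          ring
        · simp [h2, h3, Ne.symm h3]
    · simp [h1, h4]

/-- The transvection as a unit. -/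
def genT {i j : ι} (h : i ≠ j) (c : ℝ) : GL ι ℝ :=
  ⟨transvection i j c, transvection i j (-c),
    by rw [transvection_mul_transvection_same _ _ h]; simp,
    by rw [transvection_mul_transvection_same _ _ h]; simp⟩

theorem gen_cont_tv (i j : ι) : Continuous fun c : ℝ => transvection i j c := by
  refine continuous_matrix fun k l => ?_
  simp only [transvection, Matrix.add_apply, single_apply]
  split_ifs <;> fun_prop

theorem gen_cont_T {i j : ι} (h : i ≠ j) : Continuous (genT h : ℝ → GL ι ℝ) :=
  Units.continuous_iff.2 ⟨gen_cont_tv i j, (gen_cont_tv i j).comp continuous_neg⟩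

theorem gen_closed {T : Set ℝ} (hT : IsClosed T) {r : ℝ} (hr : 1 < r)
    (h1 : ∀ a : ℤ, (a : ℝ) ∈ T) (h2 : ∀ c ∈ T, c / r ∈ T) (c : ℝ) : c ∈ T := by
  have hr0 : 0 < r := by linarith
  have h3 : ∀ (k : ℕ) (a : ℤ), (a : ℝ) / r ^ k ∈ T := by
    intro k a
    induction k with
    | zero => simpa using h1 a
    | succ k ih =>
      rw [pow_succ, ← div_div]
      exact h2 _ ih
  rw [← hT.closure_eq, Metric.mem_closure_iff]
  intro ε hε
  obtain ⟨k, hk⟩ := pow_unbounded_of_one_lt ε⁻¹ hr
  have hp : 0 < r ^ k := pow_pos hr0 k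
  refine ⟨_, h3 k ⌊c * r ^ k⌋, ?_⟩
  have e : c - (⌊c * r ^ k⌋ : ℝ) / r ^ k = (c * r ^ k - ⌊c * r ^ k⌋) / r ^ k := by
    field_simp
  have l1 := Int.floor_le (c * r ^ k)
  have l2 := Int.lt_floor_add_one (c * r ^ k)
  rw [Real.dist_eq, e, abs_of_nonneg (div_nonneg (by linarith) hp.le), div_lt_iff₀ hp]
  have l3 : 1 < ε * r ^ k := by
    have := mul_lt_mul_of_pos_left hk hε
    rwa [mul_inv_cancel₀ hε.ne'] at this
  linarith

theorem gen_top {r : ℕ} (hr : 2 ≤ r) (hN : 2 ≤ Fintype.card ι) (H : Hk ι r) {t : ℝˣ}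
    (ht : (t : ℝ) = r) (l : Lb ι r) (M : Submonoid (GL ι ℝ)) (hM : IsClosed (M : Set (GL ι ℝ)))
    (hS : ∀ s ∈ (Sg : Subgroup (GL ι ℝ)), s ∈ M) (hl : H.hR t l ∈ M) : M = ⊤ := by
  have hr1 : (1 : ℝ) < r := by exact_mod_cast hr
  have hr0 : (r : ℝ) ≠ 0 := by linarith
  have hD0 : genU H.i₀ (r : ℝ) ∈ genDg M := by
    have h1 : cR (H.γ l)⁻¹ ∈ M := hS _ (Subgroup.mem_sup_left ⟨_, rfl⟩)
    have h2 := mul_mem hl h1
    have h3 : H.hR t l * cR (H.γ l)⁻¹ = dgU H.i₀ t := by
      show dgU H.i₀ t * cR (H.γ l) * cR (H.γ l)⁻¹ = _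
      rw [map_inv, mul_inv_cancel_right]
    rw [h3] at h2
    have h4 := gen_val_mem h2
    rw [← ht]
    exact h4
  have hsw : ∀ i j : ι, Matrix.swap ℝ i j ∈ genIm M := by
    intro i j
    have h := gen_int hS _ _ (swap_mul_self i j) (swap_mul_self i j)
    have e := Matrix.map_swap (Int.castRingHom ℝ) i j
    rw [← e]
    exact h
  have hD : ∀ i, genU i (r : ℝ) ∈ genDg M := by
    intro i
    rw [gen_dg_iff, ← gen_swap H.i₀ i]
    exact mul_mem (mul_mem (hsw _ _) hD0) (hsw _ _)
  have hDi : ∀ i, genU i (r : ℝ)⁻¹ ∈ genDg M := by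
    intro i
    have h := mul_mem (gen_const hS (r : ℝ)⁻¹ (inv_ne_zero hr0))
      (prod_mem (t := Finset.univ.erase i) fun j _ => hD j)
    have e : (fun _ : ι => (r : ℝ)⁻¹) * ∏ j ∈ Finset.univ.erase i, genU j (r : ℝ) =
        genU i (r : ℝ)⁻¹ := by
      funext k
      rw [Pi.mul_apply, gen_prod_erase, genU]
      split_ifs <;> simp [hr0]
    rwa [e] at h
  have hT : ∀ i j, i ≠ j → ∀ c : ℝ, transvection i j c ∈ genIm M := by
    intro i j h c
    have hc : IsClosed {c : ℝ | genT h c ∈ M} := hM.preimage (gen_cont_T h)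
    refine gen_val_mem (gen_closed hc hr1 (fun a => gen_mem_of_val ?_) (fun c hc => ?_) c)
    · have h1 := gen_int hS (transvection i j a) (transvection i j (-a))
        (by rw [transvection_mul_transvection_same _ _ h]; simp)
        (by rw [transvection_mul_transvection_same _ _ h]; simp)
      have e : (transvection i j a).map (Int.cast : ℤ → ℝ) = transvection i j (a : ℝ) := by
        ext k l
        simp only [transvection, map_apply, Matrix.add_apply, one_apply, single_apply]
        split_ifs <;> simp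
      rw [e] at h1
      exact h1
    · refine gen_mem_of_val ?_
      show transvection i j (c / r) ∈ genIm M
      rw [← gen_conj_tv h _ c hr0]
      exact mul_mem (mul_mem (hDi i) (gen_val_mem hc)) (hD i)
  have hE : ∀ i j, i ≠ j → ∀ a : ℝ, a ≠ 0 → genU i a * genU j a⁻¹ ∈ genDg M := by
    intro i j h a ha
    rw [gen_dg_iff, ← gen_four h a ha]
    exact mul_mem (mul_mem (mul_mem (hT _ _ h _) (hT _ _ h.symm _)) (hT _ _ h _))
      (hT _ _ h.symm _)
  have hpos : ∀ i (a : ℝ), 0 < a → genU i a ∈ genDg M := by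
    intro i a ha
    have hn : Fintype.card ι ≠ 0 := by omega
    obtain ⟨b, hb, hba⟩ : ∃ b : ℝ, 0 < b ∧ b ^ Fintype.card ι = a :=
      ⟨a ^ ((Fintype.card ι : ℝ)⁻¹), Real.rpow_pos_of_pos ha _, Real.rpow_inv_natCast_pow ha.le hn⟩
    have h := mul_mem (gen_const hS b hb.ne')
      (prod_mem (t := Finset.univ.erase i) fun j hj =>
        hE i j (Finset.ne_of_mem_erase hj).symm b hb.ne')
    have e : (fun _ : ι => b) * ∏ j ∈ Finset.univ.erase i, (genU i b * genU j b⁻¹) =
        genU i a := by
      funext k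
      rw [Finset.prod_mul_distrib, Pi.mul_apply, Pi.mul_apply, gen_prod_erase, Finset.prod_const,
        Pi.pow_apply, Finset.card_erase_of_mem (Finset.mem_univ i), Finset.card_univ]
      simp only [genU]
      split_ifs
      · rw [mul_one, ← pow_succ', Nat.sub_add_cancel (by omega), hba]
      · simp [hb.ne']
    rwa [e] at h
  have hneg : ∀ i : ι, genU i (-1) ∈ genDg M := by
    intro i
    have e0 : (diagonal fun k => if k = i then (-1 : ℤ) else 1) *
        (diagonal fun k => if k = i then (-1 : ℤ) else 1) = 1 := by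
      rw [diagonal_mul_diagonal, ← diagonal_one]
      refine congrArg diagonal (funext fun k => ?_)
      split_ifs <;> simp
    have h := gen_int hS _ _ e0 e0
    rw [diagonal_map (by simp)] at h
    have e : (fun k => (((if k = i then (-1 : ℤ) else 1 : ℤ)) : ℝ)) = genU i (-1) := by
      funext k
      simp only [genU]
      split_ifs <;> simp
    rw [e] at h
    exact h
  have hU : ∀ i (a : ℝ), a ≠ 0 → genU i a ∈ genDg M := by
    intro i a ha
    rcases lt_or_gt_of_ne ha with h | h
    · have h1 := mul_mem (hneg i) (hpos i (-a) (by linarith))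
      have e : genU i (-1) * genU i (-a) = genU i a := by
        funext k
        simp only [genU, Pi.mul_apply]
        split_ifs <;> simp
      rwa [e] at h1
    · exact hpos i a h
  have hall : ∀ d : ι → ℝ, (∀ i, d i ≠ 0) → diagonal d ∈ genIm M := by
    intro d hd
    have h := prod_mem (t := Finset.univ) fun i _ => hU i (d i) (hd i)
    have e : ∏ i, genU i (d i) = d := by
      funext k
      rw [Finset.prod_apply]
      simp only [genU]
      rw [Finset.prod_ite_eq]
      simp
    rw [e] at h
    exact h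
  refine top_unique fun g _ => gen_mem_of_val ?_
  refine diagonal_transvection_induction_of_det_ne_zero (fun A => A ∈ genIm M) _
    (Matrix.GeneralLinearGroup.det_ne_zero g) (fun d hd => hall d fun i => ?_)
    (fun u => hT _ _ u.hij _) fun A B _ _ hA hB => mul_mem hA hB
  rw [det_diagonal] at hd
  exact Finset.prod_ne_zero_iff.1 hd i (Finset.mem_univ i)

end

end Pool.Agent.Lib.MP_446a91_nt.Rk
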