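import Pool.Agent.Lib.MP_446a91_nt.Rk.D0

/-!
The `ℓ¹` norm.
-/

namespace Pool.Agent.Lib.MP_446a91_nt.Rk

open Matrix Filter Topology Pool.Agent.Lib.MP_446a91_nt.Sou

set_option linter.unusedSectionVars false

noncomputable section

variable {α β X Y : Type}


theorem n1_eq_sum {c : α →₀ ℝ} {S : Finset α} (h : c.support ⊆ S) : n1 c = ∑ a ∈ S, |c a| :=
  Finsupp.sum_of_support_subset c h _ fun _ _ => abs_zero

theorem mass_eq_sum {c : α →₀ ℝ} {S : Finset α} (h : c.support ⊆ S) :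
    mass c = ∑ a ∈ S, c a :=
  Finsupp.sum_of_support_subset c h (fun _ a => a) fun _ _ => rfl

theorem n1_nonneg (c : α →₀ ℝ) : 0 ≤ n1 c := Finset.sum_nonneg fun _ _ => abs_nonneg _

@[simp] theorem n1_zero : n1 (0 : α →₀ ℝ) = 0 := Finsupp.sum_zero_index

theorem n1_add_le (c c' : α →₀ ℝ) : n1 (c + c') ≤ n1 c + n1 c' := by
  classical
  rw [n1_eq_sum Finsupp.support_add, n1_eq_sum (c := c) Finset.subset_union_left,
    n1_eq_sum (c := c') Finset.subset_union_right, ← Finset.sum_add_distrib]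
  exact Finset.sum_le_sum fun a _ => abs_add_le _ _

theorem n1_neg (c : α →₀ ℝ) : n1 (-c) = n1 c := by
  rw [n1_eq_sum (Finsupp.support_neg c).subset, n1_eq_sum subset_rfl]
  simp

theorem n1_sub_le (c c' : α →₀ ℝ) : n1 (c - c') ≤ n1 c + n1 c' := by
  rw [sub_eq_add_neg, ← n1_neg c']
  exact n1_add_le _ _

theorem n1_smul (t : ℝ) (c : α →₀ ℝ) : n1 (t • c) = |t| * n1 c := by
  rw [n1_eq_sum Finsupp.support_smul, n1_eq_sum subset_rfl, Finset.mul_sum]
  simp [abs_mul]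

theorem n1_single (a : α) (t : ℝ) : n1 (Finsupp.single a t) = |t| :=
  Finsupp.sum_single_index abs_zero

theorem n1_sum_le {ι : Type} (s : Finset ι) (c : ι → α →₀ ℝ) :
    n1 (∑ i ∈ s, c i) ≤ ∑ i ∈ s, n1 (c i) :=
  Finset.le_sum_of_subadditive n1 n1_zero.le n1_add_le s c

theorem abs_apply_le_n1 (c : α →₀ ℝ) (a : α) : |c a| ≤ n1 c := by
  by_cases h : a ∈ c.support
  · exact Finset.single_le_sum (f := fun a => |c a|) (fun _ _ => abs_nonneg _) h
  · rw [Finsupp.notMem_support_iff.1 h, abs_zero]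
    exact n1_nonneg c

theorem abs_mass_le (c : α →₀ ℝ) : |mass c| ≤ n1 c := Finset.abs_sum_le_sum_abs _ _

theorem n1_mapDomain_le (f : α → β) (c : α →₀ ℝ) : n1 (c.mapDomain f) ≤ n1 c :=
  (n1_sum_le _ _).trans_eq (Finset.sum_congr rfl fun _ _ => n1_single _ _)

theorem mass_mapDomain (f : α → β) (c : α →₀ ℝ) : mass (c.mapDomain f) = mass c :=
  Finsupp.sum_mapDomain_index (fun _ => rfl) fun _ _ _ => rfl

@[simp] theorem n1_wd (w : List X) : n1 (wd w : Ch ℝ X) = 1 := by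
  rw [wd, n1_single, abs_one]

theorem n1_lin_le {P : List X → Prop} {φ : List X → α →₀ ℝ} {B : ℝ} (h : ∀ w, P w → n1 (φ w) ≤ B)
    {c : Ch ℝ X} (hc : c ∈ sp ℝ P) : n1 (lin ℝ φ c) ≤ B * n1 c := by
  rw [lin, Finsupp.linearCombination_apply, n1_eq_sum (c := c) subset_rfl, Finset.mul_sum]
  refine (n1_sum_le _ _).trans (Finset.sum_le_sum fun w hw => ?_)
  rw [n1_smul, mul_comm]
  exact mul_le_mul_of_nonneg_right (h w (mem_sp_iff.1 hc w hw)) (abs_nonneg _)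

theorem n1_map_le {P : List X → Prop} (φ : Ch ℝ X →ₗ[ℝ] (α →₀ ℝ)) {B : ℝ}
    (h : ∀ w, P w → n1 (φ (wd w)) ≤ B) {c : Ch ℝ X} (hc : c ∈ sp ℝ P) :
    n1 (φ c) ≤ B * n1 c := by
  rw [← lin_self]
  exact n1_lin_le h hc

theorem abs_lin_le {P : List X → Prop} {κ : List X → ℝ} {B : ℝ} (h : ∀ w, P w → |κ w| ≤ B)
    {c : Ch ℝ X} (hc : c ∈ sp ℝ P) : |lin ℝ κ c| ≤ B * n1 c := by
  rw [lin, Finsupp.linearCombination_apply, n1_eq_sum (c := c) subset_rfl, Finset.mul_sum]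
  refine (Finset.abs_sum_le_sum_abs _ _).trans (Finset.sum_le_sum fun w hw => ?_)
  change |c w * κ w| ≤ _
  rw [abs_mul, mul_comm]
  exact mul_le_mul_of_nonneg_right (h w (mem_sp_iff.1 hc w hw)) (abs_nonneg _)

theorem n1_cons_le (a : X) (c : Ch ℝ X) : n1 (cons a c) ≤ n1 c :=
  (n1_lin_le (fun _ _ => (n1_wd _).le) (mem_sp_top c)).trans_eq (one_mul _)

theorem n1_mp_le (f : X → Y) (c : Ch ℝ X) : n1 (mp f c) ≤ n1 c :=
  (n1_lin_le (fun _ _ => (n1_wd _).le) (mem_sp_top c)).trans_eq (one_mul _)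

theorem n1_dW_le (w : List X) : n1 (dW w : Ch ℝ X) ≤ w.length := by
  induction w with
  | nil => simp
  | cons a w ih =>
    have h1 := n1_sub_le (wd w : Ch ℝ X) (cons a (dW w))
    have h2 := n1_cons_le a (dW w)
    rw [n1_wd] at h1
    rw [dW_cons, List.length_cons, Nat.cast_succ]
    linarith

end

end Pool.Agent.Lib.MP_446a91_nt.Rk
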