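import Pool.Agent.Lib.MP_446a91_nt.Rk.Nf
import Pool.Agent.Lib.MP_446a91_nt.Rk.Nm

/-!
The cone construction of chain homotopies.
-/

namespace Pool.Agent.Lib.MP_446a91_nt.Rk

open Matrix Filter Topology Pool.Agent.Lib.MP_446a91_nt.Sou

set_option linter.unusedSectionVars false

noncomputable section

variable {A : Type} [CommRing A] {X Y : Type} {G : Type} [Group G] [MulAction G X]


theorem ht_dW (a : X) (w : List X) :
    (dW (a :: w) : Ch A X) ∈ sp A fun u => List.Sublist u (a :: w) ∧ u.length = w.length :=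
  sp_mono (fun _ hu => ⟨hu.1, Nat.succ_injective hu.2⟩) (dW_mem_sublist (a :: w))

theorem ht_ind {Q : List X → Prop} (h0 : Q [])
    (hs : ∀ a w, (∀ u, List.Sublist u (a :: w) ∧ u.length = w.length → Q u) → Q (a :: w))
    (w : List X) : Q w := by
  induction hn : w.length generalizing w with
  | zero => rwa [List.length_eq_zero_iff.1 hn]
  | succ n ih =>
    cases w with
    | nil => exact h0
    | cons a w => exact hs a w fun u hu => ih u (hu.2.trans (Nat.succ_injective hn))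

theorem ht_nil (f : X → Y) (φ : Ch A X →ₗ[A] Ch A Y) : ht f φ (wd []) = 0 := lin_wd _ _

/-- `dW (a :: w)` lies in `len w.length`, where `htN f φ w.length` agrees with `ht` (`lin_congr`). -/
theorem ht_cons (f : X → Y) (φ : Ch A X →ₗ[A] Ch A Y) (a : X) (w : List X) :
    ht f φ (wd (a :: w)) = cons (f a) (φ (wd (a :: w)) - ht f φ (dW (a :: w))) := by
  rw [ht, lin_wd, List.length_cons, htN]
  exact congrArg (fun c => cons (f a) (φ (wd (a :: w)) - c))
    (lin_congr (fun u hu => by rw [hu.2]) (ht_dW a w))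

/-- Induction on the length; `bd_cons`, and the induction hypothesis applied to `dW w`. -/
theorem bd_ht (f : X → Y) {φ : Ch A X →ₗ[A] Ch A Y} (h : ∀ c, bd (φ c) = φ (bd c))
    (h0 : φ (wd []) = 0) (c : Ch A X) : bd (ht f φ c) + ht f φ (bd c) = φ c := by
  refine ch_ext' (φ := bd ∘ₗ ht f φ + ht f φ ∘ₗ bd) (ht_ind ?_ fun a w ih => ?_) c
  · simp [ht_nil, h0]
  · have h1 : bd (ht f φ (dW (a :: w))) + ht f φ (bd (dW (a :: w))) = φ (dW (a :: w)) :=
      sp_ext (φ := bd ∘ₗ ht f φ + ht f φ ∘ₗ bd) ih (ht_dW a w)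
    rw [bd_dW, map_zero, add_zero] at h1
    change bd (ht f φ (wd (a :: w))) + ht f φ (bd (wd (a :: w))) = _
    rw [ht_cons, bd_cons, map_sub (bd (A := A) (X := Y)), h, bd_wd, h1, sub_self, map_zero,
      sub_zero, sub_add_cancel]

theorem ht_len (f : X → Y) {φ : Ch A X →ₗ[A] Ch A Y} (h : ∀ w, φ (wd w) ∈ len A Y w.length)
    (w : List X) : ht f φ (wd w) ∈ len A Y (w.length + 1) := by
  refine ht_ind (Q := fun w => ht f φ (wd w) ∈ len A Y (w.length + 1)) ?_ (fun a w ih => ?_) w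
  · rw [ht_nil]
    exact zero_mem _
  · rw [ht_cons]
    exact cons_len _ (sub_mem (h _) (sp_map _ _
      (fun u hu => by rw [List.length_cons, ← hu.2]; exact ih u hu) (ht_dW a w)))

theorem ht_eqv [MulAction G Y] {f : X → Y} (hf : ∀ (g : G) x, f (g • x) = g • f x)
    {φ : Ch A X →ₗ[A] Ch A Y}
    (h : ∀ (g : G) (w : List X), φ (wd (w.map (g • ·))) = mp (g • ·) (φ (wd w))) (g : G)
    (w : List X) : ht f φ (wd (w.map (g • ·))) = mp (g • ·) (ht f φ (wd w)) := by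
  refine ht_ind (Q := fun w => ht f φ (wd (w.map (g • ·))) = mp (g • ·) (ht f φ (wd w))) ?_
    (fun a w ih => ?_) w
  · rw [List.map_nil, ht_nil, map_zero]
  · have h1 : ht f φ (mp (g • ·) (dW (a :: w))) = mp (g • ·) (ht f φ (dW (a :: w))) :=
      sp_ext (φ := ht f φ ∘ₗ mp (g • ·)) (ψ := mp (g • ·) ∘ₗ ht f φ)
        (fun u hu => by simpa using ih u hu) (ht_dW a w)
    rw [ht_cons, mp_cons, map_sub, ← h1, ← h, mp_dW, List.map_cons, ht_cons, hf]

/-- The letters that occur in the homotopy. -/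
theorem ht_supp (f : X → Y) {φ : Ch A X →ₗ[A] Ch A Y} (T : List X → Y → Prop)
    (hT : ∀ u w, List.Sublist u w → ∀ y, T u y → T w y) (hf : ∀ a w, T (a :: w) (f a))
    (h : ∀ w, φ (wd w) ∈ sp A fun u => ∀ y ∈ u, T w y) (w : List X) :
    ht f φ (wd w) ∈ sp A fun u => ∀ y ∈ u, T w y := by
  refine ht_ind (Q := fun w => ht f φ (wd w) ∈ sp A fun u => ∀ y ∈ u, T w y) ?_
    (fun a w ih => ?_) w
  · rw [ht_nil]
    exact zero_mem _
  · rw [ht_cons]
    refine sp_map (cons (f a)) _ (fun u hu => ?_) (sub_mem (h _) (sp_map _ _ (fun u hu =>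
      sp_mono (fun v hv y hy => hT _ _ hu.1 y (hv y hy)) (ih u hu)) (ht_dW a w)))
    rw [cons_wd]
    exact wd_mem (List.forall_mem_cons.2 ⟨hf a w, hu⟩)

theorem ht_n1 (f : X → Y) {φ : Ch ℝ X →ₗ[ℝ] Ch ℝ Y} (c : ℕ → ℝ)
    (h : ∀ w, n1 (φ (wd w)) ≤ c w.length) :
    ∃ C : ℕ → ℝ, (∀ n, 0 ≤ C n) ∧ ∀ w, n1 (ht f φ (wd w)) ≤ C w.length := by
  let C : ℕ → ℝ := fun n => Nat.rec 0 (fun n x => |c (n + 1)| + x * (n + 1 : ℕ)) n
  have h0 : ∀ n, 0 ≤ C n := fun n => by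
    induction n with
    | zero => exact le_rfl
    | succ n ih => exact add_nonneg (abs_nonneg _) (mul_nonneg ih (Nat.cast_nonneg _))
  refine ⟨C, h0, ht_ind ?_ fun a w ih => ?_⟩
  · rw [ht_nil, n1_zero]
    exact h0 0
  · rw [ht_cons]
    have h1 := n1_map_le (P := fun u => List.Sublist u (a :: w) ∧ u.length = w.length) (ht f φ)
      (B := C w.length) (fun u hu => hu.2 ▸ ih u hu) (ht_dW a w)
    exact (n1_cons_le _ _).trans ((n1_sub_le _ _).trans (add_le_add ((h _).trans (le_abs_self _))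
      (h1.trans (mul_le_mul_of_nonneg_left (n1_dW_le _) (h0 _)))))

section
variable [MulAction G Y] {Z : Type} [MulAction G Z]

theorem CMap.id : CMap G (LinearMap.id : Ch A X →ₗ[A] Ch A X) :=
  ⟨fun _ => rfl, rfl, fun _ => wd_mem rfl, fun _ _ => (mp_wd _ _).symm⟩

theorem CMap.ofMap {f : X → Y} (hf : ∀ (g : G) x, f (g • x) = g • f x) :
    CMap G (mp f : Ch A X →ₗ[A] Ch A Y) :=
  ⟨bd_mp f, mp_wd _ _, fun _ => mp_len f (wd_mem rfl), fun g w => by
    simp [Function.comp_def, hf]⟩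

theorem CMap.mem_len {φ : Ch A X →ₗ[A] Ch A Y} (h : CMap G φ) {k : ℕ} {c : Ch A X}
    (hc : c ∈ len A X k) : φ c ∈ len A Y k := sp_map φ _ (fun w hw => hw ▸ h.lng w) hc

theorem CMap.map_smul' {φ : Ch A X →ₗ[A] Ch A Y} (h : CMap G φ) (g : G) (c : Ch A X) :
    φ (mp (g • ·) c) = mp (g • ·) (φ c) :=
  ch_ext' (φ := φ ∘ₗ mp (g • ·)) (ψ := mp (g • ·) ∘ₗ φ) (fun w => by simpa using h.eqv g w) c

theorem CMap.comp {ψ : Ch A Y →ₗ[A] Ch A Z} {φ : Ch A X →ₗ[A] Ch A Y} (h' : CMap G ψ)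
    (h : CMap G φ) : CMap G (ψ ∘ₗ φ) :=
  ⟨fun c => by rw [LinearMap.comp_apply, h'.comm, h.comm, LinearMap.comp_apply],
    by rw [LinearMap.comp_apply, h.nil, h'.nil], fun w => h'.mem_len (h.lng w),
    fun g w => by rw [LinearMap.comp_apply, h.eqv, h'.map_smul', LinearMap.comp_apply]⟩

theorem CMap.pow {φ : Ch A X →ₗ[A] Ch A X} (h : CMap G φ) (k : ℕ) : CMap G (φ ^ k) := by
  induction k with
  | zero => exact CMap.id
  | succ k ih => exact pow_succ φ k ▸ ih.comp h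

theorem CMap.mem_Zc {φ : Ch A X →ₗ[A] Ch A Y} (h : CMap G φ) {k : ℕ} {c : Ch A X}
    (hc : c ∈ Zc A X G k) : φ c ∈ Zc A Y G k :=
  Rk.mem_Zc.2 ⟨h.mem_len hc.1, h.comm c ▸ IG_map φ (fun g w => ⟨g, h.eqv g w⟩) hc.2⟩

/-- Two equivariant chain maps agree on homology: use `ht f (φ - ψ)`. -/
theorem CMap.homotopic {φ ψ : Ch A X →ₗ[A] Ch A Y} (h : CMap G φ) (h' : CMap G ψ) (f : X → Y)
    (hf : ∀ (g : G) x, f (g • x) = g • f x) {k : ℕ} {z : Ch A X} (hz : z ∈ Zc A X G k) :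
    φ z - ψ z ∈ Bd A Y G k := by
  have h1 := bd_ht f (φ := φ - ψ)
    (fun c => by rw [LinearMap.sub_apply, LinearMap.sub_apply, map_sub, h.comm, h'.comm])
    (by rw [LinearMap.sub_apply, h.nil, h'.nil, sub_self]) z
  refine mem_Bd.2 ⟨ht f (φ - ψ) z, sp_map _ _ (fun w hw => hw ▸ ht_len f
    (fun w => sub_mem (h.lng w) (h'.lng w)) w) hz.1, ?_⟩
  rw [← LinearMap.sub_apply, ← h1, add_sub_cancel_left]
  refine IG_map _ (fun g w => ⟨g, ht_eqv hf (fun g w => ?_) g w⟩) hz.2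
  rw [LinearMap.sub_apply, LinearMap.sub_apply, map_sub, h.eqv, h'.eqv]

end

end

end Pool.Agent.Lib.MP_446a91_nt.Rk
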