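import Pool.Agent.Lib.MP_446a91_nt.Rk.D0

/-!
Invariant forms are determined by their values on regular labelings.
`Φ v = ω (fun i => vecMulVec (v (i,false)) (v (i,true)))` is multilinear in the `2 d` vectors and
`Φ (k *ᵥ v ·) = Φ v` for orthogonal `k` (`cj k (vecMulVec a b) = vecMulVec (k a) (k b)`).
A label of odd multiplicity: sign change. A label `i` of multiplicity `2 m ≥ 4`: there is a fresh
label `j` (at most `d` labels are used); rotate `e i ↦ (3/5) e i + (4/5) e j`, expand
(`MultilinearMap.map_add_univ`); mixed terms use one more label, so vanish by downward induction on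
the number of labels; the last term equals the first by the swap of `i, j`;
`(3/5)^(2m) + (4/5)^(2m) < 1`.
-/

namespace Pool.Agent.Lib.MP_446a91_nt.Rk

open Matrix Filter Topology Pool.Agent.Lib.MP_446a91_nt.Sou

set_option linter.unusedSectionVars false

noncomputable section

variable {ι : Type} [Fintype ι] [DecidableEq ι] {d : ℕ}


theorem i1_exp (ω : Fm ι d) (a : Fin d → Matrix ι ι ℝ) :
    ω a = ∑ l : Fin d × Bool → ι, (∏ i, a i (l (i, false)) (l (i, true))) * ω (El l) := by
  have h1 : a = fun i => ∑ p : ι × ι, a i p.1 p.2 • Matrix.single p.1 p.2 (1 : ℝ) := by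
    funext i
    rw [Fintype.sum_prod_type]
    simpa using matrix_eq_sum_single (a i)
  let e : (Fin d × Bool → ι) ≃ (Fin d → ι × ι) :=
    ⟨fun l i => (l (i, false), l (i, true)), fun r h => if h.2 then (r h.1).2 else (r h.1).1,
      fun l => funext fun h => by rcases h with ⟨i, _ | _⟩ <;> rfl, fun r => rfl⟩
  conv_lhs => rw [h1, ω.map_sum, ← e.sum_comp]
  exact Finset.sum_congr rfl fun l _ => ω.map_smul_univ _ _

theorem i1_rot {ω : Fm ι d} (h : IsFm ω) {k : Matrix ι ι ℝ} (hk : k * kᵀ = 1)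
    (l : Fin d × Bool → ι) :
    ω (El l) = ∑ l' : Fin d × Bool → ι, (∏ x, k (l' x) (l x)) * ω (El l') := by
  rw [← h.inv k hk, i1_exp]
  refine Finset.sum_congr rfl fun l' _ => ?_
  rw [Fintype.prod_prod_type]
  congr 1
  refine Finset.prod_congr rfl fun i _ => ?_
  rw [cj_apply, El, Matrix.single_eq_single_vecMulVec_single, mul_vecMulVec, vecMulVec_mul,
    vecMul_transpose, Fintype.prod_bool]
  simp [vecMulVec_apply, mul_comm]

theorem i1_mon {ω : Fm ι d} (h : IsFm ω) (σ : Equiv.Perm ι) {s : ι → ℝ} (hs : ∀ a, s a * s a = 1)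
    (l : Fin d × Bool → ι) : ω (El l) = (∏ x, s (l x)) * ω (El (σ ∘ l)) := by
  have hk : (of fun a b => if a = σ b then s b else 0) *
      (of fun a b => if a = σ b then s b else 0)ᵀ = (1 : Matrix ι ι ℝ) := by
    ext a a'
    obtain ⟨b, rfl⟩ := σ.surjective a
    rw [mul_apply, Finset.sum_eq_single b (fun b' _ hb => by simp [hb.symm]) (by simp), one_apply]
    by_cases e : σ b = a'
    · simp [← e, hs]
    · simp [e, Ne.symm e]
  rw [i1_rot h hk, Finset.sum_eq_single (σ ∘ l) (fun l' _ hl => ?_) (by simp)]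
  · simp
  · obtain ⟨x, hx⟩ := Function.ne_iff.1 hl
    rw [Finset.prod_eq_zero (Finset.mem_univ x) (if_neg hx), zero_mul]

theorem IsFm.relabel {ω : Fm ι d} (h : IsFm ω) (σ : Equiv.Perm ι) (l : Fin d × Bool → ι) :
    ω (El (σ ∘ l)) = ω (El l) := by
  rw [i1_mon h σ (s := fun _ => 1) (by simp) l]
  simp

theorem IsFm.odd {ω : Fm ι d} (h : IsFm ω) (l : Fin d × Bool → ι) (u : ι)
    (hu : Odd (Finset.univ.filter fun x => l x = u).card) : ω (El l) = 0 := by
  have := i1_mon h 1 (s := fun a => if a = u then -1 else 1) (fun a => by split_ifs <;> simp) l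
  rw [Finset.prod_ite, Finset.prod_const, Finset.prod_const_one, hu.neg_one_pow] at this
  change ω (El l) = -1 * 1 * ω (El l) at this
  linarith

theorem fm_zero_of_El {ω : Fm ι d} (h : ∀ l, ω (El l) = 0) : ω = 0 := by
  refine MultilinearMap.ext fun a => ?_
  rw [i1_exp]
  simp [h]

theorem i1_fresh (hN : d < Fintype.card ι) {l : Fin d × Bool → ι}
    (h : ∀ u, Even (Finset.univ.filter fun x => l x = u).card) : ∃ j, ∀ x, l x ≠ j := by
  by_contra h1
  push Not at h1
  have h2 : ∑ u : ι, 2 ≤ ∑ u, (Finset.univ.filter fun x => l x = u).card := by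
    refine Finset.sum_le_sum fun u _ => ?_
    obtain ⟨x, hx⟩ := h1 u
    obtain ⟨m, hm⟩ := h u
    have : 0 < (Finset.univ.filter fun x => l x = u).card := Finset.card_pos.2 ⟨x, by simp [hx]⟩
    omega
  rw [← Finset.card_eq_sum_card_fiberwise fun x _ => Finset.mem_coe.2 (Finset.mem_univ (l x))] at h2
  simp at h2
  omega

theorem i1_step {ω : Fm ι d} (h : IsFm ω) {l : Fin d × Bool → ι} {u j : ι} (hj : ∀ x, l x ≠ j)
    (hu : 3 ≤ (Finset.univ.filter fun x => l x = u).card)
    (ih : ∀ l' : Fin d × Bool → ι, (Finset.univ.image l).card < (Finset.univ.image l').card →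
      ω (El l') = 0) : ω (El l) = 0 := by
  obtain ⟨x₀, hx₀⟩ := Finset.card_pos.1 (lt_of_lt_of_le (by norm_num) hu)
  have hx₀ : l x₀ = u := (Finset.mem_filter.1 hx₀).2
  have huj : u ≠ j := hx₀ ▸ hj x₀
  let w : ι → ℝ := Pi.single u 1 - Pi.single j 2
  have hw : w ⬝ᵥ w = 5 := by
    simp [w, huj, huj.symm]
    norm_num
  let k : Matrix ι ι ℝ := 1 - (2 / 5 : ℝ) • vecMulVec w w
  have hk : k * kᵀ = 1 := by
    simp only [k, transpose_sub, transpose_smul, transpose_one, transpose_vecMulVec, sub_mul,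
      mul_sub, Matrix.mul_one, Matrix.one_mul, Matrix.smul_mul, Matrix.mul_smul,
      vecMulVec_mul_vecMulVec, hw, vecMulVec_smul, smul_smul]
    module
  have k1 : ∀ a b, b ≠ u → b ≠ j → k a b = if a = b then 1 else 0 := fun a b h1 h2 => by
    simp [k, w, vecMulVec_apply, one_apply, h1, h2]
  have k2 : k u u = 3 / 5 := by
    simp [k, w, vecMulVec_apply, huj]
    norm_num
  have k3 : k j u = 4 / 5 := by
    simp [k, w, vecMulVec_apply, huj, huj.symm]
    norm_num
  have k4 : ∀ a, a ≠ u → a ≠ j → k a u = 0 := fun a h1 h2 => by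
    simp [k, w, vecMulVec_apply, h1, h2]
  have hne : l ≠ Equiv.swap u j ∘ l := fun e => huj (by simpa [hx₀] using congrFun e x₀)
  have e := i1_rot h hk l
  rw [Finset.sum_eq_add l (Equiv.swap u j ∘ l) hne (fun l' _ hl => ?_) (by simp) (by simp),
    h.relabel] at e
  · have p1 : ∏ x, k (l x) (l x) = (3 / 5) ^ (Finset.univ.filter fun x => l x = u).card := by
      rw [← Finset.prod_const, Finset.prod_filter]
      refine Finset.prod_congr rfl fun x _ => ?_
      split_ifs with h1
      · rw [h1, k2]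
      · rw [k1 _ _ h1 (hj x), if_pos rfl]
    have p2 : ∏ x, k ((Equiv.swap u j ∘ l) x) (l x) =
        (4 / 5) ^ (Finset.univ.filter fun x => l x = u).card := by
      rw [← Finset.prod_const, Finset.prod_filter]
      refine Finset.prod_congr rfl fun x _ => ?_
      split_ifs with h1
      · rw [Function.comp, h1, Equiv.swap_apply_left, k3]
      · rw [k1 _ _ h1 (hj x), Function.comp, if_pos (Equiv.swap_apply_of_ne_of_ne h1 (hj x))]
    have q1 := pow_le_pow_of_le_one (a := (3 / 5 : ℝ)) (by norm_num) (by norm_num) hu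
    have q2 := pow_le_pow_of_le_one (a := (4 / 5 : ℝ)) (by norm_num) (by norm_num) hu
    rw [p1, p2, ← add_mul, ← sub_eq_zero, ← one_sub_mul] at e
    exact (mul_eq_zero.1 e).resolve_left (by norm_num at q1 q2; linarith)
  · by_cases h1 : ∏ x, k (l' x) (l x) = 0
    · rw [h1, zero_mul]
    have h2 := fun x => Finset.prod_ne_zero_iff.1 h1 x (Finset.mem_univ x)
    have h3 : ∀ x, l x ≠ u → l' x = l x := fun x hx => by
      by_contra h3
      exact h2 x (by rw [k1 _ _ hx (hj x), if_neg h3])
    have h4 : ∀ x, l x = u → l' x ≠ u → l' x = j := fun x hx hx' => by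
      by_contra h4
      exact h2 x (by rw [hx, k4 _ hx' h4])
    obtain ⟨x₁, h5⟩ := Function.ne_iff.1 hl.1
    obtain ⟨x₂, h6⟩ := Function.ne_iff.1 hl.2
    have h7 : l x₁ = u := by_contra fun h7 => h5 (h3 _ h7)
    have h8 : l x₂ = u := by_contra fun h8 =>
      h6 ((h3 _ h8).trans (Equiv.swap_apply_of_ne_of_ne h8 (hj x₂)).symm)
    have h9 : l' x₂ = u := by_contra fun h9 =>
      h6 (by rw [h4 _ h8 h9, Function.comp, h8, Equiv.swap_apply_left])
    rw [ih l' (Finset.card_lt_card ⟨fun a ha => ?_, fun hs => ?_⟩), mul_zero]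
    · obtain ⟨x, -, rfl⟩ := Finset.mem_image.1 ha
      by_cases hx : l x = u
      · exact Finset.mem_image.2 ⟨x₂, Finset.mem_univ _, h9.trans hx.symm⟩
      · exact Finset.mem_image.2 ⟨x, Finset.mem_univ _, h3 x hx⟩
    · obtain ⟨x, -, hx⟩ := Finset.mem_image.1 (hs (Finset.mem_image_of_mem l' (Finset.mem_univ x₁)))
      exact hj x (hx.trans (h4 _ h7 (h7 ▸ h5)))

theorem IsFm.zero_of_reg {ω : Fm ι d} (h : IsFm ω) (hN : d < Fintype.card ι)
    (h0 : ∀ l, Reg l → ω (El l) = 0) : ω = 0 := by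
  refine fm_zero_of_El fun l => ?_
  induction hn : Fintype.card ι - (Finset.univ.image l).card using Nat.strong_induction_on
    generalizing l with
  | _ n ih =>
    by_cases h1 : Reg l
    · exact h0 l h1
    by_cases h2 : ∃ u, Odd (Finset.univ.filter fun x => l x = u).card
    · exact h2.elim fun u hu => h.odd l u hu
    have h3 : ∀ u, Even (Finset.univ.filter fun x => l x = u).card := fun u =>
      Nat.not_odd_iff_even.1 fun hu => h2 ⟨u, hu⟩
    obtain ⟨j, hj⟩ := i1_fresh hN h3
    obtain ⟨u, hu⟩ := not_forall.1 h1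
    obtain ⟨m, hm⟩ := h3 u
    refine i1_step h (u := u) hj (by omega) fun l' hl => ih _ ?_ l' rfl
    have := Finset.card_le_univ (Finset.univ.image l')
    omega

end

end Pool.Agent.Lib.MP_446a91_nt.Rk
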