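import Pool.Agent.Lib.MP_446a91_nt.Rk.I1

/-!
Connected regular labelings. Either grow a path edge by edge (swap slots, flip edges, relabel), or
use the pairing involution `τ` of the half edges and the flip `φ`: the orbit of `τ φ` gives a
bijection `Fin d × Bool ≃ Fin d × Bool` that carries `l` to a cycle labeling.
-/

namespace Pool.Agent.Lib.MP_446a91_nt.Rk

open Matrix Filter Topology Pool.Agent.Lib.MP_446a91_nt.Sou

set_option linter.unusedSectionVars false

noncomputable section

variable {ι : Type} [Fintype ι] [DecidableEq ι] {d : ℕ}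


theorem i3_tr {ω : Fm ι d} (h : IsFm ω) (a : Fin d → Matrix ι ι ℝ) (s : Finset (Fin d)) :
    ∀ b : Fin d → Matrix ι ι ℝ, (∀ i, b i = a i ∨ b i = (a i)ᵀ) → (∀ i ∉ s, b i = a i) →
      ω b = ω a := by
  induction s using Finset.induction_on with
  | empty => exact fun b _ h2 => congrArg ω (funext fun i => h2 i (by simp))
  | insert j s _ ih =>
    intro b h1 h2
    rw [← ih (Function.update b j (a j)) (fun i => ?_) fun i hi => ?_]
    · rcases h1 j with e | e
      · rw [← e, Function.update_eq_self]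
      · rw [← h.tr (Function.update b j (a j)) j, Function.update_idem, Function.update_self, ← e,
          Function.update_eq_self]
    · by_cases e : i = j
      · rw [e, Function.update_self]
        exact .inl rfl
      · rw [Function.update_of_ne e]
        exact h1 i
    · by_cases e : i = j
      · rw [e, Function.update_self]
      · rw [Function.update_of_ne e]
        exact h2 i (by simp [e, hi])

theorem i3_pair {l : Fin d × Bool → ι} (hl : Reg l) (x : Fin d × Bool) :
    ∃ y, y ≠ x ∧ l y = l x ∧ ∀ z, l z = l x → z = x ∨ z = y := by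
  have hx : x ∈ Finset.univ.filter fun h => l h = l x := by simp
  obtain ⟨p, q, hpq, e⟩ := Finset.card_eq_two.1
    ((hl (l x)).resolve_left (Finset.card_ne_zero.2 ⟨x, hx⟩))
  have k : ∀ z, l z = l x ↔ z = p ∨ z = q := fun z => by simpa using Finset.ext_iff.1 e z
  rcases (k x).1 rfl with rfl | rfl
  · exact ⟨q, hpq.symm, (k q).2 (.inr rfl), fun z hz => (k z).1 hz⟩
  · exact ⟨p, hpq, (k p).2 (.inl rfl), fun z hz => ((k z).1 hz).symm⟩

theorem i3_dih {H : Type} {τ φ : H → H} (hτ : ∀ x, τ (τ x) = x) (hφ : ∀ x, φ (φ x) = x)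
    (nτ : ∀ x, τ x ≠ x) (nφ : ∀ x, φ x ≠ x) (x : H) (n k : ℕ) :
    (τ ∘ φ)^[n] x ≠ φ ((τ ∘ φ)^[k] x) := by
  have A : ∀ n x, (τ ∘ φ)^[n] x ≠ φ x := fun n => by
    induction n using Nat.twoStepInduction with
    | zero => exact fun x => (nφ x).symm
    | one => exact fun x => nτ _
    | more n ih _ =>
      intro x e
      rw [Function.iterate_succ_apply', Function.iterate_succ_apply] at e
      have := congrArg (fun z => φ (τ z)) e
      simp only [Function.comp_apply, hτ, hφ] at this
      exact ih _ this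
  rcases le_total n k with e | e
  · obtain ⟨j, rfl⟩ := Nat.exists_eq_add_of_le' e
    intro e
    rw [Function.iterate_add_apply] at e
    exact A j _ ((hφ _).symm.trans (congrArg φ e.symm))
  · obtain ⟨j, rfl⟩ := Nat.exists_eq_add_of_le' e
    rw [Function.iterate_add_apply]
    exact A j _

theorem IsFm.connected {ω : Fm ι d} (h : IsFm ω) {e : Fin d → ι} (he : Function.Injective e)
    (h0 : ω (El (cyl e)) = 0) {l : Fin d × Bool → ι} (hl : Reg l) (hc : Conn l) :
    ω (El l) = 0 := by
  rcases d with _ | d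
  · rw [← h0]
    exact congrArg ω (Subsingleton.elim _ _)
  choose τ nτ lτ uτ using i3_pair hl
  have hτ : ∀ x, τ (τ x) = x := fun x =>
    (uτ x _ ((lτ _).trans (lτ x))).resolve_right (nτ _)
  let φ : Fin (d + 1) × Bool → Fin (d + 1) × Bool := fun x => (x.1, !x.2)
  have hφ : ∀ x, φ (φ x) = x := fun x => by simp [φ]
  have nφ : ∀ x, φ x ≠ x := fun x => by simp [φ, Prod.ext_iff]
  have fst : ∀ x y : Fin (d + 1) × Bool, x.1 = y.1 → x = y ∨ x = φ y := by
    rintro ⟨i, b⟩ ⟨j, c⟩ (rfl : i = j)
    cases b <;> cases c <;> simp [φ]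
  have D := i3_dih hτ hφ nτ nφ (0, false)
  have inj : Function.Injective (τ ∘ φ) :=
    (Function.Involutive.injective hτ).comp (Function.Involutive.injective hφ)
  have pos := Function.minimalPeriod_pos_of_mem_periodicPts (inj.mem_periodicPts (0, false))
  have io := Function.iterate_injOn_Iio_minimalPeriod (f := τ ∘ φ) (x := (0, false))
  have md : ∀ n, _ := fun n =>
    Function.iterate_mod_minimalPeriod_eq (f := τ ∘ φ) (x := (0, false)) (n := n)
  generalize Function.minimalPeriod (τ ∘ φ) (0, false) = m at pos io md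
  have st : ∀ n, (τ ∘ φ)^[n + 1] (0, false) = τ (φ ((τ ∘ φ)^[n] (0, false))) := fun n =>
    Function.iterate_succ_apply' _ _ _
  have z0 : ((τ ∘ φ)^[0] (0, false)).1 = 0 := rfl
  generalize hx : (fun n => (τ ∘ φ)^[n] (0, false)) = x at io
  simp only [show ∀ n, (τ ∘ φ)^[n] (0, false) = x n from congrFun hx] at D md st z0
  have bk : ∀ n, ∃ k, τ (x n) = φ (x k) := fun n => ⟨n + m - 1, by
    rw [← md n, ← Nat.add_mod_right, md, ← Nat.sub_add_cancel (n := n + m) (m := 1) (by omega), st,
      hτ, Nat.add_sub_cancel]⟩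
  have i1 : ∀ n < m, ∀ k < m, (x n).1 = (x k).1 → n = k := fun n hn k hk e =>
    io hn hk ((fst _ _ e).resolve_right (D n k))
  have s1 : ∀ i, ∃ n, (x n).1 = i := fun i => by
    have key : ∀ p q, l p = l q → (∃ n, (x n).1 = p.1) → ∃ n, (x n).1 = q.1 := by
      rintro p q e ⟨n, hn⟩
      rcases uτ p q e.symm with rfl | rfl
      · exact ⟨n, hn⟩
      rcases fst _ _ hn.symm with rfl | rfl
      · exact (bk n).imp fun k hk => by rw [hk]
      · exact ⟨n + 1, by rw [st]⟩
    exact (hc (fun i => ∃ n, (x n).1 = i) (fun p q e => ⟨key p q e, key q p e.symm⟩) 0 i).1 ⟨0, z0⟩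
  obtain rfl : m = d + 1 := by
    have := Fintype.card_of_bijective (f := fun n : Fin m => (x n).1)
      ⟨fun n k e => Fin.ext (i1 n n.2 k k.2 e), fun i => (s1 i).elim fun n hn =>
        ⟨⟨n % m, Nat.mod_lt _ pos⟩, by simp only [md, hn]⟩⟩
    simpa using this
  let σ : Equiv.Perm (Fin (d + 1)) := Equiv.ofBijective (fun n => (x n).1)
    (Finite.injective_iff_bijective.1 fun n k e => Fin.ext (i1 n n.2 k k.2 e))
  have he' : Function.Injective fun n : Fin (d + 1) => l (x n) := fun n k e => by
    rcases uτ _ _ e with e | e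
    · exact Fin.ext (io n.2 k.2 e)
    · exact (bk k).elim fun j hj => absurd (e.trans hj) (D _ _)
  obtain ⟨π, hπ⟩ := Equiv.Perm.exists_extending_pair _ _ he he'
  have h1 := (h.relabel π (cyl e)).trans h0
  rw [i3_tr h (El l ∘ σ) Finset.univ _ (fun n => ?_) (by simp), h.alt] at h1
  · exact (mul_eq_zero.1 h1).resolve_left (by simp)
  have h2 : El (π ∘ cyl e) n = Matrix.single (l (x n)) (l (φ (x n))) 1 := by
    have : x (finRotate (d + 1) n) = τ (φ (x n)) := by
      rw [finRotate_apply, Fin.val_add, ← st, ← md (n + 1)]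
      simp
    simp only [El, cyl, Function.comp_apply, hπ, this, lτ, Bool.false_eq_true, if_true, if_false]
  rw [h2]
  change _ = El l (x n).1 ∨ _ = (El l (x n).1)ᵀ
  rcases x n with ⟨i, _ | _⟩
  · exact .inl rfl
  · exact .inr (by rw [El, transpose_single]; rfl)

end

end Pool.Agent.Lib.MP_446a91_nt.Rk
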