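import Pool.Agent.Lib.MP_446a91_nt.Rk.I2
import Pool.Agent.Lib.MP_446a91_nt.Rk.I3

/-!
The additive part of an invariant form is determined by one number.
-/

namespace Pool.Agent.Lib.MP_446a91_nt.Rk

open Matrix Filter Topology Pool.Agent.Lib.MP_446a91_nt.Sou

set_option linter.unusedSectionVars false

noncomputable section

variable {ι : Type} [Fintype ι] [DecidableEq ι] {d : ℕ}


/-- The linear map `a ↦ blk d k a 0`. -/
def blkL (d k : ℕ) : Matrix ι ι ℝ →ₗ[ℝ] Matrix (ι × Fin d) (ι × Fin d) ℝ where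
  toFun a := blk d k a 0
  map_add' a b := by
    simp only [blk, ← blockDiagonal_add]
    congr 1; funext j; simp only [Pi.add_apply]; split_ifs <;> simp
  map_smul' t a := by
    simp only [blk, ← blockDiagonal_smul, RingHom.id_apply]
    congr 1; funext j; simp only [Pi.smul_apply]; split_ifs <;> simp

theorem IsFm.comb {ω₁ ω₂ : Fm ι d} (h₁ : IsFm ω₁) (h₂ : IsFm ω₂) (s t : ℝ) :
    IsFm (s • ω₁ + t • ω₂) := by
  refine ⟨fun σ a => ?_, fun a i => ?_, fun k hk a => ?_⟩ <;>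
    simp only [_root_.add_apply, _root_.smul_apply, smul_eq_mul]
  · rw [h₁.alt, h₂.alt]
    ring
  · rw [h₁.tr, h₂.tr]
  · rw [h₁.inv k hk, h₂.inv k hk]

theorem inv_tr (n : ℕ) (a : Matrix ι ι ℝ) : blk d n aᵀ 0 = (blk d n a 0)ᵀ := by
  rw [blk, blk, blockDiagonal_transpose]
  congr 1
  funext j
  split_ifs <;> simp

theorem inv_cj (n : ℕ) (k a : Matrix ι ι ℝ) :
    blk d n (cj k a) 0 = cj (blockDiagonal fun _ => k) (blk d n a 0) := by
  rw [blk, blk, cj_apply, cj_apply, blockDiagonal_transpose, ← blockDiagonal_mul,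
    ← blockDiagonal_mul]
  congr 1
  funext j
  split_ifs <;> simp

/-- `tl ω` is a form `∑ be d k • ω.compLinearMap (blkL d k)` with `IsFm` (use the orthogonal matrix
`blk d d k 1`). -/
theorem exists_tl {ω : Fm (ι × Fin d) d} (h : IsFm ω) : ∃ ω' : Fm ι d, IsFm ω' ∧ ∀ a, ω' a = tl ω a := by
  have e : ∀ a, (∑ k ∈ Finset.range (d + 1),
      (be d k : ℝ) • ω.compLinearMap fun _ => blkL d k : Fm ι d) a = tl ω a := fun a => by
    rw [_root_.sum_apply]
    rfl
  refine ⟨_, ⟨fun σ a => ?_, fun a i => ?_, fun k hk a => ?_⟩, e⟩ <;> rw [e, e, tl, tl]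
  · rw [Finset.mul_sum]
    refine Finset.sum_congr rfl fun n _ => ?_
    rw [mul_left_comm]
    exact congrArg _ (h.alt σ fun i => blk d n (a i) 0)
  · refine Finset.sum_congr rfl fun n _ => congrArg _ ?_
    rw [← h.tr (fun i => blk d n (a i) 0) i, ← inv_tr]
    exact congrArg ω (funext fun j => Function.apply_update (fun _ b => blk d n b 0) a i _ j)
  · refine Finset.sum_congr rfl fun n _ => congrArg _ ?_
    simp only [inv_cj]
    refine h.inv _ ?_ _
    rw [blockDiagonal_transpose, ← blockDiagonal_mul]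
    simp only [hk]
    exact blockDiagonal_one

theorem tl_dependent (hN : d < Fintype.card ι) {ω₁ ω₂ : Fm (ι × Fin d) d} (h₁ : IsFm ω₁)
    (h₂ : IsFm ω₂) : ∃ s t : ℝ, (s ≠ 0 ∨ t ≠ 0) ∧ ∀ a, s * tl ω₁ a + t * tl ω₂ a = 0 := by
  obtain ⟨η₁, g₁, e₁⟩ := exists_tl h₁
  obtain ⟨η₂, g₂, e₂⟩ := exists_tl h₂
  obtain ⟨e⟩ : Nonempty (Fin d ↪ ι) :=
    Function.Embedding.nonempty_of_card_le (by rw [Fintype.card_fin]; exact hN.le)
  obtain ⟨s, t, hst, h0⟩ : ∃ s t : ℝ, (s ≠ 0 ∨ t ≠ 0) ∧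
      s * η₁ (El (cyl e)) + t * η₂ (El (cyl e)) = 0 := by
    by_cases h : η₁ (El (cyl e)) = 0
    · exact ⟨1, 0, Or.inl one_ne_zero, by rw [h, mul_zero, zero_mul, add_zero]⟩
    · exact ⟨-η₂ (El (cyl e)), η₁ (El (cyl e)), Or.inr h, by ring⟩
  have h3 : s • η₁ + t • η₂ = 0 := (g₁.comb g₂ s t).zero_of_reg hN fun l hl => by
    by_cases hc : Conn l
    · exact (g₁.comb g₂ s t).connected e.injective h0 hl hc
    · change s * η₁ (El l) + t * η₂ (El l) = 0
      rw [e₁, e₂, tl_disconnected h₁ hl hc, tl_disconnected h₂ hl hc, mul_zero, mul_zero, add_zero]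
  refine ⟨s, t, hst, fun a => ?_⟩
  rw [← e₁, ← e₂]
  exact DFunLike.congr_fun h3 a

end

end Pool.Agent.Lib.MP_446a91_nt.Rk
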