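import Pool.Agent.Lib.MP_446a91_nt.Rk.Qf1

/-!
Positive forms: boxes, distances, heights.
-/

namespace Pool.Agent.Lib.MP_446a91_nt.Rk

open Matrix Filter Topology Pool.Agent.Lib.MP_446a91_nt.Sou

set_option linter.unusedSectionVars false

noncomputable section

variable {ι : Type} [Fintype ι] [DecidableEq ι]


theorem qf2_nn (v : ι → ℝ) : 0 ≤ v ⬝ᵥ v := Finset.sum_nonneg fun i _ => mul_self_nonneg (v i)

theorem qf2_mid (x y : PX ι) (v : ι → ℝ) : qf (mid x y).1 v = 1 / 2 * (qf x.1 v + qf y.1 v) := by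
  rw [← qf_add, ← qf_smul]
  rfl

theorem qf2_pos1 : Pos (1 : Matrix ι ι ℝ) := (x1 : PX ι).2

theorem Box.mono {B B' : ℝ} {x : PX ι} (h : Box B x) (hB : B ≤ B') : Box B' x := fun v =>
  ⟨(h v).1.trans (mul_le_mul_of_nonneg_right hB (x.2.nonneg v)),
    (h v).2.trans (mul_le_mul_of_nonneg_right hB (qf2_nn v))⟩

theorem Near.mono {δ δ' : ℝ} {x y : PX ι} (h : Near δ x y) (hδ : δ ≤ δ') : Near δ' x y := fun v =>
  (h v).trans (mul_le_mul_of_nonneg_right hδ (qf2_nn v))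

theorem Near.symm {δ : ℝ} {x y : PX ι} (h : Near δ x y) : Near δ y x := fun v => by
  rw [abs_sub_comm]
  exact h v

theorem Near.refl {δ : ℝ} (hδ : 0 ≤ δ) (x : PX ι) : Near δ x x := fun v => by
  rw [sub_self, abs_zero]
  exact mul_nonneg hδ (qf2_nn v)

theorem Near.trans {δ δ' : ℝ} {x y z : PX ι} (h : Near δ x y) (h' : Near δ' y z) :
    Near (δ + δ') x z := fun v => by
  rw [add_mul]
  exact (abs_sub_le _ _ _).trans (add_le_add (h v) (h' v))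

theorem Box.near {B : ℝ} {x y : PX ι} (h : Box B x) (h' : Box B y) : Near B x y := fun v => by
  have h1 := x.2.nonneg v
  have h2 := y.2.nonneg v
  rw [abs_le]
  constructor <;> linarith [(h v).2, (h' v).2]

theorem Box.mid {B : ℝ} {x y : PX ι} (h : Box B x) (h' : Box B y) : Box B (mid x y) := fun v => by
  rw [qf2_mid]
  constructor <;> linarith [(h v).1, (h' v).1, (h v).2, (h' v).2]

theorem Near.mid {δ δ' : ℝ} {x y x' y' : PX ι} (h : Near δ x x') (h' : Near δ' y y') :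
    Near ((δ + δ') / 2) (mid x y) (mid x' y') := fun v => by
  have h1 := abs_le.1 (h v)
  have h2 := abs_le.1 (h' v)
  rw [qf2_mid, qf2_mid, abs_le]
  constructor <;> linarith [h1.1, h1.2, h2.1, h2.2]

theorem mid_self (x : PX ι) : mid x x = x := Subtype.ext <| by
  show (1 / 2 : ℝ) • (x.1 + x.1) = x.1
  rw [← two_smul ℝ x.1, smul_smul]
  norm_num

theorem Near.entry {δ : ℝ} {x y : PX ι} (h : Near δ x y) (i j : ι) : |x.1 i j - y.1 i j| ≤ δ :=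
  by
  have h1 := abs_entry_le (E := x.1 - y.1) (x := 1) (η := δ)
    (by rw [Matrix.transpose_sub, x.2.1, y.2.1]) (fun v => by rw [qf_sub, qf_one]; exact h v) i j
  rw [Matrix.one_apply_eq, Matrix.one_apply_eq, Matrix.sub_apply] at h1
  linarith

theorem Box.inv {B : ℝ} {x : PX ι} (h : Box B x) (hB : 0 ≤ B) (v : ι → ℝ) :
    v ⬝ᵥ v ≤ B * qf x.1⁻¹ v ∧ qf x.1⁻¹ v ≤ B * v ⬝ᵥ v := by
  have h1 := qf_inv_le x.2 qf2_pos1 hB (fun v => by rw [qf_one]; exact (h v).2) v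
  have h2 := qf_inv_le qf2_pos1 x.2 hB (fun v => by rw [qf_one]; exact (h v).1) v
  rw [inv_one, qf_one] at h1 h2
  exact ⟨h1, h2⟩

/-- Use `qf_le_trace` for `x` and `x⁻¹`, and `qf_inv_le`. -/
theorem exists_box (x : PX ι) : ∃ B, 1 ≤ B ∧ Box B x := by
  have h0 : 0 ≤ ∑ i, x.1 i i := Finset.sum_nonneg fun i _ => (x.2.diag_pos i).le
  have h1 : 0 ≤ ∑ i, x.1⁻¹ i i := Finset.sum_nonneg fun i _ => (x.2.inv.diag_pos i).le
  refine ⟨1 + ∑ i, x.1 i i + ∑ i, x.1⁻¹ i i, by linarith, fun v => ⟨?_, ?_⟩⟩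
  · have h2 := qf_inv_le x.2.inv qf2_pos1 h1
      (fun v => by rw [qf_one]; exact qf_le_trace x.2.inv v) v
    rw [inv_one, qf_one, Matrix.nonsing_inv_nonsing_inv _ x.2.isUnit_det] at h2
    exact h2.trans (mul_le_mul_of_nonneg_right (by linarith) (x.2.nonneg v))
  · exact (qf_le_trace x.2 v).trans (mul_le_mul_of_nonneg_right (by linarith) (qf2_nn v))

theorem qf2_nhds {B : ℝ} {x : PX ι} (h : Box B x) (hB : 1 ≤ B) : ∀ᶠ y in 𝓝 x, Box (2 * B) y := by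
  have hc : Continuous fun y : PX ι => 2 * B * ∑ i, ∑ j, |(y.1 - x.1) i j| := by
    have hv : Continuous fun y : PX ι => y.1 := continuous_subtype_val
    refine continuous_const.mul (continuous_finsetSum _ fun i _ =>
      continuous_finsetSum _ fun j _ => ?_)
    exact ((hv.sub continuous_const).matrix_elem i j).abs
  have h1 : ∀ᶠ y in 𝓝 x, 2 * B * ∑ i, ∑ j, |(y.1 - x.1) i j| < 1 :=
    hc.continuousAt.eventually_lt continuousAt_const (by simp)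
  filter_upwards [h1] with y hy v
  have h2 := abs_qf_le (y.1 - x.1) v
  have h3 : 0 ≤ ∑ i, ∑ j, |(y.1 - x.1) i j| :=
    Finset.sum_nonneg fun i _ => Finset.sum_nonneg fun j _ => abs_nonneg _
  generalize ∑ i, ∑ j, |(y.1 - x.1) i j| = s at hy h2 h3
  rw [qf_sub, abs_le] at h2
  obtain ⟨h4, h5⟩ := h v
  have h6 := qf2_nn v
  have h7 : 2 * B * s * v ⬝ᵥ v ≤ 1 * v ⬝ᵥ v := mul_le_mul_of_nonneg_right hy.le h6
  have h8 : s * v ⬝ᵥ v ≤ B * v ⬝ᵥ v := mul_le_mul_of_nonneg_right (by nlinarith) h6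
  constructor
  · have h9 := mul_le_mul_of_nonneg_left h2.1 (show 0 ≤ 2 * B by linarith)
    linarith
  · linarith [h2.2]

theorem exists_box_nhds (x : PX ι) : ∃ B, 1 ≤ B ∧ ∀ᶠ y in 𝓝 x, Box B y := by
  obtain ⟨B, hB, h⟩ := exists_box x
  exact ⟨2 * B, by linarith, qf2_nhds h hB⟩

theorem qf2_cpt (B : ℝ) : IsCompact {m : Matrix ι ι ℝ | ∀ i j, |m i j| ≤ B} := by
  have h : IsCompact (Set.univ.pi fun _ : ι => Set.univ.pi fun _ : ι => Set.Icc (-B) B) :=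
    isCompact_univ_pi fun _ => isCompact_univ_pi fun _ => isCompact_Icc
  have e : {m : Matrix ι ι ℝ | ∀ i j, |m i j| ≤ B} =
      (Set.univ.pi fun _ : ι => Set.univ.pi fun _ : ι => Set.Icc (-B) B) := by
    ext m
    exact ⟨fun h i _ j _ => abs_le.1 (h i j), fun h i j => abs_le.2 (h i trivial j trivial)⟩
  rw [e]
  exact h

theorem qf2_cont (v : ι → ℝ) : Continuous fun m : Matrix ι ι ℝ => qf m v :=
  continuous_const.dotProduct (continuous_id.matrix_mulVec continuous_const)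

theorem isCompact_box (B : ℝ) : IsCompact {x : PX ι | Box B x} := by
  refine (Subtype.isCompact_iff (p := fun x : Matrix ι ι ℝ => Pos x)).2 ?_
  have hc : IsClosed {m : Matrix ι ι ℝ | mᵀ = m ∧
      ∀ v, 0 ≤ qf m v ∧ v ⬝ᵥ v ≤ B * qf m v ∧ qf m v ≤ B * v ⬝ᵥ v} := by
    refine (isClosed_eq continuous_id.matrix_transpose continuous_id).inter
      (?_ : IsClosed {m : Matrix ι ι ℝ | ∀ v, 0 ≤ qf m v ∧ v ⬝ᵥ v ≤ B * qf m v ∧
        qf m v ≤ B * v ⬝ᵥ v})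
    rw [Set.ofPred_forall]
    exact isClosed_iInter fun v => (isClosed_le continuous_const (qf2_cont v)).inter
      ((isClosed_le continuous_const (continuous_const.mul (qf2_cont v))).inter
        (isClosed_le (qf2_cont v) continuous_const))
  have hs := (qf2_cpt (ι := ι) B).of_isClosed_subset hc (by
    rintro m ⟨h1, h2⟩ i j
    have h3 := abs_entry_le (x := 1) (η := B) h1
      (fun v => by rw [qf_one, abs_of_nonneg (h2 v).1]; exact (h2 v).2.2) i j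
    rw [Matrix.one_apply_eq, Matrix.one_apply_eq] at h3
    linarith)
  refine (congrArg IsCompact (Set.ext fun m => ?_)).mp hs
  constructor
  · rintro ⟨h1, h2⟩
    refine ⟨⟨m, h1, fun v hv => lt_of_le_of_ne (h2 v).1 fun h0 => hv ?_⟩, fun v => (h2 v).2, rfl⟩
    have h3 := (h2 v).2.1
    rw [← h0, mul_zero] at h3
    exact dotProduct_self_eq_zero.1 (le_antisymm h3 (qf2_nn v))
  · rintro ⟨x, hx, rfl⟩
    exact ⟨x.2.1, fun v => ⟨x.2.nonneg v, hx v⟩⟩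

/-- A point of a segment between two forms of the box. -/
theorem Box.seg {B δ t : ℝ} {x y : PX ι} (h : Box B x) (h' : Box B y) (hn : Near δ x y)
    (h0 : 0 ≤ t) (h1 : t ≤ 1) :
    ∃ z : PX ι, z.1 = x.1 + t • (y.1 - x.1) ∧ Box B z ∧ Near δ x z := by
  have e : ∀ v, qf (x.1 + t • (y.1 - x.1)) v = (1 - t) * qf x.1 v + t * qf y.1 v := fun v => by
    rw [qf_add, qf_smul, qf_sub]
    ring
  have h2 : 0 ≤ 1 - t := by linarith
  refine ⟨⟨x.1 + t • (y.1 - x.1), ?_, fun v hv => ?_⟩, rfl, fun v => ?_, fun v => ?_⟩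
  · rw [Matrix.transpose_add, Matrix.transpose_smul, Matrix.transpose_sub, x.2.1, y.2.1]
  · have h3 := x.2.2 v hv
    have h4 := y.2.2 v hv
    rw [e]
    rcases h0.eq_or_lt with rfl | h5
    · linarith
    · exact add_pos_of_nonneg_of_pos (mul_nonneg h2 h3.le) (mul_pos h5 h4)
  · show _ ≤ B * qf (x.1 + t • (y.1 - x.1)) v ∧ qf (x.1 + t • (y.1 - x.1)) v ≤ _
    rw [e]
    constructor
    · linarith [mul_le_mul_of_nonneg_left (h v).1 h2, mul_le_mul_of_nonneg_left (h' v).1 h0]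
    · linarith [mul_le_mul_of_nonneg_left (h v).2 h2, mul_le_mul_of_nonneg_left (h' v).2 h0]
  · show |qf x.1 v - qf (x.1 + t • (y.1 - x.1)) v| ≤ _
    rw [e, show qf x.1 v - ((1 - t) * qf x.1 v + t * qf y.1 v) = t * (qf x.1 v - qf y.1 v) by ring,
      abs_mul, abs_of_nonneg h0]
    exact (mul_le_of_le_one_left (abs_nonneg _) h1).trans (hn v)

theorem qf2_x1 (g : GL ι ℝ) (v : ι → ℝ) : qf (g • (x1 : PX ι)).1 v =
    (v ᵥ* (g : Matrix ι ι ℝ)) ⬝ᵥ (v ᵥ* (g : Matrix ι ι ℝ)) := by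
  rw [smul_val, qf_cj]
  exact qf_one _

theorem qf2_vm {B : ℝ} {A : Matrix ι ι ℝ} (h : ∀ i j, |A i j| ≤ B) (v : ι → ℝ) :
    (v ᵥ* A) ⬝ᵥ (v ᵥ* A) ≤ (Fintype.card ι * B) ^ 2 * v ⬝ᵥ v := by
  have h1 : ∀ j, (v ᵥ* A) j * (v ᵥ* A) j ≤ v ⬝ᵥ v * (Fintype.card ι * B ^ 2) := fun j => by
    have h2 := Finset.sum_mul_sq_le_sq_mul_sq Finset.univ v fun i => A i j
    have h3 : ∑ i, A i j ^ 2 ≤ Fintype.card ι * B ^ 2 := by
      have := Finset.sum_le_card_nsmul Finset.univ (fun i => A i j ^ 2) (B ^ 2)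
        fun i _ => sq_le_sq' (abs_le.1 (h i j)).1 (abs_le.1 (h i j)).2
      rwa [nsmul_eq_mul, Finset.card_univ] at this
    have h4 : ∑ i, v i ^ 2 = v ⬝ᵥ v := Finset.sum_congr rfl fun i _ => sq (v i)
    rw [h4] at h2
    rw [← sq]
    exact h2.trans (mul_le_mul_of_nonneg_left h3 (qf2_nn v))
  have h5 := Finset.sum_le_card_nsmul Finset.univ _ _ fun j _ => h1 j
  rw [nsmul_eq_mul, Finset.card_univ] at h5
  exact h5.trans_eq (by ring)

theorem box_of_kb {B : ℝ} {g : GL ι ℝ} (h : g ∈ Kb B) :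
    Box ((Fintype.card ι * B) ^ 2) (g • (x1 : PX ι)) := fun v => by
  rw [qf2_x1]
  refine ⟨?_, qf2_vm (fun i j => (h i j).1) v⟩
  have h1 := qf2_vm (A := ((g⁻¹ : GL ι ℝ) : Matrix ι ι ℝ)) (fun i j => (h i j).2)
    (v ᵥ* (g : Matrix ι ι ℝ))
  rwa [Matrix.vecMul_vecMul, Units.mul_inv, Matrix.vecMul_one] at h1

theorem qf2_ent {B : ℝ} (hB : 1 ≤ B) {v : ι → ℝ} (h : v ⬝ᵥ v ≤ B) (j : ι) : |v j| ≤ B := by
  have h1 : v j * v j ≤ v ⬝ᵥ v :=
    Finset.single_le_sum (f := fun i => v i * v i) (fun i _ => mul_self_nonneg (v i))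
      (Finset.mem_univ j)
  exact abs_le_of_sq_le_sq (by nlinarith) (by linarith)

theorem kb_of_box {B : ℝ} (hB : 1 ≤ B) {g : GL ι ℝ} (h : Box B (g • (x1 : PX ι))) : g ∈ Kb B :=
  fun i j => by
  have h0 : (Pi.single i 1 : ι → ℝ) ⬝ᵥ Pi.single i 1 = 1 := by simp
  constructor
  · have h1 := (h (Pi.single i 1)).2
    rw [qf2_x1, h0, mul_one, Matrix.single_one_vecMul] at h1
    exact qf2_ent hB h1 j
  · have h1 := (h (Pi.single i 1 ᵥ* ((g⁻¹ : GL ι ℝ) : Matrix ι ι ℝ))).1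
    rw [qf2_x1, Matrix.vecMul_vecMul, Units.inv_mul, Matrix.vecMul_one, h0, mul_one,
      Matrix.single_one_vecMul] at h1
    exact qf2_ent hB h1 j

theorem isCompact_Kb (B : ℝ) : IsCompact (Kb B : Set (GL ι ℝ)) := by
  have h := (Units.isClosedEmbedding_embedProduct (α := Matrix ι ι ℝ)).isCompact_preimage
    ((qf2_cpt (ι := ι) B).prod ((qf2_cpt (ι := ι) B).image MulOpposite.continuous_op))
  refine (congrArg IsCompact (Set.ext fun g => ?_)).mp h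
  constructor
  · rintro ⟨h1, m, h2, h3⟩ i j
    have h4 : m = ((g⁻¹ : GL ι ℝ) : Matrix ι ι ℝ) := MulOpposite.op_injective h3
    exact ⟨h1 i j, h4 ▸ h2 i j⟩
  · intro h1
    exact ⟨fun i j => (h1 i j).1, ((g⁻¹ : GL ι ℝ) : Matrix ι ι ℝ), fun i j => (h1 i j).2, rfl⟩

theorem Ht.mono {h h' : ℝ} {x : PX ι} (H : Ht h x) (hh : h ≤ h') : Ht h' x := by
  obtain ⟨α, β, h1, h2, h3, h4⟩ := H
  exact ⟨α, β, h1, h2, h3.trans (by gcongr), h4⟩

theorem qf2_int {v : ι → ℤ} (hv : v ≠ 0) : 1 ≤ (fun i => (v i : ℝ)) ⬝ᵥ fun i => (v i : ℝ) := by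
  obtain ⟨j, hj⟩ := Function.ne_iff.1 hv
  have h1 : (v j : ℝ) * v j ≤ (fun i => (v i : ℝ)) ⬝ᵥ fun i => (v i : ℝ) :=
    Finset.single_le_sum (f := fun i => (v i : ℝ) * v i) (fun i _ => mul_self_nonneg _)
      (Finset.mem_univ j)
  have h2 : 1 ≤ v j * v j := Int.add_one_le_iff.2 (mul_self_pos.2 hj)
  exact le_trans (by exact_mod_cast h2) h1

theorem Box.ht {B : ℝ} {x : PX ι} (h : Box B x) (hB : 1 ≤ B) : Ht (B ^ 2) x := by
  have h0 : 0 < B := by linarith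
  refine ⟨B⁻¹, B⁻¹, inv_pos.2 h0, inv_pos.2 h0, le_of_eq (by field_simp), fun v hv => ⟨?_, ?_⟩⟩
  · rw [inv_le_iff_one_le_mul₀' h0]
    exact (qf2_int hv).trans (h _).1
  · rw [inv_le_iff_one_le_mul₀' h0]
    exact (qf2_int hv).trans (h.inv h0.le _).1

theorem qf2_cast (v : ι → ℤ) (A : Matrix ι ι ℤ) :
    (fun i => (v i : ℝ)) ᵥ* A.map (Int.cast : ℤ → ℝ) = fun i => (((v ᵥ* A) i : ℤ) : ℝ) := by
  funext i
  simp [Matrix.vecMul, dotProduct]

theorem qf2_ne {v : ι → ℤ} (hv : v ≠ 0) {A A' : Matrix ι ι ℤ} (h : A * A' = 1) : v ᵥ* A ≠ 0 :=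
  fun h0 => hv (by rw [← Matrix.vecMul_one v, ← h, ← Matrix.vecMul_vecMul, h0, Matrix.zero_vecMul])

theorem Ht.zsmul {h : ℝ} {x : PX ι} (H : Ht h x) (γ : GL ι ℤ) : Ht h (γ • x) := by
  obtain ⟨α, β, h1, h2, h3, h4⟩ := H
  refine ⟨α, β, h1, h2, h3, fun v hv => ⟨?_, ?_⟩⟩
  · rw [zsmul_def, smul_val, qf_cj, cR_val, qf2_cast]
    exact (h4 _ (qf2_ne hv γ.mul_inv)).1
  · rw [zsmul_def, smul_val, cj_inv _ x.2, qf_cj, ← map_inv, cR_val, ← Matrix.transpose_map,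
      qf2_cast]
    refine (h4 _ (qf2_ne (A' := (γ : Matrix ι ι ℤ)ᵀ) hv ?_)).2
    rw [← Matrix.transpose_mul, γ.mul_inv, Matrix.transpose_one]

/-- A right translation by `u` with `u uᵀ` in the box `2` changes the height by a factor `4`. -/
theorem Ht.right {h : ℝ} {g u : GL ι ℝ} (H : Ht h (g • (x1 : PX ι)))
    (hu : Box 2 (u • (x1 : PX ι))) : Ht (4 * h) ((g * u) • (x1 : PX ι)) := by
  obtain ⟨α, β, h1, h2, h3, h4⟩ := H
  refine ⟨α / 2, β / 2, half_pos h1, half_pos h2, h3.trans_eq (by ring), fun v hv => ⟨?_, ?_⟩⟩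
  · have h5 := (h4 v hv).1
    rw [qf2_x1] at h5
    rw [mul_smul, smul_val, qf_cj]
    linarith [(hu ((fun i => (v i : ℝ)) ᵥ* (g : Matrix ι ι ℝ))).1]
  · have h5 := (h4 v hv).2
    rw [smul_val, cj_inv _ (x1 : PX ι).2, qf_cj, show (x1 : PX ι).1⁻¹ = 1 from inv_one,
      qf_one] at h5
    rw [mul_smul, smul_val, cj_inv _ (u • (x1 : PX ι)).2, qf_cj]
    linarith [(hu.inv zero_le_two
      ((fun i => (v i : ℝ)) ᵥ* ((g⁻¹ : GL ι ℝ) : Matrix ι ι ℝ)ᵀ)).1]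

theorem box_two_nhds : {u : GL ι ℝ | Box 2 (u • (x1 : PX ι))} ∈ 𝓝 (1 : GL ι ℝ) := by
  have h0 : Box 1 (x1 : PX ι) := fun v => by
    rw [show qf (x1 : PX ι).1 v = v ⬝ᵥ v from qf_one v, one_mul]
    exact ⟨le_rfl, le_rfl⟩
  have h1 := qf2_nhds h0 le_rfl
  rw [mul_one] at h1
  have h2 := (continuous_smul_x1 (ι := ι)).tendsto 1
  rw [one_smul] at h2
  exact h2.eventually h1

end

end Pool.Agent.Lib.MP_446a91_nt.Rk
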