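import Pool.Agent.Lib.MP_446a91_nt.Rk.Mg1
import Pool.Agent.Lib.MP_446a91_nt.Rk.Hk
import Pool.Agent.Lib.MP_446a91_nt.Rk.Qf2

/-!
The Margulis inequality. `ν = |det g|^(1/N)`, `f g = fA (ν⁻¹ gᵀ) 1 + fA (ν g⁻¹) 1`, `ρ = r^(1/N)`.
For `h = hR l`: `ν (h g) = ρ ν g`, `(ν ρ)⁻¹ (h g)ᵀ = ρ⁻¹ • (ν⁻¹ gᵀ) * hᵀ`,
`ν ρ (h g)⁻¹ = (ρ / r) • (ν g⁻¹) * adj`. `mg_avg` with `θ = ρ⁻¹, π = r⁻¹` and `θ = ρ / r, π = r^-(N-1)`
gives `≤ ρ⁻¹ (fA A (2^J) + fA A 1)` for `r ≤ 2^J`. Take a prime `2^(kN) < r ≤ 2^(kN+1)` (Bertrand),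
`J = k N + 1`, `2^k ≥ 4 (2 + J (6N)^(N-1))`. Height: `m = (1 + f g)^(-1/(N-1))` bounds all nonzero
vectors of both lattices from below (`le_fA`), `α = ν^2 m^2`, `β = m^2 / ν^2`, `h = m^-4`.
-/

namespace Pool.Agent.Lib.MP_446a91_nt.Rk

open Matrix Filter Topology Pool.Agent.Lib.MP_446a91_nt.Sou

set_option linter.unusedSectionVars false

noncomputable section

variable {ι : Type} [Fintype ι] [DecidableEq ι]

theorem mg_fA_eq {A : Matrix ι ι ℝ} (hA : A.det ≠ 0) (t : ℝ) : fA A t =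
    ∑ v ∈ (sv_finite hA t).toFinset, ‖A *ᵥ fun i => (v i : ℝ)‖⁻¹ ^ (Fintype.card ι - 1) :=
  finsum_mem_eq_finite_toFinset_sum _ (sv_finite hA t)

theorem mg_cast_mulVec (u : Matrix ι ι ℤ) (v : ι → ℤ) :
    (u.map (Int.cast : ℤ → ℝ)) *ᵥ (fun i => (v i : ℝ)) = fun i => ((u *ᵥ v) i : ℝ) := by
  funext i
  simp [Matrix.mulVec, dotProduct]

theorem mg_norm_smul {θ : ℝ} (hθ : 0 < θ) (A : Matrix ι ι ℝ) (u : Matrix ι ι ℤ) (v : ι → ℤ) :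
    ‖(θ • (A * u.map (Int.cast : ℤ → ℝ))) *ᵥ fun i => (v i : ℝ)‖ =
      θ * ‖A *ᵥ fun i => ((u *ᵥ v) i : ℝ)‖ := by
  rw [Matrix.smul_mulVec, ← Matrix.mulVec_mulVec, mg_cast_mulVec, norm_smul, Real.norm_eq_abs,
    abs_of_pos hθ]

theorem mg_det_cast (u : Matrix ι ι ℤ) :
    (u.map (Int.cast : ℤ → ℝ)).det = ((u.det : ℤ) : ℝ) :=
  ((Int.castRingHom ℝ).map_det u).symm

theorem mg_inj {u : Matrix ι ι ℤ} (hu : u.det ≠ 0) : Function.Injective fun v => u *ᵥ v := by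
  intro v v' h
  have h0 : u *ᵥ (v - v') = 0 := by rw [Matrix.mulVec_sub]; exact sub_eq_zero.2 h
  exact sub_eq_zero.1 (Matrix.eq_zero_of_mulVec_eq_zero hu h0)

open Classical in
theorem mg_one {u : Matrix ι ι ℤ} (hu : u.det ≠ 0) {θ : ℝ} (hθ : 0 < θ)
    {A : Matrix ι ι ℝ} (hA : A.det ≠ 0) :
    fA (θ • (A * u.map (Int.cast : ℤ → ℝ))) 1 ≤ ∑ w ∈ (sv_finite hA θ⁻¹).toFinset,
      if ∃ v, u *ᵥ v = w then
        θ⁻¹ ^ (Fintype.card ι - 1) * ‖A *ᵥ fun i => (w i : ℝ)‖⁻¹ ^ (Fintype.card ι - 1) else 0 := by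
  have hd : (θ • (A * u.map (Int.cast : ℤ → ℝ))).det ≠ 0 := by
    rw [Matrix.det_smul, Matrix.det_mul, mg_det_cast]
    exact mul_ne_zero (pow_ne_zero _ hθ.ne') (mul_ne_zero hA (Int.cast_ne_zero.2 hu))
  rw [mg_fA_eq hd, ← Finset.sum_filter]
  have h1 : ∑ v ∈ (sv_finite hd 1).toFinset,
      ‖(θ • (A * u.map (Int.cast : ℤ → ℝ))) *ᵥ fun i => (v i : ℝ)‖⁻¹ ^ (Fintype.card ι - 1) =
      ∑ w ∈ (sv_finite hd 1).toFinset.image (fun v => u *ᵥ v),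
        θ⁻¹ ^ (Fintype.card ι - 1) * ‖A *ᵥ fun i => (w i : ℝ)‖⁻¹ ^ (Fintype.card ι - 1) := by
    rw [Finset.sum_image fun v _ v' _ h => mg_inj hu h]
    refine Finset.sum_congr rfl fun v _ => ?_
    rw [mg_norm_smul hθ, mul_inv, mul_pow]
  rw [h1]
  refine Finset.sum_le_sum_of_subset_of_nonneg (fun w hw => ?_) fun w _ _ => by positivity
  obtain ⟨v, hv, rfl⟩ := Finset.mem_image.1 hw
  rw [Set.Finite.mem_toFinset] at hv
  refine Finset.mem_filter.2 ⟨?_, v, rfl⟩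
  rw [Set.Finite.mem_toFinset]
  refine ⟨fun h => hv.1 (Matrix.eq_zero_of_mulVec_eq_zero hu h), ?_⟩
  have h2 := hv.2
  rw [mg_norm_smul hθ] at h2
  rw [← one_div, le_div_iff₀' hθ]
  exact h2

theorem mg_norm_nsmul (A : Matrix ι ι ℝ) (r : ℕ) (w : ι → ℤ) :
    ‖A *ᵥ fun i => ((((r : ℤ) • w) i : ℤ) : ℝ)‖ = r * ‖A *ᵥ fun i => (w i : ℝ)‖ := by
  have : (fun i => ((((r : ℤ) • w) i : ℤ) : ℝ)) = (r : ℝ) • fun i => (w i : ℝ) := by
    funext i; simp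
  rw [this, Matrix.mulVec_smul, norm_smul, Real.norm_natCast]

open Classical in
theorem mg_div {r : ℕ} {θ : ℝ} (hθ : 0 < θ) (hr : 1 ≤ θ * r)
    {A : Matrix ι ι ℝ} (hA : A.det ≠ 0) :
    ∑ w ∈ (sv_finite hA θ⁻¹).toFinset.filter (fun w => ∃ w', w = (r : ℤ) • w'),
      ‖A *ᵥ fun i => (w i : ℝ)‖⁻¹ ^ (Fintype.card ι - 1) ≤
        (r : ℝ)⁻¹ ^ (Fintype.card ι - 1) * fA A 1 := by
  have hr0 : (0 : ℝ) < r := by
    by_contra h
    have : θ * r ≤ 0 := mul_nonpos_of_nonneg_of_nonpos hθ.le (not_lt.1 h)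
    linarith
  have hr1 : (r : ℤ) ≠ 0 := by exact_mod_cast hr0.ne'
  have h1 : (r : ℝ)⁻¹ ^ (Fintype.card ι - 1) * fA A 1 =
      ∑ w ∈ (sv_finite hA 1).toFinset.image (fun v => (r : ℤ) • v),
        ‖A *ᵥ fun i => (w i : ℝ)‖⁻¹ ^ (Fintype.card ι - 1) := by
    rw [Finset.sum_image fun v _ v' _ h => smul_right_injective _ hr1 h, mg_fA_eq hA,
      Finset.mul_sum]
    refine Finset.sum_congr rfl fun v _ => ?_
    rw [mg_norm_nsmul, mul_inv, mul_pow]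
  rw [h1]
  refine Finset.sum_le_sum_of_subset_of_nonneg (fun w hw => ?_) fun w _ _ => by positivity
  obtain ⟨hw, w', rfl⟩ := Finset.mem_filter.1 hw
  rw [Set.Finite.mem_toFinset] at hw
  refine Finset.mem_image.2 ⟨w', ?_, rfl⟩
  rw [Set.Finite.mem_toFinset]
  refine ⟨fun h => hw.1 (by rw [h, smul_zero]), ?_⟩
  have h2 := hw.2
  rw [mg_norm_nsmul, ← one_div, le_div_iff₀' hθ, ← mul_assoc] at h2
  have h3 := norm_nonneg (A *ᵥ fun i => (w' i : ℝ))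
  nlinarith

open Classical in
/-- Exchange the sums: `w = u l v` runs over `SV A θ⁻¹`; vectors `w = r w'` separately. -/
theorem mg_avg {L : Type} [Fintype L] (u : L → Matrix ι ι ℤ) (hu : ∀ l, (u l).det ≠ 0) {r : ℕ}
    {θ p : ℝ} (hθ : 0 < θ) (hp : 0 ≤ p) (hr : 1 ≤ θ * r)
    (hc : ∀ w : ι → ℤ, (¬ ∃ w', w = (r : ℤ) • w') →
      ((Finset.univ.filter fun l => ∃ v, u l *ᵥ v = w).card : ℝ) ≤ p * Fintype.card L)
    {A : Matrix ι ι ℝ} (hA : A.det ≠ 0) :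
    ∑ l, fA (θ • (A * (u l).map (Int.cast : ℤ → ℝ))) 1 ≤ Fintype.card L *
      (θ⁻¹ ^ (Fintype.card ι - 1) * p * fA A θ⁻¹ +
        (θ * r)⁻¹ ^ (Fintype.card ι - 1) * fA A 1) := by
  refine (Finset.sum_le_sum fun l _ => mg_one (hu l) hθ hA).trans ?_
  rw [Finset.sum_comm]
  have h1 : ∀ w ∈ (sv_finite hA θ⁻¹).toFinset, (∑ l, if ∃ v, u l *ᵥ v = w then
      θ⁻¹ ^ (Fintype.card ι - 1) * ‖A *ᵥ fun i => (w i : ℝ)‖⁻¹ ^ (Fintype.card ι - 1) else 0) ≤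
      Fintype.card L * θ⁻¹ ^ (Fintype.card ι - 1) *
        (p * ‖A *ᵥ fun i => (w i : ℝ)‖⁻¹ ^ (Fintype.card ι - 1) +
          if ∃ w', w = (r : ℤ) • w' then
            ‖A *ᵥ fun i => (w i : ℝ)‖⁻¹ ^ (Fintype.card ι - 1) else 0) := by
    intro w _
    rw [← Finset.sum_filter, Finset.sum_const, nsmul_eq_mul]
    have ha : 0 ≤ θ⁻¹ ^ (Fintype.card ι - 1) := by positivity
    have hb : 0 ≤ ‖A *ᵥ fun i => (w i : ℝ)‖⁻¹ ^ (Fintype.card ι - 1) := by positivity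
    have hab := mul_nonneg ha hb
    have hL : (0 : ℝ) ≤ Fintype.card L := Nat.cast_nonneg _
    split_ifs with hw
    · have h2 : ((Finset.univ.filter fun l => ∃ v, u l *ᵥ v = w).card : ℝ) ≤ Fintype.card L := by
        exact_mod_cast Finset.card_le_univ _
      have h3 := mul_le_mul_of_nonneg_right h2 hab
      have h4 := mul_nonneg (mul_nonneg hL hp) hab
      nlinarith
    · have h3 := mul_le_mul_of_nonneg_right (hc w hw) hab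
      nlinarith
  refine (Finset.sum_le_sum h1).trans ?_
  rw [← Finset.mul_sum, Finset.sum_add_distrib, ← Finset.mul_sum, ← mg_fA_eq hA,
    ← Finset.sum_filter, mul_assoc]
  refine mul_le_mul_of_nonneg_left ?_ (Nat.cast_nonneg _)
  rw [mul_add, mul_inv, mul_pow, mul_assoc, mul_assoc]
  have h5 := mul_le_mul_of_nonneg_left (mg_div hθ hr hA)
    (show 0 ≤ θ⁻¹ ^ (Fintype.card ι - 1) by positivity)
  linarith

/-- The positive `n`-th root. -/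
def mg_rt (n : ℕ) (x : ℝ) : ℝ := x ^ ((n : ℝ)⁻¹)

theorem mg_rt_pos (n : ℕ) {x : ℝ} (hx : 0 < x) : 0 < mg_rt n x := Real.rpow_pos_of_pos hx _

theorem mg_rt_pow {n : ℕ} (hn : n ≠ 0) {x : ℝ} (hx : 0 < x) : mg_rt n x ^ n = x :=
  Real.rpow_inv_natCast_pow hx.le hn

theorem mg_rt_mul (n : ℕ) {x y : ℝ} (hx : 0 < x) (hy : 0 < y) :
    mg_rt n (x * y) = mg_rt n x * mg_rt n y := Real.mul_rpow hx.le hy.le

theorem mg_one_le_rt (n : ℕ) {x : ℝ} (hx : 1 ≤ x) : 1 ≤ mg_rt n x :=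
  Real.one_le_rpow hx (by positivity)

/-- The normalising factor. -/
def mg_nu (g : GL ι ℝ) : ℝ := mg_rt (Fintype.card ι) |(g : Matrix ι ι ℝ).det|

theorem mg_abs_det_pos (g : GL ι ℝ) : 0 < |(g : Matrix ι ι ℝ).det| :=
  abs_pos.2 (Matrix.GeneralLinearGroup.det_ne_zero g)

theorem mg_nu_pos (g : GL ι ℝ) : 0 < mg_nu g := mg_rt_pos _ (mg_abs_det_pos g)

theorem mg_nu_mul (h g : GL ι ℝ) : mg_nu (h * g) = mg_nu h * mg_nu g := by
  rw [mg_nu, Units.val_mul, Matrix.det_mul, abs_mul,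
    mg_rt_mul _ (mg_abs_det_pos h) (mg_abs_det_pos g)]
  rfl

/-- The row lattice. -/
def mg_A (g : GL ι ℝ) : Matrix ι ι ℝ := (mg_nu g)⁻¹ • (g : Matrix ι ι ℝ)ᵀ

/-- The dual lattice. -/
def mg_B (g : GL ι ℝ) : Matrix ι ι ℝ := mg_nu g • ((g⁻¹ : GL ι ℝ) : Matrix ι ι ℝ)

theorem mg_det_A (hN : Fintype.card ι ≠ 0) (g : GL ι ℝ) : |(mg_A g).det| = 1 := by
  have h := mg_rt_pow hN (mg_abs_det_pos g)
  rw [mg_A, Matrix.det_smul, Matrix.det_transpose, abs_mul, abs_pow, abs_inv,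
    abs_of_pos (mg_nu_pos g), inv_pow, mg_nu, h, inv_mul_cancel₀ (mg_abs_det_pos g).ne']

theorem mg_det_B (hN : Fintype.card ι ≠ 0) (g : GL ι ℝ) : |(mg_B g).det| = 1 := by
  have h := mg_rt_pow hN (mg_abs_det_pos g)
  rw [mg_B, Matrix.det_smul, abs_mul, abs_pow, abs_of_pos (mg_nu_pos g), mg_nu, h, ← abs_mul,
    ← Matrix.det_mul, Units.mul_inv, Matrix.det_one, abs_one]

theorem mg_ne {A : Matrix ι ι ℝ} (h : |A.det| = 1) : A.det ≠ 0 := by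
  intro h0
  rw [h0, abs_zero] at h
  exact zero_ne_one h

theorem mg_nu_hR {r : ℕ} (H : Hk ι r) {t : ℝˣ} (ht : (t : ℝ) = r) (l : Lb ι r) :
    mg_nu (H.hR t l) = mg_rt (Fintype.card ι) r := by
  rw [mg_nu, H.hR_val ht, mg_det_cast, ← Int.cast_abs, H.abs_det, Int.cast_natCast]

theorem mg_A_hR {r : ℕ} (H : Hk ι r) {t : ℝˣ} (ht : (t : ℝ) = r) (l : Lb ι r) (g : GL ι ℝ) :
    mg_A (H.hR t l * g) = (mg_rt (Fintype.card ι) r)⁻¹ •
      (mg_A g * ((dg ℤ H.i₀ r * (H.γ l : Matrix ι ι ℤ))ᵀ).map (Int.cast : ℤ → ℝ)) := by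
  rw [mg_A, mg_nu_mul, mg_nu_hR H ht, Units.val_mul, Matrix.transpose_mul, H.hR_val ht, mg_A,
    Matrix.smul_mul, smul_smul, mul_inv, Matrix.transpose_map]

theorem mg_B_hR {r : ℕ} (hr : r ≠ 0) (H : Hk ι r) {t : ℝˣ} (ht : (t : ℝ) = r) (l : Lb ι r)
    (g : GL ι ℝ) : mg_B (H.hR t l * g) = (mg_rt (Fintype.card ι) r / r) •
      (mg_B g * (H.adj l).map (Int.cast : ℤ → ℝ)) := by
  have hr' : (r : ℝ) ≠ 0 := Nat.cast_ne_zero.2 hr
  have h1 : (((H.hR t l)⁻¹ : GL ι ℝ) : Matrix ι ι ℝ) =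
      (r : ℝ)⁻¹ • (H.adj l).map (Int.cast : ℤ → ℝ) := by
    refine Units.inv_eq_of_mul_eq_one_right ?_
    have h2 : (dg ℤ H.i₀ r * (H.γ l : Matrix ι ι ℤ)).map (Int.cast : ℤ → ℝ) *
        (H.adj l).map (Int.cast : ℤ → ℝ) = (r : ℝ) • (1 : Matrix ι ι ℝ) := by
      have h3 := (Matrix.map_mul (f := Int.castRingHom ℝ)
        (L := dg ℤ H.i₀ r * (H.γ l : Matrix ι ι ℤ)) (M := H.adj l)).symm
      rw [H.mul_adj] at h3
      refine h3.trans ?_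
      ext i j
      rw [Matrix.map_apply, Matrix.smul_apply, Matrix.smul_apply, Matrix.one_apply,
        Matrix.one_apply]
      by_cases hij : i = j <;> simp [hij]
    rw [H.hR_val ht, Matrix.mul_smul, h2, smul_smul, inv_mul_cancel₀ hr', one_smul]
  rw [mg_B, mg_nu_mul, mg_nu_hR H ht, _root_.mul_inv_rev, Units.val_mul, h1, mg_B,
    Matrix.smul_mul, Matrix.mul_smul, smul_smul, smul_smul]
  congr 1
  ring

theorem mg_sq_le (y : ι → ℝ) : ‖y‖ ^ 2 ≤ y ⬝ᵥ y := by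
  have h0 : 0 ≤ y ⬝ᵥ y := Finset.sum_nonneg fun i _ => mul_self_nonneg (y i)
  have h1 : ‖y‖ ≤ √(y ⬝ᵥ y) := by
    refine (pi_norm_le_iff_of_nonneg (Real.sqrt_nonneg _)).2 fun i => ?_
    refine Real.abs_le_sqrt ?_
    rw [sq]
    exact Finset.single_le_sum (f := fun i => y i * y i) (fun i _ => mul_self_nonneg (y i))
      (Finset.mem_univ i)
  calc ‖y‖ ^ 2 ≤ √(y ⬝ᵥ y) ^ 2 := pow_le_pow_left₀ (norm_nonneg _) h1 2
    _ = _ := Real.sq_sqrt h0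

theorem mg_min {A : Matrix ι ι ℝ} (hA : A.det ≠ 0) (hs : Fintype.card ι - 1 ≠ 0) {M : ℝ}
    (hM : 1 ≤ M) (h : fA A 1 ≤ M ^ (Fintype.card ι - 1)) {v : ι → ℤ} (hv : v ≠ 0) :
    M⁻¹ ≤ ‖A *ᵥ fun i => (v i : ℝ)‖ := by
  have h0 : 0 < ‖A *ᵥ fun i => (v i : ℝ)‖ := by
    refine norm_pos_iff.2 fun h0 => hv ?_
    have h1 := Matrix.eq_zero_of_mulVec_eq_zero hA h0
    funext i
    have h2 : (v i : ℝ) = 0 := congrFun h1 i
    exact_mod_cast h2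
  by_cases h1 : ‖A *ᵥ fun i => (v i : ℝ)‖ ≤ 1
  · have h2 := (le_fA hA (v := v) ⟨hv, h1⟩).trans h
    have h3 := le_of_pow_le_pow_left₀ hs (by linarith) h2
    exact inv_le_of_inv_le₀ h0 h3
  · exact (inv_le_one_of_one_le₀ hM).trans (not_le.1 h1).le

theorem mg_height (hN : 2 ≤ Fintype.card ι) (g : GL ι ℝ) : ∃ h : ℝ, 1 ≤ h ∧
    Ht h (g • (x1 : PX ι)) ∧
      h ^ (Fintype.card ι - 1) ≤ (1 + (fA (mg_A g) 1 + fA (mg_B g) 1)) ^ 4 := by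
  have hs : Fintype.card ι - 1 ≠ 0 := by omega
  have hN0 : Fintype.card ι ≠ 0 := by omega
  have ha := fA_nonneg (mg_A g) 1
  have hb := fA_nonneg (mg_B g) 1
  obtain ⟨M, hM, hp⟩ : ∃ M : ℝ, 1 ≤ M ∧
      M ^ (Fintype.card ι - 1) = 1 + (fA (mg_A g) 1 + fA (mg_B g) 1) :=
    ⟨mg_rt _ _, mg_one_le_rt _ (by linarith), mg_rt_pow hs (by linarith)⟩
  have hν := mg_nu_pos g
  have hM0 : 0 < M := by linarith
  refine ⟨M ^ 4, one_le_pow₀ hM, ⟨(mg_nu g * M⁻¹) ^ 2, ((mg_nu g)⁻¹ * M⁻¹) ^ 2, by positivity,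
    by positivity, le_of_eq (by field_simp), fun v hv => ⟨?_, ?_⟩⟩,
    le_of_eq (by rw [← hp, ← pow_mul, ← pow_mul, mul_comm])⟩
  · have h1 := mg_min (mg_ne (mg_det_A hN0 g)) hs hM (by linarith) hv
    rw [mg_A, Matrix.smul_mulVec, norm_smul, Real.norm_eq_abs, abs_of_pos (inv_pos.2 hν),
      le_inv_mul_iff₀ hν] at h1
    rw [smul_val, qf_cj]
    refine (pow_le_pow_left₀ (by positivity) h1 2).trans ((mg_sq_le _).trans (le_of_eq ?_))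
    rw [Matrix.mulVec_transpose]
    exact (qf_one _).symm
  · have h1 := mg_min (mg_ne (mg_det_B hN0 g)) hs hM (by linarith) hv
    rw [mg_B, Matrix.smul_mulVec, norm_smul, Real.norm_eq_abs, abs_of_pos hν,
      ← inv_mul_le_iff₀ hν] at h1
    rw [smul_val, cj_inv g (x1 : PX ι).2, qf_cj]
    refine (pow_le_pow_left₀ (by positivity) h1 2).trans ((mg_sq_le _).trans (le_of_eq ?_))
    have h2 : (x1 : PX ι).1⁻¹ = 1 := inv_one
    rw [h2, qf_one, Matrix.vecMul_transpose]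

theorem mg_k (N c : ℕ) : ∃ k : ℕ, 2 * (2 + (k * N + 1) * c) ≤ 2 ^ k := by
  refine ⟨2 * (4 + 4 * N * c + 2 * c), ?_⟩
  generalize hm : 4 + 4 * N * c + 2 * c = m
  have h1 : m + 1 ≤ 2 ^ m := Nat.lt_two_pow_self
  have h2 : (m + 1) * m ≤ 2 ^ m * 2 ^ m := Nat.mul_le_mul h1 (by omega)
  rw [two_mul m, pow_add]
  refine le_trans ?_ h2
  have h3 : (m + 1) * m = (m + 1) * (4 + 4 * N * c + 2 * c) := by rw [hm]
  rw [h3]
  have h4 : (m + 1) * (4 + 4 * N * c + 2 * c) =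
      2 * (2 + ((m + m) * N + 1) * c) + (4 * m + 2 * m * c + 4 * N * c) := by ring
  omega

theorem mg_prime (hN : 2 ≤ Fintype.card ι) : ∃ (r J : ℕ), r.Prime ∧ (r : ℝ) ≤ 2 ^ J ∧
    2 * (2 + J * (6 * Fintype.card ι : ℝ) ^ (Fintype.card ι - 1)) ≤
      mg_rt (Fintype.card ι) r := by
  obtain ⟨k, hk⟩ := mg_k (Fintype.card ι) ((6 * Fintype.card ι) ^ (Fintype.card ι - 1))
  obtain ⟨r, hr, h1, h2⟩ := Nat.exists_prime_lt_and_le_two_mul (2 ^ (k * Fintype.card ι))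
    (by positivity)
  refine ⟨r, k * Fintype.card ι + 1, hr, by rw [pow_succ']; exact_mod_cast h2, ?_⟩
  have hN0 : Fintype.card ι ≠ 0 := by omega
  have hr0 : (0 : ℝ) < r := by exact_mod_cast hr.pos
  have h3 : (2 : ℝ) ^ k ≤ mg_rt (Fintype.card ι) r := by
    refine le_of_pow_le_pow_left₀ hN0 (mg_rt_pos _ hr0).le ?_
    rw [mg_rt_pow hN0 hr0, ← pow_mul]
    exact_mod_cast h1.le
  refine le_trans ?_ h3
  exact_mod_cast hk

theorem mg_half {ρ c b a a' x y : ℝ} (hc : 0 ≤ c) (hb : 0 ≤ b) (ha : 0 ≤ a) (ha0 : 0 ≤ a')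
    (hρ : 2 * (2 + c) ≤ ρ) (ha' : a' ≤ (1 + c) * (1 + a) + b) (hx : x ≤ ρ⁻¹) (hy : y ≤ ρ⁻¹) :
    x * a' + y * a ≤ a / 2 + (1 + c + b) := by
  have hρ0 : 0 < ρ := by linarith
  have h1 : x * a' + y * a ≤ ρ⁻¹ * (a' + a) := by
    have := mul_le_mul_of_nonneg_right hx ha0
    have := mul_le_mul_of_nonneg_right hy ha
    linarith
  refine h1.trans ?_
  rw [inv_mul_le_iff₀ hρ0]
  have h2 : 0 ≤ a / 2 + (1 + c + b) := by positivity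
  have h3 := mul_le_mul_of_nonneg_right hρ h2
  have h4 := mul_nonneg hc hb
  have h5 := mul_nonneg hc hc
  nlinarith

theorem mg_main (hN : 2 ≤ Fintype.card ι) : ∃ r : ℕ, r.Prime ∧ ∀ (H : Hk ι r) (t : ℝˣ),
    (t : ℝ) = r → ∀ [Fintype (Lb ι r)], ∃ (f : GL ι ℝ → ℝ) (b : ℝ), (∀ g, 0 ≤ f g) ∧ 0 ≤ b ∧
      (∀ g, av (H.hR t) f g ≤ f g / 2 + b) ∧
      ∀ g, ∃ h : ℝ, 1 ≤ h ∧ Ht h (g • (x1 : PX ι)) ∧
        h ^ (Fintype.card ι - 1) ≤ (1 + f g) ^ 4 := by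
  obtain ⟨r, J, hr, hJ, hρ⟩ := mg_prime hN
  obtain ⟨b, hb, hcount⟩ := mg_count hN J
  refine ⟨r, hr, fun H t ht _ => ?_⟩
  have hN0 : Fintype.card ι ≠ 0 := by omega
  have hs : Fintype.card ι - 1 ≠ 0 := by omega
  have hr0 : (0 : ℝ) < r := by exact_mod_cast hr.pos
  have hr1 : (1 : ℝ) ≤ r := by exact_mod_cast hr.pos
  have hpow := mg_rt_pow hN0 hr0
  have hone := mg_one_le_rt (Fintype.card ι) hr1
  have hc : 0 ≤ (J : ℝ) * (6 * Fintype.card ι : ℝ) ^ (Fintype.card ι - 1) := by positivity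
  generalize (J : ℝ) * (6 * Fintype.card ι : ℝ) ^ (Fintype.card ι - 1) = c at hρ hcount hc
  refine ⟨fun g => fA (mg_A g) 1 + fA (mg_B g) 1, 2 * (1 + c + b),
    fun g => add_nonneg (fA_nonneg _ _) (fA_nonneg _ _), by positivity, fun g => ?_,
    mg_height hN⟩
  have ha := fA_nonneg (mg_A g) 1
  have ha' := fA_nonneg (mg_B g) 1
  refine div_le_of_le_mul₀ (Nat.cast_nonneg _) (by positivity) ?_
  simp only [mg_A_hR H ht, mg_B_hR hr.ne_zero H ht]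
  generalize mg_rt (Fintype.card ι) r = ρ at hρ hpow hone
  have hρ0 : 0 < ρ := by linarith
  have hsucc : ρ ^ (Fintype.card ι - 1) * ρ = r := by
    rw [← pow_succ, Nat.sub_add_cancel (by omega), hpow]
  have hρs : ρ ≤ ρ ^ (Fintype.card ι - 1) := le_self_pow₀ hone hs
  have hρs1 : 1 ≤ ρ ^ (Fintype.card ι - 1) := hone.trans hρs
  have hρr : ρ ≤ r := by rw [← hpow]; exact le_self_pow₀ hone hN0
  have hq : ρ⁻¹ * r = ρ ^ (Fintype.card ι - 1) := by rw [← hsucc]; field_simp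
  have hq' : ρ / r * r = ρ := div_mul_cancel₀ _ hr0.ne'
  have hdet : ∀ l, (dg ℤ H.i₀ r * (H.γ l : Matrix ι ι ℤ)).det ≠ 0 := fun l h0 => by
    have h1 := H.abs_det l
    rw [h0, abs_zero] at h1
    exact hr.ne_zero (by exact_mod_cast h1.symm)
  have hdet' : ∀ l, (H.adj l).det ≠ 0 := fun l h0 => by
    have h1 := congrArg Matrix.det (H.mul_adj l)
    rw [Matrix.det_mul, h0, mul_zero, Matrix.det_smul, Matrix.det_one, mul_one] at h1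
    exact pow_ne_zero _ (Int.natCast_ne_zero.2 hr.ne_zero) h1.symm
  have hA := mg_det_A hN0 g
  have hB := mg_det_B hN0 g
  have h1 := mg_avg (fun l => (dg ℤ H.i₀ r * (H.γ l : Matrix ι ι ℤ))ᵀ)
    (fun l => by rw [Matrix.det_transpose]; exact hdet l) (r := r) (θ := ρ⁻¹) (p := (r : ℝ)⁻¹)
    (inv_pos.2 hρ0) (by positivity) (by rw [hq]; exact hρs1) (H.count_row hr) (mg_ne hA)
  have h2 := mg_avg H.adj hdet' (r := r) (θ := ρ / r) (p := (r : ℝ)⁻¹ ^ (Fintype.card ι - 1))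
    (by positivity) (by positivity) (by rw [hq']; exact hone) (H.count_col hr) (mg_ne hB)
  have hinv : ∀ x : ℝ, ρ ≤ x → x⁻¹ ^ (Fintype.card ι - 1) ≤ ρ⁻¹ := fun x hx => by
    rw [inv_pow]
    exact inv_anti₀ hρ0 (hx.trans (le_self_pow₀ (hone.trans hx) hs))
  have h3 := mg_half (x := ρ⁻¹⁻¹ ^ (Fintype.card ι - 1) * (r : ℝ)⁻¹)
    (y := (ρ⁻¹ * r)⁻¹ ^ (Fintype.card ι - 1)) hc hb ha (fA_nonneg (mg_A g) ρ⁻¹⁻¹) hρ
    ((fA_mono (mg_ne hA) (by rw [inv_inv]; exact hρr.trans hJ)).trans (hcount _ hA))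
    (le_of_eq (by rw [inv_inv, ← hsucc]; field_simp)) (hinv _ (by rw [hq]; exact hρs))
  have h4 := mg_half (x := (ρ / r)⁻¹ ^ (Fintype.card ι - 1) * (r : ℝ)⁻¹ ^ (Fintype.card ι - 1))
    (y := (ρ / r * r)⁻¹ ^ (Fintype.card ι - 1)) hc hb ha' (fA_nonneg (mg_B g) (ρ / r)⁻¹) hρ
    ((fA_mono (mg_ne hB) (by rw [inv_div]; exact (div_le_self hr0.le hone).trans hJ)).trans
      (hcount _ hB))
    (by rw [← mul_pow, ← mul_inv, hq']; exact hinv _ le_rfl) (hinv _ hq'.ge)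
  have hL : (0 : ℝ) ≤ Fintype.card (Lb ι r) := Nat.cast_nonneg _
  have h5 := mul_le_mul_of_nonneg_left h3 hL
  have h6 := mul_le_mul_of_nonneg_left h4 hL
  rw [Finset.sum_add_distrib]
  linarith

end

end Pool.Agent.Lib.MP_446a91_nt.Rk
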