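import Pool.Agent.Lib.MP_446a91_nt.Rk.D0

/-!
Counting short vectors. `s = N - 1`, `n t` = number of lattice vectors of norm `≤ t` (with `0`).
If the vectors of `SV A (2^J)` lie in a hyperplane `ξ ⬝ y = 0`, drop the coordinate with maximal
`|ξ i|`, cut the others into cells `⌊N y i⌋`: two points of a cell differ by at most `1`, so
`n t ≤ (3 N t)^s n 1` for `2 ≤ t ≤ 2^J`; dyadic shells give `J (6N)^s n 1`, and `n 1 ≤ 1 + fA A 1`.
Otherwise choose `N` independent ones; replacing one by a nonzero lattice vector `u` gives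
`1 ≤ |det| ≤ N! ‖A u‖ 2^(J s)`, so all nonzero vectors have norm `≥ c`, cells of side `c / 2` hold at
most one point, and `fA A (2^J) ≤ b`.
-/

namespace Pool.Agent.Lib.MP_446a91_nt.Rk

open Matrix Filter Topology Pool.Agent.Lib.MP_446a91_nt.Sou

set_option linter.unusedSectionVars false

noncomputable section

variable {ι : Type} [Fintype ι] [DecidableEq ι]


/-- The lattice vector of an integral vector. -/
def mg1L (A : Matrix ι ι ℝ) : (ι → ℤ) →+ (ι → ℝ) :=
  AddMonoidHom.mk' (fun v => A *ᵥ fun i => (v i : ℝ)) fun v w => by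
    rw [← mulVec_add]
    exact congrArg _ (funext fun i => Int.cast_add _ _)

theorem mg1_pos {A : Matrix ι ι ℝ} (hA : A.det ≠ 0) {v : ι → ℤ} (hv : v ≠ 0) : 0 < ‖mg1L A v‖ :=
  norm_pos_iff.2 fun h => hv (funext fun i =>
    Int.cast_eq_zero.1 (congrFun (eq_zero_of_mulVec_eq_zero hA h) i))

theorem sv_finite {A : Matrix ι ι ℝ} (hA : A.det ≠ 0) (t : ℝ) : (SV A t).Finite := by
  let f := LinearMap.toContinuousLinearMap (mulVecLin A⁻¹)
  refine (isCompact_closedBall (0 : ι → ℤ) (‖f‖ * t)).finite_of_discrete.subset fun v hv => ?_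
  have h1 : ‖fun i => (v i : ℝ)‖ ≤ ‖f‖ * t := by
    simpa [f, mulVec_mulVec, nonsing_inv_mul _ hA.isUnit] using f.le_opNorm_of_le hv.2
  exact mem_closedBall_zero_iff.2 ((pi_norm_le_iff_of_nonneg ((norm_nonneg _).trans h1)).2 fun i =>
    (norm_le_pi_norm (fun i => (v i : ℝ)) i).trans h1)

/-- The short vectors as a finite set. -/
def mg1S {A : Matrix ι ι ℝ} (hA : A.det ≠ 0) (t : ℝ) : Finset (ι → ℤ) := (sv_finite hA t).toFinset

theorem mg1_mem {A : Matrix ι ι ℝ} (hA : A.det ≠ 0) {t : ℝ} {v : ι → ℤ} :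
    v ∈ mg1S hA t ↔ v ≠ 0 ∧ ‖mg1L A v‖ ≤ t := (sv_finite hA t).mem_toFinset

theorem mg1_eq {A : Matrix ι ι ℝ} (hA : A.det ≠ 0) (t : ℝ) :
    fA A t = ∑ v ∈ mg1S hA t, ‖mg1L A v‖⁻¹ ^ (Fintype.card ι - 1) :=
  finsum_mem_eq_finite_toFinset_sum _ _

theorem mg1_sub {A : Matrix ι ι ℝ} (hA : A.det ≠ 0) {t t' : ℝ} (h : t ≤ t') :
    mg1S hA t ⊆ mg1S hA t' := fun _ hv =>
  (mg1_mem hA).2 ⟨((mg1_mem hA).1 hv).1, ((mg1_mem hA).1 hv).2.trans h⟩

theorem fA_nonneg (A : Matrix ι ι ℝ) (t : ℝ) : 0 ≤ fA A t :=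
  finsum_nonneg fun _ => finsum_nonneg fun _ => by positivity

theorem fA_mono {A : Matrix ι ι ℝ} (hA : A.det ≠ 0) {t t' : ℝ} (h : t ≤ t') : fA A t ≤ fA A t' := by
    rw [mg1_eq hA, mg1_eq hA]
    exact Finset.sum_le_sum_of_subset_of_nonneg (mg1_sub hA h) fun _ _ _ => by positivity

theorem le_fA {A : Matrix ι ι ℝ} (hA : A.det ≠ 0) {t : ℝ} {v : ι → ℤ} (h : v ∈ SV A t) :
    ‖A *ᵥ fun i => (v i : ℝ)‖⁻¹ ^ (Fintype.card ι - 1) ≤ fA A t := by
  rw [mg1_eq hA]
  exact Finset.single_le_sum (f := fun v => ‖mg1L A v‖⁻¹ ^ (Fintype.card ι - 1))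
    (fun _ _ => by positivity) ((mg1_mem hA).2 h)

/-- Counting by cells. -/
theorem mg1_cnt {A : Matrix ι ι ℝ} (hA : A.det ≠ 0) {κ : Type} [Fintype κ] (e : κ → ι) (K T : ℕ)
    (D : Finset (ι → ℤ)) (hD : ∀ v w, ‖mg1L A v‖ ≤ T → ‖mg1L A w‖ ≤ T →
      (∀ k, K * |mg1L A (v - w) (e k)| < 1) → v - w ∈ D) :
    ((mg1S hA T).card : ℝ) ≤ D.card * (2 * K * T + 1) ^ Fintype.card κ := by
  classical
  have h1 := Finset.card_le_mul_card_image_of_maps_to (s := mg1S hA T)
    (f := fun v k => ⌊K * mg1L A v (e k)⌋)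
    (t := Fintype.piFinset fun _ : κ => Finset.Icc (-(K * T : ℕ) : ℤ) (K * T : ℕ))
    (fun v hv => Fintype.mem_piFinset.2 fun k => by
      have h2 : |K * mg1L A v (e k)| ≤ K * T := by
        rw [abs_mul, Nat.abs_cast]
        exact mul_le_mul_of_nonneg_left ((norm_le_pi_norm _ (e k)).trans ((mg1_mem hA).1 hv).2)
          (Nat.cast_nonneg K)
      rw [Finset.mem_Icc, Int.le_floor, Int.floor_le_iff]
      push_cast
      exact ⟨(abs_le.1 h2).1, (abs_le.1 h2).2.trans_lt (lt_add_one _)⟩) D.card fun b _ => by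
      rcases ((mg1S hA T).filter fun v => (fun k => ⌊K * mg1L A v (e k)⌋) = b).eq_empty_or_nonempty
        with h | ⟨w, hw⟩
      · simp [h]
      · refine Finset.card_le_card_of_injOn (· - w) (fun v hv => ?_) sub_left_injective.injOn
        obtain ⟨hv, ev⟩ := Finset.mem_filter.1 hv
        obtain ⟨hw, ew⟩ := Finset.mem_filter.1 hw
        refine hD v w ((mg1_mem hA).1 hv).2 ((mg1_mem hA).1 hw).2 fun k => ?_
        have h2 := Int.abs_sub_lt_one_of_floor_eq_floor (congrFun (ev.trans ew.symm) k)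
        rwa [← mul_sub, abs_mul, Nat.abs_cast, ← Pi.sub_apply, ← map_sub] at h2
  have h2 : ((K * T : ℕ) + 1 - -(K * T : ℕ) : ℤ).toNat = 2 * K * T + 1 := by
    rw [mul_assoc]
    omega
  rw [Fintype.card_piFinset, Finset.prod_const, Int.card_Icc, h2] at h1
  exact_mod_cast h1

theorem mg1_step {A : Matrix ι ι ℝ} (hA : A.det ≠ 0) {t t' : ℝ} (ht : 0 < t) (h : t ≤ t') :
    fA A t' ≤ fA A t + (mg1S hA t').card * t⁻¹ ^ (Fintype.card ι - 1) := by
  rw [mg1_eq hA, mg1_eq hA, ← Finset.sum_sdiff (mg1_sub hA h), add_comm, add_le_add_iff_left]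
  refine (Finset.sum_le_card_nsmul _ _ (t⁻¹ ^ (Fintype.card ι - 1)) fun v hv => ?_).trans ?_
  · obtain ⟨h1, h2⟩ := Finset.mem_sdiff.1 hv
    have h3 : t ≤ ‖mg1L A v‖ := by_contra fun hn =>
      h2 ((mg1_mem hA).2 ⟨((mg1_mem hA).1 h1).1, (not_le.1 hn).le⟩)
    gcongr
  · rw [nsmul_eq_mul]
    gcongr
    exact Finset.sdiff_subset

theorem mg1_one {A : Matrix ι ι ℝ} (hA : A.det ≠ 0) :
    ((insert 0 (mg1S hA 1)).card : ℝ) ≤ 1 + fA A 1 := by
  have h1 : ((mg1S hA 1).card : ℝ) ≤ fA A 1 := by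
    rw [mg1_eq hA, Finset.card_eq_sum_ones, Nat.cast_sum]
    refine Finset.sum_le_sum fun v hv => ?_
    obtain ⟨h1, h2⟩ := (mg1_mem hA).1 hv
    exact Nat.cast_one.trans_le (one_le_pow₀ ((one_le_inv₀ (mg1_pos hA h1)).2 h2))
  have h2 : ((insert 0 (mg1S hA 1)).card : ℝ) ≤ ((mg1S hA 1).card + 1 : ℕ) :=
    Nat.cast_le.2 (Finset.card_insert_le _ _)
  push_cast at h2
  linarith

/-- The short vectors lie in a hyperplane. -/
theorem mg1_flat {A : Matrix ι ι ℝ} (hA : A.det ≠ 0) {f : (ι → ℝ) →ₗ[ℝ] ℝ} (hf : f ≠ 0) {T : ℕ}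
    (h : ∀ v, ‖mg1L A v‖ ≤ T → f (mg1L A v) = 0) : ((mg1S hA T).card : ℝ) ≤
      (1 + fA A 1) * (2 * Fintype.card ι * T + 1) ^ (Fintype.card ι - 1) := by
  let ξ : ι → ℝ := fun i => f fun j => if i = j then 1 else 0
  have hξ : ∀ y, f y = ∑ i, y i * ξ i := f.pi_apply_eq_sum_univ
  obtain ⟨i₁, h₁⟩ : ∃ i, ξ i ≠ 0 := by_contra fun hn => hf (LinearMap.ext fun y => by
    simp [hξ y, not_not.1 (not_exists.1 hn _)])
  obtain ⟨i₀, -, h₀⟩ := Finset.exists_max_image Finset.univ (fun i => |ξ i|) ⟨i₁, Finset.mem_univ _⟩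
  have hp : 0 < |ξ i₀| := (abs_pos.2 h₁).trans_le (h₀ _ (Finset.mem_univ _))
  have hN : (1 : ℝ) ≤ Fintype.card ι := Nat.one_le_cast.2 (Fintype.card_pos_iff.2 ⟨i₀⟩)
  have h1 := mg1_cnt hA (Subtype.val : {i // i ≠ i₀} → ι) (Fintype.card ι) T (insert 0 (mg1S hA 1))
    fun v w hv hw hk => by
      have h2 : f (mg1L A (v - w)) = 0 := by rw [map_sub, map_sub, h v hv, h w hw, sub_self]
      rw [Finset.mem_insert, or_iff_not_imp_left, mg1_mem]
      refine fun h0 => ⟨h0, ?_⟩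
      generalize mg1L A (v - w) = y at h2 hk
      have h3 : ∀ i, i ≠ i₀ → |y i| ≤ (Fintype.card ι : ℝ)⁻¹ := fun i hi => by
        rw [← one_div, le_div_iff₀' (by linarith)]
        exact (hk ⟨i, hi⟩).le
      refine (pi_norm_le_iff_of_nonneg zero_le_one).2 fun i => ?_
      by_cases hi : i = i₀
      · rw [hξ, ← Finset.add_sum_erase _ _ (Finset.mem_univ i₀), add_eq_zero_iff_eq_neg] at h2
        rw [hi, Real.norm_eq_abs, ← mul_le_mul_iff_left₀ hp, ← abs_mul, h2, abs_neg]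
        refine (Finset.abs_sum_le_sum_abs _ _).trans ((Finset.sum_le_card_nsmul _ _
          ((Fintype.card ι : ℝ)⁻¹ * |ξ i₀|) fun j hj => ?_).trans ?_)
        · rw [abs_mul]
          exact mul_le_mul (h3 j (Finset.ne_of_mem_erase hj)) (h₀ j (Finset.mem_univ _))
            (abs_nonneg _) (by positivity)
        · rw [nsmul_eq_mul, ← mul_assoc, ← div_eq_mul_inv]
          exact mul_le_mul_of_nonneg_right ((div_le_one (by linarith)).2
            (Nat.cast_le.2 (Finset.card_le_univ _))) hp.le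
      · exact (h3 i hi).trans (inv_le_one_of_one_le₀ hN)
  rw [Fintype.card_subtype_compl, Fintype.card_subtype_eq] at h1
  exact h1.trans (mul_le_mul_of_nonneg_right (mg1_one hA) (by positivity))

/-- The short vectors span: no very short vector. -/
theorem mg1_low {A : Matrix ι ι ℝ} (hA : |A.det| = 1) {T : ℝ} (hT : 1 ≤ T)
    (h : Submodule.span ℝ (mg1L A '' {v | ‖mg1L A v‖ ≤ T}) = ⊤) {u : ι → ℤ} (hu : u ≠ 0) :
    ‖mg1L A u‖⁻¹ ≤ (Fintype.card ι).factorial * T ^ Fintype.card ι := by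
  have hA' : A.det ≠ 0 := abs_pos.1 (hA ▸ one_pos)
  obtain ⟨g, hg, -, hl⟩ := Submodule.exists_fun_fin_finrank_span_eq ℝ
    (mg1L A '' {v | ‖mg1L A v‖ ≤ T})
  choose v hv hvg using hg
  let e := Fintype.equivFinOfCardEq (α := ι) (n := Module.finrank ℝ
    (Submodule.span ℝ (mg1L A '' {v | ‖mg1L A v‖ ≤ T}))) (by rw [h, finrank_top]; simp)
  let P : Matrix ι ι ℝ := of fun i j => mg1L A (v (e j)) i
  have hP : P.det ≠ 0 := ((isUnit_iff_isUnit_det _).1 (linearIndependent_cols_iff_isUnit.1 (by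
    have h1 : P.col = g ∘ e := funext fun j => hvg (e j)
    exact h1 ▸ hl.comp e e.injective))).ne_zero
  obtain ⟨j, hj⟩ : ∃ j, cramer P (mg1L A u) j ≠ 0 := by_contra fun hn => by
    have h1 := mulVec_cramer P (mg1L A u)
    rw [show cramer P (mg1L A u) = 0 from funext fun j => not_not.1 (not_exists.1 hn j),
      mulVec_zero] at h1
    exact smul_ne_zero hP (norm_pos_iff.1 (mg1_pos hA' hu)) h1.symm
  have h1 : P.updateCol j (mg1L A u) =
      A * ((of fun i j => v (e j) i).updateCol j u).map (Int.castRingHom ℝ) := by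
    ext i k
    by_cases hk : k = j <;> simp [P, mg1L, hk, mul_apply, mulVec, dotProduct]
  have h2 : 1 ≤ |(P.updateCol j (mg1L A u)).det| := by
    rw [cramer_apply, h1, det_mul, ← RingHom.mapMatrix_apply, ← RingHom.map_det] at hj
    rw [h1, det_mul, ← RingHom.mapMatrix_apply, ← RingHom.map_det, abs_mul, hA, one_mul,
      eq_intCast, ← Int.cast_abs]
    exact_mod_cast Int.one_le_abs fun h0 => hj (by rw [h0, map_zero, mul_zero])
  have h3 := det_le (A := P.updateCol j (‖mg1L A u‖⁻¹ • mg1L A u)) (abv := AbsoluteValue.abs)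
    (x := T) fun i k => by
      rw [AbsoluteValue.abs_apply, updateCol_apply]
      split_ifs
      · rw [Pi.smul_apply, smul_eq_mul, abs_mul, abs_inv, abs_norm]
        exact (inv_mul_le_one_of_le₀ (norm_le_pi_norm _ i) (norm_nonneg _)).trans hT
      · exact (norm_le_pi_norm _ i).trans (hv (e k))
  rw [AbsoluteValue.abs_apply, det_updateCol_smul, abs_mul, abs_inv, abs_norm, nsmul_eq_mul] at h3
  exact (le_mul_of_one_le_right (by positivity) h2).trans h3

theorem mg_count (hN : 2 ≤ Fintype.card ι) (J : ℕ) : ∃ b : ℝ, 0 ≤ b ∧ ∀ A : Matrix ι ι ℝ,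
    |A.det| = 1 → fA A (2 ^ J) ≤
      (1 + J * (6 * Fintype.card ι : ℝ) ^ (Fintype.card ι - 1)) * (1 + fA A 1) + b := by
  let K : ℕ := (Fintype.card ι).factorial * (2 ^ J) ^ Fintype.card ι
  refine ⟨(2 * K * 2 ^ J + 1) ^ Fintype.card ι * K ^ (Fintype.card ι - 1), by positivity,
    fun A hA => ?_⟩
  have hA' : A.det ≠ 0 := abs_pos.1 (hA ▸ one_pos)
  have h0 := fA_nonneg A 1
  rcases eq_top_or_lt_top (Submodule.span ℝ (mg1L A '' {v | ‖mg1L A v‖ ≤ 2 ^ J})) with h | h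
  · have hK : ∀ u, u ≠ 0 → ‖mg1L A u‖⁻¹ ≤ K := fun u hu => by
      simpa [K] using mg1_low hA (one_le_pow₀ one_le_two) h hu
    have hp : (0 : ℝ) < K := by positivity
    have h1 := mg1_cnt hA' id K (2 ^ J) {0} fun v w _ _ hk =>
      Finset.mem_singleton.2 (by_contra fun hn => by
        have h2 : ‖mg1L A (v - w)‖ < (K : ℝ)⁻¹ := (pi_norm_lt_iff (by positivity)).2 fun i => by
          rw [← one_div, lt_div_iff₀' hp]
          exact hk i
        exact (hK _ hn).not_gt ((lt_inv_comm₀ (mg1_pos hA' hn) hp).1 h2))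
    refine le_add_of_nonneg_of_le (by positivity) ?_
    rw [mg1_eq hA']
    refine (Finset.sum_le_card_nsmul _ _ ((K : ℝ) ^ (Fintype.card ι - 1)) fun v hv => ?_).trans ?_
    · exact pow_le_pow_left₀ (by positivity) (hK v ((mg1_mem hA').1 hv).1) _
    · rw [nsmul_eq_mul]
      exact mul_le_mul_of_nonneg_right (by simpa using h1) (by positivity)
  · obtain ⟨f, hf, hk⟩ := Submodule.exists_le_ker_of_lt_top _ h
    have hN' : (2 : ℝ) ≤ Fintype.card ι := Nat.ofNat_le_cast.2 hN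
    have h1 : ∀ j ≤ J, fA A (2 ^ j) ≤
        fA A 1 + j * ((6 * Fintype.card ι : ℝ) ^ (Fintype.card ι - 1) * (1 + fA A 1)) := by
      intro j hj
      induction j with
      | zero => simp
      | succ j ih =>
        have h2 := mg1_flat hA' hf (T := 2 ^ (j + 1)) fun v hv => hk (Submodule.subset_span
          ⟨v, hv.trans (by exact_mod_cast pow_le_pow_right₀ one_le_two hj), rfl⟩)
        have h3 := mg1_step hA' (t := 2 ^ j) (t' := 2 ^ (j + 1)) (by positivity)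
          (pow_le_pow_right₀ one_le_two j.le_succ)
        have h4 : (1 : ℝ) ≤ 2 ^ j := one_le_pow₀ one_le_two
        have h5 : (2 * Fintype.card ι * 2 ^ (j + 1) + 1 : ℝ) * (2 ^ j)⁻¹ ≤ 6 * Fintype.card ι := by
          rw [← div_eq_mul_inv, div_le_iff₀ (by positivity), pow_succ]
          nlinarith
        have h6 := mul_le_mul_of_nonneg_left (pow_le_pow_left₀ (by positivity) h5
          (Fintype.card ι - 1)) (add_nonneg zero_le_one h0)
        push_cast at h2 ⊢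
        have h7 := mul_le_mul_of_nonneg_right h2 (by positivity :
          (0 : ℝ) ≤ (2 ^ j)⁻¹ ^ (Fintype.card ι - 1))
        rw [mul_pow, ← mul_assoc] at h6
        linarith [ih (Nat.le_of_succ_le hj)]
    refine le_add_of_le_of_nonneg ?_ (by positivity)
    linarith [h1 J le_rfl]

end

end Pool.Agent.Lib.MP_446a91_nt.Rk
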