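import Pool.Agent.Lib.MP_446a91_nt.Rk.Qf2
import Pool.Agent.Lib.MP_446a91_nt.Rk.Nm

/-!
The functions on the group attached to a field of forms.
-/

namespace Pool.Agent.Lib.MP_446a91_nt.Rk

open Matrix Filter Topology Pool.Agent.Lib.MP_446a91_nt.Sou

set_option linter.unusedSectionVars false

noncomputable section

variable {ι : Type} [Fintype ι] [DecidableEq ι] {d : ℕ}


/-- The coefficient function of a field of forms. -/
def Fa (ω : PX ι → Fm ι d) (a : Fin d → Matrix ι ι ℝ) (g : GL ι ℝ) : ℝ :=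
  ω (g • x1) fun i => cj (g : Matrix ι ι ℝ) (a i)

variable (U : PU ι) {c : (GL ι ℤ →₀ ℝ) [⋀^Fin (d + 1)]→ₗ[ℝ] ℝ} {C : ℝ}

theorem om_apply (x : PX ι) (a : Fin d → Matrix ι ι ℝ) :
    om U c x a = c (Fin.cons (U.φ x) fun i => U.D x (a i)) := rfl

theorem om_alt (x : PX ι) (σ : Equiv.Perm (Fin d)) (a : Fin d → Matrix ι ι ℝ) :
    om U c x (a ∘ σ) = ((Equiv.Perm.sign σ : ℤ) : ℝ) * om U c x a := by
  have := (c.curryLeft (U.φ x)).map_perm (fun i => U.D x (a i)) σ
  rw [Units.smul_def, zsmul_eq_mul] at this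
  exact this

theorem om_tr (x : PX ι) (a : Fin d → Matrix ι ι ℝ) (i : Fin d) :
    om U c x (Function.update a i (a i)ᵀ) = om U c x a := by
  have : (fun j => U.D x (Function.update a i (a i)ᵀ j)) = fun j => U.D x (a j) := by
    funext j
    by_cases hj : j = i
    · rw [hj, Function.update_self, U.tr]
    · rw [Function.update_of_ne hj]
  rw [om_apply, om_apply, this]

theorem Fa_Sg (h : Gr c C) (a : Fin d → Matrix ι ι ℝ) :
    ∀ s ∈ (Sg : Subgroup (GL ι ℝ)), ∀ g, Fa (om U c) a (s * g) = Fa (om U c) a g := by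
  let H : Subgroup (GL ι ℝ) :=
    { carrier := {s | ∀ g, Fa (om U c) a (s * g) = Fa (om U c) a g}
      one_mem' := fun g => by rw [one_mul]
      mul_mem' := fun {s t} hs ht g => by rw [mul_assoc, hs, ht]
      inv_mem' := fun {s} hs g => by rw [← hs (s⁻¹ * g), mul_inv_cancel_left] }
  have key : (Sg : Subgroup (GL ι ℝ)) ≤ H := by
    refine sup_le ?_ ?_
    · rintro _ ⟨γ, rfl⟩ g
      simp only [Fa, om_apply, mul_smul, Units.val_mul, cj_mul, ← zsmul_def, U.eqv, U.eqvD]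
      rw [← h.inv γ (Fin.cons (U.φ (g • x1)) fun i => U.D (g • x1) (cj (g : Matrix ι ι ℝ) (a i)))]
      refine congrArg c (funext fun i => ?_)
      exact Fin.cases rfl (fun _ => rfl) i
    · rintro _ ⟨t, rfl⟩ g
      simp only [Fa, om_apply, mul_smul, Units.val_mul, cj_mul, U.scl, U.sclD]
  exact fun s hs => key hs

theorem Fa_orth (ω : PX ι → Fm ι d) (a : Fin d → Matrix ι ι ℝ) (g k : GL ι ℝ)
    (hk : (k : Matrix ι ι ℝ) * (k : Matrix ι ι ℝ)ᵀ = 1) :
    Fa ω (fun i => cj (k : Matrix ι ι ℝ) (a i)) g = Fa ω a (g * k) := by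
  have e : k • (x1 : PX ι) = x1 := Subtype.ext (by
    change (k : Matrix ι ι ℝ) * 1 * (k : Matrix ι ι ℝ)ᵀ = 1
    rw [Matrix.mul_one, hk])
  simp only [Fa, mul_smul, e, Units.val_mul, cj_mul]

theorem om_cont {T Γ : Type} [TopologicalSpace T] {n : ℕ}
    (m : MultilinearMap ℝ (fun _ : Fin n => Γ →₀ ℝ) ℝ) (u : T → Fin n → (Γ →₀ ℝ))
    (hu : ∀ i γ, Continuous fun t => u t i γ)
    (hS : ∀ t₀, ∃ S : Finset Γ, ∀ᶠ t in 𝓝 t₀, ∀ i, (u t i).support ⊆ S) :
    Continuous fun t => m (u t) := by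
  refine continuous_iff_continuousAt.2 fun t₀ => ?_
  obtain ⟨S, hS⟩ := hS t₀
  have h1 : Continuous fun t => ∑ r ∈ Fintype.piFinset fun _ : Fin n => S,
      (∏ i, u t i (r i)) • m fun i => Finsupp.single (r i) 1 :=
    continuous_finsetSum _ fun r _ =>
      (continuous_finsetProd _ fun i _ => hu i (r i)).smul continuous_const
  refine h1.continuousAt.congr (hS.mono fun t ht => ?_)
  have e : u t = fun i => ∑ γ ∈ S, u t i γ • Finsupp.single γ (1 : ℝ) := by
    funext i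
    conv_lhs => rw [← Finsupp.sum_single (u t i)]
    rw [Finsupp.sum_of_support_subset _ (ht i) _ (by simp)]
    simp
  change _ = m (u t)
  conv_rhs => rw [e, m.map_sum_finset]
  exact Finset.sum_congr rfl fun r _ => (m.map_smul_univ _ _).symm

theorem om_supp (x : PX ι) (b : Fin d → Matrix ι ι ℝ) (i : Fin (d + 1)) :
    ∀ γ ∈ ((Fin.cons (U.φ x) fun i => U.D x (b i) : Fin (d + 1) → (GL ι ℤ →₀ ℝ)) i).support,
      γ ∈ U.Gd x :=
  Fin.cases (U.supp x) (fun i => U.suppD x (b i)) i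

/-- Near `g₀` all supports lie in the finite set `U.fin B`; expand `c` multilinearly
(`MultilinearMap.map_sum_finset`) into a finite sum of products of continuous functions. -/
theorem Fa_cont (a : Fin d → Matrix ι ι ℝ) : Continuous (Fa (om U c) a) := by
  refine om_cont c.toMultilinearMap (fun g : GL ι ℝ => Fin.cons (U.φ (g • x1))
    fun i => U.D (g • x1) (cj (g : Matrix ι ι ℝ) (a i))) (fun i γ => ?_) fun g₀ => ?_
  · refine Fin.cases ((U.cont γ).comp continuous_smul_x1) (fun i => ?_) i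
    refine (U.contD γ).comp (f := fun g : GL ι ℝ => (g • x1, cj (g : Matrix ι ι ℝ) (a i)))
      (continuous_smul_x1.prodMk ?_)
    exact (Units.continuous_val.matrix_mul continuous_const).matrix_mul
      Units.continuous_val.matrix_transpose
  · obtain ⟨B, -, hB⟩ := exists_box_nhds (g₀ • (x1 : PX ι))
    refine ⟨(U.fin B).toFinset, (continuous_smul_x1.continuousAt.eventually hB).mono
      fun g hg i γ hγ => ?_⟩
    exact (U.fin B).mem_toFinset.2 ⟨_, hg, om_supp U _ _ i γ hγ⟩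

/-- `|qf (cj g a) v| ≤ η qf (g gᵀ) v` with `η = ∑ |a i j|` (`abs_qf_le`, `qf_cj`). -/
theorem Fa_grow (h : Gr c C) (a : Fin d → Matrix ι ι ℝ) : ∃ K : ℝ, 0 ≤ K ∧ ∀ (t : ℝ) (g : GL ι ℝ),
    1 ≤ t → Ht t (g • (x1 : PX ι)) → |Fa (om U c) a g| ≤ K * t ^ (11 * d) := by
  have h0 := h.pos
  have h1 := U.one_le
  have hη : ∀ i, 0 ≤ ∑ p, ∑ q, |a i p q| := fun i => by positivity
  refine ⟨C * U.C ^ (10 * d) * ∏ i, (U.C * ∑ p, ∑ q, |a i p q|),
    mul_nonneg (by positivity) (Finset.prod_nonneg fun i _ => by positivity),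
    fun t g ht hg => ?_⟩
  have h2 := h.bnd (U.C * t) (Fin.cons (U.φ (g • x1))
    fun i => U.D (g • x1) (cj (g : Matrix ι ι ℝ) (a i))) (one_le_mul_of_one_le_of_one_le h1 ht)
    fun i j γ hγ γ' hγ' => U.ent t _ ht hg γ (om_supp U _ _ i γ hγ) γ' (om_supp U _ _ j γ' hγ')
  refine h2.trans ?_
  have h3 : ∏ i, n1 (U.D (g • x1) (cj (g : Matrix ι ι ℝ) (a i))) ≤
      ∏ i, (t * (U.C * ∑ p, ∑ q, |a i p q|)) := by
    refine Finset.prod_le_prod (fun i _ => n1_nonneg _) fun i _ => ?_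
    refine (U.grow t _ _ _ ht hg (hη i) fun v => ?_).trans_eq (by ring)
    rw [smul_val, qf_cj, qf_cj]
    exact (abs_qf_le _ _).trans_eq (congrArg _ (qf_one _).symm)
  rw [Finset.prod_mul_distrib, Finset.prod_const, Finset.card_univ, Fintype.card_fin] at h3
  rw [Fin.prod_univ_succ]
  simp only [Fin.cons_zero, Fin.cons_succ]
  have h4 := mul_le_mul (U.nrm (g • x1)) h3 (Finset.prod_nonneg fun i _ => n1_nonneg _) zero_le_one
  refine (mul_le_mul_of_nonneg_left h4 (by positivity)).trans_eq ?_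
  rw [show 11 * d = 10 * d + d by ring, pow_add, mul_pow]
  ring

end

end Pool.Agent.Lib.MP_446a91_nt.Rk
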