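import Pool.Agent.Lib.MP_446a91_nt.Rk.Qf2
import Pool.Agent.Lib.MP_446a91_nt.Rk.Tr

/-!
Existence of reduced bases. Induction on the index type. A shortest nonzero integral vector is
primitive, so (`exists_cov`, `exists_gl`) we may assume it is the first basis vector:
`P = Uᵀ diag(a, P') U` with `U = [[1, μ], [0, 1]]`; reduce `P'` by induction, subtract integers so that
`|μ j| ≤ 1/2`. Then `a ≤ P j j ≤ P' j j + a / 4`, `Q i j = Q' i j`, `Q 1 j = -∑ μ k Q' k j`,
`Q 1 1 = 1 / a + qf Q' μ`, and `Q' j j ≤ C / P' j j ≤ (4/3) C / a`.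
-/

namespace Pool.Agent.Lib.MP_446a91_nt.Rk

open Matrix Filter Topology Pool.Agent.Lib.MP_446a91_nt.Sou

set_option linter.unusedSectionVars false

noncomputable section

variable {ι : Type} [Fintype ι] [DecidableEq ι]


/-- Integral matrices as real matrices. -/
def rede_c (A : Matrix ι ι ℤ) : Matrix ι ι ℝ := A.map (Int.cast : ℤ → ℝ)

theorem rede_c_mul (A B : Matrix ι ι ℤ) : rede_c (A * B) = rede_c A * rede_c B := by
  ext i j
  simp [rede_c, Matrix.mul_apply]

/-- Reducedness of a matrix. -/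
def rede_RM (C : ℝ) (P : Matrix ι ι ℝ) : Prop :=
  ∀ i, P i i * P⁻¹ i i ≤ C ∧ ∀ j, |P i j| ≤ C * P i i ∧ |P⁻¹ i j| ≤ C * P⁻¹ i i

variable (ι) in
/-- The statement for matrices. -/
def rede_St (C : ℝ) : Prop :=
  ∀ P : Matrix ι ι ℝ, Pos P → ∃ A B : Matrix ι ι ℤ, A * B = 1 ∧ rede_RM C (cj (rede_c A) P)

theorem rede_pos {A B : Matrix ι ι ℤ} (h : A * B = 1) {P : Matrix ι ι ℝ} (hP : Pos P) :
    Pos (cj (rede_c A) P) :=
  hP.act (cR ⟨A, B, h, mul_eq_one_comm.1 h⟩)

theorem rede_equiv {α : Type} [Fintype α] [DecidableEq α] (e : ι ≃ α) {C : ℝ}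
    (h : rede_St α C) : rede_St ι C := by
  intro P hP
  have hP' : Pos (P.submatrix e.symm e.symm) := by
    refine ⟨by rw [Matrix.transpose_submatrix, hP.1], fun v hv => ?_⟩
    have h1 : qf (P.submatrix e.symm e.symm) v = qf P (v ∘ e) := by
      simp only [qf, dotProduct, Matrix.mulVec, Matrix.submatrix_apply, Function.comp]
      rw [← e.sum_comp]
      refine Finset.sum_congr rfl fun i _ => ?_
      rw [← e.sum_comp]
      simp
    rw [h1]
    refine hP.2 _ fun h0 => hv ?_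
    funext a
    simpa using congrFun h0 (e.symm a)
  obtain ⟨A, B, hAB, hR⟩ := h _ hP'
  refine ⟨A.submatrix e e, B.submatrix e e, ?_, ?_⟩
  · rw [Matrix.submatrix_mul_equiv, hAB, Matrix.submatrix_one_equiv]
  · have h2 : cj (rede_c (A.submatrix e e)) P =
        (cj (rede_c A) (P.submatrix e.symm e.symm)).submatrix e e := by
      have h3 : P = (P.submatrix e.symm e.symm).submatrix e e := by
        ext i j; simp
      have h4 : rede_c (A.submatrix e e) = (rede_c A).submatrix e e := rfl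
      rw [h4, cj_apply, cj_apply, ← Matrix.submatrix_mul_equiv _ _ e e e,
        ← Matrix.submatrix_mul_equiv _ _ e e e, ← h3, Matrix.transpose_submatrix]
    intro i
    rw [h2, Matrix.inv_submatrix_equiv]
    exact ⟨(hR (e i)).1, fun j => (hR (e i)).2 (e j)⟩

theorem rede_qf_smul (P : Matrix ι ι ℝ) (t : ℝ) (v : ι → ℝ) :
    qf P (t • v) = t ^ 2 * qf P v := by
  simp only [qf, Matrix.mulVec_smul, smul_dotProduct, dotProduct_smul, smul_eq_mul]
  ring

theorem rede_cast_ne {u : ι → ℤ} (hu : u ≠ 0) : (fun i => (u i : ℝ)) ≠ 0 := by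
  intro h
  apply hu
  funext i
  have := congrFun h i
  simpa using this

/-- A shortest nonzero integral vector exists and is primitive. -/
theorem rede_short (i₀ : ι) {P : Matrix ι ι ℝ} (hP : Pos P) :
    ∃ v : ι → ℤ, Finset.univ.gcd v = 1 ∧ ∀ u : ι → ℤ, u ≠ 0 →
      qf P (fun i => (v i : ℝ)) ≤ qf P (fun i => (u i : ℝ)) := by
  obtain ⟨B, hB, hbox⟩ := exists_box (⟨P, hP⟩ : PX ι)
  set F : (ι → ℤ) → ℝ := fun u => qf P (fun i => (u i : ℝ)) with hF
  have h0 : (Pi.single i₀ 1 : ι → ℤ) ≠ 0 := by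
    intro h
    simpa using congrFun h i₀
  set M := F (Pi.single i₀ 1) with hM
  have hfin : {u : ι → ℤ | u ≠ 0 ∧ F u ≤ M}.Finite := by
    refine (Set.finite_Icc (fun _ : ι => -⌈B * M⌉) (fun _ : ι => ⌈B * M⌉)).subset ?_
    rintro u ⟨-, hu⟩
    have h1 : ∀ i, |u i| ≤ ⌈B * M⌉ := by
      intro i
      have h2 := (hbox (fun i => (u i : ℝ))).1
      have h3 : (u i : ℝ) * u i ≤ (fun i => (u i : ℝ)) ⬝ᵥ (fun i => (u i : ℝ)) :=
        Finset.single_le_sum (f := fun i => (u i : ℝ) * u i) (fun j _ => mul_self_nonneg _)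
          (Finset.mem_univ i)
      have h4 : B * F u ≤ B * M := mul_le_mul_of_nonneg_left hu (by linarith)
      have h5 : |u i| ≤ u i * u i := by
        rw [← abs_mul_abs_self]
        have h7 := abs_nonneg (u i)
        rcases h7.eq_or_lt with h8 | h8
        · rw [← h8]; simp
        · nlinarith
      have h6 : ((u i * u i : ℤ) : ℝ) ≤ (⌈B * M⌉ : ℤ) := by
        push_cast
        exact h3.trans (h2.trans (h4.trans (Int.le_ceil _)))
      exact h5.trans (by exact_mod_cast h6)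
    exact ⟨fun i => (abs_le.1 (h1 i)).1, fun i => (abs_le.1 (h1 i)).2⟩
  obtain ⟨v, ⟨hv0, hvM⟩, hmin⟩ := Set.exists_min_image _ F hfin ⟨_, h0, le_rfl⟩
  have hall : ∀ u : ι → ℤ, u ≠ 0 → F v ≤ F u := by
    intro u hu
    by_cases h : F u ≤ M
    · exact hmin u ⟨hu, h⟩
    · linarith [not_le.1 h]
  refine ⟨v, ?_, hall⟩
  set g : ℤ := Finset.univ.gcd v with hg
  have hd : ∀ i, g ∣ v i := fun i => Finset.gcd_dvd (Finset.mem_univ i)
  choose w hw using hd
  have hg0 : 0 ≤ g := Int.nonneg_of_normalize_eq_self Finset.normalize_gcd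
  have hw0 : w ≠ 0 := by
    intro h
    apply hv0
    funext i
    simp [hw i, h]
  have hgne : g ≠ 0 := by
    intro h
    apply hv0
    funext i
    simp [hw i, h]
  have h1 : F v = (g : ℝ) ^ 2 * F w := by
    simp only [hF]
    rw [← rede_qf_smul]
    congr 1
    funext i
    simp [hw i]
  have h2 := hall w hw0
  have h3 : 0 < F w := hP.2 _ (rede_cast_ne hw0)
  have h4 : (g : ℝ) ^ 2 ≤ 1 := by
    rw [h1] at h2
    by_contra h
    have := not_le.1 h
    nlinarith
  have h5 : g ^ 2 ≤ 1 := by exact_mod_cast h4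
  have h6 : 1 ≤ g := by omega
  nlinarith

theorem rede_row {A B : Matrix ι ι ℤ} (h : A * B = 1) {u : ι → ℤ} (hu : u ≠ 0) :
    u ᵥ* A ≠ 0 := by
  intro h0
  apply hu
  have := congrArg (· ᵥ* B) h0
  simpa [Matrix.vecMul_vecMul, h] using this

theorem rede_cast_vecMul (A : Matrix ι ι ℤ) (u : ι → ℤ) :
    (fun i => (u i : ℝ)) ᵥ* rede_c A = fun i => ((u ᵥ* A) i : ℝ) := by
  funext i
  simp [rede_c, Matrix.vecMul, dotProduct]

/-- The shortest vector as a basis vector. -/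
theorem rede_first (i₀ : ι) {P : Matrix ι ι ℝ} (hP : Pos P) :
    ∃ A B : Matrix ι ι ℤ, A * B = 1 ∧ ∀ u : ι → ℤ, u ≠ 0 →
      cj (rede_c A) P i₀ i₀ ≤ qf (cj (rede_c A) P) (fun i => (u i : ℝ)) := by
  obtain ⟨v, hv, hmin⟩ := rede_short i₀ hP
  obtain ⟨f, hf⟩ := exists_cov hv
  obtain ⟨γ, hγ⟩ := exists_gl (fun _ : Unit => i₀) (fun _ _ _ => rfl) (fun _ => v) (fun _ => f)
    (fun _ _ => by simpa using hf)
  have hAB : (γ : Matrix ι ι ℤ)ᵀ * ((γ⁻¹ : GL ι ℤ) : Matrix ι ι ℤ)ᵀ = 1 := by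
    rw [← Matrix.transpose_mul]; simp
  refine ⟨_, _, hAB, fun u hu => ?_⟩
  rw [cj_diag, qf_cj, rede_cast_vecMul]
  have h1 : rede_c (γ : Matrix ι ι ℤ)ᵀ i₀ = fun i => (v i : ℝ) := by
    funext i
    have := congrFun (hγ ()).1 i
    simp only [Matrix.mulVec_single_one, Matrix.col_apply] at this
    simp [rede_c, ← this]
  rw [h1]
  exact hmin _ (rede_row hAB hu)

/-- Lower block triangular matrices. -/
def rede_lw {R : Type} [CommRing R] (ν : ι → R) (M : Matrix ι ι R) :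
    Matrix (Unit ⊕ ι) (Unit ⊕ ι) R :=
  fromBlocks 1 0 (Matrix.of fun i _ => ν i) M

/-- Block diagonal matrices. -/
def rede_dg (a : ℝ) (M : Matrix ι ι ℝ) : Matrix (Unit ⊕ ι) (Unit ⊕ ι) ℝ :=
  fromBlocks (Matrix.of fun _ _ => a) 0 0 M

theorem rede_lw_mul {R : Type} [CommRing R] (ν ν' : ι → R) (M M' : Matrix ι ι R) :
    rede_lw ν M * rede_lw ν' M' = rede_lw (ν + M *ᵥ ν') (M * M') := by
  ext (i | i) (j | j) <;>
    simp [rede_lw, Matrix.mul_apply, Fintype.sum_sum_type, Matrix.mulVec, dotProduct]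

theorem rede_lw_one {R : Type} [CommRing R] : rede_lw (0 : ι → R) 1 = 1 := by
  ext (i | i) (j | j) <;> simp [rede_lw, Matrix.one_apply]

theorem rede_dg_mul (a b : ℝ) (M M' : Matrix ι ι ℝ) :
    rede_dg a M * rede_dg b M' = rede_dg (a * b) (M * M') := by
  ext (i | i) (j | j) <;> simp [rede_dg, Matrix.mul_apply, Fintype.sum_sum_type]

theorem rede_dg_one : rede_dg 1 (1 : Matrix ι ι ℝ) = 1 := by
  ext (i | i) (j | j) <;> simp [rede_dg, Matrix.one_apply]

theorem rede_cj_lw (ν : ι → ℝ) (M P : Matrix ι ι ℝ) (a : ℝ) :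
    cj (rede_lw ν M) (rede_dg a P) =
      fromBlocks (Matrix.of fun _ _ => a) (Matrix.of fun _ j => a * ν j)
        (Matrix.of fun i _ => a * ν i) (Matrix.of fun i j => cj M P i j + a * ν i * ν j) := by
  ext (i | i) (j | j) <;>
    simp [cj_apply, rede_lw, rede_dg, Matrix.mul_apply, Fintype.sum_sum_type] <;> ring

theorem rede_cj_lwT (ν : ι → ℝ) (Q : Matrix ι ι ℝ) (b : ℝ) :
    cj (rede_lw (-ν) 1)ᵀ (rede_dg b Q) =
      fromBlocks (Matrix.of fun _ _ => b + ∑ j, (∑ k, ν k * Q k j) * ν j)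
        (Matrix.of fun _ j => -∑ k, ν k * Q k j)
        (Matrix.of fun i _ => -∑ k, Q i k * ν k) Q := by
  ext (i | i) (j | j) <;>
    simp [cj_apply, rede_lw, rede_dg, Matrix.mul_apply, Fintype.sum_sum_type, Matrix.one_apply]

theorem rede_inv (ν : ι → ℝ) {P : Matrix ι ι ℝ} (hP : Pos P) {a : ℝ} (ha : a ≠ 0) :
    (cj (rede_lw ν 1) (rede_dg a P))⁻¹ = cj (rede_lw (-ν) 1)ᵀ (rede_dg a⁻¹ P⁻¹) := by
  apply Matrix.inv_eq_right_inv
  have h1 : rede_lw ν (1 : Matrix ι ι ℝ) * rede_lw (-ν) 1 = 1 := by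
    rw [rede_lw_mul]; simpa using rede_lw_one
  have h2 : rede_lw (-ν) (1 : Matrix ι ι ℝ) * rede_lw ν 1 = 1 := mul_eq_one_comm.1 h1
  have h3 : (rede_lw ν (1 : Matrix ι ι ℝ))ᵀ * (rede_lw (-ν) 1)ᵀ = 1 := by
    rw [← Matrix.transpose_mul, h2, Matrix.transpose_one]
  have h4 : rede_dg a P * rede_dg a⁻¹ P⁻¹ = 1 := by
    rw [rede_dg_mul, mul_inv_cancel₀ ha, Matrix.mul_nonsing_inv _ hP.isUnit_det, rede_dg_one]
  rw [cj_apply, cj_apply, Matrix.transpose_transpose]
  calc _ = rede_lw ν 1 * (rede_dg a P * (((rede_lw ν 1)ᵀ * (rede_lw (-ν) 1)ᵀ) *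
        rede_dg a⁻¹ P⁻¹)) * rede_lw (-ν) 1 := by simp only [Matrix.mul_assoc]
    _ = 1 := by rw [h3, Matrix.one_mul, h4, Matrix.mul_one, h1]

/-- The estimates of the induction step. -/
theorem rede_blk {C a : ℝ} (hC : 1 ≤ C) (ha : 0 < a) {P : Matrix ι ι ℝ} (hP : Pos P)
    (hR : rede_RM C P) {ν : ι → ℝ} (hν : ∀ i, |ν i| ≤ 1 / 2)
    (hm : ∀ i, a ≤ P i i + a * ν i * ν i) :
    rede_RM (((Fintype.card ι : ℝ) + 2) ^ 2 * C ^ 2) (cj (rede_lw ν 1) (rede_dg a P)) := by
  set n : ℝ := (Fintype.card ι : ℝ) with hn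
  have hn0 : 0 ≤ n := Nat.cast_nonneg _
  have hQ := hP.inv
  have hsq : ∀ i j, |a * ν i * ν j| ≤ a / 4 := by
    intro i j
    rw [abs_mul, abs_mul, abs_of_pos ha]
    have h1 := hν i
    have h2 := hν j
    have h3 : |ν i| * |ν j| ≤ 1 / 2 * (1 / 2) := mul_le_mul h1 h2 (abs_nonneg _) (by norm_num)
    nlinarith
  have hsq0 : ∀ i, 0 ≤ a * ν i * ν i := fun i => by
    rw [mul_assoc]; exact mul_nonneg ha.le (mul_self_nonneg _)
  have hPa : ∀ i, 3 / 4 * a ≤ P i i := fun i => by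
    have := (abs_le.1 (hsq i i)).2
    linarith [hm i]
  have hQa : ∀ i, a * P⁻¹ i i ≤ 4 / 3 * C := fun i => by
    have h1 := (hR i).1
    have h2 := mul_le_mul_of_nonneg_right (hPa i) (hQ.diag_pos i).le
    linarith
  have hsym : ∀ i j, P⁻¹ i j = P⁻¹ j i := fun i j => by
    have := congrFun (congrFun hQ.1 j) i
    simpa using this
  have hs : ∀ j, |∑ k, ν k * P⁻¹ k j| ≤ n * (1 / 2 * (C * P⁻¹ j j)) := by
    intro j
    refine (Finset.abs_sum_le_sum_abs _ _).trans ?_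
    refine (Finset.sum_le_card_nsmul _ _ (1 / 2 * (C * P⁻¹ j j)) fun k _ => ?_).trans ?_
    · rw [abs_mul, hsym k j]
      exact mul_le_mul (hν k) ((hR j).2 k).2 (abs_nonneg _) (by norm_num)
    · simp [hn]
  have hsa : ∀ j, a * |∑ k, ν k * P⁻¹ k j| ≤ n * C ^ 2 := by
    intro j
    have h1 := mul_le_mul_of_nonneg_left (hs j) ha.le
    have h2 := mul_le_mul_of_nonneg_left (hQa j) (show 0 ≤ n * C by positivity)
    have h3 : 0 ≤ n * C ^ 2 := by positivity
    nlinarith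
  have hq0 : 0 ≤ ∑ j, (∑ k, ν k * P⁻¹ k j) * ν j := by
    have h1 := hQ.nonneg ν
    rw [qf, Matrix.dotProduct_mulVec] at h1
    exact h1
  have hq1 : a * ∑ j, (∑ k, ν k * P⁻¹ k j) * ν j ≤ n * (n * C ^ 2) := by
    rw [Finset.mul_sum]
    refine (Finset.sum_le_card_nsmul _ _ (n * C ^ 2) fun j _ => ?_).trans (by simp [hn])
    have h1 : (∑ k, ν k * P⁻¹ k j) * ν j ≤ |∑ k, ν k * P⁻¹ k j| := by
      refine (le_abs_self _).trans ?_
      rw [abs_mul]
      exact mul_le_of_le_one_right (abs_nonneg _) (by linarith [hν j])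
    exact (mul_le_mul_of_nonneg_left h1 ha.le).trans (hsa j)
  have hC2 : C ≤ C ^ 2 := by nlinarith
  have hnC : 0 ≤ n * C ^ 2 := by positivity
  have hnnC : 0 ≤ n * (n * C ^ 2) := by positivity
  have hnC1 : n * C ≤ n * C ^ 2 := mul_le_mul_of_nonneg_left hC2 hn0
  set K := (n + 2) ^ 2 * C ^ 2 with hK
  have hKe : K = n * (n * C ^ 2) + 4 * (n * C ^ 2) + 4 * C ^ 2 := by rw [hK]; ring
  have hK1 : 1 ≤ K := by linarith
  have hai : 0 < a⁻¹ := inv_pos.2 ha
  have haa : a * a⁻¹ = 1 := mul_inv_cancel₀ ha.ne'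
  intro i
  rw [rede_inv ν hP ha.ne', rede_cj_lwT, rede_cj_lw]
  simp only [cj_one]
  rcases i with i | i
  · refine ⟨?_, ?_⟩
    · simp only [fromBlocks_apply₁₁, Matrix.of_apply]
      rw [mul_add]
      linarith
    · rintro (j | j)
      · simp only [fromBlocks_apply₁₁, Matrix.of_apply]
        rw [abs_of_pos ha, abs_of_pos (by linarith)]
        exact ⟨le_mul_of_one_le_left ha.le hK1, le_mul_of_one_le_left (by linarith) hK1⟩
      · simp only [fromBlocks_apply₁₁, fromBlocks_apply₁₂, Matrix.of_apply]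
        refine ⟨?_, ?_⟩
        · rw [abs_mul, abs_of_pos ha]
          have := mul_le_mul_of_nonneg_left (hν j) ha.le
          have := le_mul_of_one_le_left ha.le hK1
          linarith
        · rw [abs_neg]
          have h1 := mul_le_mul_of_nonneg_left (hsa j) hai.le
          rw [← mul_assoc, mul_comm a⁻¹ a, haa, one_mul] at h1
          have h2 : a⁻¹ * (n * C ^ 2) ≤ a⁻¹ * K := mul_le_mul_of_nonneg_left (by linarith) hai.le
          have h3 : 0 ≤ K * ∑ j, (∑ k, ν k * P⁻¹ k j) * ν j := mul_nonneg (by linarith) hq0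
          rw [mul_add]
          linarith
  · have hp := hP.diag_pos i
    have hq := hQ.diag_pos i
    refine ⟨?_, ?_⟩
    · simp only [fromBlocks_apply₂₂, Matrix.of_apply]
      have h1 := mul_le_mul_of_nonneg_right (abs_le.1 (hsq i i)).2 hq.le
      have h2 := (hR i).1
      have h3 := hQa i
      rw [add_mul]
      linarith
    · have hd : P i i + a * ν i * ν i ≤ K * (P i i + a * ν i * ν i) :=
        le_mul_of_one_le_left (by linarith [hsq0 i]) hK1
      rintro (j | j)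
      · simp only [fromBlocks_apply₂₂, fromBlocks_apply₂₁, Matrix.of_apply]
        refine ⟨?_, ?_⟩
        · rw [abs_mul, abs_of_pos ha]
          have := mul_le_mul_of_nonneg_left (hν i) ha.le
          linarith [hm i]
        · rw [abs_neg]
          have h1 : ∑ k, P⁻¹ i k * ν k = ∑ k, ν k * P⁻¹ k i :=
            Finset.sum_congr rfl fun k _ => by rw [hsym i k, mul_comm]
          rw [h1]
          have h2 : n * C * P⁻¹ i i ≤ K * P⁻¹ i i := mul_le_mul_of_nonneg_right (by linarith) hq.le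
          have h3 : 0 ≤ n * C * P⁻¹ i i := by positivity
          linarith [hs i]
      · simp only [fromBlocks_apply₂₂, Matrix.of_apply]
        refine ⟨?_, ?_⟩
        · have h1 := abs_add_le (P i j) (a * ν i * ν j)
          have h2 := ((hR i).2 j).1
          have h3 : (C + 1) * P i i ≤ K * P i i := mul_le_mul_of_nonneg_right (by linarith) hp.le
          have h4 : 0 ≤ K * (a * ν i * ν i) := mul_nonneg (by linarith) (hsq0 i)
          rw [mul_add]
          linarith [hsq i j, hPa i]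
        · exact ((hR i).2 j).2.trans (mul_le_mul_of_nonneg_right (by linarith) hq.le)

theorem rede_step {C : ℝ} (hC : 1 ≤ C) (h : rede_St ι C) :
    rede_St (Unit ⊕ ι) (((Fintype.card ι : ℝ) + 2) ^ 2 * C ^ 2) := by
  intro P₀ hP₀
  obtain ⟨A₀, B₀, hAB₀, hmin⟩ := rede_first (Sum.inl ()) hP₀
  have hP := rede_pos hAB₀ hP₀
  set P := cj (rede_c A₀) P₀ with hPd
  set a := P (Sum.inl ()) (Sum.inl ()) with had
  have ha : 0 < a := hP.diag_pos _
  set μ : ι → ℝ := fun j => P (Sum.inl ()) (Sum.inr j) / a with hμ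
  set P' : Matrix ι ι ℝ := Matrix.of fun i j => P (Sum.inr i) (Sum.inr j) - a * μ i * μ j with hP'
  have hsym : ∀ i j, P i j = P j i := fun i j => by
    have := congrFun (congrFun hP.1 j) i
    simpa using this
  have hdec : P = cj (rede_lw μ 1) (rede_dg a P') := by
    rw [rede_cj_lw]
    ext (i | i) (j | j)
    · simp [had]
    · simp only [fromBlocks_apply₁₂, Matrix.of_apply, hμ]
      field_simp
    · simp only [fromBlocks_apply₂₁, Matrix.of_apply, hμ]
      rw [hsym]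
      field_simp
    · simp [cj_one, hP']
  have hpos : Pos P' := by
    refine ⟨?_, fun v hv => ?_⟩
    · ext i j
      simp only [hP', Matrix.transpose_apply, Matrix.of_apply]
      rw [hsym]; ring
    · have h1 : qf P (Sum.elim 0 v ᵥ* rede_lw (-μ) 1) = qf P' v := by
        rw [hdec, qf_cj, Matrix.vecMul_vecMul, rede_lw_mul]
        simp only [Matrix.one_mulVec, neg_add_cancel, Matrix.mul_one, rede_lw_one,
          Matrix.vecMul_one]
        simp [qf, rede_dg, dotProduct, Matrix.mulVec, Fintype.sum_sum_type]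
      rw [← h1]
      refine hP.2 _ fun h0 => hv ?_
      funext j
      have := congrFun h0 (Sum.inr j)
      simpa [Matrix.vecMul, dotProduct, rede_lw, Fintype.sum_sum_type, Matrix.one_apply]
        using this
  obtain ⟨A, B, hAB, hR⟩ := h P' hpos
  set k : ι → ℤ := fun i => round ((rede_c A *ᵥ μ) i) with hk
  set ν : ι → ℝ := fun i => (rede_c A *ᵥ μ) i - k i with hν
  have hAB₁ : rede_lw (-k) A * rede_lw (B *ᵥ k) B = 1 := by
    rw [rede_lw_mul, Matrix.mulVec_mulVec, hAB]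
    simpa using rede_lw_one
  have hc : rede_c (rede_lw (-k) A) = rede_lw (fun i => -(k i : ℝ)) (rede_c A) := by
    ext (i | i) (j | j) <;> simp [rede_c, rede_lw]
  have hfin : cj (rede_c (rede_lw (-k) A)) P =
      cj (rede_lw ν 1) (rede_dg a (cj (rede_c A) P')) := by
    rw [hdec, ← cj_mul, hc, rede_lw_mul, rede_cj_lw, rede_cj_lw, Matrix.mul_one, cj_one]
    have : ((fun i => -(k i : ℝ)) + rede_c A *ᵥ μ) = ν := by
      funext i
      simp only [hν, Pi.add_apply]
      ring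
    rw [this]
  refine ⟨rede_lw (-k) A * A₀, B₀ * rede_lw (B *ᵥ k) B, ?_, ?_⟩
  · rw [Matrix.mul_assoc, ← Matrix.mul_assoc A₀, hAB₀, Matrix.one_mul, hAB₁]
  · rw [rede_c_mul, cj_mul, ← hPd, hfin]
    refine rede_blk hC ha (rede_pos hAB hpos) hR (fun i => abs_sub_round _) fun i => ?_
    have h1 : rede_lw (-k) A (Sum.inr i) ≠ 0 := by
      intro h0
      have h2 := congrFun (congrFun hAB₁ (Sum.inr i)) (Sum.inr i)
      rw [Matrix.mul_apply, h0] at h2
      simp at h2
    have h2 := hmin _ h1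
    have h3 := congrFun (congrFun hfin (Sum.inr i)) (Sum.inr i)
    rw [cj_diag, rede_cj_lw, cj_one] at h3
    simp only [fromBlocks_apply₂₂, Matrix.of_apply] at h3
    exact h2.trans (le_of_eq h3)

theorem rede_all (n : ℕ) : ∃ C : ℝ, 1 ≤ C ∧ rede_St (Fin n) C := by
  induction n with
  | zero => exact ⟨1, le_rfl, fun P _ => ⟨1, 1, by simp, fun i => i.elim0⟩⟩
  | succ n ih =>
    obtain ⟨C, hC, h⟩ := ih
    refine ⟨_, ?_, rede_equiv (Fintype.equivOfCardEq (by simp [add_comm])) (rede_step hC h)⟩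
    have h1 : (0 : ℝ) ≤ Fintype.card (Fin n) := Nat.cast_nonneg _
    have h2 : (1 : ℝ) ≤ ((Fintype.card (Fin n) : ℝ) + 2) ^ 2 := by nlinarith
    exact one_le_mul_of_one_le_of_one_le h2 (one_le_pow₀ hC)

theorem red_exists (ι : Type) [Fintype ι] [DecidableEq ι] :
    ∃ C : ℝ, 1 ≤ C ∧ ∀ x : PX ι, ∃ γ : GL ι ℤ, Red C (γ⁻¹ • x) := by
  obtain ⟨C, hC, h⟩ := rede_all (Fintype.card ι)
  refine ⟨C, hC, fun x => ?_⟩
  obtain ⟨A, B, hAB, hR⟩ := rede_equiv (Fintype.equivFin ι) h x.1 x.2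
  refine ⟨(⟨A, B, hAB, mul_eq_one_comm.1 hAB⟩ : GL ι ℤ)⁻¹, ?_⟩
  rw [inv_inv]
  exact hR

end

end Pool.Agent.Lib.MP_446a91_nt.Rk
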