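import Pool.Agent.Lib.MP_446a91_nt.Rk.Qf2

/-!
Finiteness and stability of reduced bases, Mahler compactness.
-/

namespace Pool.Agent.Lib.MP_446a91_nt.Rk

open Matrix Filter Topology Pool.Agent.Lib.MP_446a91_nt.Sou

set_option linter.unusedSectionVars false

noncomputable section

variable {ι : Type} [Fintype ι] [DecidableEq ι]


theorem Red.mono {C C' : ℝ} {x : PX ι} (h : Red C x) (hC : C ≤ C') : Red C' x := fun i =>
  ⟨(h i).1.trans hC, fun j =>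
    ⟨((h i).2 j).1.trans (mul_le_mul_of_nonneg_right hC (x.2.diag_pos i).le),
      ((h i).2 j).2.trans (mul_le_mul_of_nonneg_right hC (x.2.inv.diag_pos i).le)⟩⟩

theorem redf_inv (g : GL ι ℝ) (x : PX ι) :
    (g • x).1⁻¹ = cj ((g⁻¹ : GL ι ℝ) : Matrix ι ι ℝ)ᵀ x.1⁻¹ := cj_inv g x.2

theorem redf_P (γ : GL ι ℤ) (x : PX ι) (i : ι) :
    (γ⁻¹ • x).1 i i = qf x.1 fun k => (((γ⁻¹ : GL ι ℤ) i k : ℤ) : ℝ) :=
  cj_diag (cR γ⁻¹ : Matrix ι ι ℝ) x.1 i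

theorem redf_Q (γ : GL ι ℤ) (x : PX ι) (j : ι) :
    (γ⁻¹ • x).1⁻¹ j j = qf x.1⁻¹ fun k => ((γ k j : ℤ) : ℝ) := by
  rw [zsmul_def, redf_inv, map_inv, inv_inv, cj_diag]
  rfl

theorem redf_row (γ : GL ι ℤ) (i : ι) : (fun k => γ i k) ≠ 0 := fun h => by
  have h1 := congrFun (congrFun γ.mul_inv i) i
  rw [Matrix.mul_apply, Matrix.one_apply_eq,
    Finset.sum_eq_zero fun k _ => by rw [show γ.1 i k = 0 from congrFun h k, zero_mul]] at h1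
  exact zero_ne_one h1

theorem redf_col (γ : GL ι ℤ) (j : ι) : (fun k => γ k j) ≠ 0 := fun h => by
  have h1 := congrFun (congrFun γ.inv_mul j) j
  rw [Matrix.mul_apply, Matrix.one_apply_eq,
    Finset.sum_eq_zero fun k _ => by rw [show γ.1 k j = 0 from congrFun h k, mul_zero]] at h1
  exact zero_ne_one h1

theorem redf_sq (v : ι → ℝ) (i : ι) : v i ^ 2 ≤ v ⬝ᵥ v := by
  rw [sq]
  exact Finset.single_le_sum (f := fun j => v j * v j) (fun j _ => mul_self_nonneg _)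
    (Finset.mem_univ i)

theorem redf_one_le {v : ι → ℤ} (hv : v ≠ 0) :
    (1 : ℝ) ≤ (fun i => (v i : ℝ)) ⬝ᵥ fun i => (v i : ℝ) := by
  obtain ⟨i, hi⟩ := Function.ne_iff.1 hv
  refine le_trans ?_ (redf_sq _ i)
  have h1 : 1 ≤ v i ^ 2 := Int.add_one_le_of_lt (sq_pos_of_ne_zero hi)
  exact_mod_cast h1

theorem redf_bound {C : ℝ} {γ : GL ι ℤ} {x : PX ι} (h : Red C x) (h' : Red C (γ⁻¹ • x)) (i j : ι) :
    |(((γ⁻¹ : GL ι ℤ) j i : ℤ) : ℝ)| ≤ (Fintype.card ι : ℝ) ^ 2 * C ^ 4 := by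
  obtain ⟨y, hy⟩ : ∃ y, y = γ⁻¹ • x := ⟨_, rfl⟩
  have hx : x.1 = cj (cR γ : Matrix ι ι ℝ) y.1 := by
    rw [← smul_val, ← zsmul_def, hy, smul_inv_smul]
  rw [← hy] at h'
  have hC : 0 ≤ C := (mul_pos (x.2.diag_pos i) (x.2.inv.diag_pos i)).le.trans (h i).1
  have e : (cR γ⁻¹ : Matrix ι ι ℝ)ᵀ = x.1⁻¹ * ((cR γ : Matrix ι ι ℝ) * y.1) := by
    have e1 : x.1 * (cR γ⁻¹ : Matrix ι ι ℝ)ᵀ = (cR γ : Matrix ι ι ℝ) * y.1 := by
      rw [hx, cj_apply, Matrix.mul_assoc, ← Matrix.transpose_mul, ← Units.val_mul, ← map_mul,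
        inv_mul_cancel, map_one, Units.val_one, Matrix.transpose_one, Matrix.mul_one]
    rw [← e1, Matrix.nonsing_inv_mul_cancel_left _ _ x.2.isUnit_det]
  have h1 : ∀ k l, |(cR γ : Matrix ι ι ℝ) k l * y.1 l j| ≤ C ^ 2 * x.1 k k := fun k l => by
    have e1 := y.2.cs_dual ((cR γ : Matrix ι ι ℝ) k) (Pi.single l 1)
    rw [qf_single, ← cj_diag, ← hx, dotProduct_single, mul_one] at e1
    have e2 : |(cR γ : Matrix ι ι ℝ) k l| ≤ (cR γ : Matrix ι ι ℝ) k l ^ 2 := by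
      have e3 : |γ.1 k l| ≤ γ.1 k l ^ 2 := by
        rw [← sq_abs]
        exact Int.le_self_sq _
      change |((γ.1 k l : ℤ) : ℝ)| ≤ ((γ.1 k l : ℤ) : ℝ) ^ 2
      exact_mod_cast e3
    have e4 := mul_le_mul (e2.trans e1) ((h' l).2 j).1 (abs_nonneg _)
      (mul_pos (x.2.diag_pos k) (y.2.inv.diag_pos l)).le
    have e5 := mul_le_mul_of_nonneg_left (h' l).1 (mul_nonneg hC (x.2.diag_pos k).le)
    rw [abs_mul]
    linarith
  have h2 : ∀ k, |x.1⁻¹ i k * ((cR γ : Matrix ι ι ℝ) * y.1) k j| ≤ Fintype.card ι * C ^ 4 :=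
    fun k => by
      have e1 : |((cR γ : Matrix ι ι ℝ) * y.1) k j| ≤ Fintype.card ι * (C ^ 2 * x.1 k k) := by
        rw [Matrix.mul_apply]
        refine (Finset.abs_sum_le_sum_abs _ _).trans ((Finset.sum_le_sum fun l _ => h1 k l).trans ?_)
        simp
      have e2 : |x.1⁻¹ i k| ≤ C * x.1⁻¹ k k := by
        rw [show x.1⁻¹ i k = x.1⁻¹ k i from congrFun (congrFun x.2.inv.1 k) i]
        exact ((h k).2 i).2
      have e3 := mul_le_mul e2 e1 (abs_nonneg _) (mul_nonneg hC (x.2.inv.diag_pos k).le)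
      have e4 := mul_le_mul_of_nonneg_left (h k).1
        (show (0 : ℝ) ≤ Fintype.card ι * C ^ 3 by positivity)
      rw [abs_mul]
      linarith
  change |(cR γ⁻¹ : Matrix ι ι ℝ)ᵀ i j| ≤ _
  rw [e, Matrix.mul_apply]
  refine (Finset.abs_sum_le_sum_abs _ _).trans ((Finset.sum_le_sum fun k _ => h2 k).trans_eq ?_)
  rw [Finset.sum_const, Finset.card_univ, nsmul_eq_mul]
  ring

/-- `P = x`, `P' = γ⁻¹ • x`, `m = γ⁻¹`, `P mᵀ = γ P'`. `γ k l ^ 2 ≤ Q' l l * P k k` (`cs_dual`), so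
`|γ k l * P' l j| ≤ γ k l ^ 2 * C * P' l l ≤ C^2 P k k`, and `mᵀ = Q (γ P')` has entries at most
`N^2 C^4`. -/
theorem red_finite (C : ℝ) : {γ : GL ι ℤ | ∃ x : PX ι, Red C x ∧ Red C (γ⁻¹ • x)}.Finite := by
  refine ((finite_ent ((Fintype.card ι : ℝ) ^ 2 * C ^ 4) 1).preimage
    (f := fun γ : GL ι ℤ => γ⁻¹) inv_injective.injOn).subset ?_
  rintro γ ⟨x, h, h'⟩ i j
  rw [inv_one, one_mul]
  exact redf_bound h h' j i

theorem redf_step {P P' : Matrix ι ι ℝ} (hP : Pos P) (hP' : Pos P') {η C : ℝ} (hC : 1 ≤ C)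
    (h1 : η ≤ 1 / 2) (h : ∀ v, |qf (P' - P) v| ≤ η * qf P v) {i j : ι}
    (h2 : η * P j j ≤ C * P i i) (h3 : |P i j| ≤ C * P i i) :
    |P' i j| ≤ 4 * C * P' i i ∧ P' i i ≤ 2 * P i i := by
  have e1 := abs_entry_le (by rw [transpose_sub, hP.1, hP'.1]) h i j
  have e2 := abs_le.1 (h (Pi.single i 1))
  rw [qf_single, qf_single, Matrix.sub_apply] at e2
  have e3 := abs_sub_abs_le_abs_sub (P' i j) (P i j)
  have e4 := hP.diag_pos i
  have e5 := mul_le_mul_of_nonneg_right h1 e4.le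
  have e6 := mul_le_mul_of_nonneg_right hC e4.le
  have e7 : C * P i i ≤ C * (2 * P' i i) :=
    mul_le_mul_of_nonneg_left (by linarith [e2.1]) (by linarith)
  rw [Matrix.sub_apply] at e1
  exact ⟨by linarith, by linarith [e2.2]⟩

theorem redf_invE {P P' : Matrix ι ι ℝ} (hP : Pos P) (hP' : Pos P') {η : ℝ} (h0 : 0 ≤ η)
    (h1 : η ≤ 1 / 2) (h : ∀ v, |qf (P' - P) v| ≤ η * qf P v) (v : ι → ℝ) :
    |qf (P'⁻¹ - P⁻¹) v| ≤ 2 * η * qf P⁻¹ v := by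
  have e1 := qf_inv_le hP hP' (c := 1 + 2 * η) (by linarith) (fun w => by
    have t1 := (abs_le.1 (h w)).1
    rw [qf_sub] at t1
    have t2 := mul_le_mul_of_nonneg_left (show (1 - η) * qf P w ≤ qf P' w by linarith)
      (show 0 ≤ 1 + 2 * η by linarith)
    have t3 := mul_nonneg (mul_nonneg h0 (show 0 ≤ 1 - 2 * η by linarith)) (hP.nonneg w)
    linarith) v
  have e2 := qf_inv_le hP' hP (c := 1 + η) (by linarith) (fun w => by
    have t1 := (abs_le.1 (h w)).2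
    rw [qf_sub] at t1
    linarith) v
  have e3 := mul_le_mul_of_nonneg_left e2 (show 0 ≤ 1 - η by linarith)
  have e4 := mul_nonneg (mul_nonneg h0 h0) (hP'.inv.nonneg v)
  have e5 := mul_nonneg h0 (hP.inv.nonneg v)
  rw [qf_sub]
  exact abs_le.2 ⟨by linarith, by linarith⟩

theorem redf_num {B C a b c : ℝ} (hB : 1 ≤ B) (hC : 1 ≤ C) (ha : 0 < a) (h : a * b ≤ C)
    (hb : 1 ≤ B * b) (hc : 1 ≤ B * c) : 2 * (1 / 4 / B ^ 3) * a ≤ C * c := by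
  have h0 : 0 < B := by linarith
  have e1 := mul_le_mul_of_nonneg_left hb ha.le
  have e2 := mul_le_mul_of_nonneg_left h h0.le
  have e3 := mul_le_mul_of_nonneg_left hc (show 0 ≤ B * C by positivity)
  have e4 : 0 ≤ B ^ 2 * (C * c) := by linarith
  have e5 := mul_le_mul_of_nonneg_right hB e4
  rw [← mul_div_assoc, div_mul_eq_mul_div, div_le_iff₀ (by positivity)]
  linarith

/-- `η = ε / B^3`: `|qf (y - x)| ≤ η qf x`, the same for the inverses with `2 η` (`qf_inv_le`);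
`abs_entry_le`, and `P j j ≤ C / Q j j ≤ C B ≤ C B^2 P i i` (rows of `γ⁻¹` and columns of `γ` are
nonzero integral vectors). -/
theorem red_stable {C : ℝ} (hC : 1 ≤ C) : ∃ ε C' : ℝ, 0 < ε ∧ C ≤ C' ∧ ∀ (B : ℝ) (x y : PX ι)
    (γ : GL ι ℤ), 1 ≤ B → Box B x → Box B y → Near (ε / B ^ 4) x y → Red C (γ⁻¹ • x) →
      Red C' (γ⁻¹ • y) := by
  refine ⟨1 / 4, 4 * C, by norm_num, by linarith, fun B x y γ hB hx _ hn h i => ?_⟩
  have h0 : 0 < B := by linarith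
  have h1 : 1 / 4 / B ^ 3 ≤ 1 / 4 := div_le_self (by norm_num) (one_le_pow₀ hB)
  have h2 : 0 ≤ 1 / 4 / B ^ 3 := by positivity
  have h3 : ∀ v, |qf ((γ⁻¹ • y).1 - (γ⁻¹ • x).1) v| ≤ 1 / 4 / B ^ 3 * qf (γ⁻¹ • x).1 v := fun v => by
    rw [qf_sub, zsmul_def, zsmul_def, smul_val, smul_val, qf_cj, qf_cj, abs_sub_comm]
    refine ((hn _).trans (mul_le_mul_of_nonneg_left (hx _).1 (by positivity))).trans_eq ?_
    field_simp
  have h4 := redf_invE (γ⁻¹ • x).2 (γ⁻¹ • y).2 h2 (by linarith) h3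
  have h5 : ∀ k, 1 ≤ B * (γ⁻¹ • x).1 k k := fun k => by
    rw [redf_P]
    exact (redf_one_le (redf_row γ⁻¹ k)).trans (hx _).1
  have h6 : ∀ k, 1 ≤ B * (γ⁻¹ • x).1⁻¹ k k := fun k => by
    rw [redf_Q]
    exact (redf_one_le (redf_col γ k)).trans (hx.inv h0.le _).1
  have h7 := fun j => redf_step (γ⁻¹ • x).2 (γ⁻¹ • y).2 hC (η := 2 * (1 / 4 / B ^ 3)) (by linarith)
    (fun v => (h3 v).trans (mul_le_mul_of_nonneg_right (by linarith) ((γ⁻¹ • x).2.nonneg v)))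
    (redf_num hB hC ((γ⁻¹ • x).2.diag_pos j) (h j).1 (h6 j) (h5 i)) ((h i).2 j).1
  have h8 := fun j => redf_step (γ⁻¹ • x).2.inv (γ⁻¹ • y).2.inv hC (by linarith) h4
    (redf_num hB hC ((γ⁻¹ • x).2.inv.diag_pos j) ((mul_comm _ _).trans_le (h j).1) (h5 j) (h6 i))
    ((h i).2 j).2
  refine ⟨?_, fun j => ⟨(h7 j).1, (h8 j).1⟩⟩
  have h9 := mul_le_mul (h7 i).2 (h8 i).2 ((γ⁻¹ • y).2.inv.diag_pos i).le
    (mul_pos two_pos ((γ⁻¹ • x).2.diag_pos i)).le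
  linarith [(h i).1]

/-- `P i i ≤ C / β`, `Q i i ≤ C / α`; take `k = α^(-1/2) γ⁻¹ g`. -/
theorem mahler {C : ℝ} (hC : 1 ≤ C) (hx : ∀ x : PX ι, ∃ γ : GL ι ℤ, Red C (γ⁻¹ • x)) {h : ℝ}
    (hh : 1 ≤ h) (g : GL ι ℝ) (H : Ht h (g • (x1 : PX ι))) :
    ∃ s ∈ (Sg : Subgroup (GL ι ℝ)), ∃ k ∈ Kb (C * h), g = s * k := by
  obtain ⟨α, β, hα, hβ, h1, h2⟩ := H
  obtain ⟨γ, hγ⟩ := hx (g • x1)
  obtain ⟨a, ha, rfl⟩ : ∃ a : ℝ, 0 < a ∧ a ^ 2 = α := ⟨√α, Real.sqrt_pos.2 hα, Real.sq_sqrt hα.le⟩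
  obtain ⟨u, hu⟩ : ∃ u, u = cR γ⁻¹ * g := ⟨_, rfl⟩
  have e : γ⁻¹ • g • (x1 : PX ι) = u • x1 := by rw [hu, mul_smul, zsmul_def]
  have hP : ∀ i, a ^ 2 ≤ (u • (x1 : PX ι)).1 i i := fun i => by
    rw [← e, redf_P]
    exact (h2 _ (redf_row γ⁻¹ i)).1
  have hQ : ∀ i, β ≤ (u • (x1 : PX ι)).1⁻¹ i i := fun i => by
    rw [← e, redf_Q]
    exact (h2 _ (redf_col γ i)).2
  rw [e] at hγ
  have hCh : 1 ≤ C * h := one_le_mul_of_one_le_of_one_le hC hh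
  have hCh2 : C * h ≤ (C * h) ^ 2 := le_self_pow₀ hCh two_ne_zero
  refine ⟨cR γ * Matrix.GeneralLinearGroup.scalar ι (Units.mk0 a ha.ne'),
    mul_mem (Subgroup.mem_sup_left ⟨γ, rfl⟩) (Subgroup.mem_sup_right ⟨_, rfl⟩),
    Matrix.GeneralLinearGroup.scalar ι (Units.mk0 a ha.ne')⁻¹ * u, fun i j => ⟨?_, ?_⟩, ?_⟩
  · have e1 : u i j ^ 2 ≤ (u • (x1 : PX ι)).1 i i := by
      rw [smul_val, cj_diag]
      exact (redf_sq _ j).trans_eq (qf_one _).symm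
    have e2 := mul_le_mul_of_nonneg_left (hQ i) ((u • (x1 : PX ι)).2.diag_pos i).le
    have e3 := mul_le_mul_of_nonneg_right e1 hβ.le
    have e4 := mul_le_mul_of_nonneg_left h1 (sq_nonneg (u i j))
    have e5 := mul_le_mul_of_nonneg_left (e3.trans (e2.trans (hγ i).1))
      (show 0 ≤ h * a ^ 2 by positivity)
    refine abs_le_of_sq_le_sq' (le_trans ?_ hCh2) (by linarith) |> abs_le.2
    have e6 : (Matrix.GeneralLinearGroup.scalar ι (Units.mk0 a ha.ne')⁻¹ * u) i j =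
        a⁻¹ * u i j := by
      rw [Units.val_mul, Matrix.GeneralLinearGroup.coe_scalar, Matrix.scalar_apply,
        Matrix.diagonal_mul]
      rfl
    rw [e6, mul_pow, inv_pow, inv_mul_le_iff₀ (by positivity)]
    linarith
  · have e1 : (u⁻¹ : GL ι ℝ) i j ^ 2 ≤ (u • (x1 : PX ι)).1⁻¹ j j := by
      rw [redf_inv, cj_diag, show (x1 : PX ι).1⁻¹ = 1 from inv_one]
      exact (redf_sq (((u⁻¹ : GL ι ℝ) : Matrix ι ι ℝ)ᵀ j) i).trans_eq (qf_one _).symm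
    have e2 := mul_le_mul (hP j) e1 (sq_nonneg _) ((u • (x1 : PX ι)).2.diag_pos j).le
    have e3 : C ≤ C * h := le_mul_of_one_le_right (by linarith) hh
    refine abs_le_of_sq_le_sq' (le_trans ?_ hCh2) (by linarith) |> abs_le.2
    have e6 : (Matrix.GeneralLinearGroup.scalar ι (Units.mk0 a ha.ne')⁻¹ * u)⁻¹ i j =
        (u⁻¹ : GL ι ℝ) i j * a := by
      rw [_root_.mul_inv_rev, ← map_inv, inv_inv]
      simp
    rw [e6, mul_pow]
    linarith [(hγ j).1]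
  · rw [hu, map_inv, map_inv, mul_assoc, mul_inv_cancel_left, mul_inv_cancel_left]

end

end Pool.Agent.Lib.MP_446a91_nt.Rk
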