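import Pool.Agent.Lib.MP_446a91_nt.Rk.Sd
import Pool.Agent.Lib.MP_446a91_nt.Rk.Nm
import Pool.Agent.Lib.MP_446a91_nt.Rk.Qf2

/-!
Size and support of the edgewise subdivision.
`n1 (shW μ F W) ≤ choose (|F|+|W|-2) (|F|-1)` (Pascal), so `n1 (sdW μ l) ≤ 2^(|l|-1)`. A word of
`shW μ (a :: F) (b :: W)` starts with `μ a b`, and each step moves one argument to its successor.
-/

namespace Pool.Agent.Lib.MP_446a91_nt.Rk

open Matrix Filter Topology Pool.Agent.Lib.MP_446a91_nt.Sou

set_option linter.unusedSectionVars false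

noncomputable section

variable {A : Type} [CommRing A] {X : Type} {ι : Type} [Fintype ι] [DecidableEq ι]


theorem sds_n1 (μ : X → X → X) (n : ℕ) : ∀ (a b : X) (F W : List X), F.length + W.length = n →
    n1 (shW μ (a :: F) (b :: W) : Ch ℝ X) ≤ n.choose F.length := by
  induction n with
  | zero =>
    intro a b F W h
    obtain rfl : F = [] := List.eq_nil_of_length_eq_zero (by omega)
    obtain rfl : W = [] := List.eq_nil_of_length_eq_zero (by omega)
    simp [shW]
  | succ n ih =>
    intro a b F W h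
    rw [shW, if_neg (by omega), add_zero]
    refine (n1_cons_le _ _).trans ((n1_add_le _ _).trans ?_)
    rw [n1_smul, abs_pow, abs_neg, abs_one, one_pow, one_mul]
    rcases F with _ | ⟨a', F⟩ <;> rcases W with _ | ⟨b', W⟩
    · simp at h
    · simpa [shW.eq_1] using ih a b' [] W (by simpa using h)
    · have h' : F.length = n := by simpa using h
      simpa [shW.eq_2, h'] using ih a' b F [] (by simpa using h)
    · simp only [List.length_cons] at h ⊢
      have h1 := ih a' b F (b' :: W) (by simp only [List.length_cons]; omega)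
      have h2 := ih a b' (a' :: F) W (by simp only [List.length_cons]; omega)
      rw [Nat.choose_succ_succ, Nat.cast_add]
      exact add_le_add h1 h2

theorem n1_sdW (μ : X → X → X) (w : List X) : n1 (sdW μ w : Ch ℝ X) ≤ 2 ^ (w.length - 1) := by
  rcases w with _ | ⟨c, w⟩
  · simp [sdW]
  rw [sdW, if_neg (by simp), zero_add, List.length_cons, Nat.add_sub_cancel]
  refine (n1_sum_le _ _).trans ?_
  have h := Nat.sum_range_choose w.length
  have h' : (2 : ℝ) ^ w.length = ∑ p ∈ Finset.range (w.length + 1), (w.length.choose p : ℝ) := by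
    exact_mod_cast h.symm
  rw [h']
  refine Finset.sum_le_sum fun p hp => ?_
  have hp' := Finset.mem_range.1 hp
  have hl : ((c :: w).drop p).length = w.length - p + 1 := by
    rw [List.length_drop, List.length_cons]; omega
  obtain ⟨b, W, hW⟩ := List.exists_cons_of_length_eq_add_one hl
  have hl' : W.length = w.length - p := by simpa [hW] using hl
  have ht : (w.take p).length = p := by rw [List.length_take]; omega
  have := sds_n1 μ w.length c b (w.take p) W (by omega)
  rwa [ht, ← hW, ← List.take_succ_cons] at this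

theorem sds_len (μ : X → X → X) {n : ℕ} (k : ℕ) {c : Ch A X} (hc : c ∈ len A X n) :
    (sd A μ ^ k) c ∈ len A X n := by
  induction k with
  | zero => simpa using hc
  | succ k ih =>
    rw [pow_succ', Module.End.mul_apply]
    exact sp_map (sd A μ) _ (fun w hw => hw ▸ sd_len μ w) ih

theorem n1_sd_pow (μ : X → X → X) (d k : ℕ) {c : Ch ℝ X} (hc : c ∈ len ℝ X (d + 1)) :
    n1 ((sd ℝ μ ^ k) c) ≤ 2 ^ (d * k) * n1 c := by
  induction k with
  | zero => simp
  | succ k ih =>
    rw [pow_succ', Module.End.mul_apply]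
    refine (n1_map_le (B := 2 ^ d) (sd ℝ μ) (fun w hw => ?_) (sds_len μ k hc)).trans ?_
    · have := n1_sdW μ w
      rwa [hw, Nat.add_sub_cancel, ← lin_wd (A := ℝ) (sdW μ) w] at this
    · rw [mul_add, mul_one, pow_add, mul_comm (2 ^ (d * k)), mul_assoc]
      exact mul_le_mul_of_nonneg_left ih (by positivity)

theorem sds_mem (μ : X → X → X) (P : List X → List X → List X → Prop)
    (h0 : ∀ a b, P [a] [b] [μ a b])
    (h1 : ∀ a F b W u, P F (b :: W) u → P (a :: F) (b :: W) (μ a b :: u))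
    (h2 : ∀ a F b W u, P (a :: F) W u → P (a :: F) (b :: W) (μ a b :: u)) (F W : List X) :
    (shW μ F W : Ch A X) ∈ sp A (P F W) := by
  induction F, W using shW.induct with
  | case1 W => rw [shW]; exact zero_mem _
  | case2 a F => rw [shW]; exact zero_mem _
  | case3 a F b W ih1 ih2 =>
    rw [shW, map_add, map_add, map_smul]
    refine add_mem (add_mem ?_ (Submodule.smul_mem _ _ ?_)) ?_
    · refine sp_map (cons (μ a b)) (sp A (P (a :: F) (b :: W))) (fun u hu => ?_) ih1
      rw [cons_wd]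
      exact wd_mem (h1 a F b W u hu)
    · refine sp_map (cons (μ a b)) (sp A (P (a :: F) (b :: W))) (fun u hu => ?_) ih2
      rw [cons_wd]
      exact wd_mem (h2 a F b W u hu)
    · split_ifs with h
      · obtain rfl : F = [] := List.eq_nil_of_length_eq_zero (by omega)
        obtain rfl : W = [] := List.eq_nil_of_length_eq_zero (by omega)
        rw [cons_wd]
        exact wd_mem (h0 a b)
      · rw [map_zero]
        exact zero_mem _

theorem sds_sd (μ : X → X → X) (Q : List X → Prop) (h0 : Q []) (w : List X)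
    (h : ∀ p, (shW μ (w.take (p + 1)) (w.drop p) : Ch A X) ∈ sp A Q) :
    sd A μ (wd w) ∈ sp A Q := by
  rw [sd, lin_wd, sdW]
  refine add_mem ?_ (Submodule.sum_mem _ fun p _ => h p)
  split_ifs
  · exact wd_mem h0
  · exact zero_mem _

theorem sd_letters (μ : X → X → X) (w : List X) :
    sd A μ (wd w) ∈ sp A fun u => ∀ y ∈ u, ∃ a ∈ w, ∃ b ∈ w, y = μ a b := by
  refine sds_sd μ _ (by simp) w fun p => sp_mono (fun u hu y hy => ?_)
    (sds_mem μ (fun F W u => ∀ y ∈ u, ∃ a ∈ F, ∃ b ∈ W, y = μ a b) (by simp) ?_ ?_ _ _)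
  · obtain ⟨a, ha, b, hb, e⟩ := hu y hy
    exact ⟨a, List.mem_of_mem_take ha, b, List.mem_of_mem_drop hb, e⟩
  · intro a F b W u hu y hy
    rcases List.mem_cons.1 hy with rfl | hy
    · exact ⟨a, List.mem_cons_self, b, List.mem_cons_self, rfl⟩
    · obtain ⟨a', ha, b', hb, e⟩ := hu y hy
      exact ⟨a', List.mem_cons_of_mem _ ha, b', hb, e⟩
  · intro a F b W u hu y hy
    rcases List.mem_cons.1 hy with rfl | hy
    · exact ⟨a, List.mem_cons_self, b, List.mem_cons_self, rfl⟩
    · obtain ⟨a', ha, b', hb, e⟩ := hu y hy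
      exact ⟨a', ha, b', List.mem_cons_of_mem _ hb, e⟩

theorem sd_chain (μ : X → X → X) (R R' : X → X → Prop) (w : List X) (hw : List.IsChain R w)
    (h : ∀ a ∈ w, ∀ a' ∈ w, ∀ b ∈ w, R a a' → R' (μ a b) (μ a' b) ∧ R' (μ b a) (μ b a')) :
    sd A μ (wd w) ∈ sp A (List.IsChain R') := by
  refine sds_sd μ _ List.IsChain.nil w fun p => sp_mono (fun u hu => ?_)
    (sds_mem μ (fun F W u => ∃ a F' b W' u', F = a :: F' ∧ W = b :: W' ∧ u = μ a b :: u' ∧
      (List.IsChain R F → List.IsChain R W → (∀ x ∈ F, x ∈ w) → (∀ x ∈ W, x ∈ w) →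
        List.IsChain R' u)) (fun a b => ?_) ?_ ?_ _ _)
  · obtain ⟨a, F, b, W, u', -, -, -, H⟩ := hu
    exact H (hw.take _) (hw.drop _) (fun x => List.mem_of_mem_take) fun x => List.mem_of_mem_drop
  · exact ⟨a, [], b, [], [], rfl, rfl, rfl, fun _ _ _ _ => List.IsChain.singleton _⟩
  · rintro a F b W u ⟨a', F, b', W', u, rfl, e, rfl, H⟩
    obtain ⟨rfl, rfl⟩ := List.cons.inj e
    refine ⟨a, _, b, _, _, rfl, rfl, rfl, fun c1 c2 m1 m2 => ?_⟩
    rw [List.isChain_cons_cons] at c1 ⊢
    exact ⟨(h a (m1 _ (by simp)) a' (m1 _ (by simp)) b (m2 _ (by simp)) c1.1).1,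
      H c1.2 c2 (fun x hx => m1 x (List.mem_cons_of_mem _ hx)) m2⟩
  · rintro a F b W u ⟨a', F', b', W, u, e, rfl, rfl, H⟩
    obtain ⟨rfl, rfl⟩ := List.cons.inj e
    refine ⟨a, _, b, _, _, rfl, rfl, rfl, fun c1 c2 m1 m2 => ?_⟩
    rw [List.isChain_cons_cons] at c2 ⊢
    exact ⟨(h b (m2 _ (by simp)) b' (m2 _ (by simp)) a (m1 _ (by simp)) c2.1).2,
      H c1 c2.2 m1 fun x hx => m2 x (List.mem_cons_of_mem _ hx)⟩

theorem sds_head (p : X → PX ι) {δ : ℝ} (hδ : 0 ≤ δ) (u : List X) : ∀ a : X,
    List.IsChain (fun a b => Near δ (p a) (p b)) (a :: u) →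
      ∀ y ∈ a :: u, Near (u.length * δ) (p a) (p y) := by
  induction u with
  | nil =>
    intro a _ y hy
    rw [List.mem_singleton.1 hy]
    exact Near.refl (by positivity) _
  | cons b u ih =>
    intro a h y hy
    rw [List.isChain_cons_cons] at h
    rcases List.mem_cons.1 hy with rfl | hy
    · exact Near.refl (by positivity) _
    · exact (h.1.trans (ih b h.2 y hy)).mono (by simp [add_mul, add_comm])

theorem sds_near (p : X → PX ι) {δ : ℝ} (hδ : 0 ≤ δ) (u : List X)
    (h : List.IsChain (fun a b => Near δ (p a) (p b)) u) :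
    ∀ x ∈ u, ∀ y ∈ u, Near (u.length * δ) (p x) (p y) := by
  induction u with
  | nil => simp
  | cons a u ih =>
    have hle : (u.length : ℝ) * δ ≤ ((a :: u).length : ℝ) * δ := by simp [add_mul, hδ]
    intro x hx y hy
    rcases List.mem_cons.1 hx with rfl | hx'
    · exact (sds_head p hδ u _ h y hy).mono hle
    · rcases List.mem_cons.1 hy with rfl | hy'
      · exact (sds_head p hδ u _ h x hx).symm.mono hle
      · exact (ih h.tail x hx' y hy').mono hle

/-- After `k` steps consecutive letters are at distance `B / 2^k`; sum along the word. -/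
theorem sd_pow_fine (μ : X → X → X) (p : X → PX ι) (hp : ∀ a b, p (μ a b) = mid (p a) (p b))
    {B : ℝ} (hB : 0 ≤ B) (w : List X) (hw : ∀ a ∈ w, Box B (p a)) (k : ℕ) :
    (sd A μ ^ k) (wd w) ∈ sp A fun u => u.length = w.length ∧
      Fine B (w.length * B / 2 ^ k) (u.map p) := by
  have key : (sd A μ ^ k) (wd w) ∈ sp A fun u => u.length = w.length ∧ (∀ a ∈ u, Box B (p a)) ∧
      List.IsChain (fun a b => Near (B / 2 ^ k) (p a) (p b)) u := by
    induction k with
    | zero =>
      refine wd_mem ⟨rfl, hw, List.Pairwise.isChain (List.pairwise_of_forall_mem_list ?_)⟩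
      intro a ha b hb
      simpa using (hw a ha).near (hw b hb)
    | succ k ih =>
      rw [pow_succ' (sd A μ), Module.End.mul_apply]
      refine sp_map (sd A μ) _ (fun u hu => mem_sp_and (hu.1 ▸ sd_len μ u) (mem_sp_and
        (sp_mono (fun v hv y hy => ?_) (sd_letters μ u))
        (sd_chain μ _ _ u hu.2.2 fun a _ a' _ b _ h => ?_))) ih
      · obtain ⟨a, ha, b, hb, rfl⟩ := hv y hy
        rw [hp]
        exact (hu.2.1 a ha).mid (hu.2.1 b hb)
      · simp only [hp]
        exact ⟨(h.mid (Near.refl le_rfl (p b))).mono (le_of_eq (by ring)),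
          ((Near.refl le_rfl (p b)).mid h).mono (le_of_eq (by ring))⟩
  refine sp_mono (fun u hu => ⟨hu.1, fun x hx => ?_⟩) key
  obtain ⟨a, ha, rfl⟩ := List.mem_map.1 hx
  refine ⟨hu.2.1 a ha, fun y hy => ?_⟩
  obtain ⟨b, hb, rfl⟩ := List.mem_map.1 hy
  have := sds_near p (by positivity) u hu.2.2 a ha b hb
  rwa [hu.1, ← mul_div_assoc] at this

theorem exists_fine {n : ℕ} {z : Ch ℝ (PX ι)} (hz : z ∈ len ℝ (PX ι) n) :
    ∃ B : ℝ, 1 ≤ B ∧ ∀ k : ℕ, (sd ℝ mid ^ k) z ∈ sp ℝ fun u => u.length = n ∧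
      Fine B (n * B / 2 ^ k) u := by
  choose f h1 hf using fun x : PX ι => exists_box x
  have hfin : {x : PX ι | ∃ w ∈ z.support, x ∈ w}.Finite := by
    have := (z.support.finite_toSet).biUnion fun w _ => List.finite_toSet w
    exact this.subset fun x ⟨w, hw, hx⟩ => Set.mem_biUnion hw hx
  obtain ⟨B, hB⟩ := (hfin.image f).bddAbove
  refine ⟨max 1 B, le_max_left _ _, fun k => ?_⟩
  refine sp_map (P := fun w => w.length = n ∧ w ∈ z.support) _ _ (fun w hw => ?_)
    (mem_sp_and hz (mem_sp_iff.2 fun w hw => hw))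
  have := sd_pow_fine (A := ℝ) mid id (fun _ _ => rfl) (B := max 1 B) (by positivity) w
    (fun a ha => (hf a).mono ((hB ⟨a, ⟨w, hw.2, ha⟩, rfl⟩).trans (le_max_right _ _))) k
  simpa only [hw.1, List.map_id] using this

end

end Pool.Agent.Lib.MP_446a91_nt.Rk
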