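import Pool.Agent.Lib.MP_446a91_nt.Rk.Vary
import Pool.Agent.Lib.MP_446a91_nt.Rk.SdS
import Pool.Agent.Lib.MP_446a91_nt.Rk.RedE
import Pool.Agent.Lib.MP_446a91_nt.Rk.RedF

/-!
A chain map into bounded words, of polynomial norm.
`Y = Γ × PX`, `μ (g,x) (g',x') = (g, mid x x')`, `j γ = (γ, γ • x1)`, `ρ (g,x) = g * ρ₀ (g⁻¹ • x)` with
`ρ₀` from `red_exists`; `S` = the finite set of `red_finite C'`. `b w` = the largest absolute value of
an entry of `a⁻¹ * b` (`a, b ∈ w`), `B' = ((N+1) * (b w + 1))^2`, `m w` = least `m` with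
`|w| * B'^5 ≤ ε * 2^m` (monotone, invariant). `Ψ = mp ρ ∘ vary j (sd μ) (ht id (1 - sd μ)) m`.
Call a word of `Y` small if a translate is `Fine B (ε / B^4)` for some `1 ≤ B`. For `k ≥ m w` translate
by the first letter, `box_of_kb`, `sd_pow_fine`; `ht_supp` with `T w y = y ∈ w ∨ y = μ a b` keeps
`Fine`; `mp ρ` of a small word satisfies `Sm S` by `red_stable`. Norm: `vary_n1`, `n1_sd_pow`,
`ht_n1`, geometric sum, `2^m ≤ 1 + 2 |w| B'^5 / ε`.
-/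

namespace Pool.Agent.Lib.MP_446a91_nt.Rk

open Matrix Filter Topology Pool.Agent.Lib.MP_446a91_nt.Sou

set_option linter.unusedSectionVars false

noncomputable section

variable {ι : Type} [Fintype ι] [DecidableEq ι]


/-- The pairing of the letters. -/
def psi_mu (a b : GL ι ℤ × PX ι) : GL ι ℤ × PX ι := (a.1, mid a.2 b.2)

/-- The section over the standard form. -/
def psi_j (γ : GL ι ℤ) : GL ι ℤ × PX ι := (γ, γ • x1)

/-- A translate of the word is fine. -/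
def psi_sml (ε : ℝ) (u : List (GL ι ℤ × PX ι)) : Prop :=
  ∃ (g : GL ι ℤ) (B : ℝ), 1 ≤ B ∧ Fine B (ε / B ^ 4) (u.map fun y => g • y.2)

/-- The depth `m` is enough for the word `w`. -/
def psi_Q (ε : ℝ) (w : List (GL ι ℤ)) (m : ℕ) : Prop :=
  ∃ β : ℝ, 1 ≤ β ∧ (∀ a ∈ w, ∀ b ∈ w, Ent β a b) ∧
    w.length * ((Fintype.card ι + 1) * β) ^ 10 ≤ ε * 2 ^ m

theorem psi_mid (g : GL ι ℤ) (x y : PX ι) : g • mid x y = mid (g • x) (g • y) := smul_mid _ x y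

theorem psi_ex {ε : ℝ} (hε : 0 < ε) (w : List (GL ι ℤ)) : ∃ m, psi_Q ε w m := by
  obtain ⟨β, hβ⟩ := (((w.finite_toSet.prod w.finite_toSet).prod
    (Set.finite_univ (α := ι × ι))).image
      fun p => |(((p.1.1⁻¹ * p.1.2 : GL ι ℤ) p.2.1 p.2.2 : ℤ) : ℝ)|).bddAbove
  obtain ⟨m, hm⟩ := pow_unbounded_of_one_lt
    (w.length * ((Fintype.card ι + 1) * max β 1) ^ 10 / ε) (one_lt_two (α := ℝ))
  refine ⟨m, max β 1, le_max_right _ _, fun a ha b hb i j => le_trans ?_ (le_max_left _ _), ?_⟩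
  · exact hβ ⟨((a, b), (i, j)), ⟨⟨ha, hb⟩, trivial⟩, rfl⟩
  · rw [div_lt_iff₀ hε] at hm
    linarith

theorem psi_Q_sub {ε : ℝ} {u w : List (GL ι ℤ)} (h : List.Sublist u w) {m : ℕ}
    (hw : psi_Q ε w m) : psi_Q ε u m := by
  obtain ⟨β, h1, h2, h3⟩ := hw
  refine ⟨β, h1, fun a ha b hb => h2 a (h.subset ha) b (h.subset hb), le_trans ?_ h3⟩
  have : (u.length : ℝ) ≤ w.length := by exact_mod_cast h.length_le
  gcongr

theorem psi_Q_smul {ε : ℝ} (g : GL ι ℤ) (w : List (GL ι ℤ)) (m : ℕ) :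
    psi_Q ε (w.map (g • ·)) m ↔ psi_Q ε w m := by
  have e : ∀ (β : ℝ) (a b : GL ι ℤ), Ent β (g • a) (g • b) ↔ Ent β a b := fun β a b => by
    have : (g • a)⁻¹ * (g • b) = a⁻¹ * b := by simp [mul_assoc]
    rw [Ent, this, Ent]
  simp only [psi_Q, List.forall_mem_map, List.length_map, e]

theorem psi_box {β : ℝ} (h0 : 1 ≤ β) {a b : GL ι ℤ} (h : Ent β a b) (h' : Ent β b a) :
    Box (((Fintype.card ι + 1) * β) ^ 2) (a⁻¹ • b • (x1 : PX ι)) := by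
  rw [← mul_smul, zsmul_def]
  refine (box_of_kb (B := β) fun i j => ⟨h i j, ?_⟩).mono ?_
  · rw [← map_inv, _root_.mul_inv_rev, inv_inv]
    exact h' i j
  · gcongr
    linarith

theorem psi_fine {A : Type} [CommRing A] {ε : ℝ} (hε : 0 < ε) {w : List (GL ι ℤ)} {m k : ℕ}
    (h : psi_Q ε w m) (hk : m ≤ k) :
    (sd A psi_mu ^ k) (wd (w.map psi_j)) ∈ sp A (psi_sml ε) := by
  obtain ⟨β, h1, h2, h3⟩ := h
  obtain ⟨t, ht⟩ : ∃ t : ℝ, t = (Fintype.card ι + 1) * β := ⟨_, rfl⟩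
  have t1 : 1 ≤ t := by
    rw [ht]
    exact one_le_mul_of_one_le_of_one_le (by simp) h1
  obtain ⟨g, hg⟩ : ∃ g : GL ι ℤ, ∀ b ∈ w, Box (t ^ 2) (g • b • (x1 : PX ι)) := by
    cases w with
    | nil => exact ⟨1, by simp⟩
    | cons a w =>
      exact ⟨a⁻¹, fun b hb => ht ▸ psi_box h1 (h2 a (by simp) b hb) (h2 b hb a (by simp))⟩
  have hb : ∀ a ∈ w.map psi_j, Box (t ^ 2) (g • a.2) := fun a ha => by
    obtain ⟨b, hb, rfl⟩ := List.mem_map.1 ha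
    exact hg b hb
  have h0 := sd_pow_fine (A := A) psi_mu (fun y => g • y.2) (fun a b => psi_mid g _ _)
    (sq_nonneg t) _ hb k
  refine sp_mono (fun u hu => ?_) h0
  refine ⟨g, t ^ 2, one_le_pow₀ t1, fun x hx => ⟨(hu.2 x hx).1, fun y hy =>
    ((hu.2 x hx).2 y hy).mono ?_⟩⟩
  have h4 : (2 : ℝ) ^ m ≤ 2 ^ k := pow_le_pow_right₀ one_le_two hk
  rw [← ht] at h3
  rw [List.length_map, div_le_div_iff₀ (by positivity) (by positivity)]
  calc (w.length : ℝ) * t ^ 2 * (t ^ 2) ^ 4 = w.length * t ^ 10 := by ring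
    _ ≤ ε * 2 ^ k := h3.trans (by gcongr)

theorem psi_ht {A : Type} [CommRing A] {ε : ℝ} {c : Ch A (GL ι ℤ × PX ι)}
    (hc : c ∈ sp A (psi_sml ε)) :
    ht id (LinearMap.id - sd A psi_mu) c ∈ sp A (psi_sml ε) := by
  refine sp_map _ _ (fun w ⟨g, B, h1, h2⟩ => sp_mono (fun u hu => ⟨g, B, h1, ?_⟩)
    (ht_supp id (fun w y => ∃ a ∈ w, ∃ b ∈ w, y.2 = mid a.2 b.2)
      (fun u w h y ⟨a, ha, b, hb, e⟩ => ⟨a, h.subset ha, b, h.subset hb, e⟩)
      (fun a w => ⟨a, by simp, a, by simp, (mid_self _).symm⟩) (fun w => ?_) w)) hc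
  · rw [LinearMap.sub_apply, LinearMap.id_apply]
    refine sub_mem (wd_mem fun y hy => ⟨y, hy, y, hy, (mid_self _).symm⟩)
      (sp_mono (fun u hu y hy => ?_) (sd_letters psi_mu w))
    obtain ⟨a, ha, b, hb, e⟩ := hu y hy
    exact ⟨a, ha, b, hb, congrArg Prod.snd e⟩
  · simp only [Fine, List.forall_mem_map] at h2 ⊢
    intro y hy
    obtain ⟨a, ha, b, hb, e⟩ := hu y hy
    rw [e, psi_mid]
    refine ⟨(h2 a ha).1.mid (h2 b hb).1, fun y' hy' => ?_⟩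
    obtain ⟨a', ha', b', hb', e'⟩ := hu y' hy'
    rw [e', psi_mid]
    exact (((h2 a ha).2 a' ha').mid ((h2 b hb).2 b' hb')).mono (by linarith)

theorem psi_cmap (A : Type) [CommRing A] : CMap (GL ι ℤ) (sd A (psi_mu (ι := ι))) :=
  sd_cmap _ fun g a b => Prod.ext rfl (psi_mid g a.2 b.2)

theorem psi_sum {c : ℕ → ℝ} (c0 : ∀ n, 0 ≤ c n) (hc : ∀ w : List (GL ι ℤ × PX ι),
      n1 (ht id (LinearMap.id - sd ℝ psi_mu) (wd w)) ≤ c w.length) (m : ℕ)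
    (u : List (GL ι ℤ × PX ι)) :
    ∑ k ∈ Finset.range m, n1 (ht id (LinearMap.id - sd ℝ psi_mu) ((sd ℝ psi_mu ^ k) (wd u))) ≤
      c u.length * (2 ^ m) ^ u.length := by
  cases u with
  | nil =>
    have e : ∀ k, (sd ℝ (psi_mu (ι := ι)) ^ k) (wd []) = wd [] := fun k =>
      ((psi_cmap ℝ).pow k).nil
    simp [e, ht_nil, c0]
  | cons a u =>
    have hl : (wd (a :: u) : Ch ℝ _) ∈ len ℝ _ (u.length + 1) := wd_mem rfl
    have h1 : ∀ k ∈ Finset.range m,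
        n1 (ht id (LinearMap.id - sd ℝ psi_mu) ((sd ℝ psi_mu ^ k) (wd (a :: u)))) ≤
          c (u.length + 1) * 2 ^ (u.length * m) := fun k hk => by
      refine (n1_map_le _ (fun w hw => hw ▸ hc w) (((psi_cmap ℝ).pow k).mem_len hl)).trans
        (mul_le_mul_of_nonneg_left ((n1_sd_pow _ _ k hl).trans ?_) (c0 _))
      rw [n1_wd, mul_one]
      exact pow_le_pow_right₀ one_le_two
        (Nat.mul_le_mul_left _ (Finset.mem_range.1 hk).le)
    refine (Finset.sum_le_card_nsmul _ _ _ h1).trans ?_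
    have h2 : (m : ℝ) ≤ 2 ^ m := by exact_mod_cast (Nat.lt_two_pow_self).le
    have h3 := c0 (u.length + 1)
    rw [Finset.card_range, nsmul_eq_mul, List.length_cons, pow_succ, ← pow_mul, mul_comm m]
    calc (m : ℝ) * (c (u.length + 1) * 2 ^ (u.length * m))
        ≤ 2 ^ m * (c (u.length + 1) * 2 ^ (u.length * m)) := by gcongr
      _ = _ := by ring

theorem exists_psi (ι : Type) [Fintype ι] [DecidableEq ι] :
    ∃ (S : Finset (GL ι ℤ)) (Ψ : ∀ (A : Type) [CommRing A], Ch A (GL ι ℤ) →ₗ[A] Ch A (GL ι ℤ)),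
      (∀ (A : Type) [CommRing A], CMap (GL ι ℤ) (Ψ A)) ∧
      (∀ (A : Type) [CommRing A] w, Ψ A (wd w) ∈ sp A (Sm S)) ∧
      ∀ d : ℕ, ∃ C : ℝ, 0 ≤ C ∧ ∀ (w : List (GL ι ℤ)) (B : ℝ), w.length = d + 1 → 1 ≤ B →
        (∀ a ∈ w, ∀ b ∈ w, Ent B a b) → n1 (Ψ ℝ (wd w)) ≤ C * B ^ (10 * d) := by
  classical
  obtain ⟨C, hC, hred⟩ := red_exists ι
  choose ρ₀ hρ₀ using hred
  obtain ⟨ε, C', hε, hCC, hst⟩ := red_stable (ι := ι) hC
  obtain ⟨ρ, hρ⟩ : ∃ ρ : GL ι ℤ × PX ι → GL ι ℤ, ∀ y, ρ y = y.1 * ρ₀ (y.1⁻¹ • y.2) :=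
    ⟨_, fun _ => rfl⟩
  have r1 : ∀ (g : GL ι ℤ) y, ρ (g • y) = g • ρ y := fun g y => by
    simp [hρ, mul_assoc, mul_smul]
  have r2 : ∀ y, Red C ((ρ y)⁻¹ • y.2) := fun y => by
    rw [hρ, _root_.mul_inv_rev, mul_smul]
    exact hρ₀ _
  obtain ⟨m, hm⟩ : ∃ m : List (GL ι ℤ) → ℕ, ∀ w, m w = Nat.find (psi_ex hε w) :=
    ⟨_, fun _ => rfl⟩
  have m1 : ∀ w, psi_Q ε w (m w) := fun w => hm w ▸ Nat.find_spec (psi_ex hε w)
  have m2 : ∀ w k, psi_Q ε w k → m w ≤ k := fun w k h => hm w ▸ Nat.find_min' _ h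
  refine ⟨(red_finite C').toFinset, fun A _ => mp ρ ∘ₗ
    vary psi_j (sd A psi_mu) (ht id (LinearMap.id - sd A psi_mu)) m, fun A _ => ?_,
    fun A _ w => ?_, fun d => ?_⟩
  · exact (CMap.ofMap r1).comp (vary_cmap (fun g x => Prod.ext rfl (mul_smul g x x1))
      (psi_cmap A) (fun u w h => m2 _ _ (psi_Q_sub h (m1 w))) fun g w =>
        le_antisymm (m2 _ _ ((psi_Q_smul g w _).2 (m1 w))) (m2 _ _ ((psi_Q_smul g w _).1 (m1 _))))
  · refine sp_map (mp ρ) _ (fun u ⟨g, B, h1, h2⟩ => ?_) (vary_mem _ _ _ m (sp A (psi_sml ε))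
      (fun w k hk => ⟨psi_fine hε (m1 w) hk, psi_ht (psi_fine hε (m1 w) hk)⟩) w)
    rw [mp_wd]
    refine wd_mem ?_
    simp only [Fine, Sm, List.forall_mem_map] at h2 ⊢
    intro y hy y' hy'
    refine (Set.Finite.mem_toFinset _).2 ⟨(ρ y)⁻¹ • y'.2, ?_, ?_⟩
    · have e : ∀ x : PX ι, (g * ρ y)⁻¹ • g • x = (ρ y)⁻¹ • x := fun x => by
        rw [_root_.mul_inv_rev, mul_smul, inv_smul_smul]
      rw [← e]
      exact hst B _ _ _ h1 (h2 y hy).1 (h2 y' hy').1 ((h2 y hy).2 y' hy') (by rw [e]; exact r2 y)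
    · rw [_root_.mul_inv_rev, inv_inv, mul_smul, smul_inv_smul]
      exact (r2 y').mono hCC
  · obtain ⟨c, c0, hc⟩ := ht_n1 id (φ := LinearMap.id - sd ℝ (psi_mu (ι := ι)))
      (fun n => 1 + 2 ^ (n - 1)) fun w => (n1_sub_le _ _).trans
        (add_le_add (n1_wd w).le (by rw [sd, lin_wd]; exact n1_sdW _ w))
    obtain ⟨K, hK⟩ : ∃ K : ℝ, K = 2 * (d + 1) * (Fintype.card ι + 1) ^ 10 / ε := ⟨_, rfl⟩
    have K0 : 0 ≤ K := by rw [hK]; positivity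
    have cd := c0 d
    refine ⟨(1 + (d + 1) * c d) * (1 + K) ^ d, by positivity, fun w B hw hB hE => ?_⟩
    have B1 : 1 ≤ B ^ 10 := one_le_pow₀ hB
    have h2 : (2 : ℝ) ^ m w ≤ (1 + K) * B ^ 10 := by
      rcases e : m w with _ | k
      · rw [pow_zero]
        nlinarith
      · have h3 : ε * 2 ^ k < w.length * ((Fintype.card ι + 1) * B) ^ 10 := by
          by_contra h
          have := m2 w k ⟨B, hB, hE, not_lt.1 h⟩
          omega
        have h4 : (2 : ℝ) ^ (k + 1) ≤ K * B ^ 10 := by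
          rw [hK, div_mul_eq_mul_div, le_div_iff₀ hε, pow_succ]
          rw [hw, mul_pow] at h3
          push_cast at h3
          linarith
        linarith
    have h5 : n1 ((sd ℝ psi_mu ^ m w) (wd (w.map psi_j))) ≤ (2 ^ m w) ^ d := by
      refine (n1_sd_pow _ d _ (wd_mem (by simp [hw]))).trans ?_
      rw [n1_wd, mul_one, ← pow_mul, mul_comm]
    have h6 := vary_n1 psi_j (sd ℝ psi_mu) (ht id (LinearMap.id - sd ℝ psi_mu)) m w
      (b := c d * (2 ^ m w) ^ d) (by positivity) h5 fun u hu => by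
        have e : (u.map psi_j).length = d := by rw [List.length_map]; omega
        exact e ▸ psi_sum c0 hc (m w) (u.map psi_j)
    refine (n1_mp_le _ _).trans (h6.trans ?_)
    have h7 : ((2 : ℝ) ^ m w) ^ d ≤ (1 + K) ^ d * B ^ (10 * d) := by
      rw [pow_mul, ← mul_pow]
      gcongr
    rw [hw]
    push_cast
    calc ((2 : ℝ) ^ m w) ^ d + (d + 1) * (c d * (2 ^ m w) ^ d)
        = (1 + (d + 1) * c d) * (2 ^ m w) ^ d := by ring
      _ ≤ (1 + (d + 1) * c d) * ((1 + K) ^ d * B ^ (10 * d)) := by gcongr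
      _ = _ := by ring

end

end Pool.Agent.Lib.MP_446a91_nt.Rk
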