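import Pool.Agent.Lib.MP_446a91_nt.Rk.Qf2
import Pool.Agent.Lib.MP_446a91_nt.Rk.Nm

/-!
The Seysen measure and the good bases.
-/

namespace Pool.Agent.Lib.MP_446a91_nt.Rk

open Matrix Filter Topology Pool.Agent.Lib.MP_446a91_nt.Sou

set_option linter.unusedSectionVars false

noncomputable section

variable {ι : Type} [Fintype ι] [DecidableEq ι]


/-- The Seysen measure. -/
def Sy (P : Matrix ι ι ℝ) : ℝ := ∑ i, P i i * P⁻¹ i i

/-- Its derivative in the direction `E`. -/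
def dSy (P E : Matrix ι ι ℝ) : ℝ := ∑ i, (E i i * P⁻¹ i i - P i i * (P⁻¹ * E * P⁻¹) i i)

/-- The good bases. -/
def Gd (C : ℝ) (x : PX ι) : Set (GL ι ℤ) := {γ | Sy (γ⁻¹ • x).1 ≤ C}

theorem pu0_term (x : PX ι) (i : ι) : 0 ≤ x.1 i i * x.1⁻¹ i i :=
  (mul_pos (x.2.diag_pos i) (x.2.inv.diag_pos i)).le

theorem pu0_le (x : PX ι) (i : ι) : x.1 i i * x.1⁻¹ i i ≤ Sy x.1 :=
  Finset.single_le_sum (f := fun i => x.1 i i * x.1⁻¹ i i) (fun i _ => pu0_term x i)
    (Finset.mem_univ i)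

theorem Sy_nonneg (x : PX ι) : 0 ≤ Sy x.1 := by
  exact Finset.sum_nonneg fun i _ => pu0_term x i

theorem Sy_le_of_red {C : ℝ} {x : PX ι} (h : Red C x) : Sy x.1 ≤ Fintype.card ι * C := by
  have h1 := Finset.sum_le_card_nsmul Finset.univ (fun i => x.1 i i * x.1⁻¹ i i) C
    fun i _ => (h i).1
  rwa [Finset.card_univ, nsmul_eq_mul] at h1

theorem pu0_inv_smul {t : ℝ} (ht : t ≠ 0) (P : Matrix ι ι ℝ) : (t • P)⁻¹ = t⁻¹ • P⁻¹ := by
  by_cases h : IsUnit P.det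
  · refine Matrix.inv_eq_left_inv ?_
    rw [Matrix.smul_mul, Matrix.mul_smul, smul_smul, inv_mul_cancel₀ ht, one_smul,
      Matrix.nonsing_inv_mul _ h]
  · rw [Matrix.nonsing_inv_apply_not_isUnit _ h, smul_zero, Matrix.nonsing_inv_apply_not_isUnit]
    rw [Matrix.det_smul]
    exact fun h' => h (isUnit_of_mul_isUnit_right h')

theorem Sy_smul {t : ℝ} (ht : t ≠ 0) (P : Matrix ι ι ℝ) : Sy (t • P) = Sy P := by
  refine Finset.sum_congr rfl fun i _ => ?_
  rw [pu0_inv_smul ht, Matrix.smul_apply, Matrix.smul_apply, smul_eq_mul, smul_eq_mul]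
  field_simp

theorem dSy_smul {t : ℝ} (ht : t ≠ 0) (P E : Matrix ι ι ℝ) : dSy (t • P) (t • E) = dSy P E := by
  refine Finset.sum_congr rfl fun i _ => ?_
  simp only [pu0_inv_smul ht, Matrix.smul_mul, Matrix.mul_smul, Matrix.smul_apply, smul_eq_mul]
  field_simp

theorem dSy_add (P E E' : Matrix ι ι ℝ) : dSy P (E + E') = dSy P E + dSy P E' := by
  simp only [dSy, ← Finset.sum_add_distrib, Matrix.mul_add, Matrix.add_mul, Matrix.add_apply]
  exact Finset.sum_congr rfl fun i _ => by ring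

theorem dSy_smul_right (t : ℝ) (P E : Matrix ι ι ℝ) : dSy P (t • E) = t * dSy P E := by
  simp only [dSy, Finset.mul_sum, Matrix.smul_mul, Matrix.mul_smul, Matrix.smul_apply,
    smul_eq_mul]
  exact Finset.sum_congr rfl fun i _ => by ring

theorem dSy_transpose (x : PX ι) (E : Matrix ι ι ℝ) : dSy x.1 Eᵀ = dSy x.1 E := by
  refine Finset.sum_congr rfl fun i _ => ?_
  have e : x.1⁻¹ * Eᵀ * x.1⁻¹ = (x.1⁻¹ * E * x.1⁻¹)ᵀ := by
    rw [Matrix.transpose_mul, Matrix.transpose_mul, x.2.inv.1, Matrix.mul_assoc]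
  rw [e, Matrix.transpose_apply, Matrix.transpose_apply]

/-- `E i i = qf E (e i)`, `(Q E Q) i i = qf E (Q e i)` and `qf P (Q e i) = Q i i`. -/
theorem abs_dSy_le (x : PX ι) {E : Matrix ι ι ℝ} {η : ℝ} (h : ∀ v, |qf E v| ≤ η * qf x.1 v) :
    |dSy x.1 E| ≤ 2 * η * Sy x.1 := by
  rw [dSy, Sy, Finset.mul_sum]
  refine (Finset.abs_sum_le_sum_abs _ _).trans (Finset.sum_le_sum fun i _ => ?_)
  have a1 := h (Pi.single i 1)
  have a2 := h (x.1⁻¹ i)
  rw [qf_single, qf_single] at a1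
  rw [← cj_diag, ← cj_diag, cj_apply, cj_apply, x.2.inv.1,
    Matrix.nonsing_inv_mul _ x.2.isUnit_det, Matrix.one_mul] at a2
  have p := x.2.diag_pos i
  have q := x.2.inv.diag_pos i
  have b1 := mul_le_mul_of_nonneg_right a1 q.le
  have b2 := mul_le_mul_of_nonneg_left a2 p.le
  refine (abs_sub _ _).trans ?_
  rw [abs_mul, abs_mul, abs_of_pos p, abs_of_pos q]
  linarith

theorem pu0_P (γ : GL ι ℤ) (x : PX ι) (i : ι) :
    (γ⁻¹ • x).1 i i = qf x.1 fun k => ((γ⁻¹ i k : ℤ) : ℝ) := cj_diag _ _ i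

theorem pu0_Q (γ : GL ι ℤ) (x : PX ι) (i : ι) :
    (γ⁻¹ • x).1⁻¹ i i = qf x.1⁻¹ fun k => ((γ k i : ℤ) : ℝ) := by
  rw [zsmul_def, smul_val, cj_inv _ x.2, cj_diag, map_inv, inv_inv]
  rfl

theorem pu0_one (γ : GL ι ℤ) (i : ι) : ∑ k, γ⁻¹ i k * γ k i = 1 := by
  have h : ((γ⁻¹ : GL ι ℤ) : Matrix ι ι ℤ) * (γ : Matrix ι ι ℤ) = 1 := γ.inv_mul
  have h1 := congrFun (congrFun h i) i
  rwa [Matrix.mul_apply, Matrix.one_apply_eq] at h1

theorem pu0_row (γ : GL ι ℤ) (i : ι) : (fun k => γ⁻¹ i k) ≠ 0 := fun h => by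
  have h1 := pu0_one γ i
  rw [Finset.sum_eq_zero fun k _ => mul_eq_zero_of_left (congrFun h k) _] at h1
  exact zero_ne_one h1

theorem pu0_col (γ : GL ι ℤ) (i : ι) : (fun k => γ k i) ≠ 0 := fun h => by
  have h1 := pu0_one γ i
  rw [Finset.sum_eq_zero fun k _ => mul_eq_zero_of_right _ (congrFun h k)] at h1
  exact zero_ne_one h1

theorem pu0_gd {C : ℝ} {x : PX ι} {γ : GL ι ℤ} (h : γ ∈ Gd C x) (i : ι) :
    (qf x.1 fun k => ((γ⁻¹ i k : ℤ) : ℝ)) * (qf x.1⁻¹ fun k => ((γ k i : ℤ) : ℝ)) ≤ C := by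
  rw [← pu0_P, ← pu0_Q]
  exact (pu0_le _ i).trans h

/-- The entry is `row i of γ⁻¹ ⬝ column j of γ'`; `cs_dual`, `P i i ≤ C / β`, `Q' j j ≤ C / α`. -/
theorem gd_ent {C h : ℝ} (hC : 1 ≤ C) (hh : 1 ≤ h) {x : PX ι} (H : Ht h x) {γ γ' : GL ι ℤ}
    (h1 : γ ∈ Gd C x) (h2 : γ' ∈ Gd C x) : Ent (C * h) γ γ' := by
  obtain ⟨α, β, hα, hβ, h0, H⟩ := H
  intro i j
  have e : (((γ⁻¹ * γ' : GL ι ℤ) i j : ℤ) : ℝ) =
      (fun k => ((γ⁻¹ i k : ℤ) : ℝ)) ⬝ᵥ fun k => ((γ' k j : ℤ) : ℝ) := by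
    rw [Units.val_mul, Matrix.mul_apply, dotProduct]
    push_cast
    rfl
  have a1 := x.2.cs_dual (fun k => ((γ⁻¹ i k : ℤ) : ℝ)) fun k => ((γ' k j : ℤ) : ℝ)
  have a2 := pu0_gd h1 i
  have a3 := pu0_gd h2 j
  have a4 := (H _ (pu0_col γ i)).2
  have a5 := (H _ (pu0_row γ' j)).1
  have p := x.2.nonneg fun k => ((γ⁻¹ i k : ℤ) : ℝ)
  have q := x.2.inv.nonneg fun k => ((γ' k j : ℤ) : ℝ)
  rw [← e] at a1
  generalize (qf x.1 fun k => ((γ⁻¹ i k : ℤ) : ℝ)) = P at a1 a2 p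
  generalize (qf x.1⁻¹ fun k => ((γ' k j : ℤ) : ℝ)) = Q at a1 a3 q
  have b1 : P * β ≤ C := (mul_le_mul_of_nonneg_left a4 p).trans a2
  have b2 : α * Q ≤ C := (mul_le_mul_of_nonneg_right a5 q).trans a3
  have b3 : P * β * (α * Q) ≤ C * C := mul_le_mul b1 b2 (by positivity) (by linarith)
  have b4 : P * Q ≤ h * α * β * (P * Q) := le_mul_of_one_le_left (mul_nonneg p q) h0
  have b5 := mul_le_mul_of_nonneg_left b3 (by linarith : 0 ≤ h)
  have b6 : h * (C * C) ≤ h * (h * (C * C)) := le_mul_of_one_le_left (by positivity) hh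
  refine abs_le_of_sq_le_sq' ?_ (by positivity) |> abs_le.2
  linarith

/-- The columns of `γ` are bounded: `Q j j = qf x⁻¹ (column j) ≥ |column|^2 / B`, `P j j ≥ 1 / B`. -/
theorem gd_box_finite (C B : ℝ) : {γ : GL ι ℤ | ∃ x, Box B x ∧ γ ∈ Gd C x}.Finite := by
  refine (finite_ent √(max B 0 * max B 0 * C) 1).subset ?_
  rintro γ ⟨x, hx, h⟩ i j
  have hB : 0 ≤ max B 0 := le_max_right _ _
  have hx' := hx.mono (le_max_left B 0)
  rw [inv_one, one_mul]
  refine Real.abs_le_sqrt ?_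
  have a1 := (hx'.inv hB fun k => ((γ k j : ℤ) : ℝ)).1
  have a2 := (hx' fun k => ((γ⁻¹ j k : ℤ) : ℝ)).1
  have a3 := pu0_gd h j
  have a4 : ((γ i j : ℤ) : ℝ) * γ i j ≤ (fun k => ((γ k j : ℤ) : ℝ)) ⬝ᵥ fun k => ((γ k j : ℤ) : ℝ) :=
    Finset.single_le_sum (f := fun k => ((γ k j : ℤ) : ℝ) * γ k j) (fun k _ => mul_self_nonneg _)
      (Finset.mem_univ i)
  obtain ⟨k, hk⟩ := Function.ne_iff.1 (pu0_row γ j)
  have a5 : (1 : ℝ) ≤ ((γ⁻¹ j k : ℤ) : ℝ) * γ⁻¹ j k := by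
    exact_mod_cast Int.add_one_le_of_lt (mul_self_pos.2 hk)
  have a6 : ((γ⁻¹ j k : ℤ) : ℝ) * γ⁻¹ j k ≤
      (fun k => ((γ⁻¹ j k : ℤ) : ℝ)) ⬝ᵥ fun k => ((γ⁻¹ j k : ℤ) : ℝ) :=
    Finset.single_le_sum (f := fun k => ((γ⁻¹ j k : ℤ) : ℝ) * γ⁻¹ j k)
      (fun k _ => mul_self_nonneg _) (Finset.mem_univ k)
  have q := x.2.inv.nonneg fun k => ((γ k j : ℤ) : ℝ)
  have b1 := le_mul_of_one_le_left (mul_nonneg hB q) (a5.trans (a6.trans a2))
  have b2 := mul_le_mul_of_nonneg_left a3 (mul_nonneg hB hB)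
  rw [sq]
  linarith

theorem gd_finite (C : ℝ) (x : PX ι) : (Gd C x).Finite := by
  obtain ⟨B, -, hB⟩ := exists_box x
  exact (gd_box_finite C B).subset fun γ h => ⟨x, hB, h⟩

theorem pu0_cont {A : Matrix ι ι ℝ} (h : IsUnit A.det) : ContinuousAt Inv.inv A := by
  refine continuousAt_matrix_inv A ?_
  rw [Ring.inverse_eq_inv']
  exact continuousAt_inv₀ h.ne_zero

theorem pu0_der {P : Matrix ι ι ℝ} (E : Matrix ι ι ℝ) {t : ℝ} (h : IsUnit (P + t • E).det)
    (i : ι) : HasDerivAt (fun s : ℝ => (P + s • E)⁻¹ i i)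
      (-((P + t • E)⁻¹ * E * (P + t • E)⁻¹) i i) t := by
  have c1 : Continuous fun s : ℝ => P + s • E := by fun_prop
  have c2 : ContinuousAt (fun s : ℝ => (P + s • E)⁻¹) t :=
    ContinuousAt.comp (f := fun s : ℝ => P + s • E) (pu0_cont h) c1.continuousAt
  have c3 : Continuous fun A : Matrix ι ι ℝ => -(A * E * (P + t • E)⁻¹) i i :=
    (((continuous_id.matrix_mul continuous_const).matrix_mul continuous_const).matrix_elem i i).neg
  have c4 : ∀ᶠ s in 𝓝 t, (P + s • E).det ≠ 0 := c1.matrix_det.continuousAt.eventually_ne h.ne_zero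
  rw [hasDerivAt_iff_tendsto_slope]
  refine ((c3.continuousAt.tendsto.comp c2).mono_left nhdsWithin_le_nhds).congr' ?_
  filter_upwards [c4.filter_mono nhdsWithin_le_nhds, self_mem_nhdsWithin] with s h1 h2
  have h3 : s - t ≠ 0 := sub_ne_zero.2 h2
  have e := Matrix.inv_sub_inv (A := P + s • E) (B := P + t • E)
    (iff_of_true ((Matrix.isUnit_iff_isUnit_det _).2 h1.isUnit)
      ((Matrix.isUnit_iff_isUnit_det _).2 h))
  rw [add_sub_add_left_eq_sub, ← sub_smul, Matrix.mul_smul, Matrix.smul_mul] at e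
  rw [slope_def_field, ← Matrix.sub_apply, e, Matrix.smul_apply, smul_eq_mul, Function.comp_apply]
  field_simp
  ring

theorem hasDerivAt_Sy {P : Matrix ι ι ℝ} (E : Matrix ι ι ℝ) {t : ℝ} (h : IsUnit (P + t • E).det) :
    HasDerivAt (fun s : ℝ => Sy (P + s • E)) (dSy (P + t • E) E) t := by
  refine HasDerivAt.fun_sum fun i _ => ?_
  have h1 : HasDerivAt (fun s : ℝ => (P + s • E) i i) (E i i) t := by
    simpa using ((hasDerivAt_id t).mul_const (E i i)).const_add (P i i)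
  refine (h1.fun_mul (pu0_der E h i)).congr_deriv ?_
  ring

theorem pu0_cinv : Continuous fun x : PX ι => x.1⁻¹ :=
  continuous_iff_continuousAt.2 fun x => ContinuousAt.comp (f := fun x : PX ι => x.1)
    (pu0_cont x.2.isUnit_det) continuous_subtype_val.continuousAt

theorem continuous_Sy : Continuous fun x : PX ι => Sy x.1 := by
  exact continuous_finsetSum _ fun i _ =>
    (continuous_subtype_val.matrix_elem i i).mul (pu0_cinv.matrix_elem i i)

theorem continuous_dSy : Continuous fun p : PX ι × Matrix ι ι ℝ => dSy p.1.1 p.2 := by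
  have c1 : Continuous fun p : PX ι × Matrix ι ι ℝ => p.1.1⁻¹ := pu0_cinv.comp continuous_fst
  have c2 : Continuous fun p : PX ι × Matrix ι ι ℝ => p.1.1 :=
    continuous_subtype_val.comp continuous_fst
  exact continuous_finsetSum _ fun i _ =>
    ((continuous_snd.matrix_elem i i).mul (c1.matrix_elem i i)).sub ((c2.matrix_elem i i).mul
      (((c1.matrix_mul continuous_snd).matrix_mul c1).matrix_elem i i))

theorem continuous_zsmul (γ : GL ι ℤ) : Continuous fun x : PX ι => γ • x := by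
  exact ((continuous_const.matrix_mul continuous_subtype_val).matrix_mul
    continuous_const).subtype_mk _

theorem hasDerivAt_max_pow (n : ℕ) (t : ℝ) :
    HasDerivAt (fun s : ℝ => max s 0 ^ (n + 2)) ((n + 2 : ℝ) * max t 0 ^ (n + 1)) t := by
  rcases lt_trichotomy t 0 with h | rfl | h
  · rw [max_eq_right h.le, zero_pow n.succ_ne_zero, mul_zero]
    refine (hasDerivAt_const t (0 : ℝ)).congr_of_eventuallyEq ?_
    filter_upwards [gt_mem_nhds h] with s hs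
    rw [max_eq_right hs.le, zero_pow (n + 1).succ_ne_zero]
  · have c : Continuous fun s : ℝ => max s 0 ^ (n + 1) := by fun_prop
    have h1 := c.tendsto 0
    rw [max_self, zero_pow n.succ_ne_zero] at h1
    rw [max_self, zero_pow n.succ_ne_zero, mul_zero, hasDerivAt_iff_tendsto_slope]
    refine (h1.mono_left nhdsWithin_le_nhds).congr' ?_
    filter_upwards [self_mem_nhdsWithin] with s hs
    have h2 : s ≠ 0 := hs
    rw [slope_def_field, max_self, zero_pow (n + 1).succ_ne_zero, sub_zero, sub_zero,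
      eq_div_iff h2]
    rcases le_total s 0 with h3 | h3
    · rw [max_eq_right h3, zero_pow n.succ_ne_zero, zero_pow (n + 1).succ_ne_zero, zero_mul]
    · rw [max_eq_left h3, ← pow_succ]
  · rw [max_eq_left h.le]
    have h1 : HasDerivAt (fun s : ℝ => s ^ (n + 2)) ((n + 2 : ℝ) * t ^ (n + 1)) t := by
      simpa using hasDerivAt_pow (n + 2) t
    refine h1.congr_of_eventuallyEq ?_
    filter_upwards [lt_mem_nhds h] with s hs
    rw [max_eq_left hs.le]

end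

end Pool.Agent.Lib.MP_446a91_nt.Rk
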