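import Pool.Agent.Lib.MP_446a91_nt.Rk.PuD

/-!
The partition of unity: algebraic properties and growth.
-/

namespace Pool.Agent.Lib.MP_446a91_nt.Rk

open Matrix Filter Topology Pool.Agent.Lib.MP_446a91_nt.Sou

set_option linter.unusedSectionVars false

noncomputable section

variable {ι : Type} [Fintype ι] [DecidableEq ι]

variable {C : ℝ}


theorem pu1_ps_nonneg (x : PX ι) (γ : GL ι ℤ) : 0 ≤ ps C x γ := pow_nonneg (le_max_right _ _) _

theorem pu1_n1_ps (x : PX ι) : n1 (psF C x) = mass (psF C x) :=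
  Finsupp.sum_congr fun γ _ => abs_of_nonneg (pu1_ps_nonneg x γ)

theorem pu1_mass_smul {α : Type} (t : ℝ) (c : α →₀ ℝ) : mass (t • c) = t * mass c := by
  rw [← massL_apply, map_smul, massL_apply, smul_eq_mul]

theorem pu1_map {f g : GL ι ℤ →₀ ℝ} (γ : GL ι ℤ) (h : ∀ a, f (γ * a) = g a) :
    f = g.mapDomain (γ * ·) := by
  ext a
  obtain ⟨a, rfl⟩ := (Group.mulLeft_bijective γ).2 a
  rw [Finsupp.mapDomain_apply (mul_right_injective γ), h]

theorem pu1_act (γ a : GL ι ℤ) (x : PX ι) : (γ * a)⁻¹ • γ • x = a⁻¹ • x := by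
  rw [_root_.mul_inv_rev, mul_smul, inv_smul_smul]

theorem pu1_ps_eqv (γ a : GL ι ℤ) (x : PX ι) : ps C (γ • x) (γ * a) = ps C x a := by
  rw [ps, ps, pu1_act]

theorem pu1_dps_eqv (γ a : GL ι ℤ) (x : PX ι) (b : Matrix ι ι ℝ) :
    dps C (γ • x) (cj (cR γ : Matrix ι ι ℝ) b) (γ * a) = dps C x b a := by
  rw [dps, dps, pu1_act, ← cj_mul, ← Units.val_mul, ← map_mul, _root_.mul_inv_rev,
    inv_mul_cancel_right]

theorem pu1_mass_eqv (γ : GL ι ℤ) (x : PX ι) : mass (psF C (γ • x)) = mass (psF C x) := by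
  rw [pu1_map (f := psF C (γ • x)) (g := psF C x) γ fun a => pu1_ps_eqv γ a x, mass_mapDomain]

theorem pu1_scl_val (t : ℝˣ) (γ : GL ι ℤ) (x : PX ι) :
    (γ • Matrix.GeneralLinearGroup.scalar ι t • x).1 = ((t : ℝ) ^ 2) • (γ • x).1 := by
  rw [zsmul_def, zsmul_def, smul_val, scalar_smul_val, map_smul, smul_val]

theorem pu1_cj_scl (t : ℝˣ) (b : Matrix ι ι ℝ) :
    cj (Matrix.GeneralLinearGroup.scalar ι t : Matrix ι ι ℝ) b = ((t : ℝ) ^ 2) • b := by
  have e : (Matrix.GeneralLinearGroup.scalar ι t : Matrix ι ι ℝ) = (t : ℝ) • 1 := by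
    rw [Matrix.smul_one_eq_diagonal]
    rfl
  simp [e, cj_apply, smul_smul, sq]

theorem pu1_psF_scl (t : ℝˣ) (x : PX ι) :
    psF C (Matrix.GeneralLinearGroup.scalar ι t • x) = psF C x := by
  ext γ
  rw [psF_apply, psF_apply, ps, ps, pu1_scl_val, Sy_smul (pow_ne_zero 2 t.ne_zero)]

theorem pu1_dpsF_scl (t : ℝˣ) (x : PX ι) (b : Matrix ι ι ℝ) :
    dpsF C (Matrix.GeneralLinearGroup.scalar ι t • x)
      (cj (Matrix.GeneralLinearGroup.scalar ι t : Matrix ι ι ℝ) b) = dpsF C x b := by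
  ext γ
  rw [dpsF_apply, dpsF_apply, dps, dps, pu1_scl_val, pu1_cj_scl, map_smul,
    Sy_smul (pow_ne_zero 2 t.ne_zero), dSy_smul (pow_ne_zero 2 t.ne_zero)]

theorem pu1_puD (x : PX ι) (b : Matrix ι ι ℝ) : puD C x b = (mass (psF C x))⁻¹ • dpsF C x b -
    ((mass (psF C x))⁻¹ ^ 2 * mass (dpsF C x b)) • psF C x := by
  ext γ
  simp [puD_apply, mul_assoc]

theorem pu1_pow {h t : ℝ} (hh : 1 ≤ h) (ht : 0 ≤ t) (n : ℕ) :
    t ^ (n + 1) ≤ (h ^ n)⁻¹ + h * t ^ (n + 2) := by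
  have h0 : 0 < h := by linarith
  rcases le_total (h * t) 1 with h1 | h1
  · have h2 : t ≤ h⁻¹ := by
      rw [inv_eq_one_div, le_div_iff₀ h0]
      linarith
    have h3 : t ^ (n + 1) ≤ h⁻¹ ^ n :=
      (pow_le_pow_left₀ ht h2 _).trans
        (pow_le_pow_of_le_one (by positivity) (inv_le_one_of_one_le₀ hh) n.le_succ)
    rw [inv_pow] at h3
    have : 0 ≤ h * t ^ (n + 2) := by positivity
    linarith
  · have := mul_le_mul_of_nonneg_right h1 (pow_nonneg ht (n + 1))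
    have h4 : 0 ≤ (h ^ n)⁻¹ := by positivity
    rw [pow_succ t (n + 1)]
    linarith

theorem one_le_mass (h : Cov ι C) (x : PX ι) : 1 ≤ mass (psF C x) := by
  obtain ⟨γ, hγ⟩ := h.2 x
  rw [← pu1_n1_ps]
  refine le_trans ?_ ((le_abs_self _).trans (abs_apply_le_n1 _ γ))
  exact one_le_pow₀ (le_max_of_le_left (by linarith))

theorem mass_puF (h : Cov ι C) (x : PX ι) : mass (puF C x) = 1 := by
  rw [puF, pu1_mass_smul, inv_mul_cancel₀ (one_pos.trans_le (one_le_mass h x)).ne']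

theorem n1_puF (h : Cov ι C) (x : PX ι) : n1 (puF C x) ≤ 1 := by
  have h0 := one_pos.trans_le (one_le_mass h x)
  rw [puF, n1_smul, pu1_n1_ps, abs_of_pos (inv_pos.2 h0), inv_mul_cancel₀ h0.ne']

theorem puF_eqv (γ : GL ι ℤ) (x : PX ι) : puF C (γ • x) = (puF C x).mapDomain (γ * ·) :=
  pu1_map γ fun a => by simp only [puF, Finsupp.smul_apply, psF_apply, pu1_mass_eqv, pu1_ps_eqv]

theorem puD_eqv (γ : GL ι ℤ) (x : PX ι) (b : Matrix ι ι ℝ) :
    puD C (γ • x) (cj (cR γ : Matrix ι ι ℝ) b) = (puD C x b).mapDomain (γ * ·) := by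
  refine pu1_map γ fun a => ?_
  rw [puD_apply, puD_apply, pu1_mass_eqv, pu1_ps_eqv, pu1_dps_eqv,
    pu1_map (f := dpsF C (γ • x) _) (g := dpsF C x b) γ fun a => pu1_dps_eqv γ a x b,
    mass_mapDomain]

theorem puF_scl (t : ℝˣ) (x : PX ι) :
    puF C (Matrix.GeneralLinearGroup.scalar ι t • x) = puF C x := by
  rw [puF, puF, pu1_psF_scl]

theorem puD_scl (t : ℝˣ) (x : PX ι) (b : Matrix ι ι ℝ) :
    puD C (Matrix.GeneralLinearGroup.scalar ι t • x)
      (cj (Matrix.GeneralLinearGroup.scalar ι t : Matrix ι ι ℝ) b) = puD C x b := by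
  rw [pu1_puD, pu1_puD, pu1_psF_scl, pu1_dpsF_scl]

theorem puD_tr (x : PX ι) (b : Matrix ι ι ℝ) : puD C x bᵀ = puD C x b := by
  have e : dpsF C x bᵀ = dpsF C x b := by
    ext γ
    have e1 : cj (cR γ⁻¹ : Matrix ι ι ℝ) bᵀ = (cj (cR γ⁻¹ : Matrix ι ι ℝ) b)ᵀ := by
      simp only [cj_apply, Matrix.transpose_mul, Matrix.transpose_transpose, Matrix.mul_assoc]
    rw [dpsF_apply, dpsF_apply, dps, dps, e1, dSy_transpose]
  rw [pu1_puD, pu1_puD, e]

theorem puF_supp (x : PX ι) : ∀ γ ∈ (puF C x).support, γ ∈ Gd C x := by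
  intro γ hγ
  by_contra h
  exact Finsupp.mem_support_iff.1 hγ (by simp [puF, ps_eq_zero h])

theorem puD_supp (x : PX ι) (b : Matrix ι ι ℝ) : ∀ γ ∈ (puD C x b).support, γ ∈ Gd C x := by
  intro γ hγ
  by_contra h
  exact Finsupp.mem_support_iff.1 hγ (by simp [puD_apply, ps_eq_zero h, dps_eq_zero b h])

/-- `n = N^2`, `t = max (C - Sy) 0`, `T = mass psF ≥ 1`. `|dps| ≤ (n+2) t^(n+1) 2 η C` (`abs_dSy_le`,
`qf_cj`), `t^(n+1) ≤ h^-(n+1) + h t^(n+2)`, the number of good bases is at most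
`(2 C h + 1)^n ≤ (3 C h)^n` (`gd_ent`, `card_ent_le`), and `n1 puD ≤ 2 n1 dpsF / T`. -/
theorem puD_grow (hC : Cov ι C) : ∃ K : ℝ, C ≤ K ∧ ∀ (h : ℝ) (x : PX ι) (b : Matrix ι ι ℝ) (η : ℝ),
    1 ≤ h → Ht h x → 0 ≤ η → (∀ v, |qf b v| ≤ η * qf x.1 v) → n1 (puD C x b) ≤ K * h * η := by
  have C1 := hC.1
  have C0 : 0 < C := by linarith
  obtain ⟨n, hn⟩ : ∃ n, n = Fintype.card ι ^ 2 := ⟨_, rfl⟩
  have hn' : ((Fintype.card ι : ℝ) ^ 2) = n := by rw [hn, Nat.cast_pow]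
  have A0 : 0 ≤ (3 * C) ^ n := by positivity
  refine ⟨4 * (n + 2) * ((3 * C) ^ n + 1) * C, le_mul_of_one_le_left C0.le ?_,
    fun h x b η hh H hη hb => ?_⟩
  · have : (0 : ℝ) ≤ n := n.cast_nonneg
    nlinarith [mul_nonneg this A0]
  have T1 := one_le_mass hC x
  have h0 : 0 < h := by linarith
  obtain ⟨γ0, hγ0⟩ := hC.2 x
  have hS : ∀ γ ∈ (gd_finite C x).toFinset, γ ∈ Gd C x := fun γ hγ => by simpa using hγ
  have c1 := card_ent_le (B := C * h) (by positivity) γ0 (gd_finite C x).toFinset fun γ hγ =>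
    gd_ent C1 hh H (show Sy (γ0⁻¹ • x).1 ≤ C by linarith) (hS γ hγ)
  have c2 : (((gd_finite C x).toFinset.card : ℝ)) * (h ^ n)⁻¹ ≤ (3 * C) ^ n := by
    rw [← div_eq_mul_inv, div_le_iff₀ (by positivity), ← mul_pow]
    refine c1.trans (hn ▸ pow_le_pow_left₀ (by positivity) ?_ _)
    nlinarith [mul_le_mul C1 hh zero_le_one C0.le]
  have d1 : ∀ γ ∈ (gd_finite C x).toFinset,
      |dpsF C x b γ| ≤ (n + 2) * (2 * η * C) * ((h ^ n)⁻¹ + h * psF C x γ) := by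
    intro γ hγ
    have e1 : |dSy (γ⁻¹ • x).1 (cj (cR γ⁻¹ : Matrix ι ι ℝ) b)| ≤ 2 * η * C := by
      refine (abs_dSy_le _ (η := η) fun v => ?_).trans
        (mul_le_mul_of_nonneg_left (hS γ hγ) (by positivity))
      rw [zsmul_def, smul_val, qf_cj, qf_cj]
      exact hb _
    have t0 : 0 ≤ max (C - Sy (γ⁻¹ • x).1) 0 := le_max_right _ _
    rw [dpsF_apply, psF_apply, dps, ps, ← hn, hn', abs_neg, abs_mul,
      abs_of_nonneg (by positivity), mul_assoc, mul_assoc, mul_comm (2 * η * C)]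
    exact mul_le_mul_of_nonneg_left (mul_le_mul (pu1_pow hh t0 n) e1 (abs_nonneg _)
      (by positivity)) (by positivity)
  have d2 : n1 (dpsF C x b) ≤ (n + 2) * (2 * η * C) * (((3 * C) ^ n + 1) * h * mass (psF C x)) := by
    have s1 : (dpsF C x b).support ⊆ (gd_finite C x).toFinset := fun γ hγ => by_contra fun h' =>
      Finsupp.mem_support_iff.1 hγ (dps_eq_zero b (by simpa using h'))
    rw [n1_eq_sum s1]
    refine (Finset.sum_le_sum d1).trans ?_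
    rw [← Finset.mul_sum, Finset.sum_add_distrib, ← Finset.mul_sum,
      ← mass_eq_sum (c := psF C x) Finsupp.support_onFinset_subset, Finset.sum_const, nsmul_eq_mul]
    refine mul_le_mul_of_nonneg_left ?_ (by positivity)
    have := mul_le_mul_of_nonneg_left (one_le_mul_of_one_le_of_one_le hh T1) A0
    nlinarith
  have T0 : 0 < mass (psF C x) := by linarith
  have d3 : n1 (puD C x b) ≤ 2 * ((mass (psF C x))⁻¹ * n1 (dpsF C x b)) := by
    rw [pu1_puD]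
    refine (n1_sub_le _ _).trans ?_
    rw [n1_smul, n1_smul, pu1_n1_ps, abs_mul, abs_of_pos (inv_pos.2 T0),
      abs_of_pos (pow_pos (inv_pos.2 T0) 2)]
    have e : (mass (psF C x))⁻¹ ^ 2 * |mass (dpsF C x b)| * mass (psF C x) =
        (mass (psF C x))⁻¹ * |mass (dpsF C x b)| := by field_simp
    have := mul_le_mul_of_nonneg_left (abs_mass_le (dpsF C x b)) (inv_pos.2 T0).le
    linarith
  refine d3.trans ((mul_le_mul_of_nonneg_left
    (mul_le_mul_of_nonneg_left d2 (inv_pos.2 T0).le) zero_le_two).trans (le_of_eq ?_))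
  field_simp
  ring

end

end Pool.Agent.Lib.MP_446a91_nt.Rk
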