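import Pool.Agent.Lib.MP_446a91_nt.Rk.Pu1
import Pool.Agent.Lib.MP_446a91_nt.Rk.RedE

/-!
The partition of unity: continuity and first order approximation. On `Box B` all sums run over the
finite set `gd_box_finite C B`.
-/

namespace Pool.Agent.Lib.MP_446a91_nt.Rk

open Matrix Filter Topology Pool.Agent.Lib.MP_446a91_nt.Sou

set_option linter.unusedSectionVars false

noncomputable section

variable {ι : Type} [Fintype ι] [DecidableEq ι]

variable {C : ℝ}


theorem pu2_ps (C : ℝ) (γ : GL ι ℤ) : Continuous fun x : PX ι => ps C x γ :=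
  ((continuous_const.sub (continuous_Sy.comp (continuous_zsmul γ⁻¹))).max continuous_const).pow _

theorem pu2_dps (C : ℝ) (γ : GL ι ℤ) :
    Continuous fun p : PX ι × Matrix ι ι ℝ => dps C p.1 p.2 γ := by
  have h1 : Continuous fun p : PX ι × Matrix ι ι ℝ => γ⁻¹ • p.1 :=
    (continuous_zsmul γ⁻¹).comp continuous_fst
  have h2 : Continuous fun p : PX ι × Matrix ι ι ℝ => cj (cR γ⁻¹ : Matrix ι ι ℝ) p.2 :=
    (continuous_const.matrix_mul continuous_snd).matrix_mul continuous_const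
  exact ((continuous_const.mul (((continuous_const.sub (continuous_Sy.comp h1)).max
    continuous_const).pow _)).mul (continuous_dSy.comp (h1.prodMk h2))).neg

/-- The finite set of bases that are good somewhere on the box. -/
def pu2_S (ι : Type) [Fintype ι] [DecidableEq ι] (C B : ℝ) : Finset (GL ι ℤ) :=
  (gd_box_finite (ι := ι) C B).toFinset

theorem pu2_mem {B : ℝ} {x : PX ι} (hx : Box B x) {γ : GL ι ℤ} (h : γ ∈ Gd C x) :
    γ ∈ pu2_S ι C B := (Set.Finite.mem_toFinset _).2 ⟨x, hx, h⟩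

theorem pu2_mass {B : ℝ} {x : PX ι} (hx : Box B x) :
    mass (psF C x) = ∑ γ ∈ pu2_S ι C B, ps C x γ :=
  mass_eq_sum fun _ h => pu2_mem hx (by_contra fun h' => Finsupp.mem_support_iff.1 h (ps_eq_zero h'))

theorem pu2_massD {B : ℝ} {x : PX ι} (hx : Box B x) (b : Matrix ι ι ℝ) :
    mass (dpsF C x b) = ∑ γ ∈ pu2_S ι C B, dps C x b γ :=
  mass_eq_sum fun _ h =>
    pu2_mem hx (by_contra fun h' => Finsupp.mem_support_iff.1 h (dps_eq_zero b h'))

theorem pu2_cm (C : ℝ) : Continuous fun x : PX ι => mass (psF C x) := by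
  refine continuous_iff_continuousAt.2 fun x => ?_
  obtain ⟨B, -, hB⟩ := exists_box_nhds x
  exact (continuous_finsetSum (pu2_S ι C B) fun γ _ => pu2_ps C γ).continuousAt.congr
    (hB.mono fun y hy => (pu2_mass hy).symm)

theorem pu2_cmD (C : ℝ) : Continuous fun p : PX ι × Matrix ι ι ℝ => mass (dpsF C p.1 p.2) := by
  refine continuous_iff_continuousAt.2 fun p => ?_
  obtain ⟨B, -, hB⟩ := exists_box_nhds p.1
  exact (continuous_finsetSum (pu2_S ι C B) fun γ _ => pu2_dps C γ).continuousAt.congr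
    ((continuous_fst.continuousAt.eventually hB).mono fun q hq => (pu2_massD hq q.2).symm)

theorem pu2_ci (h : Cov ι C) : Continuous fun x : PX ι => (mass (psF C x))⁻¹ :=
  (pu2_cm C).inv₀ fun x => (lt_of_lt_of_le one_pos (one_le_mass h x)).ne'

theorem pu2_apply (C : ℝ) (x : PX ι) (γ : GL ι ℤ) :
    puF C x γ = (mass (psF C x))⁻¹ * ps C x γ := rfl

theorem puF_cont (h : Cov ι C) (γ : GL ι ℤ) : Continuous fun x : PX ι => puF C x γ :=
  (pu2_ci h).mul (pu2_ps C γ)

theorem puD_cont (h : Cov ι C) (γ : GL ι ℤ) :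
    Continuous fun p : PX ι × Matrix ι ι ℝ => puD C p.1 p.2 γ := by
  simp only [puD_apply]
  exact (((pu2_ci h).comp continuous_fst).mul (pu2_dps C γ)).sub
    ((((pu2_ci h).comp continuous_fst).pow 2).mul
      ((pu2_cmD C).mul ((pu2_ps C γ).comp continuous_fst)))

/-- The bump as a function of the matrix. -/
def pu2_f (C : ℝ) (γ : GL ι ℤ) (P : Matrix ι ι ℝ) : ℝ :=
  max (C - Sy (cj (cR γ⁻¹ : Matrix ι ι ℝ) P)) 0 ^ (Fintype.card ι ^ 2 + 2)

theorem pu2_f_val (C : ℝ) (γ : GL ι ℤ) (z : PX ι) : pu2_f C γ z.1 = ps C z γ := rfl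

theorem pu2_der (C : ℝ) (γ : GL ι ℤ) {P E : Matrix ι ι ℝ} {t : ℝ} {z : PX ι}
    (hz : z.1 = P + t • E) : HasDerivAt (fun s : ℝ => pu2_f C γ (P + s • E)) (dps C z E γ) t := by
  have e : (γ⁻¹ • z).1 = cj (cR γ⁻¹ : Matrix ι ι ℝ) P + t • cj (cR γ⁻¹ : Matrix ι ι ℝ) E := by
    rw [← map_smul, ← map_add, ← hz]
    rfl
  have h1 := (hasDerivAt_Sy (cj (cR γ⁻¹ : Matrix ι ι ℝ) E)
    (e ▸ (γ⁻¹ • z).2.isUnit_det)).const_sub C
  have h2 := (hasDerivAt_max_pow (Fintype.card ι ^ 2) _).comp t h1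
  rw [← e] at h2
  simp only [pu2_f, map_add, map_smul]
  refine h2.congr_deriv ?_
  simp only [dps]
  push_cast
  ring

theorem pu2_mvt (h : Cov ι C) {B δ : ℝ} {x y : PX ι} (hx : Box B x) (hy : Box B y)
    (hn : Near δ x y) (γ : GL ι ℤ) : ∃ z : PX ι, Box B z ∧ Near δ x z ∧
      puF C y γ - puF C x γ = puD C z (y.1 - x.1) γ := by
  let φ : ℝ → ℝ := fun s => (∑ γ' ∈ pu2_S ι C B, pu2_f C γ' (x.1 + s • (y.1 - x.1)))⁻¹ *
    pu2_f C γ (x.1 + s • (y.1 - x.1))
  have hv : ∀ (s : ℝ) (z : PX ι), z.1 = x.1 + s • (y.1 - x.1) → Box B z → φ s = puF C z γ := by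
    intro s z hz hB
    simp only [φ, ← hz, pu2_f_val, pu2_apply, pu2_mass hB]
  have hd : ∀ (s : ℝ) (z : PX ι), z.1 = x.1 + s • (y.1 - x.1) → Box B z →
      HasDerivAt φ (puD C z (y.1 - x.1) γ) s := by
    intro s z hz hB
    have h0 : mass (psF C z) ≠ 0 := (lt_of_lt_of_le one_pos (one_le_mass h z)).ne'
    have e : ∑ γ' ∈ pu2_S ι C B, pu2_f C γ' (x.1 + s • (y.1 - x.1)) = mass (psF C z) := by
      simp only [← hz, pu2_f_val, pu2_mass hB]
    have h1 := HasDerivAt.fun_sum (u := pu2_S ι C B) fun γ' _ => pu2_der C γ' hz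
    have h2 := (h1.fun_inv (e ▸ h0)).fun_mul (pu2_der C γ hz)
    refine h2.congr_deriv ?_
    rw [e, ← pu2_massD hB, ← hz, pu2_f_val, puD_apply]
    field_simp
    ring
  have hc : ∀ s ∈ Set.Icc (0 : ℝ) 1, DifferentiableAt ℝ φ s := fun s hs =>
    let ⟨z, hz, hB, _⟩ := hx.seg hy hn hs.1 hs.2
    (hd s z hz hB).differentiableAt
  obtain ⟨c, hc', e⟩ := exists_deriv_eq_slope φ one_pos
    (fun s hs => (hc s hs).continuousAt.continuousWithinAt)
    (fun s hs => (hc s (Set.Ioo_subset_Icc_self hs)).differentiableWithinAt)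
  obtain ⟨z, hz, hB, hN⟩ := hx.seg hy hn hc'.1.le hc'.2.le
  refine ⟨z, hB, hN, ?_⟩
  rw [(hd c z hz hB).deriv, hv 1 y (by simp) hy, hv 0 x (by simp) hx] at e
  rw [e, sub_zero, div_one]

theorem pu2_unif (B : ℝ) {G : PX ι × PX ι → ℝ} (hG : Continuous G) (h0 : ∀ x, G (x, x) = 0)
    {η : ℝ} (hη : 0 < η) : ∃ δ₀ > 0, ∀ (δ : ℝ) (x z : PX ι), 0 ≤ δ → δ ≤ δ₀ → Box B x → Box B z →
      Near δ x z → G (x, z) ≤ η := by
  have hK := ((isCompact_box (ι := ι) B).prod (isCompact_box B)).inter_right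
    (isClosed_le (continuous_const (y := η)) hG)
  have hv : ∀ i j, Continuous fun x : PX ι => x.1 i j := fun i j =>
    continuous_subtype_val.matrix_elem i j
  have hd : Continuous fun p : PX ι × PX ι =>
      ‖fun q : ι × ι => p.1.1 q.1 q.2 - p.2.1 q.1 q.2‖ :=
    (continuous_pi fun q : ι × ι => ((hv q.1 q.2).comp continuous_fst).sub
      ((hv q.1 q.2).comp continuous_snd)).norm
  obtain ⟨a, ha, H⟩ := hK.exists_forall_le' hd.continuousOn (a := 0) fun p hp => by
    refine norm_pos_iff.2 fun e => ?_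
    have e1 : p.2 = p.1 := Subtype.ext (Matrix.ext fun i j => (sub_eq_zero.1 (congrFun e (i, j))).symm)
    have h1 : η ≤ G (p.1, p.2) := hp.2
    rw [e1, h0] at h1
    exact absurd hη (not_lt.2 h1)
  refine ⟨a / 2, half_pos ha, fun δ x z h1 h2 hx hz hn => ?_⟩
  by_contra hlt
  have h3 := H (x, z) ⟨⟨hx, hz⟩, (not_le.1 hlt).le⟩
  have h4 : ‖fun q : ι × ι => x.1 q.1 q.2 - z.1 q.1 q.2‖ ≤ δ :=
    (pi_norm_le_iff_of_nonneg h1).2 fun q => hn.entry q.1 q.2
  linarith

theorem pu2_exp (C : ℝ) (z : PX ι) (E : Matrix ι ι ℝ) (γ : GL ι ℤ) :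
    puD C z E γ = ∑ i, ∑ j, E i j * puD C z (Matrix.single i j 1) γ := by
  conv_lhs => rw [Matrix.matrix_eq_sum_single E]
  rw [map_sum, Finsupp.finsetSum_apply]
  refine Finset.sum_congr rfl fun i _ => ?_
  rw [map_sum, Finsupp.finsetSum_apply]
  refine Finset.sum_congr rfl fun j _ => ?_
  rw [← smul_eq_mul, ← Finsupp.smul_apply, ← map_smul, Matrix.smul_single, smul_eq_mul, mul_one]

/-- For each `γ` of the finite set, `s ↦ puF (x + s (y - x)) γ` has derivative
`puD (x + s (y-x)) (y - x) γ` on `[0, 1]` (write it as a quotient of finite sums of functions of the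
matrix `x + s • (y - x)`; `hasDerivAt_Sy`, `hasDerivAt_max_pow`, `Box.seg`). Mean value theorem,
`puD z (y - x) γ = ∑ (y - x) i j * puD z (single i j 1) γ`, uniform continuity on `isCompact_box`. -/
theorem pu_apx (h : Cov ι C) (B ε : ℝ) (hε : 0 < ε) : ∃ δ₀ > 0, ∀ (δ : ℝ) (x y : PX ι), 0 ≤ δ →
    δ ≤ δ₀ → Box B x → Box B y → Near δ x y →
      n1 (puF C y - puF C x - puD C x (y.1 - x.1)) ≤ ε * δ := by
  let G : PX ι × PX ι → ℝ := fun p => ∑ γ ∈ pu2_S ι C B, ∑ i, ∑ j,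
    |puD C p.2 (Matrix.single i j 1) γ - puD C p.1 (Matrix.single i j 1) γ|
  have hG : Continuous G := continuous_finsetSum _ fun γ _ => continuous_finsetSum _ fun i _ =>
    continuous_finsetSum _ fun j _ =>
      (((puD_cont h γ).comp (continuous_snd.prodMk continuous_const)).sub
        ((puD_cont h γ).comp (continuous_fst.prodMk continuous_const))).abs
  have hS : (0 : ℝ) < (pu2_S ι C B).card + 1 := by positivity
  obtain ⟨δ₀, hδ, H⟩ := pu2_unif B hG (fun x => by simp [G]) (div_pos hε hS)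
  refine ⟨δ₀, hδ, fun δ x y h0 h1 hx hy hn => ?_⟩
  have hsub : (puF C y - puF C x - puD C x (y.1 - x.1)).support ⊆ pu2_S ι C B := by
    intro γ hγ
    by_contra hn'
    refine Finsupp.mem_support_iff.1 hγ ?_
    rw [Finsupp.sub_apply, Finsupp.sub_apply,
      Finsupp.notMem_support_iff.1 fun h2 => hn' (pu2_mem hy (puF_supp y γ h2)),
      Finsupp.notMem_support_iff.1 fun h2 => hn' (pu2_mem hx (puF_supp x γ h2)),
      Finsupp.notMem_support_iff.1 fun h2 => hn' (pu2_mem hx (puD_supp x _ γ h2))]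
    simp
  rw [n1_eq_sum hsub]
  have hb : ∀ γ ∈ pu2_S ι C B, |(puF C y - puF C x - puD C x (y.1 - x.1)) γ| ≤
      δ * (ε / ((pu2_S ι C B).card + 1)) := by
    intro γ hγ
    obtain ⟨z, hz, hN, e⟩ := pu2_mvt h hx hy hn γ
    rw [Finsupp.sub_apply, Finsupp.sub_apply, e, pu2_exp C z, pu2_exp C x, ← Finset.sum_sub_distrib]
    refine le_trans ?_ (mul_le_mul_of_nonneg_left (le_trans (Finset.single_le_sum
      (f := fun γ => ∑ i, ∑ j,
        |puD C z (Matrix.single i j 1) γ - puD C x (Matrix.single i j 1) γ|)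
      (fun _ _ => by positivity) hγ) (H δ x z h0 h1 hx hz hN)) h0)
    rw [Finset.mul_sum]
    refine (Finset.abs_sum_le_sum_abs _ _).trans (Finset.sum_le_sum fun i _ => ?_)
    rw [← Finset.sum_sub_distrib, Finset.mul_sum]
    refine (Finset.abs_sum_le_sum_abs _ _).trans (Finset.sum_le_sum fun j _ => ?_)
    rw [← mul_sub, abs_mul]
    exact mul_le_mul_of_nonneg_right (hn.symm.entry i j) (abs_nonneg _)
  refine (Finset.sum_le_card_nsmul _ _ _ hb).trans ?_
  rw [nsmul_eq_mul, ← mul_div_assoc, ← mul_div_assoc, div_le_iff₀ hS]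
  nlinarith [mul_nonneg h0 hε.le]

theorem exists_PU (ι : Type) [Fintype ι] [DecidableEq ι] : Nonempty (PU ι) := by
  obtain ⟨C0, h1, H⟩ := red_exists ι
  have h : Cov ι (Fintype.card ι * C0 + 1) :=
    ⟨le_add_of_nonneg_left (mul_nonneg (Nat.cast_nonneg _) (zero_le_one.trans h1)), fun x =>
      let ⟨γ, hγ⟩ := H x
      ⟨γ, add_le_add_left (Sy_le_of_red hγ) 1⟩⟩
  obtain ⟨K, hK, HK⟩ := puD_grow h
  exact ⟨
    { φ := puF _
      D := puD _
      Gd := Gd _
      C := K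
      one_le := h.1.trans hK
      mas := mass_puF h
      nrm := n1_puF h
      eqv := puF_eqv
      eqvD := puD_eqv
      scl := puF_scl
      sclD := puD_scl
      tr := puD_tr
      supp := puF_supp
      suppD := puD_supp
      ent := fun _ _ hh Hx _ g1 _ g2 i j => (gd_ent h.1 hh Hx g1 g2 i j).trans
        (mul_le_mul_of_nonneg_right hK (zero_le_one.trans hh))
      fin := gd_box_finite _
      grow := HK
      cont := puF_cont h
      contD := puD_cont h
      apx := pu_apx h }⟩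

end

end Pool.Agent.Lib.MP_446a91_nt.Rk
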