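import Pool.Agent.Lib.MP_446a91_nt.Rk.Pu0

/-!
The partition of unity and its derivative.
-/

namespace Pool.Agent.Lib.MP_446a91_nt.Rk

open Matrix Filter Topology Pool.Agent.Lib.MP_446a91_nt.Sou

set_option linter.unusedSectionVars false

noncomputable section

variable {ι : Type} [Fintype ι] [DecidableEq ι]


/-- The bump. -/
def ps (C : ℝ) (x : PX ι) (γ : GL ι ℤ) : ℝ :=
  max (C - Sy (γ⁻¹ • x).1) 0 ^ (Fintype.card ι ^ 2 + 2)

/-- Its derivative. -/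
def dps (C : ℝ) (x : PX ι) (b : Matrix ι ι ℝ) (γ : GL ι ℤ) : ℝ :=
  -((Fintype.card ι ^ 2 + 2 : ℝ) * max (C - Sy (γ⁻¹ • x).1) 0 ^ (Fintype.card ι ^ 2 + 1) *
    dSy (γ⁻¹ • x).1 (cj (cR γ⁻¹ : Matrix ι ι ℝ) b))

theorem max_eq_zero {C : ℝ} {x : PX ι} {γ : GL ι ℤ} (h : γ ∉ Gd C x) :
    max (C - Sy (γ⁻¹ • x).1) 0 = 0 :=
  max_eq_right (by have : C < Sy (γ⁻¹ • x).1 := not_le.1 h; linarith)

theorem ps_eq_zero {C : ℝ} {x : PX ι} {γ : GL ι ℤ} (h : γ ∉ Gd C x) : ps C x γ = 0 := by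
  simp [ps, max_eq_zero h]

theorem dps_eq_zero {C : ℝ} {x : PX ι} (b : Matrix ι ι ℝ) {γ : GL ι ℤ} (h : γ ∉ Gd C x) :
    dps C x b γ = 0 := by
  simp [dps, max_eq_zero h]

/-- The bumps as a finitely supported function. -/
def psF (C : ℝ) (x : PX ι) : GL ι ℤ →₀ ℝ :=
  Finsupp.onFinset (gd_finite C x).toFinset (ps C x) fun γ h => by
    by_contra h'; exact h (ps_eq_zero (by simpa using h'))

/-- The derivatives as a finitely supported function. -/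
def dpsF (C : ℝ) (x : PX ι) : Matrix ι ι ℝ →ₗ[ℝ] (GL ι ℤ →₀ ℝ) where
  toFun b := Finsupp.onFinset (gd_finite C x).toFinset (dps C x b) fun γ h => by
    by_contra h'; exact h (dps_eq_zero b (by simpa using h'))
  map_add' a b := by ext γ; simp [dps, dSy_add]; ring
  map_smul' t a := by ext γ; simp [dps, dSy_smul_right]; ring

@[simp] theorem psF_apply (C : ℝ) (x : PX ι) (γ : GL ι ℤ) : psF C x γ = ps C x γ := rfl

@[simp] theorem dpsF_apply (C : ℝ) (x : PX ι) (b : Matrix ι ι ℝ) (γ : GL ι ℤ) :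
    dpsF C x b γ = dps C x b γ := rfl

/-- The mass as a linear map. -/
def massL {α : Type} : (α →₀ ℝ) →ₗ[ℝ] ℝ := Finsupp.linearCombination ℝ fun _ => (1 : ℝ)

theorem massL_apply {α : Type} (c : α →₀ ℝ) : massL c = mass c := by
  simp [massL, mass, Finsupp.linearCombination_apply]

/-- The partition of unity. -/
def puF (C : ℝ) (x : PX ι) : GL ι ℤ →₀ ℝ := (mass (psF C x))⁻¹ • psF C x

/-- Its derivative. -/
def puD (C : ℝ) (x : PX ι) : Matrix ι ι ℝ →ₗ[ℝ] (GL ι ℤ →₀ ℝ) :=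
  (mass (psF C x))⁻¹ • dpsF C x -
    ((mass (psF C x))⁻¹ ^ 2) • (massL ∘ₗ dpsF C x).smulRight (psF C x)

theorem puD_apply (C : ℝ) (x : PX ι) (b : Matrix ι ι ℝ) (γ : GL ι ℤ) :
    puD C x b γ = (mass (psF C x))⁻¹ * dps C x b γ -
      (mass (psF C x))⁻¹ ^ 2 * (mass (dpsF C x b) * ps C x γ) := by
  simp [puD, massL_apply]

variable (ι) in
/-- Every form has a very good basis. -/
def Cov (C : ℝ) : Prop := 1 ≤ C ∧ ∀ x : PX ι, ∃ γ : GL ι ℤ, Sy (γ⁻¹ • x).1 + 1 ≤ C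

end

end Pool.Agent.Lib.MP_446a91_nt.Rk
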