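import Pool.Agent.Lib.MP_446a91_nt.Rk.Om
import Pool.Agent.Lib.MP_446a91_nt.Rk.SdS
import Pool.Agent.Lib.MP_446a91_nt.Rk.Nf

/-!
Riemann sums.
-/

namespace Pool.Agent.Lib.MP_446a91_nt.Rk

open Matrix Filter Topology Pool.Agent.Lib.MP_446a91_nt.Sou

set_option linter.unusedSectionVars false

noncomputable section

variable {ι : Type} [Fintype ι] [DecidableEq ι] {d : ℕ}


theorem ev_map (ω : PX ι → Fm ι d) (g : GL ι ℝ) (w : List (PX ι)) :
    ev ω (w.map (g • ·)) =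
      ev (fun x => (ω (g • x)).compLinearMap fun _ => cj (g : Matrix ι ι ℝ)) w := by
  cases w with
  | nil => rfl
  | cons y w =>
    simp only [List.map_cons, ev, List.getD_map, smul_val, MultilinearMap.compLinearMap_apply,
      map_sub]

theorem RS_mp (k : ℕ) (ω : PX ι → Fm ι d) (g : GL ι ℝ) (z : Ch ℝ (PX ι)) :
    RS k ω (mp (g • ·) z) =
      RS k (fun x => (ω (g • x)).compLinearMap fun _ => cj (g : Matrix ι ι ℝ)) z := by
  rw [RS, RS, ← mp_sd_pow mid mid _ (smul_mid g), lin_mp]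
  simp only [ev_map]

theorem RS_sum {L : Type} (s : Finset L) (t : L → ℝ) (k : ℕ) (ω : L → PX ι → Fm ι d)
    (z : Ch ℝ (PX ι)) :
    RS k (fun x => ∑ l ∈ s, t l • ω l x) z = ∑ l ∈ s, t l * RS k (ω l) z := by
  have e : ev (fun x => ∑ l ∈ s, t l • ω l x) = fun w => ∑ l ∈ s, t l • ev (ω l) w := by
    funext w
    cases w <;> simp [ev]
  simp only [RS, e, lin_sum, lin_smul]
  rfl

/-- Define the field with a section of `exists_sec`; two sections differ by an orthogonal matrix. -/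
theorem IsFm.exists_ext {ω₀ : Fm ι d} (h : IsFm ω₀) : ∃ ω : PX ι → Fm ι d, Ext ω₀ ω := by
  choose s hs using exists_sec (ι := ι)
  refine ⟨fun x => ω₀.compLinearMap fun _ => cj ((s x)⁻¹ : GL ι ℝ), fun g a => ?_⟩
  have e : ((s (g • x1))⁻¹ * g) • (x1 : PX ι) = x1 := by rw [mul_smul, inv_smul_eq_iff, hs]
  have e' := congrArg Subtype.val e
  rw [smul_val, cj_apply] at e'
  simp only [MultilinearMap.compLinearMap_apply, ← cj_mul, ← Units.val_mul]
  exact h.inv _ (by simpa only [x1, Matrix.mul_one] using e') a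

/-- Telescoping. -/
theorem rs_tel {V : Type} [AddCommGroup V] [Module ℝ V] (m : MultilinearMap ℝ (fun _ : Fin d => V) ℝ)
    (a b : Fin d → V) :
    m a - m b = ∑ i, m fun j => if j < i then a j else if i = j then a j - b j else b j := by
  simpa using m.map_sub_map_piecewise a b Finset.univ

theorem rs_alt {V : Type} [AddCommGroup V] [Module ℝ V] (c : V [⋀^Fin (d + 1)]→ₗ[ℝ] ℝ) (a : V)
    (v : Fin d → V) : c (Fin.cons a v) = c (Fin.cons a fun i => v i - a) := by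
  refine sub_eq_zero.1 ((rs_tel (c.toMultilinearMap.curryLeft a) v fun i => v i - a).trans
    (Finset.sum_eq_zero fun i _ => ?_))
  exact c.map_eq_zero_of_eq _ (i := 0) (j := i.succ) (by simp) (Fin.succ_ne_zero i).symm

theorem rs_ent {T : Set (GL ι ℤ)} (hT : T.Finite) : ∃ B, 1 ≤ B ∧ ∀ a ∈ T, ∀ b ∈ T, Ent B a b := by
  have := hT.to_subtype
  obtain ⟨B, hB⟩ := Finite.exists_le fun p : T × T × ι × ι =>
    |(((p.1.1⁻¹ * p.2.1.1 : GL ι ℤ) p.2.2.1 p.2.2.2 : ℤ) : ℝ)|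
  exact ⟨max 1 B, le_max_left _ _, fun a ha b hb i j =>
    (hB (⟨a, ha⟩, ⟨b, hb⟩, i, j)).trans (le_max_right _ _)⟩

/-- The number of small simplices times their volume is bounded. -/
theorem rs_sum_le {z : Ch ℝ (PX ι)} (hz : z ∈ len ℝ (PX ι) (d + 1)) {P : List (PX ι) → Prop}
    {k : ℕ} (hP : (sd ℝ mid ^ k) z ∈ sp ℝ P) {κ : List (PX ι) → ℝ} {E L : ℝ} (hE : 0 ≤ E)
    (hL : 0 ≤ L) (h : ∀ u, P u → |κ u| ≤ E * (L / 2 ^ k) ^ d) :
    |lin ℝ κ ((sd ℝ mid ^ k) z)| ≤ E * (L ^ d * n1 z) := by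
  refine (abs_lin_le h hP).trans ((mul_le_mul_of_nonneg_left (n1_sd_pow mid d k hz)
    (by positivity)).trans_eq ?_)
  rw [div_pow, ← pow_mul, mul_comm k d]
  field_simp

theorem rs_getD {y : PX ι} {w : List (PX ι)} (i : ℕ) : w.getD i y ∈ y :: w := by
  rcases lt_or_ge i w.length with h | h
  · rw [List.getD_eq_getElem _ _ h]
    exact List.mem_cons_of_mem _ (List.getElem_mem h)
  · rw [List.getD_eq_default _ _ h]
    exact List.mem_cons_self

/-- The estimate for one word. -/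
theorem rs_word (U : PU ι) {c : (GL ι ℤ →₀ ℝ) [⋀^Fin (d + 1)]→ₗ[ℝ] ℝ} {C : ℝ} (h : Gr c C) {B : ℝ}
    (hB : 1 ≤ B) : ∃ K, 0 ≤ K ∧ ∀ ε, 0 < ε → ε ≤ 1 → ∃ δ₀ > 0, ∀ δ, 0 ≤ δ → δ ≤ δ₀ → ∀ u,
      u.length = d + 1 ∧ Fine B δ u → |ev (om U c) u - evA c U.φ u| ≤ K * ε * δ ^ d := by
  obtain ⟨B', h1, hT⟩ := rs_ent (U.fin B)
  obtain ⟨M, hM⟩ : ∃ M, M = U.C * B ^ 2 * B + 1 := ⟨_, rfl⟩
  have hC := U.one_le
  have hM1 : 1 ≤ M := hM ▸ le_add_of_nonneg_left (by positivity)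
  have hK : 0 ≤ C * B' ^ (10 * d) := mul_nonneg h.pos (by positivity)
  refine ⟨d * (C * B' ^ (10 * d) * M ^ d), by positivity, fun ε h0 h0' => ?_⟩
  obtain ⟨δ₀, hδ₀, hA⟩ := U.apx B ε h0
  refine ⟨δ₀, hδ₀, fun δ d0 d1 u ⟨hl, hu⟩ => ?_⟩
  obtain _ | ⟨y, w⟩ := u
  · simp at hl
  have hy := hu y List.mem_cons_self
  have hw := fun i : Fin d => hu _ (rs_getD (y := y) (w := w) i)
  have e1 : evA c U.φ (y :: w) = c (Fin.cons (U.φ y) fun i => U.φ (w.getD i y) - U.φ y) := by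
    rw [← rs_alt, evA]
    congr 1
    funext i
    refine Fin.cases rfl (fun i => ?_) i
    have hi : i.1 < w.length := by
      have := i.2
      simp only [List.length_cons] at hl
      omega
    simp [hi]
  obtain ⟨p, hp⟩ : ∃ p, p = fun i : Fin d => U.D y ((w.getD i y).1 - y.1) := ⟨_, rfl⟩
  obtain ⟨q, hq⟩ : ∃ q, q = fun i : Fin d => U.φ (w.getD i y) - U.φ y := ⟨_, rfl⟩
  obtain ⟨S, hS⟩ : ∃ S, S = Finsupp.supported ℝ ℝ {γ | ∃ x, Box B x ∧ γ ∈ U.Gd x} := ⟨_, rfl⟩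
  have s1 : ∀ x, Box B x → U.φ x ∈ S := fun x hx =>
    hS ▸ (Finsupp.mem_supported ℝ _).2 fun γ hγ => ⟨x, hx, U.supp x γ hγ⟩
  have s2 : ∀ i, p i ∈ S := fun i =>
    hS ▸ hp ▸ (Finsupp.mem_supported ℝ _).2 fun γ hγ => ⟨y, hy.1, U.suppD y _ γ hγ⟩
  have s3 : ∀ i, q i ∈ S := fun i => hq ▸ S.sub_mem (s1 _ (hw i).1) (s1 _ hy.1)
  have n2 : ∀ i, n1 (p i) ≤ (M - 1) * δ := fun i => by
    have := U.grow (B ^ 2) y ((w.getD i y).1 - y.1) (B * δ) (one_le_pow₀ hB) (hy.1.ht hB)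
      (by positivity) fun v => by
        rw [qf_sub]
        refine ((hw i).2 y List.mem_cons_self v).trans ?_
        have := mul_le_mul_of_nonneg_left (hy.1 v).1 d0
        linarith
    rw [hp, hM]
    linarith
  have n3 : ∀ i, n1 (q i - p i) ≤ ε * δ := fun i =>
    hq ▸ hp ▸ hA δ y _ d0 d1 hy.1 (hw i).1 (hy.2 _ (rs_getD i))
  have n4 : ∀ i, n1 (q i) ≤ M * δ := fun i => by
    have := n1_add_le (q i - p i) (p i)
    rw [sub_add_cancel] at this
    linarith [n2 i, n3 i, mul_le_of_le_one_left d0 h0']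
  have key : ∀ v : Fin d → GL ι ℤ →₀ ℝ, (∀ j, v j ∈ S) → ∀ i,
      (∀ j, n1 (v j) ≤ (if j = i then ε else 1) * (M * δ)) →
      |c (Fin.cons (U.φ y) v)| ≤ C * B' ^ (10 * d) * (ε * (M * δ) ^ d) := fun v hv i hn => by
    have s4 : ∀ j, (Fin.cons (U.φ y) v : Fin (d + 1) → GL ι ℤ →₀ ℝ) j ∈ S :=
      fun j => Fin.cases (s1 y hy.1) hv j
    refine (h.bnd B' _ h1 fun j j' a ha b hb => hT a ((Finsupp.mem_supported ℝ _).1 (hS ▸ s4 j) ha)
      b ((Finsupp.mem_supported ℝ _).1 (hS ▸ s4 j') hb)).trans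
      (mul_le_mul_of_nonneg_left ?_ hK)
    rw [Fin.prod_univ_succ]
    refine (mul_le_of_le_one_left (Finset.prod_nonneg fun j _ => n1_nonneg _) (U.nrm y)).trans
      ((Finset.prod_le_prod (fun j _ => n1_nonneg _) fun j _ => hn j).trans_eq ?_)
    rw [Finset.prod_mul_distrib]
    simp
  have e2 : ev (om U c) (y :: w) = c.toMultilinearMap.curryLeft (U.φ y) p := hp ▸ rfl
  have e3 : evA c U.φ (y :: w) = c.toMultilinearMap.curryLeft (U.φ y) q := hq ▸ e1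
  rw [abs_sub_comm, e2, e3, rs_tel]
  refine (Finset.abs_sum_le_sum_abs _ _).trans ((Finset.sum_le_sum fun i _ =>
    key _ (fun j => ?_) i fun j => ?_).trans_eq ?_)
  · split_ifs
    exacts [s3 j, S.sub_mem (s3 j) (s2 j), s2 j]
  · by_cases e : j = i
    · subst e
      simp only [lt_irrefl, if_false, if_true]
      exact (n3 j).trans (mul_le_mul_of_nonneg_left (le_mul_of_one_le_left d0 hM1) h0.le)
    · simp only [e, Ne.symm e, if_false, one_mul]
      split_ifs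
      exacts [n4 j, (n2 j).trans (by linarith)]
  · simp only [Finset.sum_const, Finset.card_univ, Fintype.card_fin, nsmul_eq_mul, mul_pow]
    ring

/-- Expansion in elementary matrices. -/
theorem rs_expand (ω : PX ι → Fm ι d) (g : GL ι ℝ) {η t : ℝ} (hη : ∀ l, |Fa ω (El l) g| ≤ η)
    {a : Fin d → Matrix ι ι ℝ} (ha : ∀ i p q, |a i p q| ≤ t) :
    |Fa ω a g| ≤ Fintype.card (Fin d → ι × ι) * (t ^ d * η) := by
  obtain ⟨m, hm⟩ : ∃ m : Fm ι d, ∀ a, Fa ω a g = m a :=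
    ⟨(ω (g • x1)).compLinearMap fun _ => cj (g : Matrix ι ι ℝ), fun _ => rfl⟩
  have e : a = fun i => ∑ r : ι × ι, a i r.1 r.2 • Matrix.single r.1 r.2 (1 : ℝ) := by
    funext i
    simp only [Matrix.smul_single, smul_eq_mul, mul_one, Fintype.sum_prod_type]
    exact matrix_eq_sum_single _
  rw [hm, e, m.map_sum, ← nsmul_eq_mul, ← Finset.card_univ, ← Finset.sum_const]
  refine (Finset.abs_sum_le_sum_abs _ _).trans (Finset.sum_le_sum fun r _ => ?_)
  have h1 := hη fun x => if x.2 then (r x.1).2 else (r x.1).1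
  have h2 : ∏ i, |a i (r i).1 (r i).2| ≤ t ^ d := by
    simpa using Finset.prod_le_prod (s := Finset.univ) (fun i _ => abs_nonneg _)
      fun i _ => ha i (r i).1 (r i).2
  rw [hm] at h1
  rw [m.map_smul_univ, smul_eq_mul, abs_mul, Finset.abs_prod]
  exact mul_le_mul h2 h1 (abs_nonneg _) ((Finset.prod_nonneg fun i _ => abs_nonneg _).trans h2)

theorem rs_cj {g b : Matrix ι ι ℝ} {B δ : ℝ} (hB : 0 ≤ B) (hδ : 0 ≤ δ) (hg : ∀ i j, |g i j| ≤ B)
    (hb : ∀ i j, |b i j| ≤ δ) (p q : ι) : |cj g b p q| ≤ (Fintype.card ι * B) ^ 2 * δ := by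
  simp only [cj_apply, Matrix.mul_apply, transpose_apply, Finset.sum_mul]
  refine (Finset.abs_sum_le_sum_abs _ _).trans ((Finset.sum_le_sum fun s _ =>
    (Finset.abs_sum_le_sum_abs _ _).trans (Finset.sum_le_sum (g := fun _ => B * δ * B)
      fun r _ => ?_)).trans_eq ?_)
  · rw [abs_mul, abs_mul]
    exact mul_le_mul (mul_le_mul (hg _ _) (hb _ _) (abs_nonneg _) hB) (hg _ _) (abs_nonneg _)
      (by positivity)
  · simp only [Finset.sum_const, Finset.card_univ, nsmul_eq_mul]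
    ring

/-- For a fine word `y :: w`: `c (φ y, φ y₁, …) = c (φ y, φ y₁ - φ y, …)` (alternating); all supports
lie in the finite set `U.fin B`, so `|c u| ≤ K ∏ n1 (u i)`; telescope with `U.apx` and `U.grow`:
the difference is at most `K' ε δ^d`, `δ = (d+1) B / 2^k`, and there are `2^(d k)` terms. -/
theorem rs_lim (U : PU ι) {c : (GL ι ℤ →₀ ℝ) [⋀^Fin (d + 1)]→ₗ[ℝ] ℝ} {C : ℝ} (h : Gr c C)
    {z : Ch ℝ (PX ι)} (hz : z ∈ len ℝ (PX ι) (d + 1)) :
    Tendsto (fun k => RS k (om U c) z - lin ℝ (evA c U.φ) ((sd ℝ mid ^ k) z)) atTop (𝓝 0) := by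
  obtain ⟨B, hB, hF⟩ := exists_fine hz
  obtain ⟨K, hK, hW⟩ := rs_word U h hB
  obtain ⟨L, hL⟩ : ∃ L : ℝ, L = ((d + 1 : ℕ) : ℝ) * B := ⟨_, rfl⟩
  have L0 : 0 ≤ L := by rw [hL]; positivity
  have z0 := n1_nonneg z
  obtain ⟨R, hR⟩ : ∃ R, R = K * (L ^ d * n1 z) := ⟨_, rfl⟩
  have R0 : 0 ≤ R := by rw [hR]; positivity
  refine Metric.tendsto_nhds.2 fun e he => ?_
  obtain ⟨δ₀, hδ₀, hA⟩ := hW (min 1 (e / (R + 1))) (by positivity) (min_le_left _ _)
  have h1 : Tendsto (fun k : ℕ => L / 2 ^ k) atTop (𝓝 0) :=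
    tendsto_const_nhds.div_atTop (tendsto_pow_atTop_atTop_of_one_lt one_lt_two)
  filter_upwards [h1.eventually (ge_mem_nhds hδ₀)] with k hk
  rw [Real.dist_0_eq_abs, RS, ← lin_sub]
  refine (rs_sum_le hz (hL ▸ hF k) (by positivity) L0 (hA _ (by positivity) hk)).trans_lt ?_
  have h2 := mul_le_mul_of_nonneg_left (min_le_right 1 (e / (R + 1))) R0
  have h3 : (R + 1) * (e / (R + 1)) = e := mul_div_cancel₀ _ (by positivity)
  have h4 : 0 < e / (R + 1) := by positivity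
  rw [mul_right_comm, ← hR]
  linarith

/-- For a fine word write `y = g • x1` with `g ∈ Kb B`, edges `cj g (a i)` with entries of `a i` at
most `N^2 B^2 δ`, and expand in elementary matrices. -/
theorem rs_bound {z : Ch ℝ (PX ι)} (hz : z ∈ len ℝ (PX ι) (d + 1)) :
    ∃ B K : ℝ, 0 ≤ K ∧ ∀ (ω : PX ι → Fm ι d) (η : ℝ), 0 ≤ η →
      (∀ g ∈ Kb B, ∀ l, |Fa ω (El l) g| ≤ η) → ∀ k, |RS k ω z| ≤ K * η := by
  obtain ⟨B, hB, hF⟩ := exists_fine hz
  have z0 := n1_nonneg z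
  refine ⟨B, Fintype.card (Fin d → ι × ι) * ((Fintype.card ι * B) ^ 2) ^ d *
    ((((d + 1 : ℕ) : ℝ) * B) ^ d * n1 z), by positivity, fun ω η h0 hη k => ?_⟩
  rw [mul_right_comm]
  refine rs_sum_le hz (hF k) (by positivity) (by positivity) fun u ⟨hl, hu⟩ => ?_
  obtain _ | ⟨y, w⟩ := u
  · simp at hl
  obtain ⟨g, rfl⟩ := exists_sec y
  have hg := kb_of_box hB (hu _ List.mem_cons_self).1
  have e : ev ω (g • x1 :: w) = Fa ω (fun i => cj ((g⁻¹ : GL ι ℝ) : Matrix ι ι ℝ)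
      ((w.getD i (g • x1)).1 - (g • x1 : PX ι).1)) g := by
    simp only [ev, Fa, ← cj_mul, Units.mul_inv, cj_one]
  rw [e]
  refine (rs_expand ω g (hη g hg) fun i => rs_cj (by linarith) (by positivity)
    (fun p q => (hg p q).2) fun p q =>
      ((hu _ (rs_getD i)).2 _ List.mem_cons_self).entry p q).trans_eq ?_
  rw [mul_pow]
  ring

end

end Pool.Agent.Lib.MP_446a91_nt.Rk
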