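import Pool.Agent.Lib.MP_446a91_nt.Rk.Rs
import Pool.Agent.Lib.MP_446a91_nt.Rk.AltM
import Pool.Agent.Lib.MP_446a91_nt.Rk.Pu2
import Pool.Agent.Lib.MP_446a91_nt.Rk.Mg
import Pool.Agent.Lib.MP_446a91_nt.Rk.Erg
import Pool.Agent.Lib.MP_446a91_nt.Rk.Gen
import Pool.Agent.Lib.MP_446a91_nt.Rk.Ht

/-!
Hecke eigenclasses are limits of Riemann sums of invariant forms.
`exists_alt`, `exists_PU`, `ω = om U c`. Say `W ω'` if `RS k ω' (pt z) → κ z` for all cycles `z`.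
`W ω`: `rs_lim`, and `evA c φ` is an invariant cocycle on `PX`, `sd^k ~ id`. `T ω' x = average of the
pull-backs along `hR l`; `W ω' → W (T ω')` (`RS_mp`, `RS_sum`, `cyc`, `eig`), `Fa (T ω') a = av (Fa ω' a)`;
means. `ergodic` for each `Fa ω a` (growth: `t^(11 d) ≤ (1+f)^(1/2)` as `88 d ≤ N - 1`, `Ht.right`;
compactness: `mahler`, `h ≤ h^(N-1) ≤ (1+B)^4`); `ω₀ a` = the limit, multilinear etc. by uniqueness of
limits; `rs_bound` for the difference of the mean and the invariant field.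
-/

namespace Pool.Agent.Lib.MP_446a91_nt.Rk

open Matrix Filter Topology Pool.Agent.Lib.MP_446a91_nt.Sou

set_option linter.unusedSectionVars false

noncomputable section

variable {ι : Type} [Fintype ι] [DecidableEq ι] {d : ℕ}


section hecke
variable {L : Type} [Fintype L] (h : L → GL ι ℝ)

/-- The pull-back of a field of forms. -/
def pb (ω : PX ι → Fm ι d) (g : GL ι ℝ) : PX ι → Fm ι d :=
  fun x => (ω (g • x)).compLinearMap fun _ => cj (g : Matrix ι ι ℝ)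

/-- The Hecke operator on fields of forms. -/
def Tw (ω : PX ι → Fm ι d) : PX ι → Fm ι d :=
  fun x => ∑ l, (Fintype.card L : ℝ)⁻¹ • pb ω (h l) x

/-- The Cesàro means. -/
def Cw (J : ℕ) (ω : PX ι → Fm ι d) : PX ι → Fm ι d :=
  fun x => ∑ j ∈ Finset.range (J + 1), ((J : ℝ) + 1)⁻¹ • (Tw h)^[j] ω x

theorem Fa_Tw (ω : PX ι → Fm ι d) (a : Fin d → Matrix ι ι ℝ) : Fa (Tw h ω) a = av h (Fa ω a) := by
  funext g
  simp [Fa, Tw, pb, av, mul_smul, cj_mul, div_eq_inv_mul, Finset.mul_sum]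

theorem Fa_iter (j : ℕ) (ω : PX ι → Fm ι d) (a : Fin d → Matrix ι ι ℝ) :
    Fa ((Tw h)^[j] ω) a = (av h)^[j] (Fa ω a) := by
  induction j with
  | zero => rfl
  | succ j ih => rw [Function.iterate_succ_apply', Function.iterate_succ_apply', Fa_Tw, ih]

theorem Fa_Cw (J : ℕ) (ω : PX ι → Fm ι d) (a : Fin d → Matrix ι ι ℝ) (g : GL ι ℝ) :
    Fa (Cw h J ω) a g = ces h J (Fa ω a) g := by
  simp only [ces, ← Fa_iter]
  simp [Fa, Cw, div_eq_inv_mul, Finset.mul_sum]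

theorem ces_mul (J : ℕ) (s : ℝ) (F : GL ι ℝ → ℝ) (g : GL ι ℝ) :
    ces h J (fun x => s * F x) g = s * ces h J F g := by
  have e : ∀ j, (av h)^[j] (fun x => s * F x) = fun x => s * (av h)^[j] F x := fun j => by
    induction j with
    | zero => rfl
    | succ j ih =>
      rw [Function.iterate_succ_apply', Function.iterate_succ_apply', ih]
      funext x
      simp [av, Finset.mul_sum, mul_div_assoc, Finset.sum_div]
  simp [ces, e, Finset.mul_sum, mul_div_assoc, Finset.sum_div]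

theorem ces_right (J : ℕ) (k : GL ι ℝ) (F : GL ι ℝ → ℝ) (g : GL ι ℝ) :
    ces h J (fun x => F (x * k)) g = ces h J F (g * k) := by
  have e : ∀ j, (av h)^[j] (fun x => F (x * k)) = fun x => (av h)^[j] F (x * k) := fun j => by
    induction j with
    | zero => rfl
    | succ j ih =>
      rw [Function.iterate_succ_apply', Function.iterate_succ_apply', ih]
      funext x
      simp [av, mul_assoc]
  simp [ces, e]

end hecke

theorem RS_sub (k : ℕ) (ω ω' : PX ι → Fm ι d) (z : Ch ℝ (PX ι)) :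
    RS k (fun x => ω x - ω' x) z = RS k ω z - RS k ω' z := by
  have : ev (fun x => ω x - ω' x) = fun w => ev ω w - ev ω' w := by
    funext w; cases w <;> simp [ev]
  rw [RS, this, lin_sub]; rfl

section conv
variable {r : ℕ} {H : Hk ι r} {t : ℝˣ} {Y : Type} [MulAction (GL ι ℤ) Y] (S : HS H t Y d)
  (κ : List Y → ℝ)

/-- The Riemann sums of `ω` compute the class of `κ`. -/
def Cv (ω : PX ι → Fm ι d) : Prop := ∀ z ∈ Zc ℤ Y (GL ι ℤ) (d + 1),
  Tendsto (fun k => RS k ω (mp S.pt (bc ℝ z))) atTop (𝓝 (lin ℤ κ z))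

variable {S κ}

theorem Cv.tw [Fintype (Lb ι r)] [Nonempty (Lb ι r)] (hκ : S.Eig κ) {ω : PX ι → Fm ι d}
    (h : Cv S κ ω) : Cv S κ (Tw (H.hR t) ω) := by
  intro z hz
  have hc : (Fintype.card (Lb ι r) : ℝ) ≠ 0 := by exact_mod_cast Fintype.card_ne_zero
  have h1 := (h _ (S.cyc z hz)).const_mul (Fintype.card (Lb ι r) : ℝ)⁻¹
  rw [hκ.eig z hz, inv_mul_cancel_left₀ hc] at h1
  refine h1.congr fun k => ?_
  have e : ∀ l, mp S.pt (bc ℝ (mp (S.op l) z)) = mp (H.hR t l • ·) (mp S.pt (bc ℝ z)) := fun l => by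
    rw [bc_mp, mp_mp, mp_mp]
    congr 2
    funext y
    exact S.pt_op l y
  unfold Tw pb
  rw [RS_sum, ← Finset.mul_sum]
  simp only [← RS_mp, ← e]
  simp only [RS, map_sum]

theorem Cv.cw [Fintype (Lb ι r)] [Nonempty (Lb ι r)] (hκ : S.Eig κ) {ω : PX ι → Fm ι d}
    (h : Cv S κ ω) (J : ℕ) : Cv S κ (Cw (H.hR t) J ω) := by
  have h1 : ∀ j, Cv S κ ((Tw (H.hR t))^[j] ω) := fun j => by
    induction j with
    | zero => exact h
    | succ j ih => rw [Function.iterate_succ_apply']; exact ih.tw hκ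
  intro z hz
  have h2 := tendsto_finsetSum (Finset.range (J + 1))
    fun j _ => (h1 j z hz).const_mul ((J : ℝ) + 1)⁻¹
  have hJ : ((J : ℝ) + 1) ≠ 0 := by positivity
  rw [Finset.sum_const, Finset.card_range, nsmul_eq_mul, Nat.cast_add_one,
    mul_inv_cancel_left₀ hJ] at h2
  refine h2.congr fun k => ?_
  unfold Cw
  rw [RS_sum]

theorem evA_inv (U : PU ι) {c : (GL ι ℤ →₀ ℝ) [⋀^Fin (d + 1)]→ₗ[ℝ] ℝ} {C : ℝ} (h : Gr c C) :
    Inv (GL ι ℤ) (evA c U.φ) := by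
  intro γ w
  unfold evA
  rw [← h.inv γ fun i => (w.map U.φ).getD i 0]
  congr 1
  funext i
  simp only [List.map_map, List.getD_eq_getElem?_getD, List.getElem?_map]
  cases w[(i : ℕ)]? <;> simp [U.eqv]

theorem exists_cv (hκ : S.Eig κ) (U : PU ι) :
    ∃ (c : (GL ι ℤ →₀ ℝ) [⋀^Fin (d + 1)]→ₗ[ℝ] ℝ) (C : ℝ), Gr c C ∧ Cv S κ (om U c) := by
  obtain ⟨c, C, hG, h1, h2⟩ := exists_alt S.inc S.inc_mul d κ hκ.inv hκ.coc
  refine ⟨c, C, hG, fun z hz => ?_⟩
  have hz' : mp S.pt (bc ℝ z) ∈ Zc ℝ (PX ι) (GL ι ℤ) (d + 1) :=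
    mp_Zc _ (fun γ => ⟨γ, S.pt_smul γ⟩) (bc_Zc hz)
  have hs : CMap (GL ι ℤ) (sd ℝ (mid : PX ι → PX ι → PX ι)) :=
    sd_cmap _ fun γ a b => smul_mid (cR γ) a b
  have e : ∀ k, lin ℝ (evA c U.φ) ((sd ℝ mid ^ k) (mp S.pt (bc ℝ z))) = lin ℤ κ z := fun k => by
    have h3 := lin_Bd (evA_inv U hG) (h1 _ U.φ U.mas)
      ((hs.pow k).homotopic CMap.id id (fun _ _ => rfl) hz')
    rw [map_sub, sub_eq_zero] at h3
    rw [h3, LinearMap.id_apply, lin_mp, ← lin_bc (A := ℝ),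
      ← h2 (fun y => U.φ (S.pt y)) (fun y => U.mas _) (fun γ y => by rw [S.pt_smul, U.eqv]) _
        (bc_Zc hz)]
    congr 2
    funext w
    simp [evA, Function.comp_def]
  have h4 := (rs_lim U hG hz'.1).add_const (lin ℤ κ z)
  simp only [e, sub_add_cancel, zero_add] at h4
  exact h4

end conv

theorem grow_small {K f h ε : ℝ} {n m : ℕ} (hK : 0 ≤ K) (hf : 0 ≤ f) (hh : 1 ≤ h) (hε : 0 < ε)
    (hn : 8 * n ≤ m) (hm : h ^ m ≤ (1 + f) ^ 4) : K * h ^ n ≤ ε * f + (ε + K ^ 2 / ε) := by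
  have h1 : ((h ^ n) ^ 2) ^ 4 ≤ (1 + f) ^ 4 := by
    rw [← pow_mul, ← pow_mul]
    exact (pow_le_pow_right₀ hh (by omega)).trans hm
  have h2 : (h ^ n) ^ 2 ≤ 1 + f := le_of_pow_le_pow_left₀ (by norm_num) (by positivity) h1
  have h3 : 0 ≤ h ^ n := by positivity
  have h4 : K * h ^ n ≤ ε * (h ^ n) ^ 2 + K ^ 2 / ε := by
    rw [← sub_le_iff_le_add', le_div_iff₀ hε]
    nlinarith [sq_nonneg (ε * h ^ n - K), mul_nonneg (mul_nonneg hε.le hK) h3]
  nlinarith

theorem rt1 (hd : 1 ≤ d) (hN : 88 * d + 1 ≤ Fintype.card ι) : ∃ r : ℕ, r.Prime ∧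
    ∀ (H : Hk ι r) (t : ℝˣ), (t : ℝ) = r → ∀ (Y : Type) [MulAction (GL ι ℤ) Y] (S : HS H t Y d)
      (κ : List Y → ℝ), S.Eig κ → ∃ ω₀ : Fm ι d, IsFm ω₀ ∧ ∀ ω, Ext ω₀ ω →
        ∀ z ∈ Zc ℤ Y (GL ι ℤ) (d + 1),
          Tendsto (fun k => RS k ω (mp S.pt (bc ℝ z))) atTop (𝓝 (lin ℤ κ z)) := by
  have hN2 : 2 ≤ Fintype.card ι := by omega
  obtain ⟨r, hr, hM⟩ := mg_main hN2
  refine ⟨r, hr, fun H t ht Y _ S κ hκ => ?_⟩
  have : NeZero r := ⟨hr.ne_zero⟩
  have : Nonempty ι := Fintype.card_pos_iff.1 (by omega)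
  have := lb_nonempty (ι := ι) hr
  obtain ⟨f, b, hf, hb, hT, hH⟩ := hM H t ht
  obtain ⟨U⟩ := exists_PU ι
  obtain ⟨c, C, hG, hcv⟩ := exists_cv hκ U
  obtain ⟨C₀, hC₀, hred⟩ := red_exists ι
  have hK : ∀ B : ℝ, ∃ K : Set (GL ι ℝ), IsCompact K ∧ ∀ g, f g ≤ B →
      ∃ s ∈ (Sg : Subgroup (GL ι ℝ)), ∃ k ∈ K, g = s * k := fun B =>
    ⟨_, isCompact_Kb (C₀ * (1 + B) ^ 4), fun g hg => by
      obtain ⟨h, h1, h2, h3⟩ := hH g
      have h4 : h ≤ (1 + B) ^ 4 :=
        ((le_self_pow₀ h1 (by omega)).trans h3).trans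
          (pow_le_pow_left₀ (by have := hf g; positivity) (by linarith) 4)
      exact mahler hC₀ hred (h1.trans h4) g (h2.mono h4)⟩
  have hE : ∀ a : Fin d → Matrix ι ι ℝ, ∃ c₀ : ℝ, ∀ K : Set (GL ι ℝ), IsCompact K → ∀ ε > 0,
      ∀ᶠ J in (hyperfilter ℕ : Filter ℕ), ∀ g ∈ K, |ces (H.hR t) J (Fa (om U c) a) g - c₀| ≤ ε := by
    intro a
    refine ergodic (H.hR t) Sg f b hf hb hT (H.perm_Sg hr ht) hK
      (fun M hM hS hl => gen_top hr.two_le hN2 H ht (Classical.arbitrary _) M hM hS (hl _)) _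
      (Fa_cont U a) (Fa_Sg U hG a) box_two_nhds fun ε hε => ?_
    obtain ⟨K, hK0, hK1⟩ := Fa_grow U hG a
    refine ⟨ε + (K * 4 ^ (11 * d)) ^ 2 / ε, fun g u hu => ?_⟩
    obtain ⟨h, h1, h2, h3⟩ := hH g
    refine (hK1 (4 * h) _ (by linarith) (h2.right hu)).trans ?_
    rw [mul_pow, ← mul_assoc]
    exact grow_small (by positivity) (hf g) h1 hε (by omega) h3
  choose cst hcst using hE
  have hlim : ∀ a g, Tendsto (fun J => ces (H.hR t) J (Fa (om U c) a) g)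
      (hyperfilter ℕ : Filter ℕ) (𝓝 (cst a)) := fun a g =>
    Metric.tendsto_nhds.2 fun ε hε => (hcst a {g} isCompact_singleton (ε / 2) (by positivity)).mono
      fun J hJ => by
        have := hJ g rfl
        rw [Real.dist_eq]; linarith
  have hone : ∀ a, Tendsto (fun J => Cw (H.hR t) J (om U c) x1 a) (hyperfilter ℕ : Filter ℕ)
      (𝓝 (cst a)) := fun a => (hlim a 1).congr fun J => by
    rw [← Fa_Cw]; simp [Fa, cj_one]
  let ω₀ : Fm ι d :=
    { toFun := cst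
      map_update_add' := fun a i x y => tendsto_nhds_unique (hone _)
        (((hone _).add (hone _)).congr fun J => (MultilinearMap.map_update_add _ a i x y).symm)
      map_update_smul' := fun a i s x => tendsto_nhds_unique (hone _)
        (((hone _).const_smul s).congr fun J => (MultilinearMap.map_update_smul _ a i s x).symm) }
  refine ⟨ω₀, ⟨fun σ a => ?_, fun a i => ?_, fun k hk a => ?_⟩, fun ω hω z hz => ?_⟩
  · refine tendsto_nhds_unique (hlim _ 1) (((hlim a 1).const_mul _).congr fun J => ?_)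
    rw [← ces_mul]
    congr 1
    funext g
    exact (om_alt U _ σ fun i => cj (g : Matrix ι ι ℝ) (a i)).symm
  · refine tendsto_nhds_unique (hlim _ 1) ((hlim a 1).congr fun J => ?_)
    congr 1
    funext g
    rw [Fa, Fa, ← om_tr U _ _ i]
    congr 1
    funext j
    by_cases hj : j = i
    · subst hj; simp [cj_apply, Matrix.mul_assoc]
    · simp [Function.update_of_ne hj]
  · let k' : GL ι ℝ := ⟨k, kᵀ, hk, mul_eq_one_comm.1 hk⟩
    refine tendsto_nhds_unique (hlim _ 1) ((hlim a (1 * k')).congr fun J => ?_)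
    rw [← ces_right]
    congr 1
    funext g
    exact (Fa_orth _ a g k' hk).symm
  · have hz' : mp S.pt (bc ℝ z) ∈ len ℝ (PX ι) (d + 1) := mp_len _ (bc_len hz.1)
    obtain ⟨B, K, hK0, hB⟩ := rs_bound hz'
    refine Metric.tendsto_nhds.2 fun ε hε => ?_
    have hη : 0 < ε / (2 * (K + 1)) := by positivity
    obtain ⟨J, hJ⟩ := (Filter.eventually_all.2 fun l : Fin d × Bool → ι =>
      hcst (El l) _ (isCompact_Kb B) _ hη).exists
    have h1 := hB (fun x => Cw (H.hR t) J (om U c) x - ω x) _ hη.le fun g hg l => by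
      have := hJ l g hg
      rw [← Fa_Cw] at this
      have e : Fa ω (El l) g = cst (El l) := hω g _
      rw [← e] at this
      exact this
    have h2 : K * (ε / (2 * (K + 1))) ≤ ε / 2 := by
      rw [← mul_div_assoc, div_le_div_iff₀ (by positivity) (by positivity)]
      nlinarith
    filter_upwards [Metric.tendsto_nhds.1 (hcv.cw hκ J z hz) (ε / 2) (by positivity)] with k hk
    have h3 := h1 k
    rw [RS_sub, abs_le] at h3
    rw [Real.dist_eq, abs_lt] at hk ⊢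
    constructor <;> linarith [h3.1, h3.2, hk.1, hk.2]

end

end Pool.Agent.Lib.MP_446a91_nt.Rk
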