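import Pool.Agent.Lib.MP_446a91_nt.Rk.Rt1
import Pool.Agent.Lib.MP_446a91_nt.Rk.Inv

/-!
Two eigenclasses are dependent on the image of `Xi`. Let `Δ k x = blk d k x 1` on forms; it
preserves midpoints, `pt (inc (blkG k γ)) = Δ k (γ • x1)`, so
`RS n ω (mp (Δ k) c) = RS n (pull-back) c` (`mp_sd_pow`), and at `x = g • x1`, `b = cj g a` the
pull-back of an invariant field is `ω₀ (blk d k a 0)` (`Ext` for `blkG ℝ d k g`).
-/

namespace Pool.Agent.Lib.MP_446a91_nt.Rk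

open Matrix Filter Topology Pool.Agent.Lib.MP_446a91_nt.Sou

set_option linter.unusedSectionVars false

noncomputable section

variable {ι : Type} [Fintype ι] [DecidableEq ι] {d : ℕ}


theorem Xi_term {Y : Type} [MulAction (GL (ι × Fin d) ℤ) Y] (inc : GL (ι × Fin d) ℤ → Y)
    (hinc : ∀ γ γ', inc (γ * γ') = γ • inc γ') (k : ℕ) {z : Ch ℤ (GL ι ℤ)}
    (hz : z ∈ Zc ℤ (GL ι ℤ) (GL ι ℤ) (d + 1)) :
    mp (fun g => inc (blkG ℤ d k g)) z ∈ Zc ℤ Y (GL (ι × Fin d) ℤ) (d + 1) :=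
  mp_Zc _ (fun g => ⟨blkG ℤ d k g, fun x => by rw [smul_eq_mul, map_mul, hinc]⟩) hz

theorem rt2_cj (k : ℕ) (g : GL ι ℝ) (a b : Matrix ι ι ℝ) :
    cj (blkG ℝ d k g : Matrix (ι × Fin d) (ι × Fin d) ℝ) (blk d k a b) =
      blk d k (cj (g : Matrix ι ι ℝ) a) b := by
  change blk d k (g : Matrix ι ι ℝ) 1 * _ * (blk d k (g : Matrix ι ι ℝ) 1)ᵀ = _
  simp only [blk, blockDiagonal_transpose, ← blockDiagonal_mul, cj_apply]
  congr 1; funext j; split_ifs <;> simp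

theorem rt2_one (k : ℕ) : blk d k (1 : Matrix ι ι ℝ) 1 = 1 := by
  simp only [blk, ite_self]; exact blockDiagonal_one

theorem rt2_x1 (k : ℕ) (g : GL ι ℝ) :
    (blkG ℝ d k g • (x1 : PX (ι × Fin d))).1 = blk d k (g • (x1 : PX ι)).1 1 := by
  rw [smul_val, smul_val, ← rt2_cj]
  exact congrArg _ (rt2_one k).symm

/-- The block map on forms. -/
def rt2D (d k : ℕ) (x : PX ι) : PX (ι × Fin d) := ⟨blk d k x.1 1, by
  obtain ⟨g, rfl⟩ := exists_sec x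
  exact rt2_x1 k g ▸ (blkG ℝ d k g • x1).2⟩

theorem rt2_smul (k : ℕ) (g : GL ι ℝ) : rt2D d k (g • (x1 : PX ι)) = blkG ℝ d k g • x1 :=
  Subtype.ext (rt2_x1 k g).symm

theorem rt2_cR (k : ℕ) (γ : GL ι ℤ) : cR (blkG ℤ d k γ) = blkG ℝ d k (cR γ) := by
  refine Units.ext ?_
  change (blk d k (γ : Matrix ι ι ℤ) 1).map (Int.cast : ℤ → ℝ) =
    blk d k ((γ : Matrix ι ι ℤ).map (Int.cast : ℤ → ℝ)) 1
  rw [blk, blk, blockDiagonal_map _ _ Int.cast_zero]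
  congr 1; funext j; split_ifs
  · rfl
  · exact Matrix.map_one _ Int.cast_zero Int.cast_one

theorem rt2_mid (k : ℕ) (x y : PX ι) : rt2D d k (mid x y) = mid (rt2D d k x) (rt2D d k y) := by
  refine Subtype.ext ?_
  change blk d k ((1 / 2 : ℝ) • (x.1 + y.1)) 1 = (1 / 2 : ℝ) • (blk d k x.1 1 + blk d k y.1 1)
  simp only [blk, ← blockDiagonal_add, ← blockDiagonal_smul]
  congr 1; funext j; simp only [Pi.smul_apply, Pi.add_apply]; split_ifs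
  · rfl
  · rw [← two_smul ℝ, smul_smul]; norm_num

theorem rt2_sub (k : ℕ) (x y : PX ι) : (rt2D d k x).1 - (rt2D d k y).1 = blk d k (x.1 - y.1) 0 := by
  change blk d k x.1 1 - blk d k y.1 1 = _
  simp only [blk, ← blockDiagonal_sub]
  congr 1; funext j; simp only [Pi.sub_apply]; split_ifs <;> simp

theorem rt2_ev {ω₀ : Fm (ι × Fin d) d} {ω : PX (ι × Fin d) → Fm (ι × Fin d) d} (h : Ext ω₀ ω)
    (g : GL ι ℝ) (w : List (PX ι)) :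
    ∑ k ∈ Finset.range (d + 1), (be d k : ℝ) • ev ω ((g • x1 :: w).map (rt2D d k)) =
      tl ω₀ fun i => cj ((g⁻¹ : GL ι ℝ) : Matrix ι ι ℝ) ((w.getD i (g • x1)).1 - (g • x1).1) := by
  refine Finset.sum_congr rfl fun k _ => congrArg _ ?_
  rw [← h (blkG ℝ d k g), ← rt2_smul, List.map_cons, ev]
  refine congrArg _ (funext fun i => ?_)
  rw [List.getD_map, rt2_sub, rt2_cj, ← cj_mul, Units.mul_inv, cj_one]

theorem rt2_RS {Y : Type} (inc : GL (ι × Fin d) ℤ → Y) (pt : Y → PX (ι × Fin d))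
    (h : ∀ γ, pt (inc γ) = γ • x1) (n : ℕ) (ω : PX (ι × Fin d) → Fm (ι × Fin d) d)
    (z : Ch ℤ (GL ι ℤ)) : RS n ω (mp pt (bc ℝ (Xi d inc z))) =
      lin ℝ (fun w => ∑ k ∈ Finset.range (d + 1), (be d k : ℝ) • ev ω (w.map (rt2D d k)))
        ((sd ℝ mid ^ n) (mp (· • x1) (bc ℝ z))) := by
  rw [lin_sum, RS, Xi, LinearMap.sum_apply, map_sum, map_sum, map_sum, map_sum]
  refine Finset.sum_congr rfl fun k _ => ?_
  have e : (pt ∘ fun g => inc (blkG ℤ d k g)) = rt2D d k ∘ (· • x1) := funext fun g => by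
    change pt (inc _) = rt2D d k (cR g • x1)
    rw [h, zsmul_def, rt2_cR, rt2_smul]
  rw [LinearMap.smul_apply, map_zsmul, map_zsmul, map_zsmul, map_zsmul, lin_smul, bc_mp, mp_mp, e,
    ← mp_mp, ← mp_sd_pow mid mid _ (rt2_mid k), lin_mp, Int.cast_smul_eq_zsmul]

theorem rt2 (hd : 1 ≤ d) (hN : 89 * d ≤ Fintype.card ι) : ∃ r : ℕ, r.Prime ∧
    ∀ (H : Hk (ι × Fin d) r) (t : ℝˣ), (t : ℝ) = r →
      ∀ (Y : Type) [MulAction (GL (ι × Fin d) ℤ) Y] (S : HS H t Y d) (κ₁ κ₂ : List Y → ℝ),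
        S.Eig κ₁ → S.Eig κ₂ → ∃ s t : ℝ, (s ≠ 0 ∨ t ≠ 0) ∧
          ∀ z ∈ Zc ℤ (GL ι ℤ) (GL ι ℤ) (d + 1),
            s * lin ℤ κ₁ (Xi d S.inc z) + t * lin ℤ κ₂ (Xi d S.inc z) = 0 := by
  obtain ⟨r, hr, h⟩ := rt1 (ι := ι × Fin d) hd (by
    rw [Fintype.card_prod, Fintype.card_fin]
    exact le_trans (by omega) (Nat.le_mul_of_pos_right _ hd))
  refine ⟨r, hr, fun H t ht Y _ S κ₁ κ₂ e₁ e₂ => ?_⟩
  obtain ⟨ω₁, f₁, l₁⟩ := h H t ht Y S κ₁ e₁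
  obtain ⟨ω₂, f₂, l₂⟩ := h H t ht Y S κ₂ e₂
  obtain ⟨a, b, hab, h0⟩ := tl_dependent (by omega) f₁ f₂
  obtain ⟨Ω₁, x₁⟩ := f₁.exists_ext
  obtain ⟨Ω₂, x₂⟩ := f₂.exists_ext
  refine ⟨a, b, hab, fun z hz => ?_⟩
  have hX : Xi d S.inc z ∈ Zc ℤ Y (GL (ι × Fin d) ℤ) (d + 1) := by
    rw [Xi, LinearMap.sum_apply]
    exact Submodule.sum_mem _ fun k _ => Submodule.smul_mem _ _ (Xi_term S.inc S.inc_mul k hz)
  refine tendsto_nhds_unique (((l₁ Ω₁ x₁ _ hX).const_mul a).add ((l₂ Ω₂ x₂ _ hX).const_mul b))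
    (tendsto_const_nhds.congr fun n => ?_)
  rw [rt2_RS _ _ S.pt_inc, rt2_RS _ _ S.pt_inc, ← smul_eq_mul, ← smul_eq_mul, ← lin_smul,
    ← lin_smul, ← lin_add]
  refine (lin_zero _).symm.trans (congrArg (fun f => lin ℝ f _) (funext fun w => ?_))
  obtain _ | ⟨y, w⟩ := w
  · simp [ev]
  · obtain ⟨g, rfl⟩ := exists_sec y
    rw [rt2_ev x₁, rt2_ev x₂, smul_eq_mul, smul_eq_mul, h0]

end

end Pool.Agent.Lib.MP_446a91_nt.Rk
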