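import Pool.Agent.Lib.MP_446a91_nt.Rk.D0

/-!
The edgewise subdivision is a chain map.
Let `ε w = (-1)^|w| w`, `sh μ` the bilinear extension of `shW μ`. Bilinear recursion:
`sh (a :: u) (b :: v) = cons (μ a b) (sh u (b :: v) + sh (a :: ε u) v + u [] * v [] • [])`.
Then `bd (sh u v) = sh (bd u) v - sh (ε u) (bd v) + (bd u) [] * (bd v) [] • []` (induction on the sum
of the lengths of two words; `bd_cons`, `ε bd = - bd ε`, `ε cons = - cons ε`).
For any bilinear `β` put `D β l = ∑ p, β (take (p+1) l) (drop p l)`, so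
`D β (a :: l) = β [a] (a :: l) + D (β ∘ cons a) l`; induction on `l` for all `β` gives
`D (β (bd ·) · - β (ε ·) (bd ·)) l = D β (dW l) + β [] l - β (ε l) []`. Take `β = sh μ`, which kills
`[]` in both arguments.
-/

namespace Pool.Agent.Lib.MP_446a91_nt.Rk

open Matrix Filter Topology Pool.Agent.Lib.MP_446a91_nt.Sou

set_option linter.unusedSectionVars false

noncomputable section

variable {A : Type} [CommRing A] {X X' Y Y' Z Z' : Type}


theorem shW_len (μ : X → Y → Z) (F : List X) (W : List Y) :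
    (shW μ F W : Ch A Z) ∈ len A Z (F.length + W.length - 1) := by
  induction F generalizing W with
  | nil => rw [shW]; exact zero_mem _
  | cons a F ihF =>
    induction W with
    | nil => rw [shW]; exact zero_mem _
    | cons b W ihW =>
      have h1 := ihF (b :: W)
      have e1 : F.length + (b :: W).length - 1 = F.length + W.length := by simp
      have e2 : (a :: F).length + W.length - 1 = F.length + W.length := by simp
      have e3 : (a :: F).length + (b :: W).length - 1 = F.length + W.length + 1 := by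
        simp only [List.length_cons]; omega
      rw [e1] at h1
      rw [e2] at ihW
      rw [shW, e3]
      refine cons_len _ (add_mem (add_mem h1 (Submodule.smul_mem _ _ ihW)) ?_)
      split_ifs with h
      · rw [h]
        exact wd_mem rfl
      · exact zero_mem _

theorem mp_shW (μ : X → Y → Z) (μ' : X' → Y' → Z') (f : X → X') (g : Y → Y') (h : Z → Z')
    (e : ∀ a b, h (μ a b) = μ' (f a) (g b)) (F : List X) (W : List Y) :
    mp h (shW μ F W : Ch A Z) = shW μ' (F.map f) (W.map g) := by
  induction F generalizing W with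
  | nil => simp [shW]
  | cons a F ihF =>
    induction W with
    | nil => simp [shW]
    | cons b W ihW =>
      have h1 := ihF (b :: W)
      rw [List.map_cons] at h1 ihW
      rw [List.map_cons, List.map_cons, shW, shW, mp_cons, e, map_add (mp h), map_add (mp h),
        map_smul, h1, ihW,
        List.length_map, List.length_map]
      split_ifs <;> simp

theorem sd_nil (μ : X → X → X) : sd A μ (wd []) = wd [] := by
  simp [sd, sdW]

theorem sd_len (μ : X → X → X) (w : List X) : sd A μ (wd w) ∈ len A X w.length := by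
  rw [sd, lin_wd, sdW]
  refine add_mem ?_ (Submodule.sum_mem _ fun p hp => ?_)
  · split_ifs with h
    · rw [h]
      exact wd_mem rfl
    · exact zero_mem _
  · have h1 := shW_len (A := A) μ (w.take (p + 1)) (w.drop p)
    have h2 := Finset.mem_range.1 hp
    have e : (w.take (p + 1)).length + (w.drop p).length - 1 = w.length := by
      rw [List.length_take, List.length_drop]
      omega
    rwa [e] at h1

theorem mp_sd (μ : X → X → X) (μ' : Y → Y → Y) (g : X → Y) (e : ∀ a b, g (μ a b) = μ' (g a) (g b))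
    (c : Ch A X) : mp g (sd A μ c) = sd A μ' (mp g c) := by
  refine ch_ext' (φ := mp g ∘ₗ sd A μ) (ψ := sd A μ' ∘ₗ mp g) (fun w => ?_) c
  simp only [LinearMap.comp_apply, mp_wd, sd, lin_wd, sdW, map_add, map_sum,
    mp_shW μ μ' g g g e, List.length_map, List.map_take, List.map_drop]
  split_ifs <;> simp

theorem mp_sd_pow (μ : X → X → X) (μ' : Y → Y → Y) (g : X → Y)
    (e : ∀ a b, g (μ a b) = μ' (g a) (g b)) (k : ℕ) (c : Ch A X) :
    mp g ((sd A μ ^ k) c) = (sd A μ' ^ k) (mp g c) := by
  induction k generalizing c with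
  | zero => simp
  | succ k ih => rw [pow_succ, pow_succ, Module.End.mul_apply, Module.End.mul_apply, ih,
      mp_sd μ μ' g e]

/-- The sign operator. -/
def sdE : Ch A X →ₗ[A] Ch A X := lin A fun w => (-1 : A) ^ w.length • wd w

/-- The coefficient of the empty word. -/
def sdAug : Ch A X →ₗ[A] A := lin A fun w => if w.length = 0 then 1 else 0

/-- The bilinear extension of the shuffle product. -/
def sdSh (μ : X → Y → Z) : Ch A X →ₗ[A] Ch A Y →ₗ[A] Ch A Z := lin A fun F => lin A (shW μ F)

theorem sd_sh_wd (μ : X → Y → Z) (F : List X) (W : List Y) :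
    sdSh μ (wd F) (wd W) = (shW μ F W : Ch A Z) := by simp [sdSh]

theorem sd_nil_sh (μ : X → Y → Z) (v : Ch A Y) : sdSh μ (wd []) v = 0 :=
  ch_ext' (φ := sdSh μ (wd [])) (ψ := 0) (fun w => by simp [sd_sh_wd, shW]) v

theorem sd_sh_nil (μ : X → Y → Z) (u : Ch A X) : sdSh μ u (wd []) = 0 :=
  ch_ext' (φ := (sdSh μ).flip (wd [])) (ψ := 0) (fun w => by
    cases w <;> simp [sd_sh_wd, shW]) u

theorem sd_E_nil : sdE (wd [] : Ch A X) = wd [] := by simp [sdE]

theorem sd_E_cons (a : X) (c : Ch A X) : sdE (cons a c) = -cons a (sdE c) :=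
  ch_ext' (φ := sdE ∘ₗ cons a) (ψ := -(cons a ∘ₗ sdE : Ch A X →ₗ[A] Ch A X))
    (fun w => by simp [sdE, pow_succ]) c

theorem sd_E_E (c : Ch A X) : sdE (sdE c) = c :=
  ch_ext' (φ := sdE ∘ₗ sdE) (ψ := LinearMap.id) (fun w => by
    simp [sdE, smul_smul, ← mul_pow]) c

theorem sd_bd_E (c : Ch A X) : bd (sdE c) = -sdE (bd c) := by
  refine ch_ext' (φ := bd ∘ₗ sdE) (ψ := -(sdE ∘ₗ bd : Ch A X →ₗ[A] Ch A X)) (fun w => ?_) c
  rw [LinearMap.comp_apply, LinearMap.neg_apply, LinearMap.comp_apply]
  induction w with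
  | nil => simp [sd_E_nil]
  | cons a w ih =>
    rw [← cons_wd, sd_E_cons, map_neg, bd_cons, ih, bd_cons, map_sub, sd_E_cons, map_neg]

theorem sd_aug_cons (a : X) (c : Ch A X) : sdAug (cons a c) = 0 :=
  ch_ext' (φ := sdAug ∘ₗ cons a) (ψ := 0) (fun w => by simp [sdAug]) c

theorem sd_aug_E (c : Ch A X) : sdAug (sdE c) = sdAug c :=
  ch_ext' (φ := sdAug ∘ₗ sdE) (fun w => by cases w <;> simp [sdAug, sdE]) c

theorem sd_sh_cons (μ : X → Y → Z) (a : X) (b : Y) (u : Ch A X) (v : Ch A Y) :
    sdSh μ (cons a u) (cons b v) = cons (μ a b) (sdSh μ u (cons b v) + sdSh μ (cons a (sdE u)) v +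
      (sdAug u * sdAug v) • wd []) := by
  induction u using Finsupp.induction_linear with
  | zero => simp
  | add u u' h h' =>
    simp only [map_add, LinearMap.add_apply, add_mul, add_smul] at h h' ⊢
    rw [h, h']
    abel
  | single F r =>
    induction v using Finsupp.induction_linear with
    | zero => simp
    | add v v' h h' =>
      simp only [map_add, mul_add, add_smul] at h h' ⊢
      rw [h, h']
      abel
    | single W s =>
      have e1 : (Finsupp.single F r : Ch A X) = r • wd F := by simp [wd]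
      have e2 : (Finsupp.single W s : Ch A Y) = s • wd W := by simp [wd]
      have e3 : (if F.length + W.length = 0 then wd [] else 0 : Ch A Z) =
          (sdAug (wd F : Ch A X) * sdAug (wd W : Ch A Y)) • wd [] := by
        cases F <;> cases W <;> simp [sdAug]
      have e4 : sdE (wd F : Ch A X) = (-1 : A) ^ F.length • wd F := lin_wd _ _
      rw [e1, e2]
      simp only [map_smul, LinearMap.smul_apply, cons_wd, sd_sh_wd, e4, map_add, smul_eq_mul]
      rw [shW, e3]
      simp only [map_smul, map_add, cons_wd]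
      module

/-- The boundary formula of the shuffle product. -/
def sdP (μ : X → Y → Z) (u : Ch A X) (v : Ch A Y) : Prop :=
  bd (sdSh μ u v) = sdSh μ (bd u) v - sdSh μ (sdE u) (bd v) +
    (sdAug (bd u) * sdAug (bd v)) • wd []

theorem sdP_smul {μ : X → Y → Z} {u : Ch A X} {v : Ch A Y} (h : sdP μ u v) (r : A) :
    sdP μ (r • u) v := by
  unfold sdP at h ⊢
  simp only [map_smul, LinearMap.smul_apply, h, smul_eq_mul]
  module

theorem sdP_cons {μ : X → Y → Z} {u : Ch A X} {v : Ch A Y} {a : X} {b : Y}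
    (h : sdP μ u (cons b v)) (h' : sdP μ (cons a (sdE u)) v) : sdP μ (cons a u) (cons b v) := by
  unfold sdP at h h' ⊢
  have e : bd (sdSh μ u (cons b v) + sdSh μ (cons a (sdE u)) v + (sdAug u * sdAug v) • wd []) =
      (sdSh μ (bd u) (cons b v) + sdSh μ (cons a (sdE (bd u))) v +
        (sdAug (bd u) * sdAug v) • wd []) + (sdSh μ (sdE u) (cons b (bd v)) +
          sdSh μ (cons a (sdE (sdE u))) (bd v) + (sdAug (sdE u) * sdAug (bd v)) • wd []) := by
    rw [map_add bd, map_add bd, h, h', map_smul bd, bd_wd, dW_nil, smul_zero, add_zero]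
    simp only [bd_cons, sd_E_cons, sd_E_E, sd_bd_E, map_sub, map_neg, LinearMap.sub_apply,
      LinearMap.neg_apply, sd_aug_cons, sd_aug_E, sub_zero, neg_zero]
    abel
  rw [sd_sh_cons, bd_cons, e, map_add (cons (μ a b)), ← sd_sh_cons, ← sd_sh_cons]
  simp only [bd_cons, sd_E_cons, map_sub, map_neg, LinearMap.sub_apply, LinearMap.neg_apply,
    sd_aug_cons, sub_zero]
  abel

theorem sd_bd_sh (μ : X → Y → Z) (F : List X) (W : List Y) :
    sdP μ (wd F : Ch A X) (wd W) := by
  induction F generalizing W with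
  | nil => simp [sdP, sd_nil_sh, sd_E_nil]
  | cons a F ihF =>
    induction W with
    | nil => simp [sdP, sd_sh_nil]
    | cons b W ihW =>
      rw [← cons_wd, ← cons_wd]
      refine sdP_cons (by rw [cons_wd]; exact ihF _) ?_
      rw [sdE, lin_wd, map_smul, cons_wd]
      exact sdP_smul ihW _

/-- The diagonal sum of a bilinear map. -/
def sdD {M : Type} [AddCommGroup M] [Module A M] (β : Ch A X →ₗ[A] Ch A X →ₗ[A] M) (l : List X) :
    M := ∑ p ∈ Finset.range l.length, β (wd (l.take (p + 1))) (wd (l.drop p))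

theorem sd_D_cons {M : Type} [AddCommGroup M] [Module A M] (β : Ch A X →ₗ[A] Ch A X →ₗ[A] M)
    (a : X) (c : Ch A X) :
    lin A (sdD β) (cons a c) = β (wd [a]) (cons a c) + lin A (sdD (β ∘ₗ cons a)) c :=
  ch_ext' (φ := lin A (sdD β) ∘ₗ cons a) (ψ := β (wd [a]) ∘ₗ cons a + lin A (sdD (β ∘ₗ cons a)))
    (fun w => by simp [sdD, Finset.sum_range_succ', add_comm]) c

theorem sd_diag {M : Type} [AddCommGroup M] [Module A M] (β : Ch A X →ₗ[A] Ch A X →ₗ[A] M)
    (l : List X) : ∑ p ∈ Finset.range l.length, (β (dW (l.take (p + 1))) (wd (l.drop p)) -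
      β (sdE (wd (l.take (p + 1)))) (dW (l.drop p))) =
      lin A (sdD β) (dW l) + β (wd []) (wd l) - β (sdE (wd l)) (wd []) := by
  induction l generalizing β with
  | nil => simp [sd_E_nil]
  | cons a l ih =>
    have h1 : ∀ p, β (dW ((a :: l).take (p + 1 + 1))) (wd ((a :: l).drop (p + 1))) -
        β (sdE (wd ((a :: l).take (p + 1 + 1)))) (dW ((a :: l).drop (p + 1))) =
        β (wd (l.take (p + 1))) (wd (l.drop p)) -
          ((β ∘ₗ cons a) (dW (l.take (p + 1))) (wd (l.drop p)) -
            (β ∘ₗ cons a) (sdE (wd (l.take (p + 1)))) (dW (l.drop p))) := fun p => by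
      rw [List.take_succ_cons, List.drop_succ_cons, dW_cons, ← cons_wd, sd_E_cons]
      simp only [map_sub, map_neg, LinearMap.sub_apply, LinearMap.neg_apply, LinearMap.comp_apply]
      abel
    have h2 : sdE (wd [a] : Ch A X) = -wd [a] := by simp [sdE]
    rw [List.length_cons, Finset.sum_range_succ', Finset.sum_congr rfl fun p _ => h1 p,
      Finset.sum_sub_distrib, ih, dW_cons a l, map_sub, sd_D_cons, lin_wd, ← cons_wd a l, sd_E_cons]
    simp only [zero_add, List.take_succ_cons, List.take_zero, List.drop_zero, dW_cons, dW_nil,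
      map_zero, sub_zero, h2, map_sub, map_neg, LinearMap.neg_apply, LinearMap.comp_apply, cons_wd,
      sdD]
    abel

theorem sd_aug_sum (l : List X) : ∑ p ∈ Finset.range l.length,
    sdAug (dW (l.take (p + 1)) : Ch A X) * sdAug (dW (l.drop p) : Ch A X) =
      sdAug (dW l : Ch A X) := by
  cases l with
  | nil => simp
  | cons a l =>
    rw [List.length_cons, Finset.sum_range_succ', Finset.sum_eq_zero, zero_add]
    · simp [dW_cons, sdAug]
    · intro p hp
      have h1 := Finset.mem_range.1 hp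
      have h2 : (l.take (p + 1)).length ≠ 0 := by
        rw [List.length_take]
        omega
      rw [List.take_succ_cons, dW_cons, map_sub, sd_aug_cons, sdAug, lin_wd, if_neg h2, sub_zero,
        zero_mul]

theorem bd_sd (μ : X → X → X) (c : Ch A X) : bd (sd A μ c) = sd A μ (bd c) := by
  refine ch_ext' (φ := bd ∘ₗ sd A μ) (ψ := sd A μ ∘ₗ bd) (fun l => ?_) c
  have h1 : bd (if l.length = 0 then wd [] else 0 : Ch A X) = 0 := by split_ifs <;> simp
  have h2 : sd A μ (dW l) = sdAug (dW l : Ch A X) • wd [] + lin A (sdD (sdSh μ)) (dW l) :=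
    ch_ext' (φ := sd A μ)
      (ψ := (sdAug : Ch A X →ₗ[A] A).smulRight (wd [] : Ch A X) + lin A (sdD (sdSh (A := A) μ)))
      (fun w => by simp [sd, sdW, sdD, sdAug, sd_sh_wd]) (dW l)
  have h3 := sd_diag (sdSh (A := A) μ) l
  rw [sd_sh_nil, sd_nil_sh, add_zero, sub_zero] at h3
  rw [LinearMap.comp_apply, LinearMap.comp_apply, bd_wd, h2, sd, lin_wd, sdW, map_add, h1, zero_add,
    map_sum, ← h3, ← sd_aug_sum, Finset.sum_smul, ← Finset.sum_add_distrib]
  refine Finset.sum_congr rfl fun p _ => ?_
  have h4 := sd_bd_sh (A := A) μ (l.take (p + 1)) (l.drop p)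
  rw [sdP, sd_sh_wd, bd_wd, bd_wd] at h4
  rw [h4, add_comm]

theorem sd_cmap {G : Type} [Group G] [MulAction G X] (μ : X → X → X)
    (e : ∀ (g : G) a b, g • μ a b = μ (g • a) (g • b)) : CMap G (sd A μ) :=
  ⟨bd_sd μ, sd_nil μ, sd_len μ, fun g w => by rw [mp_sd μ μ (g • ·) (e g), mp_wd]⟩

end

end Pool.Agent.Lib.MP_446a91_nt.Rk
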