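import Pool.Agent.Lib.MP_446a91_nt.Rk.D0

/-!
The staircase argument. `E l k`: words of length `l`, degree `k`.
Lemma `P k j` (induction on `k`, all `j`): for `w ∈ E (l+j) k` with `h l (v w) = 0` there is
`u ∈ E (l+j+1) k` with `v (w - h l u) = 0`. Step: `v w = h w'`, by induction `w'` is a vertical cycle;
`h = ∑ (-1)^i fc i` is `fc 0` or `0` on vertical homology by parity; use injectivity (j+1 odd) or
surjectivity (j+1 even) in the lower degree to get `w' = h y + v u` with `v y = 0`.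
-/

namespace Pool.Agent.Lib.MP_446a91_nt.Rk

open Matrix Filter Topology Pool.Agent.Lib.MP_446a91_nt.Sou

set_option linter.unusedSectionVars false

noncomputable section

variable {A Q : Type} [CommRing A] [AddCommGroup Q] [Module A Q]


/-- A double complex with faces. -/
structure DC (A Q : Type) [CommRing A] [AddCommGroup Q] [Module A Q] (N : ℕ) where
  E : ℕ → ℕ → Submodule A Q
  v : Q →ₗ[A] Q
  fc : ℕ → Q →ₗ[A] Q
  h : ℕ → Q →ₗ[A] Q
  v_mem : ∀ l k, ∀ x ∈ E l (k + 1), v x ∈ E l k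
  v_zero : ∀ l, ∀ x ∈ E l 0, v x = 0
  vv : ∀ x, v (v x) = 0
  v_fc : ∀ i x, v (fc i x) = fc i (v x)
  v_h : ∀ l x, v (h l x) = h l (v x)
  hh : ∀ l x, h l (h l x) = 0
  fc_mem : ∀ l k i, i ≤ l → ∀ x ∈ E (l + 1) k, fc i x ∈ E l k
  h_eq : ∀ l j k, ∀ x ∈ E (l + j) k, h l x = ∑ i ∈ Finset.range j, (-1 : A) ^ i • fc i x
  exact : ∀ l j k, 2 * j + l < N → ∀ x ∈ E (l + j) k, h l x = 0 → ∃ y ∈ E (l + j + 1) k, h l y = x
  face : ∀ l k i, i ≤ l → ∀ x ∈ E (l + 1) k, v x = 0 → ∃ y ∈ E l (k + 1), fc i x - fc 0 x = v y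

theorem DC.stair_mem {N : ℕ} (D : DC A Q N) {l j k : ℕ} {x : Q} (hx : x ∈ D.E (l + j + 1) k) :
    D.h l x ∈ D.E (l + j) k := by
  rw [D.h_eq l (j + 1) k x hx]
  refine Submodule.sum_mem _ fun i hi => Submodule.smul_mem _ _ (D.fc_mem _ _ _ ?_ x hx)
  have := Finset.mem_range.1 hi
  omega

theorem DC.stair_par {N : ℕ} (D : DC A Q N) {l j k : ℕ} {x : Q} (hx : x ∈ D.E (l + j + 1) k)
    (hv : D.v x = 0) : ∃ y ∈ D.E (l + j) (k + 1),
      D.h l x = (if Even (j + 1) then 0 else D.fc 0 x) + D.v y := by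
  have h1 : ∑ i ∈ Finset.range (j + 1), (-1 : A) ^ i • (D.fc i x - D.fc 0 x) ∈
      (D.E (l + j) (k + 1)).map D.v := by
    refine Submodule.sum_mem _ fun i hi => Submodule.smul_mem _ _ ?_
    have := Finset.mem_range.1 hi
    obtain ⟨y, hy, e⟩ := D.face (l + j) k i (by omega) x hx hv
    exact ⟨y, hy, e.symm⟩
  obtain ⟨y, hy, e⟩ := h1
  refine ⟨y, hy, ?_⟩
  rw [e, D.h_eq l (j + 1) k x hx]
  simp only [smul_sub, Finset.sum_sub_distrib]
  rw [← Finset.sum_smul, neg_one_geom_sum]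
  split_ifs <;> simp

theorem DC.stair_one {N : ℕ} (D : DC A Q N) {l k : ℕ} {x : Q} (hx : x ∈ D.E (l + 1) k) :
    D.h l x = D.fc 0 x := by
  rw [D.h_eq l 1 k x hx]
  simp

theorem DC.stair_zero {N : ℕ} (D : DC A Q N) {l k : ℕ} {x : Q} (hx : x ∈ D.E l k) :
    D.h l x = 0 := by
  rw [D.h_eq l 0 k x hx]
  simp

/-- The two statements of stability. -/
def DC.St {N : ℕ} (D : DC A Q N) (k l : ℕ) : Prop :=
    (∀ x ∈ D.E l k, D.v x = 0 → ∃ y ∈ D.E (l + 1) k, D.v y = 0 ∧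
      ∃ u ∈ D.E l (k + 1), D.fc 0 y - x = D.v u) ∧
    (∀ x ∈ D.E (l + 1) k, D.v x = 0 → (∃ u ∈ D.E l (k + 1), D.fc 0 x = D.v u) →
      ∃ u ∈ D.E (l + 1) (k + 1), x = D.v u)

theorem DC.stair_P {N : ℕ} (D : DC A Q N) (l : ℕ) : ∀ k : ℕ,
    (∀ k' < k, ∀ l', l' + 3 * k' + 4 ≤ N → D.St k' l') → ∀ j, l + j + 3 * k + 2 ≤ N →
      l + 2 * (j + k) ≤ N + 1 → ∀ w ∈ D.E (l + j) k, D.h l (D.v w) = 0 →
        ∃ u ∈ D.E (l + j + 1) k, D.v (w - D.h l u) = 0 := by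
  intro k
  induction k with
  | zero =>
    intro _ j _ _ w hw _
    exact ⟨0, zero_mem _, by simpa using D.v_zero _ w hw⟩
  | succ k ih =>
    intro hs j h1 h2 w hw h0
    obtain ⟨w', hw', e'⟩ := D.exact l j k (by omega) (D.v w) (D.v_mem _ _ w hw) h0
    obtain ⟨u', hu', e⟩ := ih (fun k' hk => hs k' (by omega)) (j + 1) (by omega) (by omega) w' hw'
      (by rw [← D.v_h, e', D.vv])
    have hz : w' - D.h l u' ∈ D.E (l + j + 1) k := sub_mem hw' (D.stair_mem (j := j + 1) hu')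
    have ez : D.h l (w' - D.h l u') = D.v w := by rw [map_sub, D.hh, sub_zero, e']
    generalize w' - D.h l u' = z at e hz ez
    by_cases hj : Even (j + 1)
    · obtain ⟨y, hy, vy, u1, hu1, e1⟩ := (hs k (by omega) (l + j + 1) (by omega)).1 z hz e
      obtain ⟨u2, hu2, e2⟩ := D.stair_par (j := j + 1) hy vy
      rw [if_neg (by simpa [Nat.even_add_one] using hj)] at e2
      refine ⟨-(u1 + u2), neg_mem (add_mem hu1 hu2), ?_⟩
      have e3 : D.v (-(u1 + u2)) = z - D.h l y := by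
        rw [e2, map_neg, map_add, ← e1]; abel
      rw [map_sub, D.v_h, e3, map_sub, D.hh, sub_zero, ez, sub_self]
    · obtain ⟨u2, hu2, e2⟩ := D.stair_par hz e
      rw [if_neg hj, ez] at e2
      obtain ⟨u, hu, e3⟩ := (hs k (by omega) (l + j) (by omega)).2 z hz e
        ⟨w - u2, sub_mem hw hu2, by rw [map_sub, e2]; abel⟩
      exact ⟨u, hu, by rw [map_sub, D.v_h, ← e3, ez, sub_self]⟩

theorem DC.stair_St {N : ℕ} (D : DC A Q N) (k : ℕ) : ∀ l, l + 3 * k + 4 ≤ N → D.St k l := by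
  induction k using Nat.strong_induction_on with
  | _ k ih =>
    intro l h
    refine ⟨fun x hx hv => ?_, fun x hx hv ⟨u, hu, e⟩ => ?_⟩
    · obtain ⟨y, hy, e⟩ := D.exact l 0 k (by omega) x hx (D.stair_zero hx)
      obtain ⟨u, hu, e1⟩ := D.stair_P l k ih 1 (by omega) (by omega) y hy
        (by rw [← D.v_h, e, hv])
      have hz : y - D.h l u ∈ D.E (l + 1) k := sub_mem hy (D.stair_mem (j := 1) hu)
      refine ⟨y - D.h l u, hz, e1, 0, zero_mem _, ?_⟩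
      rw [← D.stair_one hz, map_sub, D.hh, sub_zero, e, sub_self, map_zero]
    · obtain ⟨u', hu', e'⟩ := D.exact l 0 (k + 1) (by omega) u hu (D.stair_zero hu)
      have hx' : x - D.v u' ∈ D.E (l + 1) k := sub_mem hx (D.v_mem _ _ u' hu')
      obtain ⟨z, hz, ez⟩ := D.exact l 1 k (by omega) _ hx'
        (by rw [map_sub, ← D.v_h, e', D.stair_one hx, e, sub_self])
      obtain ⟨t, ht, et⟩ := D.stair_P l k ih 2 (by omega) (by omega) z hz
        (by rw [← D.v_h, ez, map_sub, hv, D.vv, sub_zero])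
      have hz' : z - D.h l t ∈ D.E (l + 1 + 1) k := sub_mem hz (D.stair_mem (j := 2) ht)
      obtain ⟨s, hs, es⟩ := D.stair_par hz' et
      rw [if_pos (by decide), zero_add, map_sub, D.hh, sub_zero, ez] at es
      exact ⟨u' + s, add_mem hu' hs, by rw [map_add, ← es]; abel⟩

theorem DC.stable {N : ℕ} (D : DC A Q N) (k l : ℕ) (h : l + 3 * k + 4 ≤ N) :
    (∀ x ∈ D.E l k, D.v x = 0 → ∃ y ∈ D.E (l + 1) k, D.v y = 0 ∧
      ∃ u ∈ D.E l (k + 1), D.fc 0 y - x = D.v u) ∧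
    (∀ x ∈ D.E (l + 1) k, D.v x = 0 → (∃ u ∈ D.E l (k + 1), D.fc 0 x = D.v u) →
      ∃ u ∈ D.E (l + 1) (k + 1), x = D.v u) :=
  D.stair_St k l h

end

end Pool.Agent.Lib.MP_446a91_nt.Rk
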