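import Pool.Agent.Lib.MP_446a91_nt.Rk.Nf

/-!
The tail filtration. A word is `w ++ t` with `w = takeWhile g` and `t = dropWhile g`; the level is
`|t|`. Let `cm t` be linear with `cm t (wd u) = wd (takeWhile g u)` if `dropWhile g u = t`, else `0`.
For `t = a :: t'` with `¬ g a` and `w` all good: `bd (app t c) = app t (bd c) +` terms of level
`< |t|`. So for `y` of level `≤ m` with `bd y` of level `< m` each `cm t y` (`|t| = m`) is a cycle;
fill it, subtract `bd (∑ app t filling)`, and the level drops. General lemma: `y` of length `n`,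
`bd y` of level `≤ m₀`, exactness for tails longer than `m₀`: `y - bd c'` has level `≤ m₀`.
-/

namespace Pool.Agent.Lib.MP_446a91_nt.Rk

open Matrix Filter Topology Pool.Agent.Lib.MP_446a91_nt.Sou

set_option linter.unusedSectionVars false

noncomputable section

variable {A : Type} [CommRing A] {X : Type}

open Classical in
/-- The tail from the first bad letter. -/
def tailT (g : X → Prop) (w : List X) : List X := w.dropWhile fun x => decide (g x)

open Classical in
/-- The good initial part. -/
def tailH (g : X → Prop) (w : List X) : List X := w.takeWhile fun x => decide (g x)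

open Classical in
/-- The component of the tail `t`. -/
def tailC (g : X → Prop) (t : List X) : Ch A X →ₗ[A] Ch A X :=
  lin A fun u => if tailT g u = t then wd (tailH g u) else 0

section

variable {g : X → Prop} {w s t : List X}

theorem tail_split (g : X → Prop) (w : List X) : tailH g w ++ tailT g w = w :=
  List.takeWhile_append_dropWhile

theorem tail_good (g : X → Prop) (w : List X) : ∀ x ∈ tailH g w, g x := fun x hx => by
  simpa using List.mem_takeWhile_imp hx

theorem tail_append (hw : ∀ x ∈ w, g x) (s : List X) : tailT g (w ++ s) = tailT g s :=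
  List.dropWhile_append_of_pos fun x hx => by simpa using hw x hx

theorem tail_idem (g : X → Prop) (w : List X) : tailT g (tailT g w) = tailT g w :=
  List.dropWhile_idempotent _ _

theorem tail_le (g : X → Prop) (w : List X) : (tailT g w).length ≤ w.length :=
  (List.dropWhile_sublist _).length_le

theorem tail_zero : (tailT g w).length < 1 ↔ ∀ x ∈ w, g x := by
  rw [Nat.lt_one_iff, List.length_eq_zero_iff, tailT, List.dropWhile_eq_nil_iff]
  simp

theorem tail_bad {a : X} (h : tailT g (a :: t) = a :: t) : ¬ g a := fun ha => by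
  have h1 := tail_append (g := g) (w := [a]) (by simpa using ha) t
  have h2 := tail_le g t
  rw [← h1, List.singleton_append, h] at h2
  simp at h2

theorem tail_app_wd (t w : List X) : app t (wd w : Ch A X) = wd (w ++ t) := lin_wd _ _

theorem tail_app_cons (t : List X) (a : X) (c : Ch A X) : app t (cons a c) = cons a (app t c) :=
  ch_ext' (φ := app t ∘ₗ cons a) (ψ := cons a ∘ₗ app t) (fun w => by simp [tail_app_wd]) c

theorem tail_dW (w t : List X) : (dW (w ++ t) : Ch A X) - app t (dW w) ∈
    sp A fun u => ∃ t', u = w ++ t' ∧ List.Sublist t' t ∧ t'.length + 1 = t.length := by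
  induction w with
  | nil => simpa using dW_mem_sublist (A := A) t
  | cons a w ih =>
    have e : (dW (a :: w ++ t) : Ch A X) - app t (dW (a :: w)) =
        -cons a (dW (w ++ t) - app t (dW w)) := by
      rw [List.cons_append, dW_cons, dW_cons, map_sub, map_sub, tail_app_wd, tail_app_cons]
      abel
    rw [e]
    refine neg_mem (sp_map (cons a) _ ?_ ih)
    rintro u ⟨t', rfl, h⟩
    rw [cons_wd]
    exact wd_mem ⟨t', rfl, h⟩

theorem tail_dW_one (w : List X) (a : X) :
    (dW (w ++ [a]) : Ch A X) = app [a] (dW w) + (-1 : A) ^ w.length • wd w := by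
  induction w with
  | nil => simp [dW_cons]
  | cons b w ih =>
    rw [List.cons_append, dW_cons, dW_cons, ih, map_sub, map_add, tail_app_wd, tail_app_cons,
      map_smul, cons_wd, List.length_cons, pow_succ, mul_neg_one, neg_smul]
    abel

theorem tailC_low {c : Ch A X} (hc : c ∈ sp A fun u => (tailT g u).length < t.length) :
    tailC g t c = 0 :=
  sp_ext (ψ := 0) (fun u hu => by
    rw [tailC, lin_wd, if_neg fun e => by rw [e] at hu; exact lt_irrefl _ hu]
    rfl) hc

open Classical in
theorem tailC_app (hs : tailT g s = s) {c : Ch A X} (hc : c ∈ sp A fun u => ∀ x ∈ u, g x) :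
    tailC g t (app s c) = if s = t then c else 0 := by
  have e : (if s = t then c else 0) =
      (if s = t then LinearMap.id else 0 : Ch A X →ₗ[A] Ch A X) c := by split_ifs <;> rfl
  rw [e]
  refine sp_ext (φ := tailC g t ∘ₗ app s) (fun u hu => ?_) hc
  have h1 : tailT g (u ++ s) = s := (tail_append hu s).trans hs
  have h2 := tail_split g (u ++ s)
  rw [h1] at h2
  rw [LinearMap.comp_apply, tail_app_wd, tailC, lin_wd, h1, List.append_cancel_right h2]
  split_ifs <;> rfl

theorem tailC_bd {c : Ch A X} (hc : c ∈ sp A fun u => (tailT g u).length ≤ t.length) :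
    tailC g t (bd c) = bd (tailC g t c) := by
  classical
  refine sp_ext (φ := tailC g t ∘ₗ bd) (ψ := bd ∘ₗ tailC g t) (fun u hu => ?_) hc
  have h1 := tailC_low (g := g) (t := t) (sp_mono (by
    rintro v ⟨t', rfl, -, h⟩
    rw [tail_append (tail_good g u)]
    have := tail_le g t'
    omega) (tail_dW (A := A) (tailH g u) (tailT g u)))
  rw [tail_split, map_sub, sub_eq_zero, tailC_app (tail_idem g u) (sp_mono
    (fun v hv x hx => tail_good g u x (hv.1.subset hx)) (dW_mem_sublist _))] at h1
  rw [LinearMap.comp_apply, LinearMap.comp_apply, bd_wd, h1, tailC, lin_wd]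
  split_ifs <;> simp

end

/-- The level drops by one. -/
theorem tail_step {P : List X → Prop} (g : X → Prop) (n m : ℕ) (R : Submodule A (Ch A X))
    (hR : ∀ x ∈ R, bd x = 0)
    (h : ∀ a t, ¬ g a → t.length + 1 = m + 1 →
      ∀ z ∈ sp A fun w => (P (w ++ a :: t) ∧ ∀ x ∈ w, g x) ∧ w.length = n - (m + 1), bd z = 0 →
        ∃ r ∈ sp A fun w => (P w ∧ w.length = n) ∧ (tailT g w).length < m + 1,
          app (a :: t) z - r ∈ R)
    {y : Ch A X} (hy : y ∈ sp A fun w => (P w ∧ w.length = n) ∧ (tailT g w).length ≤ m + 1)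
    (hb : bd y ∈ sp A fun w => (tailT g w).length < m + 1) :
    ∃ y' ∈ sp A fun w => (P w ∧ w.length = n) ∧ (tailT g w).length < m + 1, y - y' ∈ R := by
  classical
  have key : ∀ T : Finset (List X), ∀ y ∈ sp A fun w => ((P w ∧ w.length = n) ∧
      (tailT g w).length ≤ m + 1) ∧ ((tailT g w).length < m + 1 ∨ tailT g w ∈ T),
      (bd y ∈ sp A fun w => (tailT g w).length < m + 1) →
      ∃ y' ∈ sp A fun w => (P w ∧ w.length = n) ∧ (tailT g w).length < m + 1, y - y' ∈ R := by
    intro T
    induction T using Finset.induction_on with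
    | empty =>
      exact fun y hy _ => ⟨y, sp_mono (fun w hw => ⟨hw.1.1, by simpa using hw.2⟩) hy, by simp⟩
    | insert s T _ ih =>
      intro y hy hb
      by_cases hs : tailT g s = s ∧ s.length = m + 1
      · obtain ⟨a, t, rfl⟩ : ∃ a t, s = a :: t := by
          cases s with
          | nil => simp at hs
          | cons a t => exact ⟨a, t, rfl⟩
        have hz : tailC g (a :: t) y ∈ sp A fun w =>
            (P (w ++ a :: t) ∧ ∀ x ∈ w, g x) ∧ w.length = n - (m + 1) := by
          refine sp_map _ _ (fun u hu => ?_) hy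
          rw [tailC, lin_wd]
          split_ifs with e
          · have h1 := tail_split g u
            rw [e] at h1
            have h2 := congrArg List.length h1
            rw [List.length_append, hs.2, hu.1.1.2] at h2
            exact wd_mem ⟨⟨h1.symm ▸ hu.1.1.1, tail_good g u⟩, by omega⟩
          · exact zero_mem _
        have hc : bd (tailC g (a :: t) y) = 0 := by
          rw [← tailC_bd (sp_mono (fun w hw => hs.2 ▸ hw.1.2) hy), tailC_low (hs.2 ▸ hb)]
        obtain ⟨r, hr, hr'⟩ := h a t (tail_bad hs.1) hs.2 _ hz hc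
        refine (ih (y - (app (a :: t) (tailC g (a :: t) y) - r)) ?_
          (by rwa [map_sub, hR _ hr', sub_zero])).imp fun y' h1 => ⟨h1.1, ?_⟩
        swap
        · have h2 := add_mem h1.2 hr'
          rwa [sub_right_comm, sub_add_cancel] at h2
        · rw [← sub_add]
          refine add_mem (sp_map (LinearMap.id - app (a :: t) ∘ₗ tailC g (a :: t)) _
            (fun u hu => ?_) hy) (sp_mono (fun w hw => ⟨⟨hw.1, hw.2.le⟩, Or.inl hw.2⟩) hr)
          rw [LinearMap.sub_apply, LinearMap.comp_apply, LinearMap.id_apply, tailC, lin_wd]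
          split_ifs with e
          · rw [tail_app_wd, ← e, tail_split, sub_self]
            exact zero_mem _
          · rw [map_zero, sub_zero]
            exact wd_mem ⟨hu.1, hu.2.imp_right fun h => (Finset.mem_insert.1 h).resolve_left e⟩
      · refine ih y (sp_mono (fun w hw => ⟨hw.1, ?_⟩) hy) hb
        rcases hw.1.2.lt_or_eq with h1 | h1
        · exact Or.inl h1
        · refine hw.2.imp_right fun h => (Finset.mem_insert.1 h).resolve_left fun e => hs ?_
          exact e ▸ ⟨tail_idem g w, h1⟩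
  exact key (y.support.image (tailT g)) y (mem_sp_and hy (mem_sp_iff.2 fun w hw =>
    Or.inr (Finset.mem_image_of_mem _ hw))) hb

/-- Push the level down to `m₀`. -/
theorem tail_down {P : List X → Prop} (hP : Her P) (g : X → Prop) (n m₀ : ℕ)
    (h : ∀ a t, ¬ g a → m₀ ≤ t.length → t.length + 1 ≤ n →
      Ex A (fun w => P (w ++ a :: t) ∧ ∀ x ∈ w, g x) (n - (t.length + 1)))
    {y : Ch A X} (hy : y ∈ sp A fun w => P w ∧ w.length = n)
    (hb : bd y ∈ sp A fun w => (tailT g w).length ≤ m₀) :
    ∃ c' ∈ sp A fun w => P w ∧ w.length = n + 1,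
      y - bd c' ∈ sp A fun w => (P w ∧ w.length = n) ∧ (tailT g w).length ≤ m₀ := by
  have key : ∀ m ≤ n, ∀ y ∈ sp A fun w => (P w ∧ w.length = n) ∧ (tailT g w).length ≤ m,
      (bd y ∈ sp A fun w => (tailT g w).length ≤ m₀) →
      ∃ c' ∈ sp A fun w => P w ∧ w.length = n + 1,
        y - bd c' ∈ sp A fun w => (P w ∧ w.length = n) ∧ (tailT g w).length ≤ m₀ := by
    intro m
    induction m with
    | zero =>
      exact fun _ y hy _ => ⟨0, zero_mem _, by
        simpa using sp_mono (fun w hw => ⟨hw.1, hw.2.trans (Nat.zero_le _)⟩) hy⟩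
    | succ m ih =>
      intro hm y hy hb
      rcases le_or_gt (m + 1) m₀ with h0 | h0
      · exact ⟨0, zero_mem _, by simpa using sp_mono (fun w hw => ⟨hw.1, hw.2.trans h0⟩) hy⟩
      obtain ⟨y', h1, c, hc, h2⟩ := tail_step g n m
        ((sp A fun w => P w ∧ w.length = n + 1).map bd) (by rintro _ ⟨c, -, rfl⟩; exact bd_bd c)
        (fun a t ha ht z hz hz' => by
          obtain ⟨z', h3, rfl⟩ := h a t ha (by omega) (by omega) z (ht ▸ hz) hz'
          refine ⟨app (a :: t) (bd z') - bd (app (a :: t) z'), ?_, app (a :: t) z', ?_, by simp⟩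
          · rw [← neg_sub]
            refine neg_mem (sp_map (bd ∘ₗ app (a :: t) - app (a :: t) ∘ₗ bd) _ (fun w hw => ?_) h3)
            rw [LinearMap.sub_apply, LinearMap.comp_apply, LinearMap.comp_apply, tail_app_wd, bd_wd,
              bd_wd]
            refine sp_mono ?_ (tail_dW w (a :: t))
            rintro u ⟨t', rfl, h4, h5⟩
            have h6 := tail_le g t'
            have h7 := hw.2
            rw [List.length_cons] at h5
            rw [tail_append hw.1.2, List.length_append]
            exact ⟨⟨hP _ _ (h4.append_left w) hw.1.1, by omega⟩, by omega⟩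
          · refine sp_map _ _ (fun w hw => ?_) h3
            have h7 := hw.2
            rw [tail_app_wd]
            exact wd_mem ⟨hw.1.1, by rw [List.length_append, List.length_cons]; omega⟩)
        hy (sp_mono (fun w hw => by omega) hb)
      have e : y' = y - bd c := by rw [h2, sub_sub_cancel]
      obtain ⟨c', h3, h4⟩ := ih (by omega) y' (sp_mono (fun w hw => ⟨hw.1, by omega⟩) h1)
        (by rwa [e, map_sub, bd_bd, sub_zero])
      exact ⟨c + c', add_mem hc h3, by rwa [map_add, ← sub_sub, ← e]⟩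
  exact key n le_rfl y (sp_mono (fun w hw => ⟨hw, hw.2 ▸ tail_le g w⟩) hy) hb

theorem tail_push {P : List X → Prop} (hP : Her P) (g : X → Prop) (l : ℕ)
    (h : ∀ a t, ¬ g a → t.length + 1 ≤ l →
      Ex A (fun w => P (w ++ a :: t) ∧ ∀ x ∈ w, g x) (l - (t.length + 1)))
    {c : Ch A X} (hc : c ∈ sp A fun w => P w ∧ w.length = l) (hb : bd c = 0) :
    ∃ c' ∈ sp A fun w => P w ∧ w.length = l + 1,
      c - bd c' ∈ sp A fun w => (P w ∧ ∀ x ∈ w, g x) ∧ w.length = l := by
  obtain ⟨c', h1, h2⟩ := tail_down hP g l 0 (fun a t ha _ ht => h a t ha ht) hc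
    (hb ▸ zero_mem _)
  exact ⟨c', h1, sp_mono (fun w hw => ⟨⟨hw.1.1, tail_zero.1 (by omega)⟩, hw.1.2⟩) h2⟩

/-- Fill in `P`, push to level `≤ 1`: `y = y₀ + ∑ app [a] (y a)` with cycles `y a`, and
`bd y = bd y₀ ± ∑ y a`. -/
theorem tail_fill {P : List X → Prop} (hP : Her P) (g : X → Prop) (l : ℕ) (hE : Ex A P l)
    (h2 : ∀ a t, ¬ g a → 1 ≤ t.length → t.length ≤ l →
      Ex A (fun w => P (w ++ a :: t) ∧ ∀ x ∈ w, g x) (l - t.length))
    (h1 : ∀ a, ¬ g a → ∀ c ∈ sp A fun w => (P (w ++ [a]) ∧ ∀ x ∈ w, g x) ∧ w.length = l,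
      bd c = 0 → ∃ c' ∈ sp A fun w => (P w ∧ ∀ x ∈ w, g x) ∧ w.length = l + 1, bd c' = c) :
    Ex A (fun w => P w ∧ ∀ x ∈ w, g x) l := by
  intro c hc hb
  obtain ⟨y, hy, rfl⟩ := hE c (sp_mono (fun w hw => ⟨hw.1.1, hw.2⟩) hc) hb
  have h0 : bd y ∈ sp A fun w => (tailT g w).length < 0 + 1 :=
    sp_mono (fun w hw => tail_zero.2 hw.1.2) hc
  obtain ⟨c', -, h3⟩ := tail_down hP g (l + 1) 1 (fun a t ha h ht => by
    rw [Nat.add_sub_add_right]
    exact h2 a t ha h (by omega)) hy (sp_mono (fun w hw => by omega) h0)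
  obtain ⟨y', h4, h5⟩ := tail_step g (l + 1) 0 (LinearMap.ker bd) (fun x hx => hx)
    (fun a t ha ht z hz hz' => by
      obtain rfl : t = [] := List.length_eq_zero_iff.1 (by omega)
      obtain ⟨r, h6, h7⟩ := h1 a ha z hz hz'
      refine ⟨(-1 : A) ^ l • r, Submodule.smul_mem _ _ (sp_mono (fun w hw =>
        ⟨⟨hw.1.1, hw.2⟩, tail_zero.2 hw.1.2⟩) h6), ?_⟩
      have h8 : bd (app [a] z) = app [a] (bd z) + (-1 : A) ^ l • z :=
        sp_ext (φ := bd ∘ₗ app [a]) (ψ := app [a] ∘ₗ bd + (-1 : A) ^ l • LinearMap.id)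
          (fun w hw => by simpa [tail_app_wd, hw.2] using tail_dW_one (A := A) w a) hz
      rw [LinearMap.mem_ker, map_sub, h8, hz', map_zero, zero_add, map_smul, h7, sub_self])
    h3 (by rwa [map_sub, bd_bd, sub_zero])
  rw [LinearMap.mem_ker, map_sub, map_sub, bd_bd, sub_zero, sub_eq_zero] at h5
  exact ⟨y', sp_mono (fun w hw => ⟨⟨hw.1.1, tail_zero.1 hw.2⟩, hw.1.2⟩) h4, h5.symm⟩

theorem Ex.congr {P Q : List X → Prop} {l : ℕ} (h : Ex A P l) (e : ∀ w, P w ↔ Q w) : Ex A Q l :=
  (funext fun w => propext (e w) : P = Q) ▸ h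

/-- A retract of an exact complex is exact. -/
theorem Ex.retract {P Q : List X → Prop} {l : ℕ} (h : Ex A P l) (hQ : ∀ w, Q w → P w) (ρ : X → X)
    (h1 : ∀ w, P w → Q (w.map ρ)) (h2 : ∀ w, Q w → w.map ρ = w) : Ex A Q l := by
  intro c hc hb
  obtain ⟨c', h3, h4⟩ := h c (sp_mono (fun w hw => ⟨hQ w hw.1, hw.2⟩) hc) hb
  refine ⟨mp ρ c', sp_map _ _ (fun w hw => ?_) h3, ?_⟩
  · rw [mp_wd]
    exact wd_mem ⟨h1 w hw.1, by rw [List.length_map, hw.2]⟩
  · rw [bd_mp, h4]
    exact sp_ext (ψ := LinearMap.id) (fun w hw => by rw [mp_wd, h2 w hw.1]; rfl) hc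

end

end Pool.Agent.Lib.MP_446a91_nt.Rk
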