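import Pool.Agent.Lib.MP_446a91_nt.Rk.Ht

/-!
Subdivision of variable depth. With `D n = ∑_(k<n) P s^k` one has `bd D n + D n bd = 1 - s^n`;
`E w = D (m w) (j w)`; `vary = mp j - bd E - E bd` (use `m u ≤ m w` for the faces `u` of `w`).
-/

namespace Pool.Agent.Lib.MP_446a91_nt.Rk

open Matrix Filter Topology Pool.Agent.Lib.MP_446a91_nt.Sou

set_option linter.unusedSectionVars false

noncomputable section

variable {A : Type} [CommRing A] {X Y : Type} {G : Type} [Group G] [MulAction G X] [MulAction G Y]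


theorem vary_wd (j : X → Y) (s P : Ch A Y →ₗ[A] Ch A Y) (m : List X → ℕ) (w : List X) :
    vary j s P m (wd w) = (s ^ m w) (wd (w.map j)) +
      lin A (fun u => ∑ k ∈ Finset.Ico (m u) (m w), P ((s ^ k) (wd (u.map j)))) (dW w) :=
  lin_wd _ _

theorem vary_sum {s P : Ch A Y →ₗ[A] Ch A Y} (hs : CMap G s)
    (hP : ∀ c, bd (P c) + P (bd c) = c - s c) (n : ℕ) (c : Ch A Y) :
    bd (∑ k ∈ Finset.range n, P ((s ^ k) c)) + ∑ k ∈ Finset.range n, P ((s ^ k) (bd c)) =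
      c - (s ^ n) c := by
  induction n with
  | zero => simp
  | succ n ih =>
    have := hP ((s ^ n) c)
    rw [(hs.pow n).comm] at this
    rw [Finset.sum_range_succ, Finset.sum_range_succ, map_add, add_add_add_comm, ih, this,
      pow_succ', Module.End.mul_apply, sub_add_sub_cancel]

theorem vary_eq (j : X → Y) {s P : Ch A Y →ₗ[A] Ch A Y} (hs : CMap G s)
    (hP : ∀ c, bd (P c) + P (bd c) = c - s c) {m : List X → ℕ}
    (hm : ∀ u w, List.Sublist u w → m u ≤ m w) :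
    ∃ E : Ch A X →ₗ[A] Ch A Y, ∀ c, vary j s P m c = mp j c - bd (E c) - E (bd c) := by
  refine ⟨lin A fun w => ∑ k ∈ Finset.range (m w), P ((s ^ k) (wd (w.map j))), fun c => ?_⟩
  refine ch_ext' (ψ := mp j - bd ∘ₗ lin A _ - lin A _ ∘ₗ bd) (fun w => ?_) c
  have h1 := vary_sum hs hP (m w) (wd (w.map j))
  have h2 : lin A (fun u : List X => ∑ k ∈ Finset.range (m w), P ((s ^ k) (wd (u.map j)))) (dW w) =
      ∑ k ∈ Finset.range (m w), P ((s ^ k) (bd (wd (w.map j)))) := by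
    rw [lin_sum, bd_wd, ← mp_dW]
    exact Finset.sum_congr rfl fun k _ =>
      ch_ext' (ψ := P ∘ₗ (s ^ k) ∘ₗ mp j) (fun u => by simp) _
  rw [vary_wd, lin_congr (fun u hu => Finset.sum_Ico_eq_sub _ (hm u w hu.1)) (dW_mem_sublist w),
    lin_sub, h2, eq_sub_of_add_eq' h1]
  simp only [LinearMap.sub_apply, LinearMap.comp_apply, mp_wd, lin_wd, bd_wd]
  abel

theorem vary_cmap' {j : X → Y} (hj : ∀ (g : G) x, j (g • x) = g • j x)
    {s P : Ch A Y →ₗ[A] Ch A Y} (hs : CMap G s) (hP : ∀ c, bd (P c) + P (bd c) = c - s c)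
    (hl : ∀ w : List Y, P (wd w) ∈ len A Y (w.length + 1))
    (he : ∀ (g : G) (w : List Y), P (wd (w.map (g • ·))) = mp (g • ·) (P (wd w)))
    {m : List X → ℕ} (hm : ∀ u w, List.Sublist u w → m u ≤ m w)
    (hm' : ∀ (g : G) w, m (w.map (g • ·)) = m w) : CMap G (vary j s P m) := by
  have hl' : ∀ n, ∀ c ∈ len A Y n, P c ∈ len A Y (n + 1) :=
    fun n c hc => sp_map P _ (fun w hw => by rw [← hw]; exact hl w) hc
  have he' : ∀ (g : G) c, P (mp (g • ·) c) = mp (g • ·) (P c) := fun g c =>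
    ch_ext' (φ := P ∘ₗ mp (g • ·)) (ψ := mp (g • ·) ∘ₗ P) (fun w => by simpa using he g w) c
  have hw : ∀ (g : G) (k : ℕ) (w : List X), (s ^ k) (wd ((w.map (g • ·)).map j)) =
      mp (g • ·) ((s ^ k) (wd (w.map j))) := fun g k w => by
    rw [← (hs.pow k).eqv]
    simp [Function.comp_def, hj]
  obtain ⟨E, hE⟩ := vary_eq j hs hP hm
  refine ⟨fun c => by simp [hE, bd_mp], by simp [vary_wd, (hs.pow _).nil], fun w => ?_,
    fun g w => ?_⟩
  · rw [vary_wd]
    refine add_mem ((hs.pow _).mem_len (wd_mem (by simp)))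
      (sp_map _ _ (fun u hu => ?_) (dW_mem_sublist w))
    rw [lin_wd, ← hu.2]
    exact Submodule.sum_mem _ fun k _ => hl' _ _ ((hs.pow k).mem_len (wd_mem (by simp)))
  · rw [vary_wd, vary_wd, map_add, hm', hw, ← mp_dW, lin_mp, map_lin]
    simp only [hm', hw, he', map_sum]

theorem vary_cmap {j : X → Y} (hj : ∀ (g : G) x, j (g • x) = g • j x) {s : Ch A Y →ₗ[A] Ch A Y}
    (hs : CMap G s) {m : List X → ℕ} (hm : ∀ u w, List.Sublist u w → m u ≤ m w)
    (hm' : ∀ (g : G) w, m (w.map (g • ·)) = m w) :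
    CMap G (vary j s (ht id (LinearMap.id - s)) m) :=
  have h1 : ∀ c : Ch A Y, bd ((LinearMap.id - s : Ch A Y →ₗ[A] Ch A Y) c) =
      (LinearMap.id - s : Ch A Y →ₗ[A] Ch A Y) (bd c) := fun c => by
    rw [LinearMap.sub_apply, LinearMap.sub_apply, map_sub, hs.comm]; rfl
  have h2 : (LinearMap.id - s : Ch A Y →ₗ[A] Ch A Y) (wd []) = 0 := by
    rw [LinearMap.sub_apply, hs.nil]; exact sub_self _
  have h3 : ∀ u : List Y, (LinearMap.id - s : Ch A Y →ₗ[A] Ch A Y) (wd u) ∈ len A Y u.length :=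
    fun u => by rw [LinearMap.sub_apply]; exact sub_mem (wd_mem rfl) (hs.lng u)
  have h4 : ∀ (g : G) (u : List Y), (LinearMap.id - s : Ch A Y →ₗ[A] Ch A Y) (wd (u.map (g • ·))) =
      mp (g • ·) ((LinearMap.id - s : Ch A Y →ₗ[A] Ch A Y) (wd u)) := fun g u => by
    simp only [LinearMap.sub_apply, LinearMap.id_apply, map_sub, mp_wd, hs.eqv]
  vary_cmap' hj hs (bd_ht id h1 h2) (ht_len id h3) (ht_eqv (fun _ _ => rfl) h4) hm hm'

theorem vary_mem (j : X → Y) (s P : Ch A Y →ₗ[A] Ch A Y) (m : List X → ℕ) (U : Submodule A (Ch A Y))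
    (h : ∀ w k, m w ≤ k → (s ^ k) (wd (w.map j)) ∈ U ∧ P ((s ^ k) (wd (w.map j))) ∈ U)
    (w : List X) : vary j s P m (wd w) ∈ U := by
  rw [vary_wd]
  refine add_mem (h w _ le_rfl).1 (sp_map _ _ (fun u _ => ?_) (mem_sp_top _))
  rw [lin_wd]
  exact Submodule.sum_mem _ fun k hk => (h u k (Finset.mem_Ico.1 hk).1).2

theorem vary_n1 (j : X → Y) (s P : Ch ℝ Y →ₗ[ℝ] Ch ℝ Y) (m : List X → ℕ) (w : List X) {a b : ℝ}
    (hb : 0 ≤ b) (h1 : n1 ((s ^ m w) (wd (w.map j))) ≤ a)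
    (h2 : ∀ u : List X, u.length + 1 = w.length →
      ∑ k ∈ Finset.range (m w), n1 (P ((s ^ k) (wd (u.map j)))) ≤ b) :
    n1 (vary j s P m (wd w)) ≤ a + w.length * b := by
  rw [vary_wd]
  refine (n1_add_le _ _).trans (add_le_add h1 ((n1_lin_le (B := b) (fun u hu => ?_)
    (dW_mem_sublist w)).trans ?_))
  · refine (n1_sum_le _ _).trans (le_trans ?_ (h2 u hu.2))
    exact Finset.sum_le_sum_of_subset_of_nonneg
      (fun k hk => Finset.mem_range.2 (Finset.mem_Ico.1 hk).2) fun _ _ _ => n1_nonneg _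
  · rw [mul_comm]
    exact mul_le_mul_of_nonneg_right (n1_dW_le w) hb

end

end Pool.Agent.Lib.MP_446a91_nt.Rk
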